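import Mathlib

set_option linter.unusedSimpArgs false

namespace Pool.Agent.Helper62.Skein

/-- The four elementary pieces of a sliced link diagram. `pos` is the crossing of two upward
strands in which the strand from bottom left to top right is the over strand. -/
inductive Piece where
  | cup
  | cap
  | pos
  | neg

/-- number of strands entering a piece from below -/
def Piece.low : Piece → ℕ
  | .cup => 0
  | _ => 2

/-- number of strands leaving a piece at the top -/
def Piece.high : Piece → ℕ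
  | .cap => 0
  | _ => 2

/-- `(k, p)` is the level consisting of `k` vertical strands, then the piece `p`, then further
vertical strands. `width n w` is the number of strands above the word `w` (read from bottom to top)
when `n` strands enter it from below, and `none` if some piece does not fit. -/
def width : ℕ → List (ℕ × Piece) → Option ℕ
  | n, [] => some n
  | n, (k, p) :: w => if k + p.low ≤ n then width (n - p.low + p.high) w else none

/-- Sliced link diagrams: words without strands at the bottom and at the top. -/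
def Diagram := {w : List (ℕ × Piece) // width 0 w = some 0}

/-- The local moves for framed unoriented links (blackboard framing). -/
inductive Move : List (ℕ × Piece) → List (ℕ × Piece) → Prop
  | exchange (k l : ℕ) (p q : Piece) : k + p.high ≤ l →
      Move [(k, p), (l, q)] [(l - p.high + p.low, q), (k, p)]
  | zigzagR (k : ℕ) : Move [(k, .cup), (k + 1, .cap)] []
  | zigzagL (k : ℕ) : Move [(k + 1, .cup), (k, .cap)] []
  | cupSlidePos (k : ℕ) : Move [(k, .cup), (k + 1, .pos)] [(k + 1, .cup), (k, .neg)]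
  | cupSlideNeg (k : ℕ) : Move [(k, .cup), (k + 1, .neg)] [(k + 1, .cup), (k, .pos)]
  | capSlidePos (k : ℕ) : Move [(k + 1, .pos), (k, .cap)] [(k, .neg), (k + 1, .cap)]
  | capSlideNeg (k : ℕ) : Move [(k + 1, .neg), (k, .cap)] [(k, .pos), (k + 1, .cap)]
  | curlPos (k : ℕ) : Move [(k + 1, .cup), (k, .pos), (k + 1, .cap)]
      [(k, .cup), (k + 1, .pos), (k, .cap)]
  | curlNeg (k : ℕ) : Move [(k + 1, .cup), (k, .neg), (k + 1, .cap)]
      [(k, .cup), (k + 1, .neg), (k, .cap)]
  | r2PosNeg (k : ℕ) : Move [(k, .pos), (k, .neg)] []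
  | r2NegPos (k : ℕ) : Move [(k, .neg), (k, .pos)] []
  | r3 (k : ℕ) : Move [(k, .pos), (k + 1, .pos), (k, .pos)] [(k + 1, .pos), (k, .pos), (k + 1, .pos)]

/-- Two diagrams are related if one local move, applied somewhere inside, changes the first
into the second. -/
def Step (D E : Diagram) : Prop :=
  ∃ A B X Y : List (ℕ × Piece), Move X Y ∧ D.1 = A ++ X ++ B ∧ E.1 = A ++ Y ++ B

/-- Isotopy classes of framed unoriented links in the 3-sphere: diagrams modulo the equivalence
relation generated by the local moves. -/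
def FramedLink := Quot Step

/-- The framed link with a given diagram. -/
def mkLink (w : List (ℕ × Piece)) (h : width 0 w = some 0) : FramedLink := Quot.mk Step ⟨w, h⟩

section Skein

variable (R : Type*) [CommRing R]

open Classical in
/-- The basis element of the free module on framed links given by the word `w`
(zero if `w` is not a link diagram). -/
noncomputable def link (w : List (ℕ × Piece)) : FramedLink →₀ R :=
  if h : width 0 w = some 0 then Finsupp.single (mkLink w h) 1 else 0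

/-- The submodule generated by the (4,infinity) skein relations and the framing relations. -/
noncomputable def relations (a b0 b3 : Rˣ) (b1 b2 bi : R) : Submodule R (FramedLink →₀ R) :=
  Submodule.span R
    ({x | ∃ (A B : List (ℕ × Piece)) (n k : ℕ), width 0 A = some n ∧ width n B = some 0 ∧
        k + 2 ≤ n ∧
        x = (b0 : R) • link R (A ++ B)
          + b1 • link R (A ++ [(k, .pos)] ++ B)
          + b2 • link R (A ++ [(k, .pos), (k, .pos)] ++ B)
          + (b3 : R) • link R (A ++ [(k, .pos), (k, .pos), (k, .pos)] ++ B)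
          + bi • link R (A ++ [(k, .cap), (k, .cup)] ++ B)} ∪
     {x | ∃ (A B : List (ℕ × Piece)) (n k : ℕ), width 0 A = some n ∧ width n B = some 0 ∧
        k + 1 ≤ n ∧
        x = link R (A ++ [(k + 1, .cup), (k, .pos), (k + 1, .cap)] ++ B)
          - (a : R) • link R (A ++ B)})

/-- The (4,infinity) skein module of the 3-sphere. -/
abbrev SkeinModule (a b0 b3 : Rˣ) (b1 b2 bi : R) : Type _ :=
  (FramedLink →₀ R) ⧸ relations R a b0 b3 b1 b2 bi

/-- The standard diagram of the trivial link with `i` components. -/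
def trivialLink (i : ℕ) : List (ℕ × Piece) :=
  (List.replicate i [((0 : ℕ), Piece.cup), (0, Piece.cap)]).flatten

end Skein

/-! ### Elementary lemmas -/

theorem width_append (n : ℕ) (A B : List (ℕ × Piece)) :
    width n (A ++ B) = (width n A).bind fun m => width m B := by
  induction A generalizing n with
  | nil => rfl
  | cons s A ih =>
    obtain ⟨k, p⟩ := s
    simp only [List.cons_append, width]
    split_ifs with h
    · exact ih _
    · rfl

section Module

variable {R : Type*} [CommRing R] (a b0 b3 : Rˣ) (b1 b2 bi : R)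

/-- class of a word in the skein module -/
noncomputable def c (w : List (ℕ × Piece)) : SkeinModule R a b0 b3 b1 b2 bi :=
  (relations R a b0 b3 b1 b2 bi).mkQ (link R w)

variable {a b0 b3 b1 b2 bi}

theorem c_step {A B X Y : List (ℕ × Piece)} (hm : Move X Y)
    (h1 : width 0 (A ++ X ++ B) = some 0) (h2 : width 0 (A ++ Y ++ B) = some 0) :
    c a b0 b3 b1 b2 bi (A ++ X ++ B) = c a b0 b3 b1 b2 bi (A ++ Y ++ B) := by
  unfold c link
  rw [dif_pos h1, dif_pos h2]
  have : mkLink (A ++ X ++ B) h1 = mkLink (A ++ Y ++ B) h2 :=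
    Quot.sound ⟨A, B, X, Y, hm, rfl, rfl⟩
  rw [this]

/-- A move may be applied to a part of a word that starts a diagram. -/
theorem c_move {A X Y : List (ℕ × Piece)} (hm : Move X Y) {n m : ℕ} {B : List (ℕ × Piece)}
    (hA : width 0 A = some n) (hX : width n X = some m) (hY : width n Y = some m)
    (hB : width m B = some 0) :
    c a b0 b3 b1 b2 bi (A ++ (X ++ B)) = c a b0 b3 b1 b2 bi (A ++ (Y ++ B)) := by
  have h1 : width 0 (A ++ X ++ B) = some 0 := by
    rw [width_append, width_append, hA]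
    simp [hX, hB]
  have h2 : width 0 (A ++ Y ++ B) = some 0 := by
    rw [width_append, width_append, hA]
    simp [hY, hB]
  have := c_step (a := a) (b0 := b0) (b3 := b3) (b1 := b1) (b2 := b2) (bi := bi) hm h1 h2
  simpa [List.append_assoc] using this

theorem c_skein {A B : List (ℕ × Piece)} {n : ℕ} (k : ℕ) (hA : width 0 A = some n)
    (hB : width n B = some 0) (hk : k + 2 ≤ n) :
    (b0 : R) • c a b0 b3 b1 b2 bi (A ++ B)
      + b1 • c a b0 b3 b1 b2 bi (A ++ ([(k, Piece.pos)] ++ B))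
      + b2 • c a b0 b3 b1 b2 bi (A ++ ([(k, Piece.pos), (k, Piece.pos)] ++ B))
      + (b3 : R) • c a b0 b3 b1 b2 bi (A ++ ([(k, Piece.pos), (k, Piece.pos), (k, Piece.pos)] ++ B))
      + bi • c a b0 b3 b1 b2 bi (A ++ ([(k, Piece.cap), (k, Piece.cup)] ++ B)) = 0 := by
  unfold c
  simp only [← map_smul, ← map_add]
  rw [Submodule.mkQ_apply, Submodule.Quotient.mk_eq_zero]
  apply Submodule.subset_span
  left
  exact ⟨A, B, n, k, hA, hB, hk, by simp [List.append_assoc]⟩

theorem c_curl {A B : List (ℕ × Piece)} {n : ℕ} (k : ℕ) (hA : width 0 A = some n)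
    (hB : width n B = some 0) (hk : k + 1 ≤ n) :
    c a b0 b3 b1 b2 bi (A ++ ([(k + 1, Piece.cup), (k, Piece.pos), (k + 1, Piece.cap)] ++ B))
      = (a : R) • c a b0 b3 b1 b2 bi (A ++ B) := by
  rw [← sub_eq_zero]
  unfold c
  simp only [← map_smul, ← map_sub]
  rw [Submodule.mkQ_apply, Submodule.Quotient.mk_eq_zero]
  apply Submodule.subset_span
  right
  exact ⟨A, B, n, k, hA, hB, hk, by simp [List.append_assoc]⟩

/-- negative crossing on top of a local minimum -/
theorem kink_cup {A B : List (ℕ × Piece)} {n : ℕ} (k : ℕ) (hA : width 0 A = some n)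
    (hk : k ≤ n) (hB : width (n + 2) B = some 0) :
    c a b0 b3 b1 b2 bi (A ++ ([(k, Piece.cup), (k, Piece.neg)] ++ B))
      = (a : R) • c a b0 b3 b1 b2 bi (A ++ ([(k, Piece.cup)] ++ B)) := by
  have hA1 : width 0 (A ++ [(k, Piece.cup)]) = some (n + 2) := by
    rw [width_append, hA]; simp [width, Piece.low, Piece.high, hk]
  -- insert a zigzag
  have e1 := c_move (a := a) (b0 := b0) (b3 := b3) (b1 := b1) (b2 := b2) (bi := bi)
    (A := A ++ [(k, Piece.cup), (k, Piece.neg)]) (Move.zigzagL (k + 1)) (n := n + 2) (m := n + 2) (B := B)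
    (by rw [width_append, hA]; simp [width, Piece.low, Piece.high, hk])
    (by simp [width, Piece.low, Piece.high]; omega) (by simp [width]) hB
  have e2 := c_move (a := a) (b0 := b0) (b3 := b3) (b1 := b1) (b2 := b2) (bi := bi)
    (A := A ++ [(k, Piece.cup)]) (Move.exchange k (k + 2) Piece.neg Piece.cup (by simp [Piece.high]))
    (n := n + 2) (m := n + 4) (B := [(k + 1, Piece.cap)] ++ B) hA1
    (by simp [width, Piece.low, Piece.high]; omega)
    (by simp [width, Piece.low, Piece.high]; omega)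
    (by simp [width, Piece.low, Piece.high, hB]; try omega)
  have e3 := c_move (a := a) (b0 := b0) (b3 := b3) (b1 := b1) (b2 := b2) (bi := bi)
    (A := A ++ [(k, Piece.cup), (k + 2, Piece.cup)]) (Move.capSlidePos k)
    (n := n + 4) (m := n + 2) (B := B)
    (by rw [width_append, hA]; simp [width, Piece.low, Piece.high, hk])
    (by simp [width, Piece.low, Piece.high]; omega)
    (by simp [width, Piece.low, Piece.high]; omega) hB
  have e4 := c_move (a := a) (b0 := b0) (b3 := b3) (b1 := b1) (b2 := b2) (bi := bi)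
    (A := A) (Move.exchange k (k + 2) Piece.cup Piece.cup (by simp [Piece.high]))
    (n := n) (m := n + 4) (B := [(k + 1, Piece.pos), (k, Piece.cap)] ++ B) hA
    (by simp [width, Piece.low, Piece.high]; omega)
    (by simp [width, Piece.low, Piece.high]; omega)
    (by simp [width, Piece.low, Piece.high, hB]; try omega)
  have e5 := c_move (a := a) (b0 := b0) (b3 := b3) (b1 := b1) (b2 := b2) (bi := bi)
    (A := A ++ [(k, Piece.cup)]) (Move.curlPos k)
    (n := n + 2) (m := n + 2) (B := B) hA1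
    (by simp [width, Piece.low, Piece.high]; omega)
    (by simp [width, Piece.low, Piece.high]; omega) hB
  have e6 := c_curl (a := a) (b0 := b0) (b3 := b3) (b1 := b1) (b2 := b2) (bi := bi)
    (A := A ++ [(k, Piece.cup)]) (B := B) (n := n + 2) k hA1 hB (by omega)
  simp only [List.append_assoc, List.cons_append, List.nil_append, Piece.low, Piece.high,
    Nat.add_sub_cancel, Nat.add_zero] at e1 e2 e3 e4 e5 e6 ⊢
  rw [← e1, e2, ← e3, e4, ← e5, e6]

/-- negative crossing below a local maximum -/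
theorem kink_cap {A B : List (ℕ × Piece)} {n : ℕ} (k : ℕ) (hA : width 0 A = some (n + 2))
    (hk : k ≤ n) (hB : width n B = some 0) :
    c a b0 b3 b1 b2 bi (A ++ ([(k, Piece.neg), (k, Piece.cap)] ++ B))
      = (a : R) • c a b0 b3 b1 b2 bi (A ++ ([(k, Piece.cap)] ++ B)) := by
  have hB1 : width (n + 2) ([(k, Piece.cap)] ++ B) = some 0 := by
    simp [width, Piece.low, Piece.high, hB, hk]
  have e1 := c_move (a := a) (b0 := b0) (b3 := b3) (b1 := b1) (b2 := b2) (bi := bi)
    (A := A) (Move.zigzagR (k + 1)) (n := n + 2) (m := n + 2) (B := [(k, Piece.neg), (k, Piece.cap)] ++ B)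
    hA
    (by simp [width, Piece.low, Piece.high]; omega) (by simp [width])
    (by simp [width, Piece.low, Piece.high, hB, hk])
  have e2 := c_move (a := a) (b0 := b0) (b3 := b3) (b1 := b1) (b2 := b2) (bi := bi)
    (A := A ++ [(k + 1, Piece.cup)]) (Move.exchange k (k + 2) Piece.neg Piece.cap (by simp [Piece.high]))
    (n := n + 4) (m := n + 2) (B := [(k, Piece.cap)] ++ B)
    (by rw [width_append, hA]; simp [width, Piece.low, Piece.high]; omega)
    (by simp [width, Piece.low, Piece.high]; omega)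
    (by simp [width, Piece.low, Piece.high]; omega) hB1
  have e3 := c_move (a := a) (b0 := b0) (b3 := b3) (b1 := b1) (b2 := b2) (bi := bi)
    (A := A) (Move.cupSlidePos k)
    (n := n + 2) (m := n + 4) (B := [(k + 2, Piece.cap), (k, Piece.cap)] ++ B) hA
    (by simp [width, Piece.low, Piece.high]; omega)
    (by simp [width, Piece.low, Piece.high]; omega)
    (by simp [width, Piece.low, Piece.high, hB, hk])
  have e4 := c_move (a := a) (b0 := b0) (b3 := b3) (b1 := b1) (b2 := b2) (bi := bi)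
    (A := A ++ [(k, Piece.cup), (k + 1, Piece.pos)]) (Move.exchange k k Piece.cap Piece.cap (by simp [Piece.high]))
    (n := n + 4) (m := n) (B := B)
    (by rw [width_append, hA]; simp [width, Piece.low, Piece.high]; omega)
    (by simp [width, Piece.low, Piece.high]; omega)
    (by simp [width, Piece.low, Piece.high]; omega) hB
  have e5 := c_move (a := a) (b0 := b0) (b3 := b3) (b1 := b1) (b2 := b2) (bi := bi)
    (A := A) (Move.curlPos k)
    (n := n + 2) (m := n + 2) (B := [(k, Piece.cap)] ++ B) hA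
    (by simp [width, Piece.low, Piece.high]; omega)
    (by simp [width, Piece.low, Piece.high]; omega) hB1
  have e6 := c_curl (a := a) (b0 := b0) (b3 := b3) (b1 := b1) (b2 := b2) (bi := bi)
    (A := A) (B := [(k, Piece.cap)] ++ B) (n := n + 2) k hA hB1 (by omega)
  simp only [List.append_assoc, List.cons_append, List.nil_append, Piece.low, Piece.high,
    Nat.add_sub_cancel, Nat.add_zero, Nat.sub_zero] at e1 e2 e3 e4 e5 e6 ⊢
  rw [← e1, ← e2, ← e3, ← e4, ← e5, e6]

/-! ### Tangles with four end points. `Φ w` is the class of `w` closed by `B`. -/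

variable {B : List (ℕ × Piece)}

theorem nested_cups (hB : width 4 B = some 0) :
    c a b0 b3 b1 b2 bi ([(0, Piece.cup), (0, Piece.cup)] ++ B)
      = c a b0 b3 b1 b2 bi ([(0, Piece.cup), (2, Piece.cup)] ++ B) :=
  (c_move (A := []) (Move.exchange 0 2 Piece.cup Piece.cup (by simp [Piece.high])) (n := 0) (m := 4) rfl
    rfl rfl hB).symm

theorem ep_eq (hB : width 4 B = some 0) :
    c a b0 b3 b1 b2 bi ([(0, Piece.cup), (1, Piece.cup), (0, Piece.pos)] ++ B)
      = c a b0 b3 b1 b2 bi ([(0, Piece.cup), (2, Piece.cup), (1, Piece.neg)] ++ B) := by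
  have e1 := c_move (a := a) (b0 := b0) (b3 := b3) (b1 := b1) (b2 := b2) (bi := bi)
    (A := [(0, Piece.cup)]) (Move.cupSlideNeg 0) (n := 2) (m := 4) (B := B) rfl rfl rfl hB
  have e2 := nested_cups (a := a) (b0 := b0) (b3 := b3) (b1 := b1) (b2 := b2) (bi := bi)
    (B := [(1, Piece.neg)] ++ B) hB
  exact e1.symm.trans e2

theorem em_eq (hB : width 4 B = some 0) :
    c a b0 b3 b1 b2 bi ([(0, Piece.cup), (1, Piece.cup), (0, Piece.neg)] ++ B)
      = c a b0 b3 b1 b2 bi ([(0, Piece.cup), (2, Piece.cup), (1, Piece.pos)] ++ B) := by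
  have e1 := c_move (a := a) (b0 := b0) (b3 := b3) (b1 := b1) (b2 := b2) (bi := bi)
    (A := [(0, Piece.cup)]) (Move.cupSlidePos 0) (n := 2) (m := 4) (B := B) rfl rfl rfl hB
  have e2 := nested_cups (a := a) (b0 := b0) (b3 := b3) (b1 := b1) (b2 := b2) (bi := bi)
    (B := [(1, Piece.pos)] ++ B) hB
  exact e1.symm.trans e2

theorem r2_np {A : List (ℕ × Piece)} {n : ℕ} (k : ℕ) (hA : width 0 A = some n) (hk : k + 2 ≤ n)
    (hB : width n B = some 0) :
    c a b0 b3 b1 b2 bi (A ++ ([(k, Piece.neg), (k, Piece.pos)] ++ B))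
      = c a b0 b3 b1 b2 bi (A ++ B) :=
  c_move (Move.r2NegPos k) (n := n) (m := n) hA
    (by simp [width, Piece.low, Piece.high]; omega) rfl hB

theorem r2_pn {A : List (ℕ × Piece)} {n : ℕ} (k : ℕ) (hA : width 0 A = some n) (hk : k + 2 ≤ n)
    (hB : width n B = some 0) :
    c a b0 b3 b1 b2 bi (A ++ ([(k, Piece.pos), (k, Piece.neg)] ++ B))
      = c a b0 b3 b1 b2 bi (A ++ B) :=
  c_move (Move.r2PosNeg k) (n := n) (m := n) hA
    (by simp [width, Piece.low, Piece.high]; omega) rfl hB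

/-- positive crossing on top of the left of two adjacent cups -/
theorem v_pos (hB : width 4 B = some 0) :
    (a : R) • c a b0 b3 b1 b2 bi ([(0, Piece.cup), (2, Piece.cup), (0, Piece.pos)] ++ B)
      = c a b0 b3 b1 b2 bi ([(0, Piece.cup), (2, Piece.cup)] ++ B) := by
  have e1 := c_move (a := a) (b0 := b0) (b3 := b3) (b1 := b1) (b2 := b2) (bi := bi)
    (A := [(0, Piece.cup)]) (Move.exchange 0 2 Piece.pos Piece.cup (by simp [Piece.high])) (n := 2) (m := 4)
    (B := B) rfl rfl rfl hB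
  have e2 := kink_cup (a := a) (b0 := b0) (b3 := b3) (b1 := b1) (b2 := b2) (bi := bi)
    (A := []) (B := [(0, Piece.pos), (2, Piece.cup)] ++ B) (n := 0) 0 rfl (by omega)
    (by simpa [width, Piece.low, Piece.high] using hB)
  have e3 := r2_np (a := a) (b0 := b0) (b3 := b3) (b1 := b1) (b2 := b2) (bi := bi)
    (A := [(0, Piece.cup)]) (B := [(2, Piece.cup)] ++ B) (n := 2) 0 rfl (by omega)
    (by simpa [width, Piece.low, Piece.high] using hB)
  simp only [List.append_assoc, List.cons_append, List.nil_append, Piece.low, Piece.high,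
    Nat.add_sub_cancel, Nat.add_zero, Nat.zero_add, Nat.sub_zero, Nat.sub_self]
    at e1 e2 e3 ⊢
  rw [← e1, ← e2, e3]

/-- positive crossing on top of the inner one of two nested cups -/
theorem e0_pos (hB : width 4 B = some 0) :
    (a : R) • c a b0 b3 b1 b2 bi ([(0, Piece.cup), (1, Piece.cup), (1, Piece.pos)] ++ B)
      = c a b0 b3 b1 b2 bi ([(0, Piece.cup), (1, Piece.cup)] ++ B) := by
  have e2 := kink_cup (a := a) (b0 := b0) (b3 := b3) (b1 := b1) (b2 := b2) (bi := bi)
    (A := [(0, Piece.cup)]) (B := [(1, Piece.pos)] ++ B) (n := 2) 1 rfl (by omega) hB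
  have e3 := r2_np (a := a) (b0 := b0) (b3 := b3) (b1 := b1) (b2 := b2) (bi := bi)
    (A := [(0, Piece.cup), (1, Piece.cup)]) (B := B) (n := 4) 1 rfl (by omega) hB
  simp only [List.append_assoc, List.cons_append, List.nil_append] at e2 e3 ⊢
  rw [← e2, e3]

/-- The isotopy `σ_v e_2 = e_{-2}` (up to framing). -/
theorem key (hB : width 4 B = some 0) :
    (a : R) • c a b0 b3 b1 b2 bi ([(0, Piece.cup), (1, Piece.cup), (0, Piece.pos), (0, Piece.pos), (1, Piece.pos)] ++ B)
      = c a b0 b3 b1 b2 bi ([(0, Piece.cup), (1, Piece.cup), (0, Piece.neg), (0, Piece.neg)] ++ B) := by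
  have e1 := ep_eq (a := a) (b0 := b0) (b3 := b3) (b1 := b1) (b2 := b2) (bi := bi)
    (B := [(0, Piece.pos), (1, Piece.pos)] ++ B) hB
  have e2 := r2_pn (a := a) (b0 := b0) (b3 := b3) (b1 := b1) (b2 := b2) (bi := bi)
    (A := [(0, Piece.cup), (2, Piece.cup), (1, Piece.neg), (0, Piece.pos), (1, Piece.pos)]) (B := B) (n := 4) 0 rfl
    (by omega) hB
  have e3 := c_move (a := a) (b0 := b0) (b3 := b3) (b1 := b1) (b2 := b2) (bi := bi)
    (A := [(0, Piece.cup), (2, Piece.cup), (1, Piece.neg)]) (Move.r3 0) (n := 4) (m := 4)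
    (B := [(0, Piece.neg)] ++ B) rfl rfl rfl hB
  have e4 := r2_np (a := a) (b0 := b0) (b3 := b3) (b1 := b1) (b2 := b2) (bi := bi)
    (A := [(0, Piece.cup), (2, Piece.cup)]) (B := [(0, Piece.pos), (1, Piece.pos), (0, Piece.neg)] ++ B) (n := 4) 1 rfl
    (by omega) hB
  have e5 := v_pos (a := a) (b0 := b0) (b3 := b3) (b1 := b1) (b2 := b2) (bi := bi)
    (B := [(1, Piece.pos), (0, Piece.neg)] ++ B) hB
  have e6 := em_eq (a := a) (b0 := b0) (b3 := b3) (b1 := b1) (b2 := b2) (bi := bi)
    (B := [(0, Piece.neg)] ++ B) hB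
  simp only [List.append_assoc, List.cons_append, List.nil_append, Nat.zero_add]
    at e1 e2 e3 e4 e5 e6 ⊢
  rw [e1, ← e2, e3, e4, e5, e6]

/-- The skein relation, shifted by one twist. -/
theorem shift (hB : width 4 B = some 0) :
    (b0 : R) • c a b0 b3 b1 b2 bi ([(0, Piece.cup), (1, Piece.cup), (0, Piece.neg)] ++ B)
      + b1 • c a b0 b3 b1 b2 bi ([(0, Piece.cup), (1, Piece.cup)] ++ B)
      + b2 • c a b0 b3 b1 b2 bi ([(0, Piece.cup), (1, Piece.cup), (0, Piece.pos)] ++ B)
      + (b3 : R) • c a b0 b3 b1 b2 bi ([(0, Piece.cup), (1, Piece.cup), (0, Piece.pos), (0, Piece.pos)] ++ B)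
      + (bi * a) • c a b0 b3 b1 b2 bi ([(0, Piece.cup), (2, Piece.cup)] ++ B) = 0 := by
  have s := c_skein (a := a) (b0 := b0) (b3 := b3) (b1 := b1) (b2 := b2) (bi := bi)
    (A := [(0, Piece.cup), (1, Piece.cup), (0, Piece.neg)]) (B := B) (n := 4) 0 rfl hB (by omega)
  have e1 := r2_np (a := a) (b0 := b0) (b3 := b3) (b1 := b1) (b2 := b2) (bi := bi)
    (A := [(0, Piece.cup), (1, Piece.cup)]) (B := B) (n := 4) 0 rfl (by omega) hB
  have e2 := r2_np (a := a) (b0 := b0) (b3 := b3) (b1 := b1) (b2 := b2) (bi := bi)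
    (A := [(0, Piece.cup), (1, Piece.cup)]) (B := [(0, Piece.pos)] ++ B) (n := 4) 0 rfl (by omega) hB
  have e3 := r2_np (a := a) (b0 := b0) (b3 := b3) (b1 := b1) (b2 := b2) (bi := bi)
    (A := [(0, Piece.cup), (1, Piece.cup)]) (B := [(0, Piece.pos), (0, Piece.pos)] ++ B) (n := 4) 0 rfl
    (by omega) hB
  have e4 := kink_cap (a := a) (b0 := b0) (b3 := b3) (b1 := b1) (b2 := b2) (bi := bi)
    (A := [(0, Piece.cup), (1, Piece.cup)]) (B := [(0, Piece.cup)] ++ B) (n := 2) 0 rfl (by omega)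
    (by simpa [width, Piece.low, Piece.high] using hB)
  have e5 := c_move (a := a) (b0 := b0) (b3 := b3) (b1 := b1) (b2 := b2) (bi := bi)
    (A := [(0, Piece.cup)]) (Move.zigzagL 0) (n := 2) (m := 2) (B := [(0, Piece.cup)] ++ B) rfl rfl rfl
    (by simpa [width, Piece.low, Piece.high] using hB)
  have e6 := nested_cups (a := a) (b0 := b0) (b3 := b3) (b1 := b1) (b2 := b2) (bi := bi) hB
  simp only [List.append_assoc, List.cons_append, List.nil_append, Nat.zero_add]
    at s e1 e2 e3 e4 e5 e6 ⊢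
  rw [e1, e2, e3, e4, e5, e6, smul_smul] at s
  exact s

/-- A linear relation between the four elementary tangles, valid in every context `B`. -/
theorem rel1 (hB : width 4 B = some 0) :
    ((a : R) * b0 ^ 3 + b3 ^ 3) •
        c a b0 b3 b1 b2 bi ([(0, Piece.cup), (1, Piece.cup), (0, Piece.pos)] ++ B)
      + ((a : R) * b0 ^ 2 * b1 - a * b0 * b2 * b3 + a ^ 2 * bi * b3 ^ 2) •
        c a b0 b3 b1 b2 bi ([(0, Piece.cup), (2, Piece.cup)] ++ B)
      + ((a : R) * b0 ^ 2 * b2 + b1 * b3 ^ 2 - a ^ 2 * bi * b0 * b3) •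
        c a b0 b3 b1 b2 bi ([(0, Piece.cup), (1, Piece.cup), (0, Piece.neg)] ++ B)
      + ((a : R) ^ 2 * bi * b0 ^ 2 - b0 * b1 * b3 + b2 * b3 ^ 2) •
        c a b0 b3 b1 b2 bi ([(0, Piece.cup), (1, Piece.cup)] ++ B) = 0 := by
  -- skein relation at the vertical strands of `e_1`
  have s1 := c_skein (a := a) (b0 := b0) (b3 := b3) (b1 := b1) (b2 := b2) (bi := bi)
    (A := [(0, Piece.cup), (1, Piece.cup), (0, Piece.pos)]) (B := B) (n := 4) 1 rfl hB (by omega)
  have s1a := ep_eq (a := a) (b0 := b0) (b3 := b3) (b1 := b1) (b2 := b2) (bi := bi)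
    (B := [(1, Piece.pos)] ++ B) hB
  have s1b := ep_eq (a := a) (b0 := b0) (b3 := b3) (b1 := b1) (b2 := b2) (bi := bi)
    (B := [(1, Piece.pos), (1, Piece.pos)] ++ B) hB
  have s1c := ep_eq (a := a) (b0 := b0) (b3 := b3) (b1 := b1) (b2 := b2) (bi := bi)
    (B := [(1, Piece.pos), (1, Piece.pos), (1, Piece.pos)] ++ B) hB
  have s1a' := r2_np (a := a) (b0 := b0) (b3 := b3) (b1 := b1) (b2 := b2) (bi := bi)
    (A := [(0, Piece.cup), (2, Piece.cup)]) (B := B) (n := 4) 1 rfl (by omega) hB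
  have s1b' := r2_np (a := a) (b0 := b0) (b3 := b3) (b1 := b1) (b2 := b2) (bi := bi)
    (A := [(0, Piece.cup), (2, Piece.cup)]) (B := [(1, Piece.pos)] ++ B) (n := 4) 1 rfl
    (by omega) hB
  have s1c' := r2_np (a := a) (b0 := b0) (b3 := b3) (b1 := b1) (b2 := b2) (bi := bi)
    (A := [(0, Piece.cup), (2, Piece.cup)]) (B := [(1, Piece.pos), (1, Piece.pos)] ++ B) (n := 4) 1
    rfl (by omega) hB
  have em := em_eq (a := a) (b0 := b0) (b3 := b3) (b1 := b1) (b2 := b2) (bi := bi) hB
  have em' := em_eq (a := a) (b0 := b0) (b3 := b3) (b1 := b1) (b2 := b2) (bi := bi)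
    (B := [(1, Piece.pos)] ++ B) hB
  have s1d := c_curl (a := a) (b0 := b0) (b3 := b3) (b1 := b1) (b2 := b2) (bi := bi)
    (A := [(0, Piece.cup)]) (B := [(1, Piece.cup)] ++ B) (n := 2) 0 rfl
    (by simpa [width, Piece.low, Piece.high] using hB) (by omega)
  -- shifted relation with a vertical crossing on top
  have s2 := shift (a := a) (b0 := b0) (b3 := b3) (b1 := b1) (b2 := b2) (bi := bi)
    (B := [(1, Piece.pos)] ++ B) hB
  have s2a := e0_pos (a := a) (b0 := b0) (b3 := b3) (b1 := b1) (b2 := b2) (bi := bi) hB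
  have s2b := key (a := a) (b0 := b0) (b3 := b3) (b1 := b1) (b2 := b2) (bi := bi) hB
  -- the relation shifted by two twists
  have s3 := shift (a := a) (b0 := b0) (b3 := b3) (b1 := b1) (b2 := b2) (bi := bi)
    (B := [(0, Piece.neg)] ++ B) hB
  have s3a := r2_pn (a := a) (b0 := b0) (b3 := b3) (b1 := b1) (b2 := b2) (bi := bi)
    (A := [(0, Piece.cup), (1, Piece.cup)]) (B := B) (n := 4) 0 rfl (by omega) hB
  have s3b := r2_pn (a := a) (b0 := b0) (b3 := b3) (b1 := b1) (b2 := b2) (bi := bi)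
    (A := [(0, Piece.cup), (1, Piece.cup), (0, Piece.pos)]) (B := B) (n := 4) 0 rfl (by omega) hB
  have s3c := v_pos (a := a) (b0 := b0) (b3 := b3) (b1 := b1) (b2 := b2) (bi := bi)
    (B := [(0, Piece.neg)] ++ B) hB
  have s3d := r2_pn (a := a) (b0 := b0) (b3 := b3) (b1 := b1) (b2 := b2) (bi := bi)
    (A := [(0, Piece.cup), (2, Piece.cup)]) (B := B) (n := 4) 0 rfl (by omega) hB
  simp only [List.append_assoc, List.cons_append, List.nil_append, Nat.zero_add]
    at s1 s1a s1b s1c s1a' s1b' s1c' em em' s1d s2 s2a s2b s3 s3a s3b s3c s3d ⊢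
  rw [s1a, s1b, s1c, s1a', s1b', s1c', s1d, ← em, ← em'] at s1
  rw [s1a, s1a', ← em] at s2
  rw [s3a, s3b, ← s3c, s3d] at s3
  generalize c a b0 b3 b1 b2 bi ((0, Piece.cup) :: (1, Piece.cup) :: (0, Piece.pos) :: B) = ep
    at *
  generalize c a b0 b3 b1 b2 bi ((0, Piece.cup) :: (1, Piece.cup) :: (0, Piece.neg) :: B) = en
    at *
  generalize c a b0 b3 b1 b2 bi ((0, Piece.cup) :: (1, Piece.cup) :: B) = e0 at *
  generalize c a b0 b3 b1 b2 bi ((0, Piece.cup) :: (2, Piece.cup) :: B) = v at *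
  linear_combination (norm := module) ((a : R) * b0 ^ 2) • s1 + ((b3 : R) ^ 2) • s3 - ((a : R) * b0 * b3) • s2
    + ((b0 : R) * b1 * b3) • s2a + ((b0 : R) * b3 ^ 2) • s2b

/-- positive crossing below a local maximum -/
theorem pos_cap {A B : List (ℕ × Piece)} {n : ℕ} (k : ℕ) (hA : width 0 A = some (n + 2))
    (hk : k ≤ n) (hB : width n B = some 0) :
    (a : R) • c a b0 b3 b1 b2 bi (A ++ ([(k, Piece.pos), (k, Piece.cap)] ++ B))
      = c a b0 b3 b1 b2 bi (A ++ ([(k, Piece.cap)] ++ B)) := by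
  have e1 := kink_cap (a := a) (b0 := b0) (b3 := b3) (b1 := b1) (b2 := b2) (bi := bi)
    (A := A ++ [(k, Piece.pos)]) (B := B) (n := n) k
    (by rw [width_append, hA]; simp [width, Piece.low, Piece.high]; omega) hk hB
  have e2 := r2_pn (a := a) (b0 := b0) (b3 := b3) (b1 := b1) (b2 := b2) (bi := bi)
    (A := A) (B := [(k, Piece.cap)] ++ B) (n := n + 2) k hA (by omega)
    (by simp [width, Piece.low, Piece.high, hB, hk])
  simp only [List.append_assoc, List.cons_append, List.nil_append] at e1 e2 ⊢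
  rw [← e1, e2]

/-- A small circle may be moved across a strand. -/
theorem circle_move {A B : List (ℕ × Piece)} {n : ℕ} (k : ℕ) (hA : width 0 A = some n)
    (hk : k + 1 ≤ n) (hB : width n B = some 0) :
    c a b0 b3 b1 b2 bi (A ++ ([(k + 1, Piece.cup), (k + 1, Piece.cap)] ++ B))
      = c a b0 b3 b1 b2 bi (A ++ ([(k, Piece.cup), (k, Piece.cap)] ++ B)) := by
  have e1 := r2_pn (a := a) (b0 := b0) (b3 := b3) (b1 := b1) (b2 := b2) (bi := bi)
    (A := A ++ [(k + 1, Piece.cup)]) (B := [(k + 1, Piece.cap)] ++ B) (n := n + 2) k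
    (by rw [width_append, hA]; simp [width, Piece.low, Piece.high]; omega) (by omega)
    (by simp [width, Piece.low, Piece.high, hB]; omega)
  have e2 := c_move (a := a) (b0 := b0) (b3 := b3) (b1 := b1) (b2 := b2) (bi := bi)
    (A := A) (Move.cupSlideNeg k) (n := n) (m := n + 2)
    (B := [(k, Piece.neg), (k + 1, Piece.cap)] ++ B) hA
    (by simp [width, Piece.low, Piece.high]; omega)
    (by simp [width, Piece.low, Piece.high]; omega)
    (by simp [width, Piece.low, Piece.high, hB]; omega)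
  have e3 := c_move (a := a) (b0 := b0) (b3 := b3) (b1 := b1) (b2 := b2) (bi := bi)
    (A := A ++ [(k, Piece.cup), (k + 1, Piece.neg)]) (Move.capSlidePos k) (n := n + 2) (m := n)
    (B := B)
    (by rw [width_append, hA]; simp [width, Piece.low, Piece.high]; omega)
    (by simp [width, Piece.low, Piece.high]; omega)
    (by simp [width, Piece.low, Piece.high]; omega) hB
  have e4 := r2_np (a := a) (b0 := b0) (b3 := b3) (b1 := b1) (b2 := b2) (bi := bi)
    (A := A ++ [(k, Piece.cup)]) (B := [(k, Piece.cap)] ++ B) (n := n + 2) (k + 1)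
    (by rw [width_append, hA]; simp [width, Piece.low, Piece.high]; omega) (by omega)
    (by simp [width, Piece.low, Piece.high, hB]; omega)
  simp only [List.append_assoc, List.cons_append, List.nil_append] at e1 e2 e3 e4 ⊢
  rw [← e1, ← e2, ← e3, e4]

end Module

/-! ### Closures of the elementary tangles -/

section Closures

variable {R : Type*} [CommRing R] (a b0 b3 : Rˣ) (b1 b2 bi : R)

/-- class of the trivial knot -/
noncomputable abbrev T1 : SkeinModule R a b0 b3 b1 b2 bi :=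
  c a b0 b3 b1 b2 bi [(0, Piece.cup), (0, Piece.cap)]

/-- class of the trivial link with two components -/
noncomputable abbrev T2 : SkeinModule R a b0 b3 b1 b2 bi :=
  c a b0 b3 b1 b2 bi [(0, Piece.cup), (0, Piece.cap), (0, Piece.cup), (0, Piece.cap)]

/-- class of the Hopf link, with two positive crossings -/
noncomputable abbrev Hopf : SkeinModule R a b0 b3 b1 b2 bi :=
  c a b0 b3 b1 b2 bi [(0, Piece.cup), (1, Piece.cup), (0, Piece.pos), (0, Piece.pos),
    (1, Piece.cap), (0, Piece.cap)]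

theorem N_v : c a b0 b3 b1 b2 bi
    [(0, Piece.cup), (2, Piece.cup), (1, Piece.cap), (0, Piece.cap)] = T1 a b0 b3 b1 b2 bi :=
  c_move (A := [(0, Piece.cup)]) (Move.zigzagL 1) (n := 2) (m := 2) (B := [(0, Piece.cap)])
    rfl rfl rfl rfl

theorem N_ep : c a b0 b3 b1 b2 bi
    [(0, Piece.cup), (1, Piece.cup), (0, Piece.pos), (1, Piece.cap), (0, Piece.cap)]
      = (a : R) • T1 a b0 b3 b1 b2 bi :=
  c_curl (A := [(0, Piece.cup)]) (B := [(0, Piece.cap)]) (n := 2) 0 rfl rfl (by omega)

theorem N_en : (a : R) • c a b0 b3 b1 b2 bi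
    [(0, Piece.cup), (1, Piece.cup), (0, Piece.neg), (1, Piece.cap), (0, Piece.cap)]
      = T1 a b0 b3 b1 b2 bi := by
  have e1 := em_eq (a := a) (b0 := b0) (b3 := b3) (b1 := b1) (b2 := b2) (bi := bi)
    (B := [(1, Piece.cap), (0, Piece.cap)]) rfl
  have e2 := pos_cap (a := a) (b0 := b0) (b3 := b3) (b1 := b1) (b2 := b2) (bi := bi)
    (A := [(0, Piece.cup), (2, Piece.cup)]) (B := [(0, Piece.cap)]) (n := 2) 1 rfl (by omega) rfl
  have e3 := N_v a b0 b3 b1 b2 bi
  simp only [List.cons_append, List.nil_append] at e1 e2 ⊢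
  rw [e1, e2, e3]

theorem N_e0 : c a b0 b3 b1 b2 bi
    [(0, Piece.cup), (1, Piece.cup), (1, Piece.cap), (0, Piece.cap)] = T2 a b0 b3 b1 b2 bi := by
  have e1 := circle_move (a := a) (b0 := b0) (b3 := b3) (b1 := b1) (b2 := b2) (bi := bi)
    (A := [(0, Piece.cup)]) (B := [(0, Piece.cap)]) (n := 2) 0 rfl (by omega) rfl
  have e2 := nested_cups (a := a) (b0 := b0) (b3 := b3) (b1 := b1) (b2 := b2) (bi := bi)
    (B := [(0, Piece.cap), (0, Piece.cap)]) rfl
  have e3 := c_move (a := a) (b0 := b0) (b3 := b3) (b1 := b1) (b2 := b2) (bi := bi)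
    (A := [(0, Piece.cup)]) (Move.exchange 0 0 Piece.cap Piece.cup (by simp [Piece.high]))
    (n := 2) (m := 2) (B := [(0, Piece.cap)]) rfl rfl rfl rfl
  simp only [List.cons_append, List.nil_append, Nat.zero_add, Piece.low, Piece.high,
    Nat.sub_zero] at e1 e2 e3 ⊢
  rw [e1, e2, ← e3]

theorem D_e0 : c a b0 b3 b1 b2 bi
    [(0, Piece.cup), (1, Piece.cup), (0, Piece.cap), (0, Piece.cap)] = T1 a b0 b3 b1 b2 bi :=
  c_move (A := [(0, Piece.cup)]) (Move.zigzagL 0) (n := 2) (m := 2) (B := [(0, Piece.cap)])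
    rfl rfl rfl rfl

theorem D_v : c a b0 b3 b1 b2 bi
    [(0, Piece.cup), (2, Piece.cup), (0, Piece.cap), (0, Piece.cap)] = T2 a b0 b3 b1 b2 bi := by
  have e3 := c_move (a := a) (b0 := b0) (b3 := b3) (b1 := b1) (b2 := b2) (bi := bi)
    (A := [(0, Piece.cup)]) (Move.exchange 0 0 Piece.cap Piece.cup (by simp [Piece.high]))
    (n := 2) (m := 2) (B := [(0, Piece.cap)]) rfl rfl rfl rfl
  simp only [List.cons_append, List.nil_append, Nat.zero_add, Piece.low, Piece.high,
    Nat.sub_zero] at e3 ⊢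
  rw [← e3]

theorem D_ep : (a : R) • c a b0 b3 b1 b2 bi
    [(0, Piece.cup), (1, Piece.cup), (0, Piece.pos), (0, Piece.cap), (0, Piece.cap)]
      = T1 a b0 b3 b1 b2 bi := by
  have e2 := pos_cap (a := a) (b0 := b0) (b3 := b3) (b1 := b1) (b2 := b2) (bi := bi)
    (A := [(0, Piece.cup), (1, Piece.cup)]) (B := [(0, Piece.cap)]) (n := 2) 0 rfl (by omega) rfl
  have e3 := D_e0 a b0 b3 b1 b2 bi
  simp only [List.cons_append, List.nil_append] at e2 ⊢
  rw [e2, e3]

theorem D_en : c a b0 b3 b1 b2 bi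
    [(0, Piece.cup), (1, Piece.cup), (0, Piece.neg), (0, Piece.cap), (0, Piece.cap)]
      = (a : R) • T1 a b0 b3 b1 b2 bi := by
  have e2 := kink_cap (a := a) (b0 := b0) (b3 := b3) (b1 := b1) (b2 := b2) (bi := bi)
    (A := [(0, Piece.cup), (1, Piece.cup)]) (B := [(0, Piece.cap)]) (n := 2) 0 rfl (by omega) rfl
  have e3 := D_e0 a b0 b3 b1 b2 bi
  simp only [List.cons_append, List.nil_append] at e2 ⊢
  rw [e2, e3]

/-- The Hopf link with two negative crossings is the same framed link. -/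
theorem hopf_neg : c a b0 b3 b1 b2 bi [(0, Piece.cup), (1, Piece.cup), (0, Piece.neg),
    (0, Piece.neg), (1, Piece.cap), (0, Piece.cap)] = Hopf a b0 b3 b1 b2 bi := by
  have e1 := key (a := a) (b0 := b0) (b3 := b3) (b1 := b1) (b2 := b2) (bi := bi)
    (B := [(1, Piece.cap), (0, Piece.cap)]) rfl
  have e2 := pos_cap (a := a) (b0 := b0) (b3 := b3) (b1 := b1) (b2 := b2) (bi := bi)
    (A := [(0, Piece.cup), (1, Piece.cup), (0, Piece.pos), (0, Piece.pos)])
    (B := [(0, Piece.cap)]) (n := 2) 1 rfl (by omega) rfl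
  simp only [List.cons_append, List.nil_append] at e1 e2 ⊢
  rw [← e1, e2]

/-- The first relation `p₁(t) T₁ = 0`, multiplied by `a ^ 3`. -/
theorem p1_rel : ((a : R) ^ 3 * b0 + a ^ 2 * b1 + a * b2 + b3) • T1 a b0 b3 b1 b2 bi
    + (a ^ 3 * bi) • T2 a b0 b3 b1 b2 bi = 0 := by
  have s := shift (a := a) (b0 := b0) (b3 := b3) (b1 := b1) (b2 := b2) (bi := bi)
    (B := [(0, Piece.cap), (0, Piece.cap)]) rfl
  have e1 := D_en a b0 b3 b1 b2 bi
  have e2 := D_e0 a b0 b3 b1 b2 bi
  have e3 := D_ep a b0 b3 b1 b2 bi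
  have e4 := pos_cap (a := a) (b0 := b0) (b3 := b3) (b1 := b1) (b2 := b2) (bi := bi)
    (A := [(0, Piece.cup), (1, Piece.cup), (0, Piece.pos)]) (B := [(0, Piece.cap)]) (n := 2) 0 rfl
    (by omega) rfl
  have e5 := D_v a b0 b3 b1 b2 bi
  simp only [List.cons_append, List.nil_append] at s e4
  rw [e1, e2, e5] at s
  linear_combination (norm := module) ((a : R) ^ 2) • s - ((a : R) * b2) • e3 - (b3 : R) • e3
    - ((a : R) * b3) • e4

theorem v_neg {B : List (ℕ × Piece)} (hB : width 4 B = some 0) :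
    c a b0 b3 b1 b2 bi ([(0, Piece.cup), (2, Piece.cup), (0, Piece.neg)] ++ B)
      = (a : R) • c a b0 b3 b1 b2 bi ([(0, Piece.cup), (2, Piece.cup)] ++ B) := by
  have e1 := v_pos (a := a) (b0 := b0) (b3 := b3) (b1 := b1) (b2 := b2) (bi := bi)
    (B := [(0, Piece.neg)] ++ B) hB
  have e2 := r2_pn (a := a) (b0 := b0) (b3 := b3) (b1 := b1) (b2 := b2) (bi := bi)
    (A := [(0, Piece.cup), (2, Piece.cup)]) (B := B) (n := 4) 0 rfl (by omega) hB
  simp only [List.cons_append, List.nil_append] at e1 e2 ⊢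
  rw [← e1, e2]

/-- The skein relation closed up to the Hopf link (positive twists). -/
theorem hopf_rel1 : ((b0 : R) + a ^ 2 * b2 + a ^ 2 * bi) • T1 a b0 b3 b1 b2 bi
    + (a * b1) • T2 a b0 b3 b1 b2 bi + ((a : R) * b3) • Hopf a b0 b3 b1 b2 bi = 0 := by
  have s := shift (a := a) (b0 := b0) (b3 := b3) (b1 := b1) (b2 := b2) (bi := bi)
    (B := [(1, Piece.cap), (0, Piece.cap)]) rfl
  have e1 := N_en a b0 b3 b1 b2 bi
  have e2 := N_e0 a b0 b3 b1 b2 bi
  have e3 := N_ep a b0 b3 b1 b2 bi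
  have e4 := N_v a b0 b3 b1 b2 bi
  simp only [List.cons_append, List.nil_append] at s
  rw [e2, e3, e4] at s
  linear_combination (norm := module) (a : R) • s - (b0 : R) • e1

/-- The skein relation closed up to the Hopf link (negative twists). -/
theorem hopf_rel2 : (b1 + a ^ 2 * (b3 : R) + a ^ 3 * bi) • T1 a b0 b3 b1 b2 bi
    + (a * b2) • T2 a b0 b3 b1 b2 bi + ((a : R) * b0) • Hopf a b0 b3 b1 b2 bi = 0 := by
  have s := shift (a := a) (b0 := b0) (b3 := b3) (b1 := b1) (b2 := b2) (bi := bi)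
    (B := [(0, Piece.neg), (1, Piece.cap), (0, Piece.cap)]) rfl
  have e1 := N_en a b0 b3 b1 b2 bi
  have e2 := N_e0 a b0 b3 b1 b2 bi
  have e3 := N_ep a b0 b3 b1 b2 bi
  have e4 := N_v a b0 b3 b1 b2 bi
  have e5 := hopf_neg a b0 b3 b1 b2 bi
  have e6 := v_neg a b0 b3 b1 b2 bi (B := [(1, Piece.cap), (0, Piece.cap)]) rfl
  have e7 := r2_pn (a := a) (b0 := b0) (b3 := b3) (b1 := b1) (b2 := b2) (bi := bi)
    (A := [(0, Piece.cup), (1, Piece.cup)]) (B := [(1, Piece.cap), (0, Piece.cap)]) (n := 4) 0 rfl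
    (by omega) rfl
  have e8 := r2_pn (a := a) (b0 := b0) (b3 := b3) (b1 := b1) (b2 := b2) (bi := bi)
    (A := [(0, Piece.cup), (1, Piece.cup), (0, Piece.pos)])
    (B := [(1, Piece.cap), (0, Piece.cap)]) (n := 4) 0 rfl (by omega) rfl
  simp only [List.cons_append, List.nil_append] at s e6 e7 e8
  rw [e5, e6, e7, e8, e2, e3, e4] at s
  linear_combination (norm := module) (a : R) • s - b1 • e1

/-- The new relation closed by the numerator closure after one negative twist. -/
theorem new_rel_neg :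
    ((a : R) * b0 ^ 3 + b3 ^ 3) • ((a : R) • T2 a b0 b3 b1 b2 bi)
      + ((a : R) ^ 2 * ((a : R) * b0 ^ 2 * b1 - a * b0 * b2 * b3 + a ^ 2 * bi * b3 ^ 2)
        + ((a : R) ^ 2 * bi * b0 ^ 2 - b0 * b1 * b3 + b2 * b3 ^ 2)) • T1 a b0 b3 b1 b2 bi
      + ((a : R) * ((a : R) * b0 ^ 2 * b2 + b1 * b3 ^ 2 - a ^ 2 * bi * b0 * b3)) •
        Hopf a b0 b3 b1 b2 bi = 0 := by
  have s := rel1 (a := a) (b0 := b0) (b3 := b3) (b1 := b1) (b2 := b2) (bi := bi)
    (B := [(0, Piece.neg), (1, Piece.cap), (0, Piece.cap)]) rfl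
  have e1 := N_en a b0 b3 b1 b2 bi
  have e2 := N_e0 a b0 b3 b1 b2 bi
  have e4 := N_v a b0 b3 b1 b2 bi
  have e5 := hopf_neg a b0 b3 b1 b2 bi
  have e6 := v_neg a b0 b3 b1 b2 bi (B := [(1, Piece.cap), (0, Piece.cap)]) rfl
  have e7 := r2_pn (a := a) (b0 := b0) (b3 := b3) (b1 := b1) (b2 := b2) (bi := bi)
    (A := [(0, Piece.cup), (1, Piece.cup)]) (B := [(1, Piece.cap), (0, Piece.cap)]) (n := 4) 0 rfl
    (by omega) rfl
  simp only [List.cons_append, List.nil_append] at s e6 e7
  rw [e5, e6, e7, e2, e4] at s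
  linear_combination (norm := module) (a : R) • s
    - ((a : R) ^ 2 * bi * b0 ^ 2 - b0 * b1 * b3 + b2 * b3 ^ 2) • e1

/-- The new relation closed by the numerator closure. -/
theorem new_rel_N :
    ((a : R) * b0 ^ 3 + b3 ^ 3) • ((a : R) ^ 2 • T1 a b0 b3 b1 b2 bi)
      + (a * ((a : R) * b0 ^ 2 * b1 - a * b0 * b2 * b3 + a ^ 2 * bi * b3 ^ 2)
        + ((a : R) * b0 ^ 2 * b2 + b1 * b3 ^ 2 - a ^ 2 * bi * b0 * b3)) • T1 a b0 b3 b1 b2 bi
      + (a * ((a : R) ^ 2 * bi * b0 ^ 2 - b0 * b1 * b3 + b2 * b3 ^ 2)) •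
        T2 a b0 b3 b1 b2 bi = 0 := by
  have s := rel1 (a := a) (b0 := b0) (b3 := b3) (b1 := b1) (b2 := b2) (bi := bi)
    (B := [(1, Piece.cap), (0, Piece.cap)]) rfl
  have e1 := N_en a b0 b3 b1 b2 bi
  have e2 := N_e0 a b0 b3 b1 b2 bi
  have e3 := N_ep a b0 b3 b1 b2 bi
  have e4 := N_v a b0 b3 b1 b2 bi
  simp only [List.cons_append, List.nil_append] at s
  rw [e2, e3, e4] at s
  linear_combination (norm := module) (a : R) • s
    - ((a : R) * b0 ^ 2 * b2 + b1 * b3 ^ 2 - a ^ 2 * bi * b0 * b3) • e1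

/-- The new relation closed by the denominator closure. -/
theorem new_rel_D :
    ((a : R) * b0 ^ 3 + b3 ^ 3) • T1 a b0 b3 b1 b2 bi
      + (a ^ 2 * ((a : R) * b0 ^ 2 * b2 + b1 * b3 ^ 2 - a ^ 2 * bi * b0 * b3)
        + a * ((a : R) ^ 2 * bi * b0 ^ 2 - b0 * b1 * b3 + b2 * b3 ^ 2)) • T1 a b0 b3 b1 b2 bi
      + (a * ((a : R) * b0 ^ 2 * b1 - a * b0 * b2 * b3 + a ^ 2 * bi * b3 ^ 2)) •
        T2 a b0 b3 b1 b2 bi = 0 := by
  have s := rel1 (a := a) (b0 := b0) (b3 := b3) (b1 := b1) (b2 := b2) (bi := bi)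
    (B := [(0, Piece.cap), (0, Piece.cap)]) rfl
  have e1 := D_en a b0 b3 b1 b2 bi
  have e2 := D_e0 a b0 b3 b1 b2 bi
  have e3 := D_ep a b0 b3 b1 b2 bi
  have e4 := D_v a b0 b3 b1 b2 bi
  simp only [List.cons_append, List.nil_append] at s
  rw [e1, e2, e4] at s
  linear_combination (norm := module) (a : R) • s - ((a : R) * b0 ^ 3 + b3 ^ 3) • e3

end Closures

/-! ### Link invariants as functionals on the skein module -/

section Functional

variable {R K : Type*} [CommRing R] [AddCommGroup K] [Module R K]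

/-- linear extension of a link invariant -/
noncomputable def ext (P : FramedLink → K) : (FramedLink →₀ R) →ₗ[R] K :=
  Finsupp.linearCombination R P

theorem ext_link (P : FramedLink → K) {w : List (ℕ × Piece)} (h : width 0 w = some 0) :
    ext (R := R) P (link R w) = P (mkLink w h) := by
  unfold ext link
  rw [dif_pos h, Finsupp.linearCombination_single, one_smul]

theorem relations_le_ker (a b0 b3 : Rˣ) (b1 b2 bi : R) (P : FramedLink → K)
    (hskein : ∀ (A B : List (ℕ × Piece)) (n k : ℕ), width 0 A = some n → width n B = some 0 →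
      k + 2 ≤ n →
      (b0 : R) • ext (R := R) P (link R (A ++ B))
        + b1 • ext (R := R) P (link R (A ++ [(k, Piece.pos)] ++ B))
        + b2 • ext (R := R) P (link R (A ++ [(k, Piece.pos), (k, Piece.pos)] ++ B))
        + (b3 : R) • ext (R := R) P
            (link R (A ++ [(k, Piece.pos), (k, Piece.pos), (k, Piece.pos)] ++ B))
        + bi • ext (R := R) P (link R (A ++ [(k, Piece.cap), (k, Piece.cup)] ++ B)) = 0)
    (hcurl : ∀ (A B : List (ℕ × Piece)) (n k : ℕ), width 0 A = some n → width n B = some 0 →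
      k + 1 ≤ n →
      ext (R := R) P (link R (A ++ [(k + 1, Piece.cup), (k, Piece.pos), (k + 1, Piece.cap)] ++ B))
        = (a : R) • ext (R := R) P (link R (A ++ B))) :
    relations R a b0 b3 b1 b2 bi ≤ LinearMap.ker (ext (R := R) P) := by
  unfold relations
  rw [Submodule.span_le]
  rintro x (⟨A, B, n, k, hA, hB, hk, rfl⟩ | ⟨A, B, n, k, hA, hB, hk, rfl⟩)
  · simp only [SetLike.mem_coe, LinearMap.mem_ker, map_add, map_smul]
    exact hskein A B n k hA hB hk
  · simp only [SetLike.mem_coe, LinearMap.mem_ker, map_sub, map_smul]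
    rw [hcurl A B n k hA hB hk, sub_self]

/-- The functional on the skein module induced by an invariant. -/
noncomputable def lift (a b0 b3 : Rˣ) (b1 b2 bi : R) (P : FramedLink → K)
    (h : relations R a b0 b3 b1 b2 bi ≤ LinearMap.ker (ext (R := R) P)) :
    SkeinModule R a b0 b3 b1 b2 bi →ₗ[R] K :=
  (relations R a b0 b3 b1 b2 bi).liftQ (ext (R := R) P) h

theorem lift_c (a b0 b3 : Rˣ) (b1 b2 bi : R) (P : FramedLink → K)
    (h : relations R a b0 b3 b1 b2 bi ≤ LinearMap.ker (ext (R := R) P))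
    {w : List (ℕ × Piece)} (hw : width 0 w = some 0) :
    lift a b0 b3 b1 b2 bi P h (c a b0 b3 b1 b2 bi w) = P (mkLink w hw) := by
  unfold lift c
  rw [Submodule.mkQ_apply, Submodule.liftQ_apply, ext_link P hw]

end Functional

/-- Well-formedness of composed words. -/
theorem closed_of {A B X : List (ℕ × Piece)} {n : ℕ} (hA : width 0 A = some n)
    (hX : width n X = some n) (hB : width n B = some 0) : width 0 (A ++ X ++ B) = some 0 := by
  rw [width_append, width_append, hA]
  simp [hX, hB]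

end Pool.Agent.Helper62.Skein
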