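import Mathlib
import Pool.Agent.Helper62.Skein

set_option linter.unusedSimpArgs false

namespace Pool.Agent.Helper62.StateSum

open Pool.Agent.Helper62.Skein

variable {C S : Type*}

/-- local operators of the pieces: they pull back functions on colourings of the top ends to
functions on colourings of the bottom ends -/
abbrev Op (C S : Type*) := Piece → (List C → S) → List C → S

/-- the piece `p` with `k` strands to its left -/
def act (op : Op C S) (k : ℕ) (p : Piece) (f : List C → S) (l : List C) : S :=
  op p (fun Y => f (l.take k ++ Y ++ l.drop (k + p.low))) ((l.drop k).take p.low)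

/-- pull back along a word -/
def eval (op : Op C S) : List (ℕ × Piece) → (List C → S) → List C → S
  | [], f => f
  | (k, p) :: w, f => act op k p (eval op w f)

theorem eval_append (op : Op C S) (A B : List (ℕ × Piece)) (f : List C → S) :
    eval op (A ++ B) f = eval op A (eval op B f) := by
  induction A with
  | nil => rfl
  | cons s A ih => obtain ⟨k, p⟩ := s; simp only [List.cons_append, eval, ih]

/-- The conditions on local operators that make the state sum an invariant. -/
structure IsModel (op : Op C S) : Prop where
  congr : ∀ (p : Piece) (g h : List C → S) (Z : List C), Z.length = p.low →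
    (∀ Y : List C, Y.length = p.high → g Y = h Y) → op p g Z = op p h Z
  comm : ∀ (p q : Piece) (G : List C → List C → S) (Z W : List C), Z.length = p.low →
    W.length = q.low →
    op p (fun Y => op q (fun V => G Y V) W) Z = op q (fun V => op p (fun Y => G Y V) Z) W
  zigzagR : ∀ (f : List C → S) (x : C),
    eval op [(0, Piece.cup), (1, Piece.cap)] f [x] = f [x]
  zigzagL : ∀ (f : List C → S) (x : C),
    eval op [(1, Piece.cup), (0, Piece.cap)] f [x] = f [x]
  cupSlidePos : ∀ (f : List C → S) (x : C),
    eval op [(0, Piece.cup), (1, Piece.pos)] f [x] = eval op [(1, Piece.cup), (0, Piece.neg)] f [x]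
  cupSlideNeg : ∀ (f : List C → S) (x : C),
    eval op [(0, Piece.cup), (1, Piece.neg)] f [x] = eval op [(1, Piece.cup), (0, Piece.pos)] f [x]
  capSlidePos : ∀ (f : List C → S) (x y z : C),
    eval op [(1, Piece.pos), (0, Piece.cap)] f [x, y, z]
      = eval op [(0, Piece.neg), (1, Piece.cap)] f [x, y, z]
  capSlideNeg : ∀ (f : List C → S) (x y z : C),
    eval op [(1, Piece.neg), (0, Piece.cap)] f [x, y, z]
      = eval op [(0, Piece.pos), (1, Piece.cap)] f [x, y, z]
  curlPos : ∀ (f : List C → S) (x : C),
    eval op [(1, Piece.cup), (0, Piece.pos), (1, Piece.cap)] f [x]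
      = eval op [(0, Piece.cup), (1, Piece.pos), (0, Piece.cap)] f [x]
  curlNeg : ∀ (f : List C → S) (x : C),
    eval op [(1, Piece.cup), (0, Piece.neg), (1, Piece.cap)] f [x]
      = eval op [(0, Piece.cup), (1, Piece.neg), (0, Piece.cap)] f [x]
  r2PosNeg : ∀ (f : List C → S) (x y : C),
    eval op [(0, Piece.pos), (0, Piece.neg)] f [x, y] = f [x, y]
  r2NegPos : ∀ (f : List C → S) (x y : C),
    eval op [(0, Piece.neg), (0, Piece.pos)] f [x, y] = f [x, y]
  r3 : ∀ (f : List C → S) (x y z : C),
    eval op [(0, Piece.pos), (1, Piece.pos), (0, Piece.pos)] f [x, y, z]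
      = eval op [(1, Piece.pos), (0, Piece.pos), (1, Piece.pos)] f [x, y, z]

variable {op : Op C S}

theorem length_ins {l : List C} {k : ℕ} {p : Piece} {Y : List C} (h : k + p.low ≤ l.length)
    (hY : Y.length = p.high) :
    (l.take k ++ Y ++ l.drop (k + p.low)).length = l.length - p.low + p.high := by
  simp only [List.length_append, List.length_take, List.length_drop, hY]
  omega

theorem eval_congr (hM : IsModel op) (w : List (ℕ × Piece)) :
    ∀ (n m : ℕ) (f g : List C → S), width n w = some m →
      (∀ l : List C, l.length = m → f l = g l) →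
      ∀ l : List C, l.length = n → eval op w f l = eval op w g l := by
  induction w with
  | nil =>
    intro n m f g hw hfg l hl
    simp only [width, Option.some.injEq] at hw
    exact hfg l (by omega)
  | cons s w ih =>
    obtain ⟨k, p⟩ := s
    intro n m f g hw hfg l hl
    simp only [width] at hw
    split_ifs at hw with hk
    simp only [eval, act]
    apply hM.congr
    · simp only [List.length_take, List.length_drop]; omega
    · intro Y hY
      apply ih _ _ _ _ hw hfg
      rw [length_ins (by omega) hY, hl]

/-- shift a word to the right by `k` strands -/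
def shiftWord (k : ℕ) (w : List (ℕ × Piece)) : List (ℕ × Piece) := w.map fun s => (k + s.1, s.2)

theorem eval_shift (hM : IsModel op) (w : List (ℕ × Piece)) :
    ∀ (n m : ℕ) (f : List C → S) (A Z B : List C), width n w = some m → Z.length = n →
      eval op (shiftWord A.length w) f (A ++ Z ++ B)
        = eval op w (fun Y => f (A ++ Y ++ B)) Z := by
  induction w with
  | nil => intro n m f A Z B _ _; rfl
  | cons s w ih =>
    obtain ⟨k, p⟩ := s
    intro n m f A Z B hw hZ
    simp only [width] at hw
    split_ifs at hw with hk
    simp only [shiftWord, List.map_cons, eval, act]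
    have h1 : (List.drop (A.length + k) (A ++ Z ++ B)).take p.low = (Z.drop k).take p.low := by
      rw [List.append_assoc, ← List.drop_drop, List.drop_left, List.drop_append_of_le_length
        (by omega), List.take_append_of_le_length (by simp; omega)]
    have h2 : List.take (A.length + k) (A ++ Z ++ B) = A ++ Z.take k := by
      rw [List.append_assoc, List.take_append, List.take_of_length_le (by omega)]
      congr 1
      rw [show A.length + k - A.length = k by omega, List.take_append_of_le_length (by omega)]
    have h3 : List.drop (A.length + k + p.low) (A ++ Z ++ B) = Z.drop (k + p.low) ++ B := by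
      rw [List.append_assoc, add_assoc, ← List.drop_drop, List.drop_left,
        List.drop_append_of_le_length (by omega)]
    rw [h1]
    apply hM.congr
    · simp only [List.length_take, List.length_drop]; omega
    · intro Y hY
      rw [h2, h3]
      have := ih _ m f A (Z.take k ++ Y ++ Z.drop (k + p.low)) B hw
        (by rw [length_ins (by omega) hY, hZ])
      rw [← this]
      simp only [shiftWord, List.append_assoc]

/-- a local identity on `n0` strands may be used anywhere -/
theorem local_rule (hM : IsModel op) {X Y : List (ℕ × Piece)} {n0 m0 : ℕ}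
    (hX : width n0 X = some m0) (hY : width n0 Y = some m0)
    (h : ∀ (f : List C → S) (Z : List C), Z.length = n0 → eval op X f Z = eval op Y f Z)
    (k : ℕ) (f : List C → S) (l : List C) (hl : k + n0 ≤ l.length) :
    eval op (shiftWord k X) f l = eval op (shiftWord k Y) f l := by
  obtain ⟨A, Z, B, rfl, hA, hZ⟩ : ∃ A Z B : List C, l = A ++ Z ++ B ∧ A.length = k ∧
      Z.length = n0 := by
    refine ⟨l.take k, (l.drop k).take n0, (l.drop k).drop n0, ?_, ?_, ?_⟩
    · rw [List.append_assoc, List.take_append_drop, List.take_append_drop]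
    · simp only [List.length_take]; omega
    · simp only [List.length_take, List.length_drop]; omega
  subst hA
  rw [eval_shift hM X n0 m0 f A Z B hX hZ, eval_shift hM Y n0 m0 f A Z B hY hZ]
  exact h _ _ hZ

theorem exchange_rule (hM : IsModel op) (k l : ℕ) (p q : Piece) (h : k + p.high ≤ l)
    (f : List C → S) (L : List C) (hL : l - p.high + p.low + q.low ≤ L.length) :
    eval op [(k, p), (l, q)] f L = eval op [(l - p.high + p.low, q), (k, p)] f L := by
  obtain ⟨A, Z, M, W, B, rfl, hA, hZ, hM', hW⟩ : ∃ A Z M W B : List C,
      L = A ++ Z ++ M ++ W ++ B ∧ A.length = k ∧ Z.length = p.low ∧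
        M.length = l - p.high - k ∧ W.length = q.low := by
    refine ⟨L.take k, (L.drop k).take p.low, (L.drop (k + p.low)).take (l - p.high - k),
      (L.drop (l - p.high + p.low)).take q.low, L.drop (l - p.high + p.low + q.low), ?_, ?_, ?_,
      ?_, ?_⟩
    · have e1 : L.take k ++ (L.drop k).take p.low = L.take (k + p.low) := by
        rw [List.take_add]
      have e2 : L.take (k + p.low) ++ (L.drop (k + p.low)).take (l - p.high - k)
          = L.take (l - p.high + p.low) := by
        rw [← List.take_add]; congr 1; omega
      have e3 : L.take (l - p.high + p.low) ++ (L.drop (l - p.high + p.low)).take q.low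
          = L.take (l - p.high + p.low + q.low) := by
        rw [← List.take_add]
      rw [e1, e2, e3, List.take_append_drop]
    all_goals simp only [List.length_take, List.length_drop]; omega
  subst hA
  simp only [eval, act]
  have g1 : (List.drop A.length (A ++ Z ++ M ++ W ++ B)).take p.low = Z := by
    simp only [List.append_assoc]
    rw [List.drop_left, ← hZ, List.take_left]
  have g2 : List.take A.length (A ++ Z ++ M ++ W ++ B) = A := by
    simp only [List.append_assoc]
    rw [List.take_left]
  have g3 : List.drop (A.length + p.low) (A ++ Z ++ M ++ W ++ B) = M ++ W ++ B := by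
    simp only [List.append_assoc]
    rw [← List.drop_drop, List.drop_left, ← hZ, List.drop_left]
  have g4 : (List.drop (l - p.high + p.low) (A ++ Z ++ M ++ W ++ B)).take q.low = W := by
    rw [show l - p.high + p.low = (A ++ Z ++ M).length by
      simp only [List.length_append]; omega]
    rw [List.append_assoc _ W B, List.drop_left, ← hW, List.take_left]
  have g5 : List.take (l - p.high + p.low) (A ++ Z ++ M ++ W ++ B) = A ++ Z ++ M := by
    rw [show l - p.high + p.low = (A ++ Z ++ M).length by
      simp only [List.length_append]; omega]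
    rw [List.append_assoc _ W B, List.take_left]
  have g6 : List.drop (l - p.high + p.low + q.low) (A ++ Z ++ M ++ W ++ B) = B := by
    rw [show l - p.high + p.low + q.low = (A ++ Z ++ M ++ W).length by
      simp only [List.length_append]; omega]
    rw [List.drop_left]
  rw [g1, g2, g3, g4, g5, g6]
  -- left-hand side
  have lhs : op p (fun Y => op q (fun V => f (List.take l (A ++ Y ++ (M ++ W ++ B)) ++ V ++
        List.drop (l + q.low) (A ++ Y ++ (M ++ W ++ B))))
        ((List.drop l (A ++ Y ++ (M ++ W ++ B))).take q.low)) Z
      = op p (fun Y => op q (fun V => f (A ++ Y ++ M ++ V ++ B)) W) Z := by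
    apply hM.congr _ _ _ _ hZ
    intro Y hY
    have s1 : List.take l (A ++ Y ++ (M ++ W ++ B)) = A ++ Y ++ M := by
      rw [show A ++ Y ++ (M ++ W ++ B) = (A ++ Y ++ M) ++ (W ++ B) by simp,
        show l = (A ++ Y ++ M).length by simp only [List.length_append]; omega, List.take_left]
    have s2 : List.drop (l + q.low) (A ++ Y ++ (M ++ W ++ B)) = B := by
      rw [show A ++ Y ++ (M ++ W ++ B) = (A ++ Y ++ M ++ W) ++ B by simp,
        show l + q.low = (A ++ Y ++ M ++ W).length by simp only [List.length_append]; omega,
        List.drop_left]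
    have s3 : (List.drop l (A ++ Y ++ (M ++ W ++ B))).take q.low = W := by
      rw [show A ++ Y ++ (M ++ W ++ B) = (A ++ Y ++ M) ++ (W ++ B) by simp,
        show l = (A ++ Y ++ M).length by simp only [List.length_append]; omega, List.drop_left,
        ← hW, List.take_left]
    rw [s1, s2, s3]
  have rhs : op q (fun V => op p (fun Y => f (List.take A.length (A ++ Z ++ M ++ V ++ B) ++ Y ++
        List.drop (A.length + p.low) (A ++ Z ++ M ++ V ++ B)))
        ((List.drop A.length (A ++ Z ++ M ++ V ++ B)).take p.low)) W
      = op q (fun V => op p (fun Y => f (A ++ Y ++ M ++ V ++ B)) Z) W := by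
    apply hM.congr _ _ _ _ hW
    intro V _
    have s1 : List.take A.length (A ++ Z ++ M ++ V ++ B) = A := by
      simp only [List.append_assoc]; rw [List.take_left]
    have s2 : List.drop (A.length + p.low) (A ++ Z ++ M ++ V ++ B) = M ++ V ++ B := by
      simp only [List.append_assoc]
      rw [← List.drop_drop, List.drop_left, ← hZ, List.drop_left]
    have s3 : (List.drop A.length (A ++ Z ++ M ++ V ++ B)).take p.low = Z := by
      simp only [List.append_assoc]; rw [List.drop_left, ← hZ, List.take_left]
    rw [s1, s2, s3]
    simp only [List.append_assoc]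
  rw [lhs, rhs]
  exact hM.comm p q (fun Y V => f (A ++ Y ++ M ++ V ++ B)) Z W hZ hW

theorem list1 {P : List C → Prop} (h : ∀ x, P [x]) : ∀ Z : List C, Z.length = 1 → P Z := by
  intro Z hZ
  match Z, hZ with
  | [x], _ => exact h x

theorem list2 {P : List C → Prop} (h : ∀ x y, P [x, y]) : ∀ Z : List C, Z.length = 2 → P Z := by
  intro Z hZ
  match Z, hZ with
  | [x, y], _ => exact h x y

theorem list3 {P : List C → Prop} (h : ∀ x y z, P [x, y, z]) :
    ∀ Z : List C, Z.length = 3 → P Z := by
  intro Z hZ
  match Z, hZ with
  | [x, y, z], _ => exact h x y z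

theorem width_cons {n m k : ℕ} {p : Piece} {w : List (ℕ × Piece)}
    (h : width n ((k, p) :: w) = some m) :
    k + p.low ≤ n ∧ width (n - p.low + p.high) w = some m := by
  by_cases hk : k + p.low ≤ n
  · simp only [width, if_pos hk] at h
    exact ⟨hk, h⟩
  · simp only [width, if_neg hk] at h
    cases h

theorem move_rule (hM : IsModel op) {X Y : List (ℕ × Piece)} (h : Move X Y) {n m m' : ℕ}
    (hX : width n X = some m) (hY : width n Y = some m') (f : List C → S) (l : List C)
    (hl : l.length = n) : eval op X f l = eval op Y f l := by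
  cases h with
  | exchange k l' p q hkl =>
    apply exchange_rule hM k l' p q hkl
    have := (width_cons hY).1
    omega
  | zigzagR k =>
    obtain ⟨h1, hX⟩ := width_cons hX
    obtain ⟨h2, hX⟩ := width_cons hX
    simp only [Piece.low, Piece.high] at h1 h2
    exact local_rule hM (X := [(0, Piece.cup), (1, Piece.cap)]) (Y := []) (n0 := 1) (m0 := 1) rfl
      rfl (fun f => list1 (hM.zigzagR f)) k f l (by omega)
  | zigzagL k =>
    obtain ⟨h1, hX⟩ := width_cons hX
    obtain ⟨h2, hX⟩ := width_cons hX
    simp only [Piece.low, Piece.high] at h1 h2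
    exact local_rule hM (X := [(1, Piece.cup), (0, Piece.cap)]) (Y := []) (n0 := 1) (m0 := 1) rfl
      rfl (fun f => list1 (hM.zigzagL f)) k f l (by omega)
  | cupSlidePos k =>
    obtain ⟨h1, hX⟩ := width_cons hX
    obtain ⟨h2, hX⟩ := width_cons hX
    simp only [Piece.low, Piece.high] at h1 h2
    exact local_rule hM (X := [(0, Piece.cup), (1, Piece.pos)])
      (Y := [(1, Piece.cup), (0, Piece.neg)]) (n0 := 1) (m0 := 3) rfl
      rfl (fun f => list1 (hM.cupSlidePos f)) k f l (by omega)
  | cupSlideNeg k =>
    obtain ⟨h1, hX⟩ := width_cons hX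
    obtain ⟨h2, hX⟩ := width_cons hX
    simp only [Piece.low, Piece.high] at h1 h2
    exact local_rule hM (X := [(0, Piece.cup), (1, Piece.neg)])
      (Y := [(1, Piece.cup), (0, Piece.pos)]) (n0 := 1) (m0 := 3) rfl
      rfl (fun f => list1 (hM.cupSlideNeg f)) k f l (by omega)
  | capSlidePos k =>
    obtain ⟨h1, hX⟩ := width_cons hX
    obtain ⟨h2, hX⟩ := width_cons hX
    simp only [Piece.low, Piece.high] at h1 h2
    exact local_rule hM (X := [(1, Piece.pos), (0, Piece.cap)])
      (Y := [(0, Piece.neg), (1, Piece.cap)]) (n0 := 3) (m0 := 1) rfl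
      rfl (fun f => list3 (hM.capSlidePos f)) k f l (by omega)
  | capSlideNeg k =>
    obtain ⟨h1, hX⟩ := width_cons hX
    obtain ⟨h2, hX⟩ := width_cons hX
    simp only [Piece.low, Piece.high] at h1 h2
    exact local_rule hM (X := [(1, Piece.neg), (0, Piece.cap)])
      (Y := [(0, Piece.pos), (1, Piece.cap)]) (n0 := 3) (m0 := 1) rfl
      rfl (fun f => list3 (hM.capSlideNeg f)) k f l (by omega)
  | curlPos k =>
    obtain ⟨h1, hX⟩ := width_cons hX
    obtain ⟨h2, hX⟩ := width_cons hX
    simp only [Piece.low, Piece.high] at h1 h2
    exact local_rule hM (X := [(1, Piece.cup), (0, Piece.pos), (1, Piece.cap)])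
      (Y := [(0, Piece.cup), (1, Piece.pos), (0, Piece.cap)]) (n0 := 1) (m0 := 1) rfl
      rfl (fun f => list1 (hM.curlPos f)) k f l (by omega)
  | curlNeg k =>
    obtain ⟨h1, hX⟩ := width_cons hX
    obtain ⟨h2, hX⟩ := width_cons hX
    simp only [Piece.low, Piece.high] at h1 h2
    exact local_rule hM (X := [(1, Piece.cup), (0, Piece.neg), (1, Piece.cap)])
      (Y := [(0, Piece.cup), (1, Piece.neg), (0, Piece.cap)]) (n0 := 1) (m0 := 1) rfl
      rfl (fun f => list1 (hM.curlNeg f)) k f l (by omega)
  | r2PosNeg k =>
    obtain ⟨h1, hX⟩ := width_cons hX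
    obtain ⟨h2, hX⟩ := width_cons hX
    simp only [Piece.low, Piece.high] at h1 h2
    exact local_rule hM (X := [(0, Piece.pos), (0, Piece.neg)]) (Y := []) (n0 := 2) (m0 := 2) rfl
      rfl (fun f => list2 (hM.r2PosNeg f)) k f l (by omega)
  | r2NegPos k =>
    obtain ⟨h1, hX⟩ := width_cons hX
    obtain ⟨h2, hX⟩ := width_cons hX
    simp only [Piece.low, Piece.high] at h1 h2
    exact local_rule hM (X := [(0, Piece.neg), (0, Piece.pos)]) (Y := []) (n0 := 2) (m0 := 2) rfl
      rfl (fun f => list2 (hM.r2NegPos f)) k f l (by omega)
  | r3 k =>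
    obtain ⟨h1, hX⟩ := width_cons hX
    obtain ⟨h2, hX⟩ := width_cons hX
    simp only [Piece.low, Piece.high] at h1 h2
    exact local_rule hM (X := [(0, Piece.pos), (1, Piece.pos), (0, Piece.pos)])
      (Y := [(1, Piece.pos), (0, Piece.pos), (1, Piece.pos)]) (n0 := 3) (m0 := 3) rfl
      rfl (fun f => list3 (hM.r3 f)) k f l (by omega)

/-- the terminal function -/
def unitFun [Zero S] [One S] : List C → S
  | [] => 1
  | _ :: _ => 0

/-- value of a word -/
def value [Zero S] [One S] (op : Op C S) (w : List (ℕ × Piece)) : S := eval op w unitFun []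

theorem width_split {A B : List (ℕ × Piece)} {n m : ℕ} (h : width n (A ++ B) = some m) :
    ∃ j, width n A = some j ∧ width j B = some m := by
  rw [width_append] at h
  cases hA : width n A with
  | none => rw [hA] at h; simp at h
  | some j => rw [hA] at h; exact ⟨j, rfl, h⟩

theorem value_step [Zero S] [One S] (hM : IsModel op) {D E : Diagram} (h : Step D E) :
    value op D.1 = value op E.1 := by
  obtain ⟨A, B, X, Y, hXY, hD, hE⟩ := h
  have wD := D.2
  have wE := E.2
  rw [hD] at wD
  rw [hE] at wE
  obtain ⟨j, hj, hB⟩ := width_split wD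
  obtain ⟨n, hA, hX⟩ := width_split hj
  obtain ⟨j', hj', hB'⟩ := width_split wE
  obtain ⟨n', hA', hY⟩ := width_split hj'
  rw [hA] at hA'
  obtain rfl : n = n' := by simpa using hA'
  rw [hD, hE]
  unfold value
  rw [eval_append, eval_append, eval_append, eval_append]
  apply eval_congr hM A 0 n _ _ hA _ [] rfl
  intro l hl
  exact move_rule hM hXY hX hY _ l hl

/-- The link invariant defined by a state-sum model. -/
def invariant [Zero S] [One S] (hM : IsModel op) : FramedLink → S :=
  Quot.lift (fun D => value op D.1) fun _ _ h => value_step hM h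

theorem invariant_mk [Zero S] [One S] (hM : IsModel op) (w : List (ℕ × Piece))
    (h : width 0 w = some 0) : invariant hM (mkLink w h) = value op w := rfl

/-- A local identity gives an identity between values in every diagram. -/
theorem value_context [Zero S] [One S] (hM : IsModel op) {A B : List (ℕ × Piece)} {n : ℕ}
    (hA : width 0 A = some n) (F G : (List C → S) → List C → S)
    (h : ∀ (f : List C → S) (l : List C), l.length = n → F f l = G f l) :
    eval op A (F (eval op B unitFun)) [] = eval op A (G (eval op B unitFun)) [] :=
  eval_congr hM A 0 n _ _ hA (fun l hl => h _ l hl) [] rfl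

end Pool.Agent.Helper62.StateSum
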