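import Mathlib
import Pool.Agent.Helper62.StateSum

set_option linter.unusedSimpArgs false

namespace Pool.Agent.Helper62.Linear

open Pool.Agent.Helper62.Skein Pool.Agent.Helper62.StateSum

variable {C S : Type*} [CommSemiring S]

/-- the local operators are linear -/
structure IsLinear (op : Op C S) : Prop where
  smul : ∀ (x : Piece) (s : S) (g : List C → S) (Z : List C), Z.length = x.low →
    op x (fun Y => s * g Y) Z = s * op x g Z
  add : ∀ (x : Piece) (g h : List C → S) (Z : List C), Z.length = x.low →
    op x (fun Y => g Y + h Y) Z = op x g Z + op x h Z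

variable {op : Op C S}

theorem eval_smul (hM : IsModel op) (hL : IsLinear op) (w : List (ℕ × Piece)) :
    ∀ (n m : ℕ) (s : S) (f : List C → S), width n w = some m → ∀ l : List C, l.length = n →
      eval op w (fun Y => s * f Y) l = s * eval op w f l := by
  induction w with
  | nil => intro n m s f _ l _; rfl
  | cons x w ih =>
    obtain ⟨k, x⟩ := x
    intro n m s f hw l hl
    obtain ⟨h1, h2⟩ := width_cons hw
    simp only [eval, act]
    rw [← hL.smul x s _ _ (by simp only [List.length_take, List.length_drop]; omega)]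
    apply hM.congr
    · simp only [List.length_take, List.length_drop]; omega
    · intro Y hY
      exact ih _ _ s f h2 _ (by rw [length_ins (by omega) hY, hl])

theorem eval_add (hM : IsModel op) (hL : IsLinear op) (w : List (ℕ × Piece)) :
    ∀ (n m : ℕ) (f g : List C → S), width n w = some m → ∀ l : List C, l.length = n →
      eval op w (fun Y => f Y + g Y) l = eval op w f l + eval op w g l := by
  induction w with
  | nil => intro n m f g _ l _; rfl
  | cons x w ih =>
    obtain ⟨k, x⟩ := x
    intro n m f g hw l hl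
    obtain ⟨h1, h2⟩ := width_cons hw
    simp only [eval, act]
    rw [← hL.add x _ _ _ (by simp only [List.length_take, List.length_drop]; omega)]
    apply hM.congr
    · simp only [List.length_take, List.length_drop]; omega
    · intro Y hY
      exact ih _ _ f g h2 _ (by rw [length_ins (by omega) hY, hl])

theorem split3 {l : List C} {k n0 : ℕ} (h : k + n0 ≤ l.length) :
    ∃ A Z B : List C, l = A ++ Z ++ B ∧ A.length = k ∧ Z.length = n0 := by
  refine ⟨l.take k, (l.drop k).take n0, (l.drop k).drop n0, ?_, ?_, ?_⟩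
  · rw [List.append_assoc, List.take_append_drop, List.take_append_drop]
  · simp only [List.length_take]; omega
  · simp only [List.length_take, List.length_drop]; omega

/-- A local multiple: if the word `X` on `n0` strands acts as `s` times the word `Y`, then the same
holds for the values of all diagrams. -/
theorem value_smul (hM : IsModel op) (hL : IsLinear op) {X Y : List (ℕ × Piece)} {n0 : ℕ} (s : S)
    (hX : width n0 X = some n0) (hY : width n0 Y = some n0)
    (h : ∀ (f : List C → S) (Z : List C), Z.length = n0 → eval op X f Z = s * eval op Y f Z)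
    (A B : List (ℕ × Piece)) (n k : ℕ) (hA : width 0 A = some n) (hk : k + n0 ≤ n) :
    value op (A ++ shiftWord k X ++ B) = s * value op (A ++ shiftWord k Y ++ B) := by
  unfold value
  rw [eval_append, eval_append, eval_append, eval_append, ← eval_smul hM hL A 0 n _ _ hA [] rfl]
  apply eval_congr hM A 0 n _ _ hA _ [] rfl
  intro l hl
  obtain ⟨A', Z, B', rfl, rfl, hZ⟩ := split3 (l := l) (k := k) (n0 := n0) (by omega)
  rw [eval_shift hM X n0 n0 _ A' Z B' hX hZ, eval_shift hM Y n0 n0 _ A' Z B' hY hZ]
  exact h _ _ hZ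

/-- A local five-term relation holds for the values of all diagrams. -/
theorem value_rel5 (hM : IsModel op) (hL : IsLinear op) {X0 X1 X2 X3 X4 : List (ℕ × Piece)}
    {n0 : ℕ} (s0 s1 s2 s3 s4 : S)
    (h0 : width n0 X0 = some n0) (h1 : width n0 X1 = some n0) (h2 : width n0 X2 = some n0)
    (h3 : width n0 X3 = some n0) (h4 : width n0 X4 = some n0)
    (h : ∀ (f : List C → S) (Z : List C), Z.length = n0 → s0 * eval op X0 f Z + s1 * eval op X1 f Z
      + s2 * eval op X2 f Z + s3 * eval op X3 f Z + s4 * eval op X4 f Z = 0)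
    (A B : List (ℕ × Piece)) (n k : ℕ) (hA : width 0 A = some n) (hk : k + n0 ≤ n) :
    s0 * value op (A ++ shiftWord k X0 ++ B) + s1 * value op (A ++ shiftWord k X1 ++ B)
      + s2 * value op (A ++ shiftWord k X2 ++ B) + s3 * value op (A ++ shiftWord k X3 ++ B)
      + s4 * value op (A ++ shiftWord k X4 ++ B) = 0 := by
  unfold value
  simp only [eval_append]
  have z : eval op A (fun _ => (0 : S)) [] = 0 := by
    have := eval_smul hM hL A 0 n (0 : S) (fun _ => 0) hA [] rfl
    simpa using this
  rw [← z, ← eval_smul hM hL A 0 n _ _ hA [] rfl, ← eval_smul hM hL A 0 n _ _ hA [] rfl,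
    ← eval_smul hM hL A 0 n _ _ hA [] rfl, ← eval_smul hM hL A 0 n _ _ hA [] rfl,
    ← eval_smul hM hL A 0 n _ _ hA [] rfl,
    ← eval_add hM hL A 0 n _ _ hA [] rfl, ← eval_add hM hL A 0 n _ _ hA [] rfl,
    ← eval_add hM hL A 0 n _ _ hA [] rfl, ← eval_add hM hL A 0 n _ _ hA [] rfl]
  apply eval_congr hM A 0 n _ _ hA _ [] rfl
  intro l hl
  obtain ⟨A', Z, B', rfl, rfl, hZ⟩ := split3 (l := l) (k := k) (n0 := n0) (by omega)
  rw [eval_shift hM X0 n0 n0 _ A' Z B' h0 hZ, eval_shift hM X1 n0 n0 _ A' Z B' h1 hZ,
    eval_shift hM X2 n0 n0 _ A' Z B' h2 hZ, eval_shift hM X3 n0 n0 _ A' Z B' h3 hZ,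
    eval_shift hM X4 n0 n0 _ A' Z B' h4 hZ]
  exact h _ _ hZ

end Pool.Agent.Helper62.Linear
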