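import Mathlib
import Pool.Agent.Helper62.Linear

set_option linter.unusedSimpArgs false
set_option linter.unnecessarySeqFocus false

namespace Pool.Agent.Helper62.Bracket

open Pool.Agent.Helper62.Skein Pool.Agent.Helper62.StateSum Pool.Agent.Helper62.Linear

variable {K : Type*} [Field K]

/-- the cup vector paired with `g` -/
def cupF (A : K) (g : List Bool → K) : K := A * g [true, false] - A⁻¹ * g [false, true]

/-- the cap functional -/
def capM (A : K) : Bool → Bool → K
  | true, false => -A
  | false, true => A⁻¹
  | _, _ => 0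

/-- The state sum model of the Kauffman bracket. -/
def bracketOp (A : K) : Op Bool K
  | .cup, g, _ => cupF A g
  | .cap, g, [c, d] => capM A c d * g []
  | .pos, g, [c, d] => A * g [c, d] + A⁻¹ * (capM A c d * cupF A g)
  | .neg, g, [c, d] => A⁻¹ * g [c, d] + A * (capM A c d * cupF A g)
  | _, _, _ => 0

theorem bracket_congr (A : K) (x : Piece) (g h : List Bool → K) (Z : List Bool)
    (hZ : Z.length = x.low) (hgh : ∀ Y : List Bool, Y.length = x.high → g Y = h Y) :
    bracketOp A x g Z = bracketOp A x h Z := by
  cases x with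
  | cup => simp only [bracketOp, cupF]; rw [hgh _ rfl, hgh _ rfl]
  | cap =>
    match Z, hZ with
    | [c, d], _ => simp only [bracketOp]; rw [hgh _ rfl]
  | pos =>
    match Z, hZ with
    | [c, d], _ => simp only [bracketOp, cupF]; rw [hgh _ rfl, hgh _ rfl, hgh _ rfl]
  | neg =>
    match Z, hZ with
    | [c, d], _ => simp only [bracketOp, cupF]; rw [hgh _ rfl, hgh _ rfl, hgh _ rfl]

theorem bracket_comm (A : K) (x y : Piece) (G : List Bool → List Bool → K) (Z W : List Bool)
    (hZ : Z.length = x.low) (hW : W.length = y.low) :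
    bracketOp A x (fun Y => bracketOp A y (fun V => G Y V) W) Z
      = bracketOp A y (fun V => bracketOp A x (fun Y => G Y V) Z) W := by
  cases x <;> cases y <;> simp only [Piece.low] at hZ hW
  all_goals
    first
    | obtain rfl := List.length_eq_zero_iff.mp hZ
    | obtain ⟨c, d, rfl⟩ := List.length_eq_two.mp hZ
  all_goals
    first
    | obtain rfl := List.length_eq_zero_iff.mp hW
    | obtain ⟨c', d', rfl⟩ := List.length_eq_two.mp hW
  all_goals simp only [bracketOp, cupF]
  all_goals ring

theorem bracket_linear (A : K) : IsLinear (bracketOp A) := by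
  constructor
  · intro x s g Z hZ
    cases x <;> simp only [Piece.low] at hZ
    all_goals
      first
      | obtain rfl := List.length_eq_zero_iff.mp hZ
      | obtain ⟨c, d, rfl⟩ := List.length_eq_two.mp hZ
    all_goals simp only [bracketOp, cupF]
    all_goals ring
  · intro x g h Z hZ
    cases x <;> simp only [Piece.low] at hZ
    all_goals
      first
      | obtain rfl := List.length_eq_zero_iff.mp hZ
      | obtain ⟨c, d, rfl⟩ := List.length_eq_two.mp hZ
    all_goals simp only [bracketOp, cupF]
    all_goals ring

set_option maxHeartbeats 4000000 in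
theorem bracket_model {A : K} (hA : A ≠ 0) : IsModel (bracketOp A) := by
  refine ⟨bracket_congr A, bracket_comm A, ?_, ?_, ?_, ?_, ?_, ?_, ?_, ?_, ?_, ?_, ?_⟩
  · intro f x; cases x <;> simp [eval, act, bracketOp, cupF, capM, Piece.low, hA]
  · intro f x; cases x <;> simp [eval, act, bracketOp, cupF, capM, Piece.low, hA]
  · intro f x; cases x <;> simp [eval, act, bracketOp, cupF, capM, Piece.low, hA] <;> field_simp <;>
      ring
  · intro f x; cases x <;> simp [eval, act, bracketOp, cupF, capM, Piece.low, hA] <;> field_simp <;>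
      ring
  · intro f x y z
    cases x <;> cases y <;> cases z <;> simp [eval, act, bracketOp, cupF, capM, Piece.low, hA] <;>
      field_simp <;> ring
  · intro f x y z
    cases x <;> cases y <;> cases z <;> simp [eval, act, bracketOp, cupF, capM, Piece.low, hA] <;>
      field_simp <;> ring
  · intro f x; cases x <;> simp [eval, act, bracketOp, cupF, capM, Piece.low, hA] <;> field_simp <;>
      ring
  · intro f x; cases x <;> simp [eval, act, bracketOp, cupF, capM, Piece.low, hA] <;> field_simp <;>
      ring
  · intro f x y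
    cases x <;> cases y <;> simp [eval, act, bracketOp, cupF, capM, Piece.low, hA] <;>
      field_simp <;> ring
  · intro f x y
    cases x <;> cases y <;> simp [eval, act, bracketOp, cupF, capM, Piece.low, hA] <;>
      field_simp <;> ring
  · intro f x y z
    cases x <;> cases y <;> cases z <;> simp [eval, act, bracketOp, cupF, capM, Piece.low, hA] <;>
      field_simp <;> ring

/-- a positive curl multiplies the bracket by `-A³` -/
theorem bracket_curl {a : K} (ha : a ≠ 0) (A B : List (ℕ × Piece)) (n k : ℕ)
    (hA : width 0 A = some n) (hk : k + 1 ≤ n) :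
    value (bracketOp a) (A ++ [(k + 1, Piece.cup), (k, Piece.pos), (k + 1, Piece.cap)] ++ B)
      = (-a ^ 3) * value (bracketOp a) (A ++ B) := by
  have := value_smul (bracket_model ha) (bracket_linear a)
    (X := [(1, Piece.cup), (0, Piece.pos), (1, Piece.cap)]) (Y := []) (n0 := 1) (-a ^ 3) rfl rfl
    (by
      intro f Z hZ
      obtain ⟨x, rfl⟩ := List.length_eq_one_iff.mp hZ
      cases x <;> simp [eval, act, bracketOp, cupF, capM, Piece.low, ha] <;> field_simp <;> ring)
    A B n k hA hk
  simpa [shiftWord] using this

/-- the bracket satisfies every relation with the crossing eigenvalue `A` as a root -/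
theorem bracket_rel {a : K} (ha : a ≠ 0) {b0 b1 b2 b3 bi : K}
    (h1 : b0 + b1 * a + b2 * a ^ 2 + b3 * a ^ 3 = 0)
    (h2 : b1 * a ^ 6 + b2 * (a ^ 7 - a ^ 3) + b3 * (a ^ 8 - a ^ 4 + 1) + bi * a ^ 7 = 0)
    (A B : List (ℕ × Piece)) (n k : ℕ) (hA : width 0 A = some n) (hk : k + 2 ≤ n) :
    b0 * value (bracketOp a) (A ++ B) + b1 * value (bracketOp a) (A ++ [(k, Piece.pos)] ++ B)
      + b2 * value (bracketOp a) (A ++ [(k, Piece.pos), (k, Piece.pos)] ++ B)
      + b3 * value (bracketOp a) (A ++ [(k, Piece.pos), (k, Piece.pos), (k, Piece.pos)] ++ B)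
      + bi * value (bracketOp a) (A ++ [(k, Piece.cap), (k, Piece.cup)] ++ B) = 0 := by
  have := value_rel5 (bracket_model ha) (bracket_linear a)
    (X0 := []) (X1 := [(0, Piece.pos)]) (X2 := [(0, Piece.pos), (0, Piece.pos)])
    (X3 := [(0, Piece.pos), (0, Piece.pos), (0, Piece.pos)]) (X4 := [(0, Piece.cap), (0, Piece.cup)])
    (n0 := 2) b0 b1 b2 b3 bi rfl rfl rfl rfl rfl
    (by
      intro f Z hZ
      have e0 : b0 = -(b1 * a + b2 * a ^ 2 + b3 * a ^ 3) := by linear_combination h1
      have ei : bi = -(b1 * a ^ 6 + b2 * (a ^ 7 - a ^ 3) + b3 * (a ^ 8 - a ^ 4 + 1)) / a ^ 7 := by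
        field_simp
        linear_combination h2
      rw [e0, ei]
      obtain ⟨x, y, rfl⟩ := List.length_eq_two.mp hZ
      cases x <;> cases y <;> simp [eval, act, bracketOp, cupF, capM, Piece.low, ha] <;>
        field_simp <;> ring)
    A B n k hA hk
  simpa [shiftWord] using this

theorem bracket_trivialLink (a : K) (i : ℕ) :
    value (bracketOp a) (trivialLink i) = (-a ^ 2 - a⁻¹ ^ 2) ^ i := by
  induction i with
  | zero => simp [trivialLink, value, eval, unitFun]
  | succ i ih =>
    have : trivialLink (i + 1) = [((0 : ℕ), Piece.cup), (0, Piece.cap)] ++ trivialLink i := by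
      simp [trivialLink, List.replicate_succ]
    unfold value at ih ⊢
    rw [this, eval_append]
    simp only [eval, act, bracketOp, cupF, capM, Piece.low, List.take_zero, List.drop_zero,
      List.nil_append, List.append_nil, List.take, List.drop, List.take_nil, List.drop_nil]
    simp
    rw [ih]
    ring

end Pool.Agent.Helper62.Bracket
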