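import Mathlib
import Pool.Agent.Helper62.Linear

set_option linter.unusedSimpArgs false
set_option linter.unnecessarySeqFocus false

namespace Pool.Agent.Helper62.BracketRing

open Pool.Agent.Helper62.Skein Pool.Agent.Helper62.StateSum Pool.Agent.Helper62.Linear

variable {S : Type*} [CommRing S]

/-- the cup vector paired with `g` -/
def cupF (A Ai : S) (g : List Bool → S) : S := A * g [true, false] - Ai * g [false, true]

/-- the cap functional -/
def capM (A Ai : S) : Bool → Bool → S
  | true, false => -A
  | false, true => Ai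
  | _, _ => 0

/-- The state sum model of the Kauffman bracket. -/
def bracketOp (A Ai : S) : Op Bool S
  | .cup, g, _ => cupF A Ai g
  | .cap, g, [c, d] => capM A Ai c d * g []
  | .pos, g, [c, d] => A * g [c, d] + Ai * (capM A Ai c d * cupF A Ai g)
  | .neg, g, [c, d] => Ai * g [c, d] + A * (capM A Ai c d * cupF A Ai g)
  | _, _, _ => 0

theorem bracket_congr (A Ai : S) (x : Piece) (g h : List Bool → S) (Z : List Bool)
    (hZ : Z.length = x.low) (hgh : ∀ Y : List Bool, Y.length = x.high → g Y = h Y) :
    bracketOp A Ai x g Z = bracketOp A Ai x h Z := by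
  cases x with
  | cup => simp only [bracketOp, cupF]; rw [hgh _ rfl, hgh _ rfl]
  | cap =>
    match Z, hZ with
    | [c, d], _ => simp only [bracketOp]; rw [hgh _ rfl]
  | pos =>
    match Z, hZ with
    | [c, d], _ => simp only [bracketOp, cupF]; rw [hgh _ rfl, hgh _ rfl, hgh _ rfl]
  | neg =>
    match Z, hZ with
    | [c, d], _ => simp only [bracketOp, cupF]; rw [hgh _ rfl, hgh _ rfl, hgh _ rfl]

theorem bracket_comm (A Ai : S) (x y : Piece) (G : List Bool → List Bool → S) (Z W : List Bool)
    (hZ : Z.length = x.low) (hW : W.length = y.low) :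
    bracketOp A Ai x (fun Y => bracketOp A Ai y (fun V => G Y V) W) Z
      = bracketOp A Ai y (fun V => bracketOp A Ai x (fun Y => G Y V) Z) W := by
  cases x <;> cases y <;> simp only [Piece.low] at hZ hW
  all_goals
    first
    | obtain rfl := List.length_eq_zero_iff.mp hZ
    | obtain ⟨c, d, rfl⟩ := List.length_eq_two.mp hZ
  all_goals
    first
    | obtain rfl := List.length_eq_zero_iff.mp hW
    | obtain ⟨c', d', rfl⟩ := List.length_eq_two.mp hW
  all_goals simp only [bracketOp, cupF]
  all_goals ring

theorem bracket_linear (A Ai : S) : IsLinear (bracketOp A Ai) := by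
  constructor
  · intro x s g Z hZ
    cases x <;> simp only [Piece.low] at hZ
    all_goals
      first
      | obtain rfl := List.length_eq_zero_iff.mp hZ
      | obtain ⟨c, d, rfl⟩ := List.length_eq_two.mp hZ
    all_goals simp only [bracketOp, cupF]
    all_goals ring
  · intro x g h Z hZ
    cases x <;> simp only [Piece.low] at hZ
    all_goals
      first
      | obtain rfl := List.length_eq_zero_iff.mp hZ
      | obtain ⟨c, d, rfl⟩ := List.length_eq_two.mp hZ
    all_goals simp only [bracketOp, cupF]
    all_goals ring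

set_option maxHeartbeats 4000000 in
theorem bracket_model {A Ai : S} (hA : A * Ai = 1) : IsModel (bracketOp A Ai) := by
  refine ⟨bracket_congr A Ai, bracket_comm A Ai, ?_, ?_, ?_, ?_, ?_, ?_, ?_, ?_, ?_, ?_, ?_⟩
  · intro f x; cases x <;> simp [eval, act, bracketOp, cupF, capM, Piece.low]
    all_goals grind
  · intro f x; cases x <;> simp [eval, act, bracketOp, cupF, capM, Piece.low]
    all_goals grind
  · intro f x; cases x <;> simp [eval, act, bracketOp, cupF, capM, Piece.low]
    all_goals grind
  · intro f x; cases x <;> simp [eval, act, bracketOp, cupF, capM, Piece.low]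
    all_goals grind
  · intro f x y z
    cases x <;> cases y <;> cases z <;> simp [eval, act, bracketOp, cupF, capM, Piece.low]
    all_goals grind
  · intro f x y z
    cases x <;> cases y <;> cases z <;> simp [eval, act, bracketOp, cupF, capM, Piece.low]
    all_goals grind
  · intro f x; cases x <;> simp [eval, act, bracketOp, cupF, capM, Piece.low]
    all_goals grind
  · intro f x; cases x <;> simp [eval, act, bracketOp, cupF, capM, Piece.low]
    all_goals grind
  · intro f x y
    cases x <;> cases y <;> simp [eval, act, bracketOp, cupF, capM, Piece.low]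
    all_goals grind
  · intro f x y
    cases x <;> cases y <;> simp [eval, act, bracketOp, cupF, capM, Piece.low]
    all_goals grind
  · intro f x y z
    cases x <;> cases y <;> cases z <;> simp [eval, act, bracketOp, cupF, capM, Piece.low]
    all_goals try grind

/-- a positive curl multiplies the bracket by `-A³` -/
theorem bracket_curl {a ai : S} (ha : a * ai = 1) (A B : List (ℕ × Piece)) (n k : ℕ)
    (hA : width 0 A = some n) (hk : k + 1 ≤ n) :
    value (bracketOp a ai) (A ++ [(k + 1, Piece.cup), (k, Piece.pos), (k + 1, Piece.cap)] ++ B)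
      = (-a ^ 3) * value (bracketOp a ai) (A ++ B) := by
  have := value_smul (bracket_model ha) (bracket_linear a ai)
    (X := [(1, Piece.cup), (0, Piece.pos), (1, Piece.cap)]) (Y := []) (n0 := 1) (-a ^ 3) rfl rfl
    (by
      intro f Z hZ
      obtain ⟨x, rfl⟩ := List.length_eq_one_iff.mp hZ
      cases x <;> simp [eval, act, bracketOp, cupF, capM, Piece.low]
      all_goals grind)
    A B n k hA hk
  simpa [shiftWord] using this

theorem eval_pos1 (a ai : S) (f : List Bool → S) (x y : Bool) :
    eval (bracketOp a ai) [(0, Piece.pos)] f [x, y]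
      = a * f [x, y] + ai * (capM a ai x y * cupF a ai f) := by
  simp [eval, act, bracketOp, cupF, Piece.low]

theorem eval_e (a ai : S) (f : List Bool → S) (x y : Bool) :
    eval (bracketOp a ai) [(0, Piece.cap), (0, Piece.cup)] f [x, y]
      = capM a ai x y * cupF a ai f := by
  simp [eval, act, bracketOp, cupF, Piece.low]

theorem cupF_pos {a ai : S} (ha : a * ai = 1) (f : List Bool → S) :
    cupF a ai (eval (bracketOp a ai) [(0, Piece.pos)] f) = -ai ^ 3 * cupF a ai f := by
  unfold cupF
  rw [eval_pos1, eval_pos1]
  simp only [capM, cupF]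
  grind

theorem eval_pos2 {a ai : S} (ha : a * ai = 1) (f : List Bool → S) (x y : Bool) :
    eval (bracketOp a ai) [(0, Piece.pos), (0, Piece.pos)] f [x, y]
      = a ^ 2 * f [x, y] + (1 - ai ^ 4) * (capM a ai x y * cupF a ai f) := by
  have e : eval (bracketOp a ai) [(0, Piece.pos), (0, Piece.pos)] f [x, y]
      = eval (bracketOp a ai) [(0, Piece.pos)] (eval (bracketOp a ai) [(0, Piece.pos)] f) [x, y] :=
    rfl
  rw [e, eval_pos1, cupF_pos ha, eval_pos1]
  linear_combination (capM a ai x y * cupF a ai f) * ha

theorem eval_pos3 {a ai : S} (ha : a * ai = 1) (f : List Bool → S) (x y : Bool) :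
    eval (bracketOp a ai) [(0, Piece.pos), (0, Piece.pos), (0, Piece.pos)] f [x, y]
      = a ^ 3 * f [x, y] + (a - ai ^ 3 + ai ^ 7) * (capM a ai x y * cupF a ai f) := by
  have e : eval (bracketOp a ai) [(0, Piece.pos), (0, Piece.pos), (0, Piece.pos)] f [x, y]
      = eval (bracketOp a ai) [(0, Piece.pos), (0, Piece.pos)]
          (eval (bracketOp a ai) [(0, Piece.pos)] f) [x, y] := rfl
  rw [e, eval_pos2 ha, cupF_pos ha, eval_pos1]
  linear_combination (a * capM a ai x y * cupF a ai f) * ha

/-- the bracket satisfies every relation with the crossing eigenvalue `A` as a root -/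
theorem bracket_rel {a ai : S} (ha : a * ai = 1) {b0 b1 b2 b3 bi : S}
    (h1 : b0 + b1 * a + b2 * a ^ 2 + b3 * a ^ 3 = 0)
    (h2 : b1 * ai + b2 * (1 - ai ^ 4) + b3 * (a - ai ^ 3 + ai ^ 7) + bi = 0)
    (A B : List (ℕ × Piece)) (n k : ℕ) (hA : width 0 A = some n) (hk : k + 2 ≤ n) :
    b0 * value (bracketOp a ai) (A ++ B) + b1 * value (bracketOp a ai) (A ++ [(k, Piece.pos)] ++ B)
      + b2 * value (bracketOp a ai) (A ++ [(k, Piece.pos), (k, Piece.pos)] ++ B)
      + b3 * value (bracketOp a ai) (A ++ [(k, Piece.pos), (k, Piece.pos), (k, Piece.pos)] ++ B)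
      + bi * value (bracketOp a ai) (A ++ [(k, Piece.cap), (k, Piece.cup)] ++ B) = 0 := by
  have := value_rel5 (bracket_model ha) (bracket_linear a ai)
    (X0 := []) (X1 := [(0, Piece.pos)]) (X2 := [(0, Piece.pos), (0, Piece.pos)])
    (X3 := [(0, Piece.pos), (0, Piece.pos), (0, Piece.pos)]) (X4 := [(0, Piece.cap), (0, Piece.cup)])
    (n0 := 2) b0 b1 b2 b3 bi rfl rfl rfl rfl rfl
    (by
      intro f Z hZ
      obtain ⟨x, y, rfl⟩ := List.length_eq_two.mp hZ
      rw [eval_pos1, eval_pos2 ha, eval_pos3 ha, eval_e]
      simp only [eval]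
      linear_combination (f [x, y]) * h1 + (capM a ai x y * cupF a ai f) * h2)
    A B n k hA hk
  simpa [shiftWord] using this

/-! ### Invariance under the raising operator -/

/-- weight of a state -/
def kap (A Ai : S) : List Bool → S
  | [] => 1
  | true :: l => A ^ 2 * kap A Ai l
  | false :: l => Ai ^ 2 * kap A Ai l

/-- the raising operator -/
def E (A Ai : S) : (List Bool → S) → List Bool → S
  | _, [] => 0
  | f, true :: l => kap A Ai l * f (false :: l) + E A Ai (fun l' => f (true :: l')) l
  | f, false :: l => E A Ai (fun l' => f (false :: l')) l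

variable {A Ai : S}

theorem kap_append (P Q : List Bool) : kap A Ai (P ++ Q) = kap A Ai P * kap A Ai Q := by
  induction P with
  | nil => simp [kap]
  | cons x P ih => cases x <;> simp [kap, ih, mul_assoc]

theorem E_congr (l : List Bool) : ∀ (f g : List Bool → S),
    (∀ l' : List Bool, l'.length = l.length → f l' = g l') → E A Ai f l = E A Ai g l := by
  induction l with
  | nil => intro f g _; rfl
  | cons x l ih =>
    intro f g h
    have h2 : ∀ y : Bool, E A Ai (fun l' => f (y :: l')) l = E A Ai (fun l' => g (y :: l')) l :=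
      fun y => ih _ _ fun l' hl' => h _ (by simp [hl'])
    cases x
    · exact h2 false
    · simp only [E]
      rw [h2 true, h (false :: l) (by simp)]

theorem E_append (Q : List Bool) (P : List Bool) : ∀ f : List Bool → S,
    E A Ai f (P ++ Q) = kap A Ai Q * E A Ai (fun P' => f (P' ++ Q)) P
      + E A Ai (fun Q' => f (P ++ Q')) Q := by
  induction P with
  | nil => intro f; simp [E]
  | cons x P ih =>
    intro f
    cases x
    · simp only [List.cons_append, E]
      rw [ih]
    · simp only [List.cons_append, E]
      rw [ih, kap_append]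
      ring

theorem E_lin (s t : S) (l : List Bool) : ∀ f g : List Bool → S,
    E A Ai (fun l' => s * f l' + t * g l') l = s * E A Ai f l + t * E A Ai g l := by
  induction l with
  | nil => intro f g; simp [E]
  | cons x l ih =>
    intro f g
    cases x
    · simp only [E]; rw [ih]
    · simp only [E]; rw [ih]; ring

theorem split_at {l : List Bool} {k : ℕ} (h : k ≤ l.length) :
    ∃ P Q : List Bool, l = P ++ Q ∧ P.length = k :=
  ⟨l.take k, l.drop k, by simp, by simp [h]⟩

theorem act_cup_eq (f : List Bool → S) (P Q : List Bool) :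
    act (bracketOp A Ai) P.length Piece.cup f (P ++ Q)
      = A * f (P ++ [true, false] ++ Q) - Ai * f (P ++ [false, true] ++ Q) := by
  simp only [act, bracketOp, cupF, Piece.low, Nat.add_zero, List.take_left', List.drop_left']

theorem act_cap_eq (f : List Bool → S) (P Q : List Bool) (x y : Bool) :
    act (bracketOp A Ai) P.length Piece.cap f (P ++ ([x, y] ++ Q))
      = capM A Ai x y * f (P ++ Q) := by
  have h1 : (List.drop P.length (P ++ ([x, y] ++ Q))).take 2 = [x, y] := by
    rw [List.drop_left]; rfl
  have h2 : List.drop (P.length + 2) (P ++ ([x, y] ++ Q)) = Q := by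
    rw [← List.drop_drop, List.drop_left]; rfl
  simp only [act, Piece.low]
  rw [h1, h2, List.take_left]
  simp [bracketOp]

theorem act_pos_eq (f : List Bool → S) (P Q : List Bool) (x y : Bool) :
    act (bracketOp A Ai) P.length Piece.pos f (P ++ ([x, y] ++ Q))
      = A * f (P ++ ([x, y] ++ Q))
        + Ai * act (bracketOp A Ai) P.length Piece.cap
            (act (bracketOp A Ai) P.length Piece.cup f) (P ++ ([x, y] ++ Q)) := by
  rw [act_cap_eq, act_cup_eq]
  have h1 : (List.drop P.length (P ++ ([x, y] ++ Q))).take 2 = [x, y] := by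
    rw [List.drop_left]; rfl
  have h2 : List.drop (P.length + 2) (P ++ ([x, y] ++ Q)) = Q := by
    rw [← List.drop_drop, List.drop_left]; rfl
  simp only [act, Piece.low]
  rw [h1, h2, List.take_left]
  simp [bracketOp, cupF]

theorem act_neg_eq (f : List Bool → S) (P Q : List Bool) (x y : Bool) :
    act (bracketOp A Ai) P.length Piece.neg f (P ++ ([x, y] ++ Q))
      = Ai * f (P ++ ([x, y] ++ Q))
        + A * act (bracketOp A Ai) P.length Piece.cap
            (act (bracketOp A Ai) P.length Piece.cup f) (P ++ ([x, y] ++ Q)) := by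
  rw [act_cap_eq, act_cup_eq]
  have h1 : (List.drop P.length (P ++ ([x, y] ++ Q))).take 2 = [x, y] := by
    rw [List.drop_left]; rfl
  have h2 : List.drop (P.length + 2) (P ++ ([x, y] ++ Q)) = Q := by
    rw [← List.drop_drop, List.drop_left]; rfl
  simp only [act, Piece.low]
  rw [h1, h2, List.take_left]
  simp [bracketOp, cupF]

theorem E_cup (hA : A * Ai = 1) (k : ℕ) (f : List Bool → S) (l : List Bool) (hk : k ≤ l.length) :
    E A Ai (act (bracketOp A Ai) k Piece.cup f) l
      = act (bracketOp A Ai) k Piece.cup (E A Ai f) l := by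
  obtain ⟨P, Q, rfl, rfl⟩ := split_at hk
  rw [act_cup_eq, E_append, List.append_assoc, List.append_assoc,
    E_append ([true, false] ++ Q) P, E_append ([false, true] ++ Q) P, E_append Q [true, false],
    E_append Q [false, true]]
  have e1 : E A Ai (fun P' => act (bracketOp A Ai) P.length Piece.cup f (P' ++ Q)) P
      = A * E A Ai (fun P' => f (P' ++ ([true, false] ++ Q))) P
        + (-Ai) * E A Ai (fun P' => f (P' ++ ([false, true] ++ Q))) P := by
    rw [← E_lin]
    apply E_congr
    intro P' hP'
    rw [← hP', act_cup_eq, List.append_assoc, List.append_assoc]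
    ring
  have e2 : E A Ai (fun Q' => act (bracketOp A Ai) P.length Piece.cup f (P ++ Q')) Q
      = A * E A Ai (fun Q' => f (P ++ ([true, false] ++ Q'))) Q
        + (-Ai) * E A Ai (fun Q' => f (P ++ ([false, true] ++ Q'))) Q := by
    rw [← E_lin]
    apply E_congr
    intro Q' _
    rw [act_cup_eq, List.append_assoc, List.append_assoc]
    ring
  rw [e1, e2, kap_append, kap_append]
  simp only [E, kap]
  grind

theorem E_cap (hA : A * Ai = 1) (k : ℕ) (f : List Bool → S) (l : List Bool)
    (hk : k + 2 ≤ l.length) :
    E A Ai (act (bracketOp A Ai) k Piece.cap f) l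
      = act (bracketOp A Ai) k Piece.cap (E A Ai f) l := by
  obtain ⟨P, Z, Q, rfl, rfl, hZ⟩ := split3 hk
  obtain ⟨x, y, rfl⟩ := List.length_eq_two.mp hZ
  rw [List.append_assoc, act_cap_eq, E_append, E_append Q P, E_append Q [x, y]]
  have e1 : E A Ai (fun P' => act (bracketOp A Ai) P.length Piece.cap f (P' ++ ([x, y] ++ Q))) P
      = capM A Ai x y * E A Ai (fun P' => f (P' ++ Q)) P + 0 * E A Ai (fun P' => f (P' ++ Q)) P := by
    rw [← E_lin]
    apply E_congr
    intro P' hP'
    rw [← hP', act_cap_eq]
    ring
  have e2 : E A Ai (fun Q' => act (bracketOp A Ai) P.length Piece.cap f (P ++ ([x, y] ++ Q'))) Q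
      = capM A Ai x y * E A Ai (fun Q' => f (P ++ Q')) Q + 0 * E A Ai (fun Q' => f (P ++ Q')) Q := by
    rw [← E_lin]
    apply E_congr
    intro Q' _
    rw [act_cap_eq]
    ring
  rw [e1, e2, kap_append]
  cases x <;> cases y <;> simp only [E, kap, act_cap_eq, capM] <;> grind

theorem E_pos (hA : A * Ai = 1) (k : ℕ) (f : List Bool → S) (l : List Bool)
    (hk : k + 2 ≤ l.length) :
    E A Ai (act (bracketOp A Ai) k Piece.pos f) l
      = act (bracketOp A Ai) k Piece.pos (E A Ai f) l := by
  have key : ∀ (g : List Bool → S) (l' : List Bool), k + 2 ≤ l'.length →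
      act (bracketOp A Ai) k Piece.pos g l' = A * g l' + Ai * act (bracketOp A Ai) k Piece.cap
            (act (bracketOp A Ai) k Piece.cup g) l' := by
    intro g l' hl'
    obtain ⟨P, Z, Q, rfl, rfl, hZ⟩ := split3 hl'
    obtain ⟨x, y, rfl⟩ := List.length_eq_two.mp hZ
    rw [List.append_assoc, act_pos_eq]
  rw [E_congr l _ _ fun l' hl' => key f l' (by omega), E_lin, E_cap hA k _ l hk, key _ l hk]
  congr 2
  obtain ⟨P, Z, Q, rfl, rfl, hZ⟩ := split3 hk
  obtain ⟨x, y, rfl⟩ := List.length_eq_two.mp hZ
  rw [List.append_assoc, act_cap_eq, act_cap_eq, E_cup hA _ _ _ (by simp)]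

theorem E_neg (hA : A * Ai = 1) (k : ℕ) (f : List Bool → S) (l : List Bool)
    (hk : k + 2 ≤ l.length) :
    E A Ai (act (bracketOp A Ai) k Piece.neg f) l
      = act (bracketOp A Ai) k Piece.neg (E A Ai f) l := by
  have key : ∀ (g : List Bool → S) (l' : List Bool), k + 2 ≤ l'.length →
      act (bracketOp A Ai) k Piece.neg g l' = Ai * g l' + A * act (bracketOp A Ai) k Piece.cap
            (act (bracketOp A Ai) k Piece.cup g) l' := by
    intro g l' hl'
    obtain ⟨P, Z, Q, rfl, rfl, hZ⟩ := split3 hl'
    obtain ⟨x, y, rfl⟩ := List.length_eq_two.mp hZ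
    rw [List.append_assoc, act_neg_eq]
  rw [E_congr l _ _ fun l' hl' => key f l' (by omega), E_lin, E_cap hA k _ l hk, key _ l hk]
  congr 2
  obtain ⟨P, Z, Q, rfl, rfl, hZ⟩ := split3 hk
  obtain ⟨x, y, rfl⟩ := List.length_eq_two.mp hZ
  rw [List.append_assoc, act_cap_eq, act_cap_eq, E_cup hA _ _ _ (by simp)]

theorem E_eval (hA : A * Ai = 1) (w : List (ℕ × Piece)) :
    ∀ (n m : ℕ) (f : List Bool → S), width n w = some m → ∀ l : List Bool, l.length = n →
      E A Ai (eval (bracketOp A Ai) w f) l = eval (bracketOp A Ai) w (E A Ai f) l := by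
  have hM := bracket_model hA
  induction w with
  | nil => intro n m f _ l _; rfl
  | cons s w ih =>
    obtain ⟨k, p⟩ := s
    intro n m f hw l hl
    obtain ⟨h1, h2⟩ := width_cons hw
    have e1 : E A Ai (act (bracketOp A Ai) k p (eval (bracketOp A Ai) w f)) l
        = act (bracketOp A Ai) k p (E A Ai (eval (bracketOp A Ai) w f)) l := by
      cases p <;> simp only [Piece.low] at h1
      · exact E_cup hA k _ l (by omega)
      · exact E_cap hA k _ l (by omega)
      · exact E_pos hA k _ l (by omega)
      · exact E_neg hA k _ l (by omega)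
    have e0 : E A Ai (eval (bracketOp A Ai) ((k, p) :: w) f) l
        = E A Ai (act (bracketOp A Ai) k p (eval (bracketOp A Ai) w f)) l := by
      apply E_congr; intro _ _; rfl
    rw [e0, e1]
    simp only [eval, act]
    apply hM.congr
    · simp only [List.length_take, List.length_drop]; omega
    · intro Y hY
      exact ih _ _ f h2 _ (by rw [length_ins (by omega) hY, hl])

/-- the functional of a tangle with two lower ends is a multiple of the cap -/
theorem schur (hA : A * Ai = 1) {w : List (ℕ × Piece)} (hw : width 2 w = some 0) :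
    eval (bracketOp A Ai) w unitFun [true, false]
      = -(A ^ 2 * eval (bracketOp A Ai) w unitFun [false, true]) := by
  have hM := bracket_model hA
  have hL := bracket_linear A Ai
  have h1 := E_eval hA w 2 0 unitFun hw [true, true] rfl
  have h2 : eval (bracketOp A Ai) w (E A Ai unitFun) [true, true]
      = eval (bracketOp A Ai) w (fun _ => (0 : S)) [true, true] := by
    apply eval_congr hM w 2 0 _ _ hw _ _ rfl
    intro l hl
    rw [List.length_eq_zero_iff.mp hl]
    rfl
  have h3 : eval (bracketOp A Ai) w (fun _ => (0 : S)) [true, true] = 0 := by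
    have := eval_smul hM hL w 2 0 (0 : S) (fun _ => 0) hw [true, true] rfl
    simpa using this
  rw [h2, h3] at h1
  simp only [E, kap] at h1
  linear_combination h1

/-- the reduced value -/
def red (A Ai : S) : List (ℕ × Piece) → S
  | [] => 0
  | _ :: w => A * eval (bracketOp A Ai) w unitFun [false, true]

theorem value_eq (hA : A * Ai = 1) {w : List (ℕ × Piece)} (hw : width 0 w = some 0)
    (hne : w ≠ []) : value (bracketOp A Ai) w = (-A ^ 2 - Ai ^ 2) * red A Ai w := by
  match w, hne with
  | (k, p) :: w, _ =>
    obtain ⟨h1, h2⟩ := width_cons hw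
    cases p <;> simp only [Piece.low] at h1 <;> try omega
    obtain rfl : k = 0 := by omega
    simp only [Piece.low, Piece.high] at h2
    have hs := schur hA h2
    have e : value (bracketOp A Ai) ((0, Piece.cup) :: w)
        = A * eval (bracketOp A Ai) w unitFun [true, false]
          - Ai * eval (bracketOp A Ai) w unitFun [false, true] := by
      simp [value, eval, act, bracketOp, cupF, Piece.low]
    rw [e, hs]
    simp only [red]
    grind

end Pool.Agent.Helper62.BracketRing
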