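import Mathlib
import Pool.Agent.Helper62.Skein

set_option linter.unusedSimpArgs false

namespace Pool.Agent.Helper62.Families

open Pool.Agent.Helper62.Skein

variable {K : Type*} [Field K]

/-- The family `Y`. -/
def FamilyY (a b0 b1 b2 b3 bi : K) : Prop :=
  a * b0 ^ 3 = -b3 ^ 3 ∧ a * bi * b3 ^ 2 = b0 * (b2 * b3 - b0 * b1) ∧
    (bi = 0 → (a ^ 4 = 1 ∧ b0 = -(a * b3) ∧ b2 = -(a * b1)) ∨ b0 ^ 2 * b1 * b3 = b0 ^ 4 + b3 ^ 4)

/-- The relation follows from a relation `σ + ε σ⁻¹ = z (1 + ε e)` of Kauffman (`ε = 1`) or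
Dubrovnik (`ε = -1`) type with `z ≠ 0`. -/
def FamilyK (a b0 b1 b2 b3 bi : K) : Prop :=
  ∃ ε z : K, (ε = 1 ∨ ε = -1) ∧ z ≠ 0 ∧ b1 = ε * (b3 - z * b0) ∧ b2 = ε * b0 - z * b3 ∧
    a ^ 2 * bi = -(z * (a * b0 + ε * b3))

/-- The relation holds for the Kauffman bracket with `σ = A + A⁻¹ e`. -/
def FamilyB (a b0 b1 b2 b3 bi : K) : Prop :=
  ∃ A : K, a = -A ^ 3 ∧ b0 + b1 * A + b2 * A ^ 2 + b3 * A ^ 3 = 0 ∧
    b1 * A ^ 6 + b2 * (A ^ 7 - A ^ 3) + b3 * (A ^ 8 - A ^ 4 + 1) + bi * A ^ 7 = 0

/-- The relation holds for `σ = a⁻¹`, `e = a ^ 2`, `a ^ 4 = 1`. -/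
def FamilyO (a b0 b1 b2 b3 bi : K) : Prop :=
  a ^ 4 = 1 ∧ a ^ 3 * b0 + a ^ 2 * b1 + a * b2 + b3 + a * bi = 0

theorem familyO_of {a b0 b1 b2 b3 bi t : K}
    (P1 : a ^ 3 * b0 + a ^ 2 * b1 + a * b2 + b3 + a ^ 3 * bi * t = 0)
    (h4 : a ^ 4 = 1) (ht : t = a ^ 2) : FamilyO a b0 b1 b2 b3 bi := by
  refine ⟨h4, ?_⟩
  rw [ht] at P1
  linear_combination P1 - a * bi * h4

theorem eps_sq {ε : K} (h : ε = 1 ∨ ε = -1) : ε ^ 2 = 1 := by
  rcases h with rfl | rfl <;> ring

theorem families {a b0 b1 b2 b3 bi t h : K} (ha : a ≠ 0) (hb0 : b0 ≠ 0) (hb3 : b3 ≠ 0)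
    (P1 : a ^ 3 * b0 + a ^ 2 * b1 + a * b2 + b3 + a ^ 3 * bi * t = 0)
    (H1 : b0 + a ^ 2 * b2 + a ^ 2 * bi + a * b1 * t + a * b3 * h = 0)
    (H2 : b1 + a ^ 2 * b3 + a ^ 3 * bi + a * b2 * t + a * b0 * h = 0)
    {c1 ce cm cv : K} (hc1 : c1 = a * b0 ^ 3 + b3 ^ 3)
    (hce : ce = a * b0 ^ 2 * b1 - a * b0 * b2 * b3 + a ^ 2 * bi * b3 ^ 2)
    (N0 : a ^ 2 * c1 + a * ce + cm + a * cv * t = 0)
    (D0 : c1 + a ^ 2 * cm + a * cv + a * ce * t = 0)
    (Nn : a * c1 * t + a ^ 2 * ce + cv + a * cm * h = 0)
    (Np : a * c1 * h + ce + a * cm * t + a ^ 2 * cv = 0) :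
    FamilyY a b0 b1 b2 b3 bi ∨ FamilyK a b0 b1 b2 b3 bi ∨ FamilyB a b0 b1 b2 b3 bi ∨
      FamilyO a b0 b1 b2 b3 bi := by
  by_cases hr : c1 = 0 ∧ ce = 0
  · -- the family Y
    left
    obtain ⟨h1, h2⟩ := hr
    rw [hc1] at h1
    rw [hce] at h2
    have e2 : b0 * (b0 * b1 - b2 * b3) + a * bi * b3 ^ 2 = 0 := by
      have : a * (b0 * (b0 * b1 - b2 * b3) + a * bi * b3 ^ 2) = 0 := by linear_combination h2
      exact (mul_eq_zero.mp this).resolve_left ha
    refine ⟨by linear_combination h1, by linear_combination e2, ?_⟩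
    intro hbi
    rw [hbi] at e2 P1
    have q2 : b0 * b1 - b2 * b3 = 0 := by
      have : b0 * (b0 * b1 - b2 * b3) = 0 := by linear_combination e2
      exact (mul_eq_zero.mp this).resolve_left hb0
    have e3 : a * b0 ^ 3 = -b3 ^ 3 := by linear_combination h1
    have e4 : a ^ 2 * b0 ^ 6 = b3 ^ 6 := by linear_combination (a * b0 ^ 3 - b3 ^ 3) * e3
    have e5 : a ^ 3 * b0 ^ 9 = -b3 ^ 9 := by
      linear_combination a * b0 ^ 3 * e4 + b3 ^ 6 * e3
    have key : b3 * ((b0 ^ 4 - b3 ^ 4) * (b0 ^ 4 + b3 ^ 4 - b0 ^ 2 * b1 * b3)) = 0 := by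
      linear_combination b0 ^ 8 * P1 - e5 - b0 ^ 2 * b1 * e4 - b0 ^ 5 * b2 * e3
        - b0 ^ 5 * b3 ^ 2 * q2
    rcases mul_eq_zero.mp ((mul_eq_zero.mp key).resolve_left hb3) with h0 | h0
    · left
      have f1 : b0 = -(a * b3) := by
        have : b3 ^ 3 * (a * b3 + b0) = 0 := by
          linear_combination b0 * e3 - a * h0
        rcases mul_eq_zero.mp this with h1 | h1
        · exact absurd h1 (pow_ne_zero _ hb3)
        · linear_combination h1
      refine ⟨?_, f1, ?_⟩
      · have : b3 ^ 4 * (a ^ 4 - 1) = 0 := by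
          have e : b0 ^ 4 = a ^ 4 * b3 ^ 4 := by rw [f1]; ring
          linear_combination h0 - e
        rcases mul_eq_zero.mp this with h1 | h1
        · exact absurd h1 (pow_ne_zero _ hb3)
        · linear_combination h1
      · have : b3 * (b2 + a * b1) = 0 := by
          rw [f1] at q2
          linear_combination -q2
        rcases mul_eq_zero.mp this with h1 | h1
        · exact absurd h1 hb3
        · linear_combination h1
    · right
      linear_combination -h0
  · right
    obtain ⟨ε, x, y, hε, hxy, E1, E2⟩ : ∃ ε x y : K, (ε = 1 ∨ ε = -1) ∧ (x ≠ 0 ∨ y ≠ 0) ∧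
        (a ^ 2 + ε) * x + a * (1 + ε * t) * y = 0 ∧
        a * (t + ε * h) * x + (a ^ 2 + ε) * y = 0 := by
      by_cases g1 : c1 + cm = 0 ∧ ce + cv = 0
      · by_cases g2 : c1 - cm = 0 ∧ ce - cv = 0
        · refine ⟨1, c1, ce, Or.inl rfl, ?_, ?_, ?_⟩
          · by_contra hcon
            push Not at hcon
            exact hr hcon
          · obtain ⟨g2, g3⟩ := g2
            linear_combination N0 + g2 + a * t * g3
          · obtain ⟨g2, g3⟩ := g2
            linear_combination Nn + a * h * g2 + g3
        · refine ⟨-1, c1 - cm, ce - cv, Or.inr rfl, ?_, ?_, ?_⟩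
          · by_contra hcon
            push Not at hcon
            exact g2 hcon
          · linear_combination N0 - D0
          · linear_combination Nn - Np
      · refine ⟨1, c1 + cm, ce + cv, Or.inl rfl, ?_, ?_, ?_⟩
        · by_contra hcon
          push Not at hcon
          exact g1 hcon
        · linear_combination N0 + D0
        · linear_combination Nn + Np
    have hε2 := eps_sq hε
    by_cases hx : x = 0
    · right; right
      have hy : y ≠ 0 := hxy.resolve_left (fun h => h hx)
      rw [hx] at E1 E2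
      have f1 : 1 + ε * t = 0 := by
        have : a * y * (1 + ε * t) = 0 := by linear_combination E1
        exact (mul_eq_zero.mp this).resolve_left (mul_ne_zero ha hy)
      have f2 : a ^ 2 + ε = 0 := by
        have : y * (a ^ 2 + ε) = 0 := by linear_combination E2
        exact (mul_eq_zero.mp this).resolve_left hy
      refine familyO_of P1 ?_ ?_
      · linear_combination (a ^ 2 - ε) * f2 + hε2
      · linear_combination ε * f1 - f2 - t * hε2
    · obtain ⟨z, hz⟩ : ∃ z : K, y = -(ε * z * x) := ⟨-(ε * y / x), by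
        field_simp
        linear_combination (-y) * hε2⟩
      rw [hz] at E1 E2
      have F1 : a ^ 2 + ε = a * z * (ε + t) := by
        have : x * (a ^ 2 + ε - a * z * (ε + t)) = 0 := by
          linear_combination E1 + a * z * t * x * hε2
        linear_combination (mul_eq_zero.mp this).resolve_left hx
      have F2 : a * h = (a ^ 2 + ε) * z - ε * a * t := by
        have : x * (a * (t + ε * h) - ε * (a ^ 2 + ε) * z) = 0 := by
          linear_combination E2
        have := (mul_eq_zero.mp this).resolve_left hx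
        linear_combination ε * this - (a * h - (a ^ 2 + ε) * z) * hε2
      -- the linear relation
      obtain ⟨r1, hr1⟩ : ∃ r, r = b2 - ε * b0 + b3 * z := ⟨_, rfl⟩
      obtain ⟨r0, hr0⟩ : ∃ r, r = b1 - ε * b3 + ε * z * b0 := ⟨_, rfl⟩
      obtain ⟨re, hre⟩ : ∃ r, r = a ^ 2 * bi + z * (a * b0 + ε * b3) := ⟨_, rfl⟩
      have G1 : a ^ 2 * r1 + a * t * r0 + re = 0 := by
        rw [hr1, hr0, hre]
        linear_combination H1 - ε * b0 * F1 - b3 * F2 + (b0 - a * b0 * z) * hε2
      have G2 : r1 + a * r0 + re * t = 0 := by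
        have : a * (r1 + a * r0 + re * t) = 0 := by
          rw [hr1, hr0, hre]
          linear_combination P1 - a * b0 * F1 - ε * b3 * F1 + b3 * (1 - a * z) * hε2
        exact (mul_eq_zero.mp this).resolve_left ha
      have G3 : a * t * r1 + r0 + a * re = 0 := by
        rw [hr1, hr0, hre]
        linear_combination H2 - b0 * F2 - b3 * F1
      by_cases hrr : r1 = 0
      · by_cases hr00 : r0 = 0
        · have hre0 : re = 0 := by
            rw [hrr, hr00] at G1
            linear_combination G1
          rw [hr00] at hr0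
          rw [hrr] at hr1
          rw [hre0] at hre
          by_cases hz0 : z = 0
          · right; right
            rw [hz0] at F1 hr0 hr1 hre
            have g1 : a ^ 2 + ε = 0 := by linear_combination F1
            have g2 : bi = 0 := by
              have : a ^ 2 * bi = 0 := by linear_combination -hre
              exact (mul_eq_zero.mp this).resolve_left (pow_ne_zero 2 ha)
            refine ⟨by linear_combination (a ^ 2 - ε) * g1 + hε2, ?_⟩
            rw [g2]
            linear_combination (a * b0 + ε * b3) * g1 - a ^ 2 * hr0 - a * hr1 - b3 * hε2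
          · left
            refine ⟨ε, z, hε, hz0, ?_, ?_, ?_⟩
            · linear_combination -hr0
            · linear_combination -hr1
            · linear_combination -hre
        · right; right
          rw [hrr] at G1 G2 G3
          have f1 : a * t * r0 + re = 0 := by linear_combination G1
          have f2 : t ^ 2 = 1 := by
            have : a * r0 * (1 - t ^ 2) = 0 := by linear_combination G2 - t * f1
            have := (mul_eq_zero.mp this).resolve_left (mul_ne_zero ha hr00)
            linear_combination -this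
          have f3 : a ^ 2 * t = 1 := by
            have : r0 * (1 - a ^ 2 * t) = 0 := by linear_combination G3 - a * f1
            have := (mul_eq_zero.mp this).resolve_left hr00
            linear_combination -this
          refine familyO_of P1 ?_ ?_
          · linear_combination (a ^ 2 * t + 1) * f3 - a ^ 4 * f2
          · linear_combination a ^ 2 * f2 - t * f3
      · -- bracket
        obtain ⟨A, hA⟩ : ∃ A, r0 = -(A * r1) := ⟨-(r0 / r1), by field_simp⟩
        obtain ⟨B, hB⟩ : ∃ B, re = -(a * B * r1) := ⟨-(re / (a * r1)), by field_simp⟩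
        rw [hA, hB] at G1 G2 G3
        have g1 : a = A * t + B := by
          have : a * r1 * (a - A * t - B) = 0 := by linear_combination G1
          linear_combination (mul_eq_zero.mp this).resolve_left (mul_ne_zero ha hrr)
        have g2 : 1 = a * (A + B * t) := by
          have : r1 * (1 - a * (A + B * t)) = 0 := by linear_combination G2
          linear_combination (mul_eq_zero.mp this).resolve_left hrr
        have g3 : a * t = A + a ^ 2 * B := by
          have : r1 * (a * t - A - a ^ 2 * B) = 0 := by linear_combination G3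
          linear_combination (mul_eq_zero.mp this).resolve_left hrr
        have g4 : t * (1 - 2 * A * B) = A ^ 2 + B ^ 2 := by
          linear_combination t * g2 + (A + B * t) * g3 - a * B * g2 + B * g1
        have g5 : (A * B - 1) * (1 - t ^ 2) = 0 := by
          linear_combination t * g4 - g2 - (A + B * t) * g1
        rcases mul_eq_zero.mp g5 with k | k
        · have k' : A * B = 1 := by linear_combination k
          have hA0 : A ≠ 0 := left_ne_zero_of_mul_eq_one k'
          have kt : t = -A ^ 2 - B ^ 2 := by linear_combination -g4 - 2 * t * k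
          have ka : a = -A ^ 3 := by
            rw [g1, kt]; linear_combination -B * k'
          -- root of the quadratic
          have k2 : (A ^ 4 - ε * A ^ 2 + 1) * (A ^ 2 + ε - z * A) = 0 := by
            rw [ka, kt] at F1
            linear_combination F1 - A ^ 2 * hε2 + z * A * (A * B + 1) * k'
          rcases mul_eq_zero.mp k2 with l | l
          · right; right
            have m : A ^ 6 = -ε := by linear_combination (A ^ 2 + ε) * l + A ^ 2 * hε2
            have mt : t = -ε := by
              have : A ^ 2 * (t + ε) = 0 := by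
                linear_combination A ^ 2 * kt - l - (A * B + 1) * k'
              linear_combination (mul_eq_zero.mp this).resolve_left (pow_ne_zero 2 hA0)
            refine familyO_of P1 ?_ ?_
            · rw [ka]
              linear_combination (A ^ 6 - ε) * m + hε2
            · rw [ka]
              linear_combination mt - m
          · right; left
            have pA : b0 + b1 * A + b2 * A ^ 2 + b3 * A ^ 3 = 0 := by
              linear_combination (-A) * hr0 - A ^ 2 * hr1 + A * hA + (ε * b0 + b3 * A) * l
                - b0 * hε2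
            refine ⟨A, ka, pA, ?_⟩
            rw [ka] at hre hB
            have s1 : A ^ 6 * bi + z * (-A ^ 3 * b0 + ε * b3) = A ^ 2 * r1 := by
              linear_combination hB - hre + A ^ 2 * r1 * k'
            have s2 : A ^ 7 * bi - A ^ 3 * b2 - A ^ 4 * b3 - A ^ 5 * b0 + b3 = 0 := by
              linear_combination A * s1 + A ^ 3 * hr1 + (-A ^ 3 * b0 + b3 * (-A ^ 2 + ε)) * l
                - b3 * hε2
            linear_combination A ^ 5 * pA + s2
        · right; right
          have ht : t = a ^ 2 := by
            linear_combination -(a + A * t + B) * g1 + A ^ 2 * k + g4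
          refine familyO_of P1 ?_ ht
          linear_combination -(a ^ 2 + t) * ht - k

end Pool.Agent.Helper62.Families
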