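import Mathlib
import Pool.Agent.Helper62.Linear

set_option linter.unusedSimpArgs false
set_option linter.unnecessarySeqFocus false

namespace Pool.Agent.Helper62.Fox

open Pool.Agent.Helper62.Skein Pool.Agent.Helper62.StateSum Pool.Agent.Helper62.Linear

/-- the three colours -/
inductive Col where
  | r
  | g
  | b
  deriving DecidableEq

/-- the third colour (equal colours are kept) -/
def third : Col → Col → Col
  | .r, .r => .r
  | .g, .g => .g
  | .b, .b => .b
  | .r, .g => .b
  | .g, .r => .b
  | .r, .b => .g
  | .b, .r => .g
  | .g, .b => .r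
  | .b, .g => .r

/-- The state sum that counts Fox 3-colourings: at each crossing the under strand changes from
`d` to the third colour of `c` and `d`, where `c` is the colour of the over strand. -/
def foxOp : Op Col ℕ
  | .cup, f, _ => f [.r, .r] + f [.g, .g] + f [.b, .b]
  | .cap, f, [c, d] => if c = d then f [] else 0
  | .pos, f, [c, d] => f [third c d, c]
  | .neg, f, [c, d] => f [d, third c d]
  | _, _, _ => 0

theorem fox_congr (x : Piece) (g h : List Col → ℕ) (Z : List Col)
    (hZ : Z.length = x.low) (hgh : ∀ Y : List Col, Y.length = x.high → g Y = h Y) :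
    foxOp x g Z = foxOp x h Z := by
  cases x with
  | cup => simp only [foxOp]; rw [hgh _ rfl, hgh _ rfl, hgh _ rfl]
  | cap =>
    match Z, hZ with
    | [c, d], _ => simp only [foxOp]; rw [hgh _ rfl]
  | pos =>
    match Z, hZ with
    | [c, d], _ => simp only [foxOp]; rw [hgh _ rfl]
  | neg =>
    match Z, hZ with
    | [c, d], _ => simp only [foxOp]; rw [hgh _ rfl]

theorem fox_comm (x y : Piece) (G : List Col → List Col → ℕ) (Z W : List Col)
    (hZ : Z.length = x.low) (hW : W.length = y.low) :
    foxOp x (fun Y => foxOp y (fun V => G Y V) W) Z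
      = foxOp y (fun V => foxOp x (fun Y => G Y V) Z) W := by
  cases x <;> cases y <;> simp only [Piece.low] at hZ hW
  all_goals
    first
    | obtain rfl := List.length_eq_zero_iff.mp hZ
    | obtain ⟨c, d, rfl⟩ := List.length_eq_two.mp hZ
  all_goals
    first
    | obtain rfl := List.length_eq_zero_iff.mp hW
    | obtain ⟨c', d', rfl⟩ := List.length_eq_two.mp hW
  all_goals simp only [foxOp]
  all_goals (try split_ifs) <;> ring

theorem fox_linear : IsLinear foxOp := by
  constructor
  · intro x s g Z hZ
    cases x <;> simp only [Piece.low] at hZ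
    all_goals
      first
      | obtain rfl := List.length_eq_zero_iff.mp hZ
      | obtain ⟨c, d, rfl⟩ := List.length_eq_two.mp hZ
    all_goals simp only [foxOp]
    all_goals (try split_ifs) <;> ring
  · intro x g h Z hZ
    cases x <;> simp only [Piece.low] at hZ
    all_goals
      first
      | obtain rfl := List.length_eq_zero_iff.mp hZ
      | obtain ⟨c, d, rfl⟩ := List.length_eq_two.mp hZ
    all_goals simp only [foxOp]
    all_goals (try split_ifs) <;> ring

set_option maxHeartbeats 4000000 in
theorem fox_model : IsModel foxOp := by
  refine ⟨fox_congr, fox_comm, ?_, ?_, ?_, ?_, ?_, ?_, ?_, ?_, ?_, ?_, ?_⟩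
  · intro f x; cases x <;> simp [eval, act, foxOp, Piece.low]
  · intro f x; cases x <;> simp [eval, act, foxOp, Piece.low]
  · intro f x; cases x <;> simp [eval, act, foxOp, Piece.low, third] <;> ring
  · intro f x; cases x <;> simp [eval, act, foxOp, Piece.low, third] <;> ring
  · intro f x y z
    cases x <;> cases y <;> cases z <;> simp [eval, act, foxOp, Piece.low, third]
  · intro f x y z
    cases x <;> cases y <;> cases z <;> simp [eval, act, foxOp, Piece.low, third]
  · intro f x; cases x <;> simp [eval, act, foxOp, Piece.low, third]
  · intro f x; cases x <;> simp [eval, act, foxOp, Piece.low, third]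
  · intro f x y
    cases x <;> cases y <;> simp [eval, act, foxOp, Piece.low, third]
  · intro f x y
    cases x <;> cases y <;> simp [eval, act, foxOp, Piece.low, third]
  · intro f x y z
    cases x <;> cases y <;> cases z <;> simp [eval, act, foxOp, Piece.low, third]

/-- the number of 3-colourings is invariant under 3-moves -/
theorem fox_three (A B : List (ℕ × Piece)) (n k : ℕ) (hA : width 0 A = some n)
    (hk : k + 2 ≤ n) :
    value foxOp (A ++ [(k, Piece.pos), (k, Piece.pos), (k, Piece.pos)] ++ B)
      = value foxOp (A ++ B) := by
  have := value_smul fox_model fox_linear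
    (X := [(0, Piece.pos), (0, Piece.pos), (0, Piece.pos)]) (Y := []) (n0 := 2) 1 rfl rfl
    (by
      intro f Z hZ
      obtain ⟨x, y, rfl⟩ := List.length_eq_two.mp hZ
      cases x <;> cases y <;> simp [eval, act, foxOp, Piece.low, third])
    A B n k hA hk
  simpa [shiftWord] using this

theorem fox_curl (A B : List (ℕ × Piece)) (n k : ℕ) (hA : width 0 A = some n)
    (hk : k + 1 ≤ n) :
    value foxOp (A ++ [(k + 1, Piece.cup), (k, Piece.pos), (k + 1, Piece.cap)] ++ B)
      = value foxOp (A ++ B) := by
  have := value_smul fox_model fox_linear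
    (X := [(1, Piece.cup), (0, Piece.pos), (1, Piece.cap)]) (Y := []) (n0 := 1) 1 rfl rfl
    (by
      intro f Z hZ
      obtain ⟨x, rfl⟩ := List.length_eq_one_iff.mp hZ
      cases x <;> simp [eval, act, foxOp, Piece.low, third])
    A B n k hA hk
  simpa [shiftWord] using this

theorem fox_trivialLink (i : ℕ) : value foxOp (trivialLink i) = 3 ^ i := by
  induction i with
  | zero => simp [trivialLink, value, eval, unitFun]
  | succ i ih =>
    have : trivialLink (i + 1) = [((0 : ℕ), Piece.cup), (0, Piece.cap)] ++ trivialLink i := by
      simp [trivialLink, List.replicate_succ]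
    unfold value at ih ⊢
    rw [this, eval_append]
    simp only [eval, act, foxOp, Piece.low, List.take_zero, List.drop_zero, List.nil_append,
      List.append_nil, List.take, List.drop, List.take_nil, List.drop_nil]
    simp
    rw [ih]
    ring

end Pool.Agent.Helper62.Fox
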