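import Mathlib
import Pool.Agent.Helper62.Skein
import Pool.Agent.Helper454.Kauf.Exist10

set_option linter.unusedSimpArgs false
set_option autoImplicit false

namespace Pool.Agent.Helper62.KaufFun

open Pool.Agent.Helper62
open Pool.Agent.Helper454

/-- translation of a piece into the notation of the file `Kauf.Defs` -/
def trp : ℕ × Skein.Piece → Kauf.Piece
  | (k, .cup) => .birth k
  | (k, .cap) => .death k
  | (k, .pos) => .pos k
  | (k, .neg) => .neg k

/-- translation of words -/
def tr (w : List (ℕ × Skein.Piece)) : Kauf.Word := w.map trp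

theorem tr_append (A B : List (ℕ × Skein.Piece)) : tr (A ++ B) = tr A ++ tr B := by
  simp [tr]

theorem width_tr (w : List (ℕ × Skein.Piece)) (n : ℕ) :
    Kauf.width (tr w) n = Skein.width n w := by
  induction w generalizing n with
  | nil => rfl
  | cons s w ih =>
    obtain ⟨k, p⟩ := s
    have hc : tr ((k, p) :: w) = trp (k, p) :: tr w := rfl
    rw [hc, Kauf.width, Skein.width]
    cases p
    · by_cases h : k ≤ n
      · simp [trp, Kauf.Piece.width, Skein.Piece.low, Skein.Piece.high, h, ih]
      · simp [trp, Kauf.Piece.width, Skein.Piece.low, Skein.Piece.high, h]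
    · by_cases h : k + 2 ≤ n
      · simp [trp, Kauf.Piece.width, Skein.Piece.low, Skein.Piece.high, h, ih]
      · simp [trp, Kauf.Piece.width, Skein.Piece.low, Skein.Piece.high, h]
    · by_cases h : k + 2 ≤ n
      · have h2 : n - 2 + 2 = n := by omega
        simp [trp, Kauf.Piece.width, Skein.Piece.low, Skein.Piece.high, h, ih, h2]
      · simp [trp, Kauf.Piece.width, Skein.Piece.low, Skein.Piece.high, h]
    · by_cases h : k + 2 ≤ n
      · have h2 : n - 2 + 2 = n := by omega
        simp [trp, Kauf.Piece.width, Skein.Piece.low, Skein.Piece.high, h, ih, h2]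
      · simp [trp, Kauf.Piece.width, Skein.Piece.low, Skein.Piece.high, h]

open Kauf
open Kauf.Piece (birth death pos neg)

noncomputable section

/-- the Kauffman polynomial of a diagram -/
abbrev La (w : Word) : Raz := Ex.Lam Raz w

theorem reg {x l r y : Word} (h : LocalMove l r) (c1 : Closed (x ++ l ++ y))
    (c2 : Closed (x ++ r ++ y)) : La (x ++ l ++ y) = La (x ++ r ++ y) :=
  Ex.Lam_rules.regular _ _ (Relation.EqvGen.rel _ _ (RegStep.mk x l r y h c1 c2))

theorem wc {p : Piece} {w : Word} {n m l : ℕ} (h : p.width n = some m) (h2 : width w m = some l) :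
    width (p :: w) n = some l := by
  rw [width, h]
  exact h2

theorem wB {i n : ℕ} (h : i ≤ n) : (birth i).width n = some (n + 2) := if_pos h

theorem wD {i n : ℕ} (h : i ≤ n) : (death i).width (n + 2) = some n := by
  simp [Piece.width, h]

theorem wD' {i n : ℕ} (h : i + 2 ≤ n) : (death i).width n = some (n - 2) := if_pos h

theorem wP {i n : ℕ} (h : i + 2 ≤ n) : (pos i).width n = some n := if_pos h

theorem wN {i n : ℕ} (h : i + 2 ≤ n) : (neg i).width n = some n := if_pos h

section
variable {x y : Word} {n k : ℕ}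

theorem curlA (hx : width x 0 = some n) (hy : width y n = some 0) (hk : k + 1 ≤ n) :
    La (x ++ [birth (k + 1), pos k, death (k + 1)] ++ y) = aPow 1 * La (x ++ y) := by
  have w1 : width [birth k, neg (k + 1)] n = some (n + 2) :=
    wc (wB (by omega)) (wc (wN (by omega)) rfl)
  have w2 : width [birth (k + 1), pos k] n = some (n + 2) :=
    wc (wB (by omega)) (wc (wP (by omega)) rfl)
  have w3 : width ([death (k + 1)] ++ y) (n + 2) = some 0 := wc (wD (by omega)) hy
  have w4 : width [birth k, death (k + 1)] n = some n :=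
    wc (wB (by omega)) (wc (wD (by omega)) rfl)
  have e1 := reg (LocalMove.slideBirth₂ k) (Ex.closed_of hx w1 w3) (Ex.closed_of hx w2 w3)
  have e3 := reg (LocalMove.zigzag₁ k) (Ex.closed_of hx w4 hy)
    (Ex.closed_of (l := []) hx (k' := n) rfl hy)
  have c5 : Closed ((x ++ [birth k]) ++ [death (k + 1)] ++ y) := by
    have := Ex.closed_of hx w4 hy
    simpa [List.append_assoc] using this
  have e2 := Ex.Lam_rules.deathNeg (x ++ [birth k]) (k + 1) y c5
  simp only [La, List.append_assoc, List.cons_append, List.nil_append, smul_eq_mul] at e1 e2 e3 ⊢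
  rw [← e1, e2, e3]

theorem curlB (hx : width x 0 = some n) (hy : width y n = some 0) (hk : k + 1 ≤ n) :
    La (x ++ [birth k, pos (k + 1), death k] ++ y) = aPow 1 * La (x ++ y) := by
  have w1 : width [birth k, pos (k + 1)] n = some (n + 2) :=
    wc (wB (by omega)) (wc (wP (by omega)) rfl)
  have w2 : width [birth (k + 1), neg k] n = some (n + 2) :=
    wc (wB (by omega)) (wc (wN (by omega)) rfl)
  have w3 : width ([death k] ++ y) (n + 2) = some 0 := wc (wD (by omega)) hy
  have w4 : width [birth (k + 1), death k] n = some n :=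
    wc (wB (by omega)) (wc (wD (by omega)) rfl)
  have e1 := reg (LocalMove.slideBirth₁ k) (Ex.closed_of hx w1 w3) (Ex.closed_of hx w2 w3)
  have e3 := reg (LocalMove.zigzag₂ k) (Ex.closed_of hx w4 hy)
    (Ex.closed_of (l := []) hx (k' := n) rfl hy)
  have c5 : Closed ((x ++ [birth (k + 1)]) ++ [death k] ++ y) := by
    have := Ex.closed_of hx w4 hy
    simpa [List.append_assoc] using this
  have e2 := Ex.Lam_rules.deathNeg (x ++ [birth (k + 1)]) k y c5
  simp only [La, List.append_assoc, List.cons_append, List.nil_append, smul_eq_mul] at e1 e2 e3 ⊢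
  rw [e1, e2, e3]

theorem curlC (hx : width x 0 = some n) (hy : width y n = some 0) (hk : k + 1 ≤ n) :
    La (x ++ [birth (k + 1), neg k, death (k + 1)] ++ y) = aPow (-1) * La (x ++ y) := by
  have w1 : width [birth k, pos (k + 1)] n = some (n + 2) :=
    wc (wB (by omega)) (wc (wP (by omega)) rfl)
  have w2 : width [birth (k + 1), neg k] n = some (n + 2) :=
    wc (wB (by omega)) (wc (wN (by omega)) rfl)
  have w3 : width ([death (k + 1)] ++ y) (n + 2) = some 0 := wc (wD (by omega)) hy
  have w4 : width [birth k, death (k + 1)] n = some n :=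
    wc (wB (by omega)) (wc (wD (by omega)) rfl)
  have e1 := reg (LocalMove.slideBirth₁ k) (Ex.closed_of hx w1 w3) (Ex.closed_of hx w2 w3)
  have e3 := reg (LocalMove.zigzag₁ k) (Ex.closed_of hx w4 hy)
    (Ex.closed_of (l := []) hx (k' := n) rfl hy)
  have c5 : Closed ((x ++ [birth k]) ++ [death (k + 1)] ++ y) := by
    have := Ex.closed_of hx w4 hy
    simpa [List.append_assoc] using this
  have e2 := Ex.Lam_rules.deathPos (x ++ [birth k]) (k + 1) y c5
  simp only [La, List.append_assoc, List.cons_append, List.nil_append, smul_eq_mul] at e1 e2 e3 ⊢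
  rw [← e1, e2, e3]

theorem curlD (hx : width x 0 = some n) (hy : width y n = some 0) (hk : k + 1 ≤ n) :
    La (x ++ [birth k, neg (k + 1), death k] ++ y) = aPow (-1) * La (x ++ y) := by
  have w1 : width [birth k, neg (k + 1)] n = some (n + 2) :=
    wc (wB (by omega)) (wc (wN (by omega)) rfl)
  have w2 : width [birth (k + 1), pos k] n = some (n + 2) :=
    wc (wB (by omega)) (wc (wP (by omega)) rfl)
  have w3 : width ([death k] ++ y) (n + 2) = some 0 := wc (wD (by omega)) hy
  have w4 : width [birth (k + 1), death k] n = some n :=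
    wc (wB (by omega)) (wc (wD (by omega)) rfl)
  have e1 := reg (LocalMove.slideBirth₂ k) (Ex.closed_of hx w1 w3) (Ex.closed_of hx w2 w3)
  have e3 := reg (LocalMove.zigzag₂ k) (Ex.closed_of hx w4 hy)
    (Ex.closed_of (l := []) hx (k' := n) rfl hy)
  have c5 : Closed ((x ++ [birth (k + 1)]) ++ [death k] ++ y) := by
    have := Ex.closed_of hx w4 hy
    simpa [List.append_assoc] using this
  have e2 := Ex.Lam_rules.deathPos (x ++ [birth (k + 1)]) k y c5
  simp only [La, List.append_assoc, List.cons_append, List.nil_append, smul_eq_mul] at e1 e2 e3 ⊢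
  rw [e1, e2, e3]

end

theorem closed_tr {w : List (ℕ × Skein.Piece)} (h : Skein.width 0 w = some 0) : Closed (tr w) := by
  rw [Closed, width_tr, h]

/-- a local move of this file is a regular isotopy except for the curls -/
theorem la_move {A B X Y : List (ℕ × Skein.Piece)} (h : Skein.Move X Y)
    (c1 : Skein.width 0 (A ++ X ++ B) = some 0) (c2 : Skein.width 0 (A ++ Y ++ B) = some 0) :
    La (tr (A ++ X ++ B)) = La (tr (A ++ Y ++ B)) := by
  have d1 := closed_tr c1
  have d2 := closed_tr c2
  simp only [tr_append] at d1 d2 ⊢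
  cases h with
  | exchange k l p q hkl =>
    have e : LocalMove [trp (k, p), trp (l, q)] [trp (l - p.high + p.low, q), trp (k, p)] := by
      have := LocalMove.exchange (trp (k, p)) (trp (l - p.high + p.low, q)) (by
        cases p <;> cases q <;>
          simp only [trp, Piece.index, Piece.ins, Skein.Piece.low, Skein.Piece.high] at hkl ⊢ <;>
          omega)
      have e2 : (trp (l - p.high + p.low, q)).moved
          ((trp (l - p.high + p.low, q)).index + (trp (k, p)).outs - (trp (k, p)).ins)
            = trp (l, q) := by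
        cases p <;> cases q <;>
          simp only [trp, Piece.index, Piece.ins, Piece.outs, Piece.moved, Skein.Piece.low,
            Skein.Piece.high] at hkl ⊢ <;> congr 1 <;> omega
      rw [e2] at this
      exact this
    exact reg e d1 d2
  | zigzagR k => exact reg (LocalMove.zigzag₁ k) d1 d2
  | zigzagL k => exact reg (LocalMove.zigzag₂ k) d1 d2
  | cupSlidePos k => exact reg (LocalMove.slideBirth₁ k) d1 d2
  | cupSlideNeg k => exact reg (LocalMove.slideBirth₂ k) d1 d2
  | capSlidePos k => exact reg (LocalMove.slideDeath₁ k) d1 d2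
  | capSlideNeg k => exact reg (LocalMove.slideDeath₂ k) d1 d2
  | curlPos k =>
    obtain ⟨n, n', h1, h2, h3⟩ := Ex.split3 d1
    obtain ⟨n1, g1, h2⟩ := Ex.wd_cons h2
    obtain ⟨n2, g2, h2⟩ := Ex.wd_cons h2
    obtain ⟨n3, g3, h2⟩ := Ex.wd_cons h2
    have g4 := Ex.wd_nil h2
    have g1' := Ex.wd_birth g1
    have g3' := Ex.wd_death g3
    have g2' := Ex.wd_pos g2
    have h4 : k + 1 ≤ n := by omega
    obtain rfl : n = n' := by omega
    have e1 := curlA h1 h3 h4
    have e2 := curlB h1 h3 h4
    exact e1.trans e2.symm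
  | curlNeg k =>
    obtain ⟨n, n', h1, h2, h3⟩ := Ex.split3 d1
    obtain ⟨n1, g1, h2⟩ := Ex.wd_cons h2
    obtain ⟨n2, g2, h2⟩ := Ex.wd_cons h2
    obtain ⟨n3, g3, h2⟩ := Ex.wd_cons h2
    have g4 := Ex.wd_nil h2
    have g1' := Ex.wd_birth g1
    have g3' := Ex.wd_death g3
    have g2' := Ex.wd_neg g2
    have h4 : k + 1 ≤ n := by omega
    obtain rfl : n = n' := by omega
    have e1 := curlC h1 h3 h4
    have e2 := curlD h1 h3 h4
    exact e1.trans e2.symm
  | r2PosNeg k => exact reg (LocalMove.second₁ k) d1 d2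
  | r2NegPos k => exact reg (LocalMove.second₂ k) d1 d2
  | r3 k => exact reg (LocalMove.third k) d1 d2

theorem la_step {D E : Skein.Diagram} (h : Skein.Step D E) : La (tr D.1) = La (tr E.1) := by
  obtain ⟨A, B, X, Y, hXY, hD, hE⟩ := h
  have c1 := D.2
  have c2 := E.2
  rw [hD] at c1 ⊢
  rw [hE] at c2 ⊢
  exact la_move hXY c1 c2

/-! ### Evaluation in a field -/

variable {F : Type*} [Field F]

/-- evaluation of the variables -/
def evR (α ζ : Fˣ) : Raz →+* F :=
  LaurentPolynomial.eval₂ (LaurentPolynomial.eval₂ (Int.castRingHom F) ζ) α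

theorem evR_a (α ζ : Fˣ) (n : ℤ) : evR α ζ (aPow n) = ((α ^ n : Fˣ) : F) := by
  rw [evR, aPow, LaurentPolynomial.eval₂_T]

theorem evR_z (α ζ : Fˣ) : evR α ζ zVar = (ζ : F) := by
  rw [evR, zVar, LaurentPolynomial.eval₂_C, LaurentPolynomial.eval₂_T]
  simp

/-- the value of a word -/
def kv (α ζ : Fˣ) (w : List (ℕ × Skein.Piece)) : F := evR α ζ (La (tr w))

section
variable (α ζ : Fˣ) {A B : List (ℕ × Skein.Piece)} {n k : ℕ}

theorem kv_curl (hA : Skein.width 0 A = some n) (hB : Skein.width n B = some 0) (hk : k + 1 ≤ n) :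
    kv α ζ (A ++ [(k + 1, Skein.Piece.cup), (k, Skein.Piece.pos), (k + 1, Skein.Piece.cap)] ++ B)
      = α * kv α ζ (A ++ B) := by
  have h1 : width (tr A) 0 = some n := by rw [width_tr, hA]
  have h2 : width (tr B) n = some 0 := by rw [width_tr, hB]
  have e := congrArg (evR α ζ) (curlA h1 h2 hk)
  rw [map_mul, evR_a, zpow_one] at e
  rw [kv, kv, tr_append, tr_append, tr_append]
  exact e

/-- the two four-term relations -/
theorem kv_rel (hA : Skein.width 0 A = some n) (hB : Skein.width n B = some 0) (hk : k + 2 ≤ n) :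
    kv α ζ (A ++ [(k, Skein.Piece.pos), (k, Skein.Piece.pos)] ++ B) + kv α ζ (A ++ B)
      = ζ * (kv α ζ (A ++ [(k, Skein.Piece.pos)] ++ B)
        + (α⁻¹ : Fˣ) * kv α ζ (A ++ [(k, Skein.Piece.cap), (k, Skein.Piece.cup)] ++ B)) ∧
    kv α ζ (A ++ [(k, Skein.Piece.pos), (k, Skein.Piece.pos), (k, Skein.Piece.pos)] ++ B)
        + kv α ζ (A ++ [(k, Skein.Piece.pos)] ++ B)
      = ζ * (kv α ζ (A ++ [(k, Skein.Piece.pos), (k, Skein.Piece.pos)] ++ B)
        + (α⁻¹ : Fˣ) ^ 2 * kv α ζ (A ++ [(k, Skein.Piece.cap), (k, Skein.Piece.cup)] ++ B)) := by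
  have h1 : width (tr A) 0 = some n := by rw [width_tr, hA]
  have h2 : width (tr B) n = some 0 := by rw [width_tr, hB]
  generalize hx : tr A = x at h1
  generalize hy : tr B = y at h2
  have wp : width [pos k] n = some n := wc (wP hk) rfl
  have wnp : width [neg k, pos k] n = some n := wc (wN hk) (wc (wP hk) rfl)
  have wy1 : width ([pos k] ++ y) n = some 0 := Ex.width_app_of wp h2
  have wy2 : width ([pos k] ++ ([pos k] ++ y)) n = some 0 := Ex.width_app_of wp wy1
  have wd : width [death k] n = some (n - 2) := wc (wD' hk) rfl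
  have wb : width [birth k] (n - 2) = some n := by
    have h3 : n - 2 + 2 = n := by omega
    exact wc (wB (by omega)) (by rw [h3]; rfl)
  have wxd : width (x ++ [death k]) 0 = some (n - 2) := Ex.width_app_of h1 wd
  have s1 := Ex.Lam_rules.skein x k ([pos k] ++ y) (Ex.closed_of h1 wp wy1)
  have s2 := Ex.Lam_rules.skein x k ([pos k] ++ ([pos k] ++ y)) (Ex.closed_of h1 wp wy2)
  have r1 := reg (x := x) (y := y) (LocalMove.second₂ k) (Ex.closed_of h1 wnp h2)
    (Ex.closed_of (l := []) h1 (k' := n) rfl h2)
  have r2 := reg (x := x) (y := [pos k] ++ y) (LocalMove.second₂ k) (Ex.closed_of h1 wnp wy1)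
    (Ex.closed_of (l := []) h1 (k' := n) rfl wy1)
  have b1 := Ex.Lam_rules.birthPos (x ++ [death k]) k y (Ex.closed_of wxd wb h2)
  have b2 := Ex.Lam_rules.birthPos (x ++ [death k]) k ([pos k] ++ y) (Ex.closed_of wxd wb wy1)
  simp only [La, List.append_assoc, List.cons_append, List.nil_append, smul_eq_mul] at s1 s2 r1 r2 b1 b2
  rw [b1] at b2
  rw [r1, b1] at s1
  rw [r2, b2] at s2
  have e1 := congrArg (evR α ζ) s1
  have e2 := congrArg (evR α ζ) s2
  simp only [map_add, map_mul, evR_a, evR_z, zpow_neg, zpow_one] at e1 e2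
  simp only [kv, La, tr_append, hx, hy]
  refine ⟨?_, ?_⟩
  · simp only [tr, trp, List.map_cons, List.map_nil, List.append_assoc, List.cons_append,
      List.nil_append]
    exact e1
  · simp only [tr, trp, List.map_cons, List.map_nil, List.append_assoc, List.cons_append,
      List.nil_append]
    rw [e2]
    ring

theorem kv_circle : kv α ζ (Skein.trivialLink 1) = 1 := by
  have : tr (Skein.trivialLink 1) = circle := rfl
  rw [kv, this, La, Ex.Lam_circle, map_one]

end

end

end Pool.Agent.Helper62.KaufFun
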