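import Mathlib

/-!
Fox calculus via affine groups and the comparison of determinants of presentation matrices.
-/

namespace Pool.Agent.Helper62.Loop

/-- Pairs `(v, s)` with the product `(v, s) (w, t) = (v + u ^ s w, s + t)`. -/
@[ext] structure Aff {R : Type*} [CommRing R] (u : Rˣ) (M : Type*) where
  v : M
  s : ℤ

namespace Aff

variable {R : Type*} [CommRing R] {u : Rˣ} {M : Type*} [AddCommGroup M] [Module R M]

instance : Mul (Aff u M) := ⟨fun a b => ⟨a.v + ((u ^ a.s : Rˣ) : R) • b.v, a.s + b.s⟩⟩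
instance : One (Aff u M) := ⟨⟨0, 0⟩⟩
instance : Inv (Aff u M) := ⟨fun a => ⟨-(((u ^ (-a.s) : Rˣ) : R) • a.v), -a.s⟩⟩

@[simp] theorem mul_v (a b : Aff u M) : (a * b).v = a.v + ((u ^ a.s : Rˣ) : R) • b.v := rfl
@[simp] theorem mul_s (a b : Aff u M) : (a * b).s = a.s + b.s := rfl
omit [Module R M] in
@[simp] theorem one_v : (1 : Aff u M).v = 0 := rfl
omit [Module R M] in
@[simp] theorem one_s : (1 : Aff u M).s = 0 := rfl
@[simp] theorem inv_v (a : Aff u M) : (a⁻¹).v = -(((u ^ (-a.s) : Rˣ) : R) • a.v) := rfl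
@[simp] theorem inv_s (a : Aff u M) : (a⁻¹).s = -a.s := rfl

instance : Group (Aff u M) :=
  Group.ofLeftAxioms
    (by
      intro a b c
      ext1
      · simp only [mul_v, mul_s, zpow_add, Units.val_mul, smul_add, mul_smul, add_assoc]
      · simp only [mul_s, add_assoc])
    (by
      intro a
      ext1
      · simp
      · simp)
    (by
      intro a
      ext1
      · simp
      · simp)

/-- The exponent as a homomorphism. -/
def toInt (u : Rˣ) (M : Type*) [AddCommGroup M] [Module R M] : Aff u M →* Multiplicative ℤ where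
  toFun a := Multiplicative.ofAdd a.s
  map_one' := rfl
  map_mul' _ _ := rfl

/-- Functoriality in the module. -/
def map {M' : Type*} [AddCommGroup M'] [Module R M'] (F : M →ₗ[R] M') : Aff u M →* Aff u M' where
  toFun a := ⟨F a.v, a.s⟩
  map_one' := by ext1 <;> simp
  map_mul' a b := by ext1 <;> simp

@[simp] theorem map_v {M' : Type*} [AddCommGroup M'] [Module R M'] (F : M →ₗ[R] M') (a : Aff u M) :
    (map F a).v = F a.v := rfl
@[simp] theorem map_s {M' : Type*} [AddCommGroup M'] [Module R M'] (F : M →ₗ[R] M') (a : Aff u M) :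
    (map F a).s = a.s := rfl

/-- Functoriality in the ring. -/
def evalMap {S : Type*} [CommRing S] (f : R →+* S) (u : Rˣ) (ι : Type*) :
    Aff u (ι → R) →* Aff (Units.map f.toMonoidHom u) (ι → S) where
  toFun a := ⟨fun i => f (a.v i), a.s⟩
  map_one' := by
    ext1
    · funext i; simp
    · simp
  map_mul' a b := by
    ext1
    · funext i
      simp only [mul_v, Pi.add_apply, Pi.smul_apply, smul_eq_mul, map_add, map_mul]
      congr 2
      rw [← map_zpow]
      rfl
    · rfl

/-- The elements with exponent zero and translation in a submodule. -/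
def sub (u : Rˣ) (N : Submodule R M) : Subgroup (Aff u M) where
  carrier := {a | a.s = 0 ∧ a.v ∈ N}
  one_mem' := ⟨rfl, N.zero_mem⟩
  mul_mem' := by
    rintro a b ⟨ha, ha'⟩ ⟨hb, hb'⟩
    refine ⟨by simp [ha, hb], ?_⟩
    simp only [mul_v]
    exact N.add_mem ha' (N.smul_mem _ hb')
  inv_mem' := by
    rintro a ⟨ha, ha'⟩
    refine ⟨by simp [ha], ?_⟩
    simp only [inv_v]
    exact N.neg_mem (N.smul_mem _ ha')

theorem mem_sub {N : Submodule R M} {a : Aff u M} : a ∈ sub u N ↔ a.s = 0 ∧ a.v ∈ N := Iff.rfl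

instance (N : Submodule R M) : (sub u N).Normal where
  conj_mem := by
    rintro a ⟨ha, ha'⟩ g
    refine ⟨by simp [ha], ?_⟩
    have : (g * a * g⁻¹).v = ((u ^ g.s : Rˣ) : R) • a.v := by
      simp only [mul_v, inv_v, mul_s, ha, add_zero, smul_neg, smul_smul, ← Units.val_mul,
        ← zpow_add]
      simp
    rw [this]
    exact N.smul_mem _ ha'

theorem commute_of {a b : Aff u M} (ha : u ^ a.s = 1) (hb : u ^ b.s = 1) : a * b = b * a := by
  ext1
  · simp [ha, hb, add_comm]
  · simp [add_comm]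

end Aff

section fox

variable {R : Type*} [CommRing R] (u : Rˣ) {n : ℕ} (k : Fin n) (χ : Fin n → ℤ)

/-- The free group into the affine group; the translation part is the vector of Fox derivatives. -/
def fox : FreeGroup (Fin n) →* Aff u ({j : Fin n // j ≠ k} → R) :=
  FreeGroup.lift (fun i => ⟨if h : i ≠ k then Pi.single ⟨i, h⟩ 1 else 0, χ i⟩)

@[simp] theorem fox_of (i : Fin n) :
    fox u k χ (FreeGroup.of i) = ⟨if h : i ≠ k then Pi.single ⟨i, h⟩ 1 else 0, χ i⟩ := by
  simp [fox]

theorem fox_s (w : FreeGroup (Fin n)) :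
    Multiplicative.ofAdd (fox u k χ w).s =
      FreeGroup.lift (fun i => Multiplicative.ofAdd (χ i)) w := by
  have : (Aff.toInt u ({j : Fin n // j ≠ k} → R)).comp (fox u k χ) =
      FreeGroup.lift (fun i => Multiplicative.ofAdd (χ i)) := by
    apply FreeGroup.ext_hom
    intro i
    simp [Aff.toInt]
  exact DFunLike.congr_fun this w

/-- The Alexander matrix. -/
def mat (r : {j : Fin n // j ≠ k} → FreeGroup (Fin n)) :
    Matrix {j : Fin n // j ≠ k} {j : Fin n // j ≠ k} R :=
  fun j => (fox u k χ (r j)).v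

theorem exists_vecMul (r : {j : Fin n // j ≠ k} → FreeGroup (Fin n))
    (hr : ∀ j, FreeGroup.lift (fun i => Multiplicative.ofAdd (χ i)) (r j) = 1)
    (w : FreeGroup (Fin n)) (hw : w ∈ Subgroup.normalClosure (Set.range r)) :
    (fox u k χ w).s = 0 ∧ ∃ c : {j : Fin n // j ≠ k} → R,
      Matrix.vecMul c (mat u k χ r) = (fox u k χ w).v := by
  have key : Subgroup.normalClosure (Set.range r) ≤
      (Aff.sub u (LinearMap.range (Matrix.vecMulLinear (mat u k χ r)))).comap (fox u k χ) := by
    apply Subgroup.normalClosure_le_normal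
    rintro _ ⟨j, rfl⟩
    refine Aff.mem_sub.2 ⟨?_, ?_⟩
    · have := fox_s u k χ (r j)
      rw [hr j] at this
      exact this
    · refine ⟨Pi.single j 1, ?_⟩
      rw [Matrix.vecMulLinear_apply, Matrix.single_one_vecMul]
      rfl
  obtain ⟨h1, c, hc⟩ := Aff.mem_sub.1 (key hw)
  exact ⟨h1, c, hc⟩

end fox

/-- Comparison of two square presentation matrices of one module. -/
theorem det_dvd {R : Type*} [CommRing R] {a b : Type*} [Fintype a] [Fintype b] [DecidableEq a]
    [DecidableEq b] (A : Matrix a a R) (B : Matrix b b R) (F : Matrix a b R) (G : Matrix b a R)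
    (X : Matrix a b R) (W : Matrix b b R) (h1 : A * F = X * B) (h2 : G * F = 1 + W * B) :
    B.det ∣ A.det := by
  have h : Matrix.fromBlocks A 0 (-G) (1 : Matrix b b R) =
      Matrix.fromBlocks A X (-G) (-W) * Matrix.fromBlocks (1 : Matrix a a R) (-F) 0 B := by
    rw [Matrix.fromBlocks_multiply]
    congr 1
    · simp
    · simp [h1]
    · simp
    · simp [h2]
  have h' := congrArg Matrix.det h
  rw [Matrix.det_mul, Matrix.det_fromBlocks_zero₁₂, Matrix.det_fromBlocks_zero₂₁] at h'
  simp only [Matrix.det_one, mul_one, one_mul] at h'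
  exact Dvd.intro_left _ h'.symm

/-- The determinants of the Alexander matrices of isomorphic groups. -/
theorem det_mat_dvd {R : Type*} [CommRing R] (u : Rˣ) {n m : ℕ} (k : Fin n) (l : Fin m)
    (χ : Fin n → ℤ) (ψ : Fin m → ℤ)
    (r : {j : Fin n // j ≠ k} → FreeGroup (Fin n)) (t : {j : Fin m // j ≠ l} → FreeGroup (Fin m))
    (ht : ∀ j, FreeGroup.lift (fun i => Multiplicative.ofAdd (ψ i)) (t j) = 1)
    (f : FreeGroup (Fin n) →* FreeGroup (Fin m)) (g : FreeGroup (Fin m) →* FreeGroup (Fin n))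
    (fk : f (FreeGroup.of k) = FreeGroup.of l)
    (fr : ∀ j, f (r j) ∈ Subgroup.normalClosure (Set.range t))
    (fg : ∀ i, f (g (FreeGroup.of i)) * (FreeGroup.of i)⁻¹ ∈ Subgroup.normalClosure (Set.range t))
    (hχ : ∀ i, FreeGroup.lift (fun i => Multiplicative.ofAdd (ψ i)) (f (FreeGroup.of i)) =
      Multiplicative.ofAdd (χ i)) :
    (mat u l ψ t).det ∣ (mat u k χ r).det := by
  classical
  set F : Matrix {j : Fin n // j ≠ k} {j : Fin m // j ≠ l} R :=
    fun i => (fox u l ψ (f (FreeGroup.of i.1))).v with hF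
  let G : Matrix {j : Fin m // j ≠ l} {j : Fin n // j ≠ k} R :=
    fun i => (fox u k χ (g (FreeGroup.of i.1))).v
  have hs : ∀ w, Multiplicative.ofAdd (fox u l ψ (f w)).s =
      Multiplicative.ofAdd (fox u k χ w).s := by
    intro w
    rw [fox_s, fox_s]
    have : (FreeGroup.lift (fun i => Multiplicative.ofAdd (ψ i))).comp f =
        FreeGroup.lift (fun i => Multiplicative.ofAdd (χ i)) := by
      apply FreeGroup.ext_hom
      intro i
      simp [hχ]
    exact DFunLike.congr_fun this w
  have key : ∀ w, (fox u l ψ (f w)).v = Matrix.vecMul (fox u k χ w).v F := by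
    intro w
    have : (fox u l ψ).comp f = (Aff.map (Matrix.vecMulLinear F)).comp (fox u k χ) := by
      apply FreeGroup.ext_hom
      intro i
      ext1
      · simp only [MonoidHom.comp_apply, Aff.map_v, fox_of, Matrix.vecMulLinear_apply]
        by_cases h : i ≠ k
        · simp only [h, not_false_eq_true, ↓reduceDIte, Matrix.single_one_vecMul, ne_eq]
          rfl
        · simp only [h, ↓reduceDIte, Matrix.zero_vecMul]
          have : i = k := not_not.1 h
          subst this
          rw [fk]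
          simp
      · simp only [MonoidHom.comp_apply, Aff.map_s]
        exact Multiplicative.ofAdd.injective (hs _)
    have := DFunLike.congr_fun this w
    exact congrArg Aff.v this
  have hX : ∀ j, ∃ c, Matrix.vecMul c (mat u l ψ t) = (fox u l ψ (f (r j))).v :=
    fun j => (exists_vecMul u l ψ t ht _ (fr j)).2
  choose X hX using hX
  have hW : ∀ i : {j : Fin m // j ≠ l}, ∃ c, Matrix.vecMul c (mat u l ψ t) + Pi.single i 1 =
      (fox u l ψ (f (g (FreeGroup.of i.1)))).v := by
    intro i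
    obtain ⟨h0, c, hc⟩ := exists_vecMul u l ψ t ht _ (fg i.1)
    refine ⟨c, ?_⟩
    have e : f (g (FreeGroup.of i.1)) =
        (f (g (FreeGroup.of i.1)) * (FreeGroup.of i.1)⁻¹) * FreeGroup.of i.1 := by group
    rw [hc]
    conv_rhs => rw [e, map_mul, Aff.mul_v, h0]
    simp [i.2]
  choose W hW using hW
  refine det_dvd (mat u k χ r) (mat u l ψ t) F G X W ?_ ?_
  · ext j1 j2
    change Matrix.vecMul (fox u k χ (r j1)).v F j2 = Matrix.vecMul (X j1) (mat u l ψ t) j2
    rw [hX, key (r j1)]
  · ext j1 j2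
    change Matrix.vecMul (fox u k χ (g (FreeGroup.of j1.1))).v F j2 =
      (1 : Matrix {j : Fin m // j ≠ l} {j : Fin m // j ≠ l} R) j1 j2 +
        Matrix.vecMul (W j1) (mat u l ψ t) j2
    have h1 := key (g (FreeGroup.of j1.1))
    have h2 := hW j1
    rw [h1] at h2
    rw [← h2, Pi.add_apply, add_comm, Matrix.one_apply, Pi.single_apply]
    congr 1
    simp [eq_comm]

/-- Units of the ring of integral Laurent polynomials have norm one on the unit circle. -/
theorem norm_unit (z : ℂˣ) (hz : ‖(z : ℂ)‖ = 1) (x : LaurentPolynomial ℤ) (hx : IsUnit x) :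
    ‖LaurentPolynomial.eval₂ (Int.castRingHom ℂ) z x‖ = 1 := by
  obtain ⟨y, hy⟩ := hx.exists_right_inv
  obtain ⟨a, f, hf⟩ := LaurentPolynomial.exists_T_pow x
  obtain ⟨b, g, hg⟩ := LaurentPolynomial.exists_T_pow y
  have hfg : f * g = Polynomial.X ^ (a + b) := by
    apply Polynomial.toLaurent_injective
    rw [map_mul, hf, hg, map_pow, Polynomial.toLaurent_X, LaurentPolynomial.T_pow]
    calc x * LaurentPolynomial.T ↑a * (y * LaurentPolynomial.T ↑b) =
        (x * y) * (LaurentPolynomial.T ↑a * LaurentPolynomial.T ↑b) := by ring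
      _ = LaurentPolynomial.T (((a + b : ℕ) : ℤ) * 1) := by
        rw [hy, one_mul, ← LaurentPolynomial.T_add, mul_one, Nat.cast_add]
  obtain ⟨i, -, hi⟩ := (dvd_prime_pow (Polynomial.prime_X (R := ℤ)) (a + b)).1
    (Dvd.intro _ hfg)
  obtain ⟨c, hc⟩ := hi.symm
  obtain ⟨d, hd, hd'⟩ := Polynomial.isUnit_iff.1 c.isUnit
  have hd2 : d = 1 ∨ d = -1 := Int.isUnit_iff.1 hd
  have h1 := congrArg (LaurentPolynomial.eval₂ (Int.castRingHom ℂ) z) hf
  rw [map_mul, ← hc, ← hd', map_mul, map_pow, Polynomial.toLaurent_X, Polynomial.toLaurent_C,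
    map_mul, map_pow, LaurentPolynomial.eval₂_C, LaurentPolynomial.eval₂_T,
    LaurentPolynomial.eval₂_T] at h1
  have h2 := congrArg norm h1
  rw [norm_mul, norm_mul, norm_pow] at h2
  have hd3 : ‖(Int.castRingHom ℂ) d‖ = 1 := by
    rcases hd2 with rfl | rfl <;> simp
  have hn : ∀ q : ℤ, ‖((z ^ q : ℂˣ) : ℂ)‖ = 1 := by
    intro q
    rw [Units.val_zpow_eq_zpow_val, norm_zpow, hz, one_zpow]
  rw [hd3, hn, hn] at h2
  simpa using h2.symm

end Pool.Agent.Helper62.Loop
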