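import Mathlib

/-!
Group theory of the cyclic covers of the trefoil.
-/

namespace Pool.Agent.Helper62.Loop

theorem braid_trivial {G A : Type*} [Group G] [CommGroup A] (p : ℕ) (hcop : Nat.Coprime p 6)
    (χ : G →* Multiplicative ℤ) (a b : G) (hab : a * b * a = b * a * b)
    (ha : χ a = Multiplicative.ofAdd 1) (hb : χ b = Multiplicative.ofAdd 1)
    (hgen : Subgroup.closure {a, b} = ⊤) (N : Subgroup G)
    (hN : ∀ x, x ∈ N ↔ ∃ d : ℤ, χ x = Multiplicative.ofAdd ((p : ℤ) * d)) (φ : N →* A)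
    (hφ : ∀ x : N, (x : G) = a ^ p → φ x = 1) : ∀ x, φ x = 1 := by
  have mem0 : ∀ x, χ x = 1 → x ∈ N := fun x hx => (hN x).2 ⟨0, by simpa using hx⟩
  have hχa : ∀ s : ℤ, χ (a ^ s) = Multiplicative.ofAdd s := by
    intro s
    rw [map_zpow, ha, ← ofAdd_zsmul, smul_eq_mul, mul_one]
  have hapN : a ^ p ∈ N := (hN _).2 ⟨1, by
    have := hχa p
    rw [zpow_natCast] at this
    rw [this, mul_one]⟩
  have hφap : φ ⟨a ^ p, hapN⟩ = 1 := hφ _ rfl
  let c : ℤ → G := fun i => a ^ i * (b * a⁻¹) * a ^ (-i)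
  have hc : ∀ i, c i ∈ N := by
    intro i
    apply mem0
    simp only [c, map_mul, map_inv, hχa, ha, hb]
    rw [mul_inv_cancel, mul_one, ← ofAdd_add, add_neg_cancel, ofAdd_zero]
  have hcrel : ∀ i, c (i + 1) = c i * c (i + 2) := by
    intro i
    have e1 : c (i + 1) = a ^ i * (a * b * a) * a ^ (-i - 3) := by
      simp only [c, zpow_add, zpow_sub, zpow_neg, zpow_one]
      group
    have e2 : c i * c (i + 2) = a ^ i * (b * a * b) * a ^ (-i - 3) := by
      simp only [c, zpow_add, zpow_sub, zpow_neg, zpow_one]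
      group
    rw [e1, e2, hab]
  let d : ℤ → A := fun i => φ ⟨c i, hc i⟩
  have hd : ∀ i, d (i + 1) = d i * d (i + 2) := by
    intro i
    simp only [d, ← map_mul]
    congr 1
    exact Subtype.ext (hcrel i)
  have hd2 : ∀ i, d (i + 2) = d (i + 1) * (d i)⁻¹ := by
    intro i
    rw [hd i, mul_comm (d i), mul_inv_cancel_right]
  have hd3 : ∀ i, d (i + 3) = (d i)⁻¹ := by
    intro i
    have h1 := hd2 (i + 1)
    have e1 : i + 1 + 2 = i + 3 := by ring
    have e2 : i + 1 + 1 = i + 2 := by ring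
    rw [e1, e2, hd2 i, mul_comm (d (i + 1)), mul_inv_cancel_right] at h1
    exact h1
  have hd6 : Function.Periodic d 6 := by
    intro i
    have e1 : i + 6 = i + 3 + 3 := by ring
    rw [e1, hd3, hd3, inv_inv]
  have hdp : Function.Periodic d (p : ℤ) := by
    intro i
    have e : (⟨c (i + p), hc _⟩ : N) = ⟨a ^ p, hapN⟩ * ⟨c i, hc i⟩ * ⟨a ^ p, hapN⟩⁻¹ := by
      apply Subtype.ext
      change c (i + p) = a ^ p * c i * (a ^ p)⁻¹
      simp only [c]
      rw [← zpow_natCast a p, ← zpow_neg, add_comm i (p : ℤ), zpow_add, neg_add_rev, zpow_add]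
      simp only [mul_assoc]
    simp only [d, e, map_mul, map_inv, hφap]
    simp
  have hd1 : Function.Periodic d 1 := by
    have hco : IsCoprime (p : ℤ) (6 : ℤ) := by
      have := Nat.isCoprime_iff_coprime.2 hcop
      simpa using this
    obtain ⟨u, v, huv⟩ := hco
    have := (hdp.int_mul u).add_period (hd6.int_mul v)
    simp only [Int.cast_id] at this
    rwa [huv] at this
  have hdone : ∀ i, d i = 1 := by
    intro i
    have h1 := hd (i - 2)
    have e1 : i - 2 + 2 = i := by ring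
    rw [hd1 (i - 2), e1] at h1
    exact (left_eq_mul.1 h1)
  -- the elements all of whose conjugates by powers of `a` are killed
  let W : Subgroup G :=
    { carrier := {w | χ w = 1 ∧ ∀ (t : ℤ) (h : a ^ t * w * a ^ (-t) ∈ N), φ ⟨_, h⟩ = 1}
      one_mem' := by
        refine ⟨map_one χ, fun t h => ?_⟩
        have : (⟨a ^ t * 1 * a ^ (-t), h⟩ : N) = 1 := Subtype.ext (by simp)
        rw [this, map_one]
      mul_mem' := by
        rintro x y ⟨hx, hx'⟩ ⟨hy, hy'⟩
        refine ⟨by rw [map_mul, hx, hy, mul_one], fun t h => ?_⟩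
        have m1 : a ^ t * x * a ^ (-t) ∈ N := mem0 _ (by
          rw [map_mul, map_mul, hx, hχa, hχa, mul_one, ← ofAdd_add, add_neg_cancel, ofAdd_zero])
        have m2 : a ^ t * y * a ^ (-t) ∈ N := mem0 _ (by
          rw [map_mul, map_mul, hy, hχa, hχa, mul_one, ← ofAdd_add, add_neg_cancel, ofAdd_zero])
        have : (⟨a ^ t * (x * y) * a ^ (-t), h⟩ : N) = ⟨_, m1⟩ * ⟨_, m2⟩ := by
          apply Subtype.ext
          change a ^ t * (x * y) * a ^ (-t) = a ^ t * x * a ^ (-t) * (a ^ t * y * a ^ (-t))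
          rw [zpow_neg]
          group
        rw [this, map_mul, hx' t m1, hy' t m2, mul_one]
      inv_mem' := by
        rintro x ⟨hx, hx'⟩
        refine ⟨by rw [map_inv, hx, inv_one], fun t h => ?_⟩
        have m1 : a ^ t * x * a ^ (-t) ∈ N := mem0 _ (by
          rw [map_mul, map_mul, hx, hχa, hχa, mul_one, ← ofAdd_add, add_neg_cancel, ofAdd_zero])
        have : (⟨a ^ t * x⁻¹ * a ^ (-t), h⟩ : N) = ⟨_, m1⟩⁻¹ := by
          apply Subtype.ext
          change a ^ t * x⁻¹ * a ^ (-t) = (a ^ t * x * a ^ (-t))⁻¹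
          rw [zpow_neg]
          group
        rw [this, map_inv, hx' t m1, inv_one] }
  have hWconj : ∀ w ∈ W, ∀ s : ℤ, a ^ s * w * a ^ (-s) ∈ W := by
    rintro w ⟨hw, hw'⟩ s
    refine ⟨by rw [map_mul, map_mul, hw, hχa, hχa, mul_one, ← ofAdd_add, add_neg_cancel,
      ofAdd_zero], fun t h => ?_⟩
    have e : a ^ t * (a ^ s * w * a ^ (-s)) * a ^ (-t) = a ^ (t + s) * w * a ^ (-(t + s)) := by
      rw [zpow_add, neg_add_rev, zpow_add]
      simp only [mul_assoc]
    have m1 : a ^ (t + s) * w * a ^ (-(t + s)) ∈ N := e ▸ h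
    have : (⟨a ^ t * (a ^ s * w * a ^ (-s)) * a ^ (-t), h⟩ : N) = ⟨_, m1⟩ := Subtype.ext e
    rw [this, hw' _ m1]
  have hWc : b * a⁻¹ ∈ W := by
    refine ⟨by rw [map_mul, map_inv, ha, hb, mul_inv_cancel], fun t h => ?_⟩
    exact hdone t
  let S : Subgroup G :=
    { carrier := {g | ∃ w ∈ W, ∃ s : ℤ, g = w * a ^ s}
      one_mem' := ⟨1, W.one_mem, 0, by simp⟩
      mul_mem' := by
        rintro x y ⟨w, hw, s, rfl⟩ ⟨w', hw', s', rfl⟩
        refine ⟨w * (a ^ s * w' * a ^ (-s)), W.mul_mem hw (hWconj w' hw' s), s + s', ?_⟩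
        rw [zpow_add, zpow_neg]
        group
      inv_mem' := by
        rintro x ⟨w, hw, s, rfl⟩
        refine ⟨a ^ (-s) * w⁻¹ * a ^ (-(-s)), hWconj _ (W.inv_mem hw) (-s), -s, ?_⟩
        rw [neg_neg, zpow_neg]
        group }
  have hS : S = ⊤ := by
    rw [eq_top_iff, ← hgen, Subgroup.closure_le]
    rintro x (rfl | hx)
    · exact ⟨1, W.one_mem, 1, by simp⟩
    · have hx' : x = b := hx
      subst hx'
      exact ⟨x * a⁻¹, hWc, 1, by simp⟩
  rintro ⟨x, hx⟩
  have hxS : x ∈ S := hS ▸ Subgroup.mem_top x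
  obtain ⟨w, ⟨hw, hw'⟩, s, rfl⟩ := hxS
  obtain ⟨e, he⟩ := (hN _).1 hx
  rw [map_mul, hw, hχa, one_mul] at he
  have hs : s = p * e := Multiplicative.ofAdd.injective he
  have e1 : (⟨w * a ^ s, hx⟩ : N) = ⟨w, mem0 w hw⟩ * ⟨a ^ p, hapN⟩ ^ e := by
    apply Subtype.ext
    change w * a ^ s = w * ((⟨a ^ p, hapN⟩ : N) ^ e : N).1
    rw [Subgroup.coe_zpow, hs, zpow_mul, zpow_natCast]
  have e2 : φ ⟨w, mem0 w hw⟩ = 1 := by
    have m1 : a ^ (0 : ℤ) * w * a ^ (-(0 : ℤ)) ∈ N := by simpa using mem0 w hw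
    have := hw' 0 m1
    have e3 : (⟨a ^ (0 : ℤ) * w * a ^ (-(0 : ℤ)), m1⟩ : N) = ⟨w, mem0 w hw⟩ :=
      Subtype.ext (by simp)
    rwa [e3] at this
  rw [e1, map_mul, map_zpow, hφap, one_zpow, mul_one, e2]

end Pool.Agent.Helper62.Loop
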