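import Mathlib

/-!
Surgery presentations of knots in homology 3-spheres, mod p loop moves and the homology of the
branched cyclic covers.
-/

namespace Pool.Agent.Helper62.Loop

/-- A closed braid with `n` strands and braid word `word`.  The entry `(i, true)` is the positive
crossing of the strands at positions `i` and `i + 1`, `(i, false)` the negative crossing.  The
component through the strand `k` is the knot `K`, all other components are surgery components with
the blackboard framing. -/
structure Presentation where
  n : ℕ
  word : List (ℕ × Bool)
  k : Fin n

/-- The Wirtinger label of the strand at position `j`: a strand that started as strand `o` and has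
collected the word `l` under its under-crossings has the label `l⁻¹ x_o l`. -/
def label {n : ℕ} (s : Fin n → Fin n × FreeGroup (Fin n)) (j : Fin n) : FreeGroup (Fin n) :=
  (s j).2⁻¹ * FreeGroup.of (s j).1 * (s j).2

/-- One crossing. The state records for each position the top strand it comes from and the
product of the labels (with signs) of the strands under which it has passed. -/
def cross {n : ℕ} (s : Fin n → Fin n × FreeGroup (Fin n)) (c : ℕ × Bool) :
    Fin n → Fin n × FreeGroup (Fin n) := fun j =>
  if h : c.1 + 1 < n then
    if j.1 = c.1 then
      if c.2 = true then s ⟨c.1 + 1, h⟩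
      else ((s ⟨c.1 + 1, h⟩).1, (s ⟨c.1 + 1, h⟩).2 * (label s j)⁻¹)
    else if j.1 = c.1 + 1 then
      if c.2 = true then ((s ⟨c.1, by omega⟩).1, (s ⟨c.1, by omega⟩).2 * label s j)
      else s ⟨c.1, by omega⟩
    else s j
  else s j

/-- The state after the crossings of a braid word `v`. -/
def state (n : ℕ) (v : List (ℕ × Bool)) : Fin n → Fin n × FreeGroup (Fin n) :=
  v.foldl cross (fun j => (j, 1))

namespace Presentation

/-- The state at the bottom of the braid. -/
def final (D : Presentation) : Fin D.n → Fin D.n × FreeGroup (Fin D.n) := state D.n D.word

/-- The top position of the strand that ends at the bottom position `j`. -/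
def origin (D : Presentation) (j : Fin D.n) : Fin D.n := (D.final j).1

/-- The signed product of the labels of the strands over the strand that ends at `j`. -/
def path (D : Presentation) (j : Fin D.n) : FreeGroup (Fin D.n) := (D.final j).2

/-- The product of the paths of the last `s` strands of the component before position `j`. -/
def travel (D : Presentation) (j : Fin D.n) : ℕ → FreeGroup (Fin D.n)
  | 0 => 1
  | s + 1 => D.path (D.origin^[s] j) * D.travel j s

/-- The blackboard longitude of the component through `j`, starting at `j`. -/
noncomputable def longitude (D : Presentation) (j : Fin D.n) : FreeGroup (Fin D.n) :=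
  D.travel j (Function.minimalPeriod D.origin j)

/-- The relators of the fundamental group of `M - K`: the Wirtinger relators of the closed braid
and the longitudes of the surgery components. -/
def relators (D : Presentation) : Set (FreeGroup (Fin D.n)) :=
  {r | (∃ j, r = label D.final j * (FreeGroup.of j)⁻¹) ∨
    ∃ j, (∀ s, D.origin^[s] j ≠ D.k) ∧ r = D.longitude j}

/-- The fundamental group of `M - K`. -/
abbrev Grp (D : Presentation) : Type := PresentedGroup D.relators

/-- The meridian of the strand `j`. -/
def meridian (D : Presentation) (j : Fin D.n) : D.Grp := PresentedGroup.of j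

/-- `H_1(M - K)` is infinite cyclic, generated by the meridian of `K`; equivalently `H_1(M) = 0`. -/
def IsHomologySphere (D : Presentation) : Prop :=
  Function.Bijective (fun c : ℤ => Abelianization.of (D.meridian D.k) ^ c)

/-- The fundamental group of the `p`-fold cyclic cover of `M - K`. -/
def coverGroup (p : ℕ) (D : Presentation) : Subgroup D.Grp :=
  (Subgroup.zpowers (Abelianization.of (D.meridian D.k) ^ p)).comap Abelianization.of

/-- The fundamental group of the `p`-fold cyclic cover of `M` branched along `K`. -/
abbrev BranchedGroup (p : ℕ) (D : Presentation) : Type :=
  D.coverGroup p ⧸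
    Subgroup.normalClosure {x : D.coverGroup p | (x : D.Grp) = D.meridian D.k ^ p}

/-- The first homology of the `p`-fold cyclic cover of `M` branched along `K`. -/
abbrev H1 (p : ℕ) (D : Presentation) : Type := Abelianization (D.BranchedGroup p)

end Presentation

/-- Surgery presentations of pairs `(M, K)` with `M` an integral homology sphere. -/
abbrev MK : Type := {D : Presentation // D.IsHomologySphere}

/-- An isomorphism of the groups of the two pairs that respects the meridians of the knots. Every
homeomorphism of oriented pairs induces one. -/
def SamePair (D E : MK) : Prop :=
  ∃ e : D.1.Grp ≃* E.1.Grp, e (D.1.meridian D.1.k) = E.1.meridian E.1.k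

/-- The three-strand braid whose closure is the Borromean rings, on the strands `m`, `m + 1` and
`m + 2`. -/
def borromean (m : ℕ) : List (ℕ × Bool) :=
  [(m, true), (m + 1, false), (m, true), (m + 1, false), (m, true), (m + 1, false)]

/-- Surgery on a Y graph. Somewhere in the closed braid `D` the three adjacent strands `m`,
`m + 1` and `m + 2` are tied into the Borromean braid; the leaves of the Y graph are the meridians
of these three strands, and their classes are divisible by `p` in `H_1(M - K)`. -/
def LoopMove (p : ℕ) (D E : MK) : Prop :=
  ∃ (n m : ℕ) (v w : List (ℕ × Bool)) (k : Fin n), m + 2 < n ∧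
    D.1 = ⟨n, v ++ w, k⟩ ∧ E.1 = ⟨n, v ++ (borromean m ++ w), k⟩ ∧
    ∀ j : Fin n, m ≤ j.1 → j.1 ≤ m + 2 → ∃ c : ℤ,
      Abelianization.of (PresentedGroup.mk (Presentation.mk n (v ++ w) k).relators
          (label (state n v) j)) =
        Abelianization.of ((Presentation.mk n (v ++ w) k).meridian k) ^ ((p : ℤ) * c)

/-- The finite sequences of mod `p` loop moves and their inverses, up to `SamePair`. -/
def Related (p : ℕ) : MK → MK → Prop :=
  Relation.EqvGen (fun D E => SamePair D E ∨ LoopMove p D E)

end Pool.Agent.Helper62.Loop
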