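import Pool.Agent.Helper62.LoopDefs
import Pool.Agent.Helper62.LoopAlg

/-!
Groups of closed braid surgery presentations: redundant relators.
-/

namespace Pool.Agent.Helper62.Loop

open Presentation

theorem cross_of_not {n : ℕ} (s : Fin n → Fin n × FreeGroup (Fin n)) (c : ℕ × Bool)
    (h : ¬ c.1 + 1 < n) : cross s c = s := by
  funext j
  simp [cross, h]

theorem cross_left {n : ℕ} (s : Fin n → Fin n × FreeGroup (Fin n)) (i : ℕ) (h : i + 1 < n) :
    cross s (i, true) ⟨i, by omega⟩ = s ⟨i + 1, h⟩ := by
  simp [cross, h]

theorem cross_right {n : ℕ} (s : Fin n → Fin n × FreeGroup (Fin n)) (i : ℕ) (h : i + 1 < n) :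
    cross s (i, true) ⟨i + 1, h⟩ =
      ((s ⟨i, by omega⟩).1, (s ⟨i, by omega⟩).2 * label s ⟨i + 1, h⟩) := by
  simp [cross, h]

theorem cross_left' {n : ℕ} (s : Fin n → Fin n × FreeGroup (Fin n)) (i : ℕ) (h : i + 1 < n) :
    cross s (i, false) ⟨i, by omega⟩ =
      ((s ⟨i + 1, h⟩).1, (s ⟨i + 1, h⟩).2 * (label s ⟨i, by omega⟩)⁻¹) := by
  simp [cross, h]

theorem cross_right' {n : ℕ} (s : Fin n → Fin n × FreeGroup (Fin n)) (i : ℕ) (h : i + 1 < n) :
    cross s (i, false) ⟨i + 1, h⟩ = s ⟨i, by omega⟩ := by
  simp [cross, h]

theorem cross_other {n : ℕ} (s : Fin n → Fin n × FreeGroup (Fin n)) (c : ℕ × Bool) (j : Fin n)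
    (h1 : j.1 ≠ c.1) (h2 : j.1 ≠ c.1 + 1) : cross s c j = s j := by
  simp [cross, h1, h2]

theorem cross_fst {n : ℕ} (s : Fin n → Fin n × FreeGroup (Fin n)) (c : ℕ × Bool) :
    ∃ σ : Equiv.Perm (Fin n), ∀ j, (cross s c j).1 = (s (σ j)).1 := by
  by_cases h : c.1 + 1 < n
  · refine ⟨Equiv.swap ⟨c.1, by omega⟩ ⟨c.1 + 1, h⟩, fun j => ?_⟩
    by_cases h1 : j.1 = c.1
    · have e : j = ⟨c.1, by omega⟩ := Fin.ext h1
      rw [e, Equiv.swap_apply_left]
      obtain ⟨i, b⟩ := c
      cases b
      · have e := congrArg Prod.fst (cross_left' s i h)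
        exact e
      · have e := congrArg Prod.fst (cross_left s i h)
        exact e
    · by_cases h2 : j.1 = c.1 + 1
      · have e : j = ⟨c.1 + 1, h⟩ := Fin.ext h2
        rw [e, Equiv.swap_apply_right]
        obtain ⟨i, b⟩ := c
        cases b
        · have e := congrArg Prod.fst (cross_right' s i h)
          exact e
        · have e := congrArg Prod.fst (cross_right s i h)
          exact e
      · rw [cross_other s c j h1 h2, Equiv.swap_apply_of_ne_of_ne]
        · exact fun e => h1 (congrArg Fin.val e)
        · exact fun e => h2 (congrArg Fin.val e)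
  · exact ⟨1, fun j => by rw [cross_of_not s c h]; rfl⟩

theorem foldl_inj {n : ℕ} (w : List (ℕ × Bool)) (s : Fin n → Fin n × FreeGroup (Fin n))
    (hs : Function.Injective (fun j => (s j).1)) :
    Function.Injective (fun j => (w.foldl cross s j).1) := by
  induction w generalizing s with
  | nil => exact hs
  | cons c w ih =>
    rw [List.foldl_cons]
    apply ih
    obtain ⟨σ, hσ⟩ := cross_fst s c
    intro a b hab
    simp only [hσ] at hab
    exact σ.injective (hs hab)

theorem origin_inj (D : Presentation) : Function.Injective D.origin :=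
  foldl_inj D.word _ (fun _ _ h => h)

/-- Products of the first members of a sequence. -/
def prodUpTo {G : Type*} [Group G] (g : ℕ → G) : ℕ → G
  | 0 => 1
  | t + 1 => prodUpTo g t * g t

theorem prodUpTo_swap {G : Type*} [Group G] (g g' : ℕ → G) (i : ℕ)
    (h : ∀ j, j ≠ i → j ≠ i + 1 → g' j = g j) (h2 : g' i * g' (i + 1) = g i * g (i + 1)) :
    ∀ t, t ≠ i + 1 → prodUpTo g' t = prodUpTo g t := by
  intro t
  induction t using Nat.strong_induction_on with
  | _ t ih =>
    intro ht
    cases t with
    | zero => rfl
    | succ t =>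
      by_cases h3 : t = i + 1
      · subst h3
        have := ih i (by omega) (by omega)
        simp only [prodUpTo, mul_assoc, this, h2]
      · simp only [prodUpTo]
        rw [ih t (by omega) h3, h t (by omega) h3]

theorem prodUpTo_cancel {G : Type*} [Group G] (g g' : ℕ → G) (k : ℕ) (h : ∀ j, j ≠ k → g' j = g j)
    (n : ℕ) (hk : k < n) (hn : prodUpTo g' n = prodUpTo g n) : g' k = g k := by
  have h0 : ∀ t, t ≤ k → prodUpTo g' t = prodUpTo g t := by
    intro t
    induction t with
    | zero => intro _; rfl
    | succ t ih =>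
      intro ht
      simp only [prodUpTo]
      rw [ih (by omega), h t (by omega)]
  induction n with
  | zero => omega
  | succ n ih =>
    by_cases h1 : n = k
    · subst h1
      simp only [prodUpTo] at hn
      rw [h0 n le_rfl] at hn
      exact mul_left_cancel hn
    · simp only [prodUpTo] at hn
      rw [h n h1] at hn
      exact ih (by omega) (mul_right_cancel hn)

theorem map_prodUpTo {G H : Type*} [Group G] [Group H] (φ : G →* H) (g : ℕ → G) (n : ℕ) :
    φ (prodUpTo g n) = prodUpTo (fun j => φ (g j)) n := by
  induction n with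
  | zero => simp [prodUpTo]
  | succ n ih => simp [prodUpTo, ih]

/-- The labels as a sequence. -/
def lab {n : ℕ} (s : Fin n → Fin n × FreeGroup (Fin n)) (j : ℕ) : FreeGroup (Fin n) :=
  if h : j < n then label s ⟨j, h⟩ else 1

theorem cross_prod {n : ℕ} (s : Fin n → Fin n × FreeGroup (Fin n)) (c : ℕ × Bool) :
    prodUpTo (lab (cross s c)) n = prodUpTo (lab s) n := by
  by_cases h : c.1 + 1 < n
  · apply prodUpTo_swap _ _ c.1 _ _ n (by omega)
    · intro j h1 h2
      simp only [lab]
      split_ifs with h3
      · simp only [label]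
        rw [cross_other s c ⟨j, h3⟩ h1 h2]
      · rfl
    · have h' : c.1 < n := by omega
      simp only [lab, h, h', dite_true]
      obtain ⟨i, b⟩ := c
      cases b
      · have e1 : label (cross s (i, false)) ⟨i, h'⟩ =
            label s ⟨i, h'⟩ * label s ⟨i + 1, h⟩ * (label s ⟨i, h'⟩)⁻¹ := by
          conv_lhs => rw [label, cross_left' s i h]
          simp only [label]
          group
        have e2 : label (cross s (i, false)) ⟨i + 1, h⟩ = label s ⟨i, h'⟩ := by
          conv_lhs => rw [label, cross_right' s i h]
          rfl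
        simp only at e1 e2 ⊢
        rw [e1, e2]
        group
      · have e1 : label (cross s (i, true)) ⟨i, h'⟩ = label s ⟨i + 1, h⟩ := by
          conv_lhs => rw [label, cross_left s i h]
          rfl
        have e2 : label (cross s (i, true)) ⟨i + 1, h⟩ =
            (label s ⟨i + 1, h⟩)⁻¹ * label s ⟨i, h'⟩ * label s ⟨i + 1, h⟩ := by
          conv_lhs => rw [label, cross_right s i h]
          simp only [label]
          group
        simp only at e1 e2 ⊢
        rw [e1, e2]
        group
  · rw [cross_of_not s c h]

theorem foldl_prod {n : ℕ} (w : List (ℕ × Bool)) (s : Fin n → Fin n × FreeGroup (Fin n)) :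
    prodUpTo (lab (w.foldl cross s)) n = prodUpTo (lab s) n := by
  induction w generalizing s with
  | nil => rfl
  | cons c w ih => rw [List.foldl_cons, ih, cross_prod]

theorem travel_succ' (D : Presentation) (j : Fin D.n) (s : ℕ) :
    D.travel j (s + 1) = D.travel (D.origin j) s * D.path j := by
  induction s with
  | zero => simp [travel]
  | succ s ih =>
    rw [travel, ih]
    conv_rhs => rw [travel]
    rw [Function.iterate_succ_apply, mul_assoc]

theorem longitude_origin (D : Presentation) (j : Fin D.n) :
    D.longitude (D.origin j) = D.path j * D.longitude j * (D.path j)⁻¹ := by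
  have hp := Function.Injective.mem_periodicPts (origin_inj D) j
  have h1 := travel_succ' D j (Function.minimalPeriod D.origin j)
  have h2 : D.travel j (Function.minimalPeriod D.origin j + 1) =
      D.path j * D.longitude j := by
    rw [travel, Function.isPeriodicPt_minimalPeriod D.origin j, longitude]
  rw [longitude, Function.minimalPeriod_apply hp, ← h2, h1]
  group

theorem longitude_iterate {G : Type*} [Group G] (D : Presentation) (φ : FreeGroup (Fin D.n) →* G)
    (j : Fin D.n) (t : ℕ) (h : φ (D.longitude (D.origin^[t] j)) = 1) :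
    φ (D.longitude j) = 1 := by
  induction t with
  | zero => exact h
  | succ t ih =>
    apply ih
    rw [Function.iterate_succ_apply', longitude_origin] at h
    simp only [map_mul, map_inv] at h
    have h3 := congrArg (fun x => (φ (D.path (D.origin^[t] j)))⁻¹ * x *
      φ (D.path (D.origin^[t] j))) h
    simpa [mul_assoc] using h3

theorem travel_conj {G : Type*} [Group G] (D : Presentation) (φ : FreeGroup (Fin D.n) →* G)
    (j : Fin D.n) (s : ℕ)
    (h : ∀ t < s, φ (label D.final (D.origin^[t] j)) = φ (FreeGroup.of (D.origin^[t] j))) :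
    φ (FreeGroup.of j) = (φ (D.travel j s))⁻¹ * φ (FreeGroup.of (D.origin^[s] j)) *
      φ (D.travel j s) := by
  induction s with
  | zero => simp [travel]
  | succ s ih =>
    rw [ih (fun t ht => h t (by omega)), ← h s (by omega), travel,
      Function.iterate_succ_apply' D.origin]
    simp only [label, map_mul, map_inv]
    simp only [path, origin, mul_assoc, mul_inv_rev]

/-- The relators without the redundant ones. -/
noncomputable def rel (D : Presentation) (j : {j : Fin D.n // j ≠ D.k}) : FreeGroup (Fin D.n) :=
  open Classical in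
  if (∀ s, D.origin^[s] j.1 ≠ D.k) ∧ (∀ s, j.1 ≤ D.origin^[s] j.1) then D.longitude j.1
  else label D.final j.1 * (FreeGroup.of j.1)⁻¹

theorem rel_mem (D : Presentation) (j : {j : Fin D.n // j ≠ D.k}) : rel D j ∈ D.relators := by
  unfold rel
  split_ifs with h
  · exact Or.inr ⟨j.1, h.1, rfl⟩
  · exact Or.inl ⟨j.1, rfl⟩

theorem map_relators {G : Type*} [Group G] (D : Presentation) (φ : FreeGroup (Fin D.n) →* G)
    (h : ∀ j, φ (rel D j) = 1) : ∀ r ∈ D.relators, φ r = 1 := by
  -- longitudes
  have hl : ∀ j : Fin D.n, (∀ s, D.origin^[s] j ≠ D.k) → φ (D.longitude j) = 1 := by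
    intro j hj
    set t := Function.argmin (fun s => D.origin^[s] j) with ht
    apply longitude_iterate D φ j t
    have h1 : ∀ s, D.origin^[s] (D.origin^[t] j) ≠ D.k := by
      intro s
      rw [← Function.iterate_add_apply]
      exact hj _
    have h2 : ∀ s, D.origin^[t] j ≤ D.origin^[s] (D.origin^[t] j) := by
      intro s
      rw [← Function.iterate_add_apply]
      exact Function.argmin_le (fun s => D.origin^[s] j) (s + t)
    have h3 := h ⟨D.origin^[t] j, hj t⟩
    rw [rel, if_pos ⟨h1, h2⟩] at h3
    exact h3
  -- Wirtinger relators off the base strands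
  have hw1 : ∀ j : Fin D.n, j ≠ D.k →
      ¬ ((∀ s, D.origin^[s] j ≠ D.k) ∧ (∀ s, j ≤ D.origin^[s] j)) →
      φ (label D.final j) = φ (FreeGroup.of j) := by
    intro j hj hj'
    have h3 := h ⟨j, hj⟩
    rw [rel, if_neg hj', map_mul, map_inv] at h3
    exact mul_inv_eq_one.1 h3
  have hw2 : ∀ j : Fin D.n, j ≠ D.k → φ (label D.final j) = φ (FreeGroup.of j) := by
    intro j hj
    by_cases hb : (∀ s, D.origin^[s] j ≠ D.k) ∧ (∀ s, j ≤ D.origin^[s] j)
    · have hp := Function.Injective.mem_periodicPts (origin_inj D) j
      have hpos := Function.minimalPeriod_pos_of_mem_periodicPts hp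
      have hper := Function.isPeriodicPt_minimalPeriod D.origin j
      obtain ⟨m, hm⟩ := Nat.exists_eq_add_of_lt hpos
      rw [zero_add] at hm
      have hlon := hl j hb.1
      rw [longitude, hm, travel_succ', map_mul] at hlon
      have hcon := travel_conj D φ (D.origin j) m (by
        intro t ht
        rw [← Function.iterate_succ_apply]
        apply hw1
        · exact hb.1 _
        · rintro ⟨-, h2⟩
          have h4 := h2 (m + 1 - (t + 1))
          rw [← Function.iterate_add_apply] at h4
          have e1 : m + 1 - (t + 1) + t.succ = m + 1 := by omega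
          rw [e1, ← hm, hper] at h4
          have h5 := le_antisymm h4 (hb.2 _)
          have h6 : Function.IsPeriodicPt D.origin t.succ j := h5
          have h7 := h6.minimalPeriod_le (Nat.succ_pos t)
          omega)
      rw [← Function.iterate_succ_apply] at hcon
      have e2 : D.origin^[m.succ] j = j := by
        have : D.origin^[Function.minimalPeriod D.origin j] j = j := hper
        rwa [hm] at this
      rw [e2] at hcon
      have e3 : φ (D.travel (D.origin j) m) = (φ (D.path j))⁻¹ := eq_inv_of_mul_eq_one_left hlon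
      rw [e3] at hcon
      simp only [label, map_mul, map_inv]
      change (φ (D.path j))⁻¹ * φ (FreeGroup.of (D.origin j)) * φ (D.path j) = _
      rw [hcon]
      group
    · exact hw1 j hj hb
  have hw3 : φ (label D.final D.k) = φ (FreeGroup.of D.k) := by
    have h1 : prodUpTo (fun j => φ (lab D.final j)) D.n =
        prodUpTo (fun j => φ (lab (fun j : Fin D.n => (j, (1 : FreeGroup (Fin D.n)))) j)) D.n := by
      rw [← map_prodUpTo, ← map_prodUpTo]
      congr 1
      exact foldl_prod D.word _
    have h2 := prodUpTo_cancel _ _ D.k.1 (by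
      intro j hj
      simp only [lab]
      split_ifs with h4
      · rw [hw2 ⟨j, h4⟩ (fun e => hj (congrArg Fin.val e))]
        simp [label]
      · rfl) D.n D.k.2 h1
    simpa [lab, label] using h2
  rintro r (⟨j, rfl⟩ | ⟨j, hj, rfl⟩)
  · rw [map_mul, map_inv]
    by_cases e : j = D.k
    · rw [e, hw3, mul_inv_cancel]
    · rw [hw2 j e, mul_inv_cancel]
  · exact hl j hj

theorem normalClosure_eq (D : Presentation) :
    Subgroup.normalClosure D.relators = Subgroup.normalClosure (Set.range (rel D)) := by
  apply le_antisymm
  · apply Subgroup.normalClosure_le_normal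
    intro r hr
    have := map_relators D (QuotientGroup.mk' (Subgroup.normalClosure (Set.range (rel D))))
      (fun j => (QuotientGroup.eq_one_iff _).2 (Subgroup.subset_normalClosure ⟨j, rfl⟩)) r hr
    exact (QuotientGroup.eq_one_iff _).1 this
  · apply Subgroup.normalClosure_mono
    rintro _ ⟨j, rfl⟩
    exact rel_mem D j

end Pool.Agent.Helper62.Loop
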