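import Pool.Agent.Helper62.LoopGrp

/-!
The invariant of mod p loop moves: the absolute value of the Alexander polynomial at a p-th root of
unity.
-/

namespace Pool.Agent.Helper62.Loop

open Presentation

/-- The isomorphism of `ℤ` and `H_1(M - K)`. -/
noncomputable def chiEquiv (D : MK) : Multiplicative ℤ ≃* Abelianization D.1.Grp :=
  MulEquiv.ofBijective (zpowersHom _ (Abelianization.of (D.1.meridian D.1.k)))
    (show Function.Bijective _ from by
      have h := D.2
      refine ⟨fun a b hab => ?_, fun y => ?_⟩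
      · exact Multiplicative.toAdd.injective (h.1 hab)
      · obtain ⟨c, hc⟩ := h.2 y
        exact ⟨Multiplicative.ofAdd c, hc⟩)

theorem chiEquiv_apply (D : MK) (c : ℤ) : chiEquiv D (Multiplicative.ofAdd c) =
    Abelianization.of (D.1.meridian D.1.k) ^ c := rfl

/-- The class of a loop in `H_1(M - K) = ℤ`. -/
noncomputable def chi (D : MK) : D.1.Grp →* Multiplicative ℤ :=
  (chiEquiv D).symm.toMonoidHom.comp Abelianization.of

theorem chi_meridian (D : MK) : chi D (D.1.meridian D.1.k) = Multiplicative.ofAdd 1 := by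
  change (chiEquiv D).symm (Abelianization.of (D.1.meridian D.1.k)) = _
  rw [MulEquiv.symm_apply_eq, chiEquiv_apply, zpow_one]

theorem chi_unique (D : MK) (f : D.1.Grp →* Multiplicative ℤ)
    (hf : f (D.1.meridian D.1.k) = Multiplicative.ofAdd 1) : f = chi D := by
  refine MonoidHom.ext fun x => ?_
  obtain ⟨c, hc⟩ := D.2.2 (Abelianization.of x)
  have h1 : ∀ g : D.1.Grp →* Multiplicative ℤ,
      g (D.1.meridian D.1.k) = Multiplicative.ofAdd 1 → g x = Multiplicative.ofAdd 1 ^ c := by
    intro g hg
    have h2 : Abelianization.lift g (Abelianization.of x) = g x := Abelianization.lift_apply_of g x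
    have h3 : Abelianization.lift g (Abelianization.of (D.1.meridian D.1.k)) =
      g (D.1.meridian D.1.k) := Abelianization.lift_apply_of g _
    rw [← h2, ← hc]
    simp only [map_zpow]
    rw [h3, hg]
  rw [h1 f hf, h1 _ (chi_meridian D)]

/-- The classes of the meridians. -/
noncomputable def chiVal (D : MK) (i : Fin D.1.n) : ℤ :=
  Multiplicative.toAdd (chi D (D.1.meridian i))

theorem lift_chiVal (D : MK) (w : FreeGroup (Fin D.1.n)) :
    FreeGroup.lift (fun i => Multiplicative.ofAdd (chiVal D i)) w =
      chi D (PresentedGroup.mk D.1.relators w) := by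
  have : FreeGroup.lift (fun i => Multiplicative.ofAdd (chiVal D i)) =
      (chi D).comp (PresentedGroup.mk D.1.relators) := by
    apply FreeGroup.ext_hom
    intro i
    simp only [FreeGroup.lift_apply_of, chiVal, ofAdd_toAdd]
    rfl
  exact DFunLike.congr_fun this w

theorem rel_chi (D : MK) (j : {j : Fin D.1.n // j ≠ D.1.k}) :
    FreeGroup.lift (fun i => Multiplicative.ofAdd (chiVal D i)) (rel D.1 j) = 1 := by
  rw [lift_chiVal]
  have : PresentedGroup.mk D.1.relators (rel D.1 j) = 1 :=
    PresentedGroup.one_of_mem (rel_mem D.1 j)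
  rw [this, map_one]

theorem chiVal_eq_iff (D : MK) (f : Fin D.1.n → ℤ) (hk : f D.1.k = 1)
    (hf : ∀ j, FreeGroup.lift (fun i => Multiplicative.ofAdd (f i)) (rel D.1 j) = 1) :
    f = chiVal D := by
  have h1 := map_relators D.1 (FreeGroup.lift (fun i => Multiplicative.ofAdd (f i))) hf
  have h2 := chi_unique D (PresentedGroup.toGroup h1) (by
    rw [meridian, PresentedGroup.toGroup.of, hk])
  funext i
  rw [chiVal, ← h2, meridian, PresentedGroup.toGroup.of]
  rfl

/-- The norm of the Alexander polynomial at `z`. -/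
noncomputable def inv (z : ℂˣ) (D : MK) : ℝ :=
  ‖(mat z D.1.k (chiVal D) (rel D.1)).det‖

theorem mat_map {R S : Type*} [CommRing R] [CommRing S] (f : R →+* S) (u : Rˣ) {n : ℕ}
    (k : Fin n) (χ : Fin n → ℤ) (r : {j : Fin n // j ≠ k} → FreeGroup (Fin n)) :
    (mat u k χ r).map f = mat (Units.map f.toMonoidHom u) k χ r := by
  have : (Aff.evalMap f u {j : Fin n // j ≠ k}).comp (fox u k χ) =
      fox (Units.map f.toMonoidHom u) k χ := by
    apply FreeGroup.ext_hom
    intro i
    simp only [MonoidHom.comp_apply, fox_of]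
    ext1
    · funext j
      change f ((if h : i ≠ k then (Pi.single ⟨i, h⟩ 1 : {j : Fin n // j ≠ k} → R) else 0) j) = _
      by_cases h : i ≠ k
      · simp only [h, not_false_eq_true, ↓reduceDIte, ne_eq]
        by_cases h2 : j = ⟨i, h⟩
        · subst h2; simp
        · simp [h2]
      · simp [h]
    · rfl
  ext i j
  have h1 := DFunLike.congr_fun this (r i)
  exact congrFun (congrArg Aff.v h1) j

theorem exists_lift {D E : Presentation} (e : D.Grp →* E.Grp)
    (he : e (D.meridian D.k) = E.meridian E.k) :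
    ∃ f : FreeGroup (Fin D.n) →* FreeGroup (Fin E.n), f (FreeGroup.of D.k) = FreeGroup.of E.k ∧
      ∀ w, PresentedGroup.mk E.relators (f w) = e (PresentedGroup.mk D.relators w) := by
  classical
  have h1 : ∀ i, ∃ w, PresentedGroup.mk E.relators w = e (D.meridian i) :=
    fun i => QuotientGroup.mk_surjective _
  choose g hg using h1
  refine ⟨FreeGroup.lift (fun i => if i = D.k then FreeGroup.of E.k else g i), by simp, ?_⟩
  intro w
  have : (PresentedGroup.mk E.relators).comp
      (FreeGroup.lift (fun i => if i = D.k then FreeGroup.of E.k else g i)) =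
      e.comp (PresentedGroup.mk D.relators) := by
    apply FreeGroup.ext_hom
    intro i
    simp only [MonoidHom.comp_apply, FreeGroup.lift_apply_of]
    split_ifs with h
    · subst h
      exact he.symm
    · exact hg i
  exact DFunLike.congr_fun this w

theorem mem_closure_iff (D : Presentation) (w : FreeGroup (Fin D.n)) :
    w ∈ Subgroup.normalClosure (Set.range (rel D)) ↔ PresentedGroup.mk D.relators w = 1 := by
  rw [← normalClosure_eq]
  exact (QuotientGroup.eq_one_iff w).symm

theorem det_dvd_of_iso {R : Type*} [CommRing R] (u : Rˣ) (D E : MK) (e : D.1.Grp ≃* E.1.Grp)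
    (he : e (D.1.meridian D.1.k) = E.1.meridian E.1.k) :
    (mat u E.1.k (chiVal E) (rel E.1)).det ∣ (mat u D.1.k (chiVal D) (rel D.1)).det := by
  obtain ⟨f, hf1, hf2⟩ := exists_lift e.toMonoidHom he
  obtain ⟨g, -, hg2⟩ := exists_lift e.symm.toMonoidHom (by
    change e.symm _ = _
    rw [← he, MulEquiv.symm_apply_apply])
  have hχ : (chi E).comp e.toMonoidHom = chi D := by
    apply chi_unique
    change chi E (e _) = _
    rw [he, chi_meridian]
  apply det_mat_dvd u D.1.k E.1.k (chiVal D) (chiVal E) (rel D.1) (rel E.1) (rel_chi E) f g hf1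
  · intro j
    rw [mem_closure_iff, hf2, PresentedGroup.one_of_mem (rel_mem D.1 j), map_one]
  · intro i
    rw [mem_closure_iff, map_mul, hf2, hg2, map_inv]
    change e (e.symm _) * _ = 1
    rw [MulEquiv.apply_symm_apply, mul_inv_cancel]
  · intro i
    rw [lift_chiVal, hf2, chiVal, ← hχ]
    rfl

theorem inv_samePair (z : ℂˣ) (hz : ‖(z : ℂ)‖ = 1) (D E : MK) (h : SamePair D E) :
    inv z D = inv z E := by
  obtain ⟨e, he⟩ := h
  have he' : e.symm (E.1.meridian E.1.k) = D.1.meridian D.1.k := by
    rw [← he, MulEquiv.symm_apply_apply]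
  let T : (LaurentPolynomial ℤ)ˣ := (LaurentPolynomial.isUnit_T 1).unit
  have h1 := det_dvd_of_iso T D E e he
  have h2 := det_dvd_of_iso T E D e.symm he'
  obtain ⟨c, hc⟩ := associated_of_dvd_dvd h1 h2
  have hT : Units.map (LaurentPolynomial.eval₂ (Int.castRingHom ℂ) z).toMonoidHom T = z := by
    ext
    change LaurentPolynomial.eval₂ (Int.castRingHom ℂ) z (T : LaurentPolynomial ℤ) = _
    simp [T, LaurentPolynomial.eval₂_T]
  have h3 : ∀ F : MK, (mat z F.1.k (chiVal F) (rel F.1)).det =
      LaurentPolynomial.eval₂ (Int.castRingHom ℂ) z (mat T F.1.k (chiVal F) (rel F.1)).det := by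
    intro F
    rw [RingHom.map_det, RingHom.mapMatrix_apply, mat_map, hT]
  rw [inv, inv, h3, h3, ← hc, map_mul, norm_mul, norm_unit z hz _ c.isUnit, mul_one]

section borromean

variable {n : ℕ} {H : Type*} [Group H] (φ : FreeGroup (Fin n) →* H)

theorem map_label_mul (s s' : Fin n → Fin n × FreeGroup (Fin n)) (i j : Fin n)
    (q : FreeGroup (Fin n)) (h : s' j = ((s i).1, (s i).2 * q))
    (hc : φ (label s i) * φ q = φ q * φ (label s i)) : φ (label s' j) = φ (label s i) := by
  have h1 : label s' j = q⁻¹ * label s i * q := by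
    simp only [label, h]
    group
  rw [h1, map_mul, map_mul, mul_assoc, hc, map_inv, inv_mul_cancel_left]

theorem map_label_eq (s s' : Fin n → Fin n × FreeGroup (Fin n)) (i j : Fin n)
    (h : s' j = s i) : φ (label s' j) = φ (label s i) := by
  simp only [label, h]

end borromean

theorem borromean_state {n m : ℕ} (hm : m + 2 < n) {H : Type*} [Group H]
    (φ : FreeGroup (Fin n) →* H) (s : Fin n → Fin n × FreeGroup (Fin n))
    (hc : ∀ i j : Fin n, m ≤ i.1 → i.1 ≤ m + 2 → m ≤ j.1 → j.1 ≤ m + 2 →
      φ (label s i) * φ (label s j) = φ (label s j) * φ (label s i)) :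
    ∀ j, ((borromean m).foldl cross s j).1 = (s j).1 ∧
      φ ((borromean m).foldl cross s j).2 = φ (s j).2 := by
  let a : Fin n := ⟨m, by omega⟩
  let b : Fin n := ⟨m + 1, by omega⟩
  let c : Fin n := ⟨m + 2, by omega⟩
  have hab : φ (label s a) * φ (label s b) = φ (label s b) * φ (label s a) :=
    hc a b (by simp [a]) (by simp [a]) (by simp [b]) (by simp [b])
  have hac : φ (label s a) * φ (label s c) = φ (label s c) * φ (label s a) :=
    hc a c (by simp [a]) (by simp [a]) (by simp [c]) (by simp [c])
  have hbc : φ (label s b) * φ (label s c) = φ (label s c) * φ (label s b) :=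
    hc b c (by simp [b]) (by simp [b]) (by simp [c]) (by simp [c])
  -- one positive crossing on the strands a, b
  have pos : ∀ t : Fin n → Fin n × FreeGroup (Fin n),
      cross t (m, true) a = t b ∧ cross t (m, true) b = ((t a).1, (t a).2 * label t b) ∧
      cross t (m, true) c = t c ∧
      ∀ j : Fin n, j ≠ a → j ≠ b → j ≠ c → cross t (m, true) j = t j := by
    intro t
    refine ⟨cross_left t m (by omega), cross_right t m (by omega), ?_, ?_⟩
    · apply cross_other
      · show m + 2 ≠ m; omega
      · show m + 2 ≠ m + 1; omega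
    · intro j hj1 hj2 hj3
      apply cross_other
      · exact fun e => hj1 (Fin.ext e)
      · exact fun e => hj2 (Fin.ext e)
  have neg : ∀ t : Fin n → Fin n × FreeGroup (Fin n),
      cross t (m + 1, false) a = t a ∧
      cross t (m + 1, false) b = ((t c).1, (t c).2 * (label t b)⁻¹) ∧
      cross t (m + 1, false) c = t b ∧
      ∀ j : Fin n, j ≠ a → j ≠ b → j ≠ c → cross t (m + 1, false) j = t j := by
    intro t
    refine ⟨?_, cross_left' t (m + 1) (by omega), cross_right' t (m + 1) (by omega), ?_⟩
    · apply cross_other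
      · show m ≠ m + 1; omega
      · show m ≠ m + 1 + 1; omega
    · intro j hj1 hj2 hj3
      apply cross_other
      · exact fun e => hj2 (Fin.ext e)
      · exact fun e => hj3 (Fin.ext e)
  set X := φ (label s a) with hX
  set Y := φ (label s b) with hY
  set Z := φ (label s c) with hZ
  set s1 := cross s (m, true) with hs1
  set s2 := cross s1 (m + 1, false) with hs2
  set s3 := cross s2 (m, true) with hs3
  set s4 := cross s3 (m + 1, false) with hs4
  set s5 := cross s4 (m, true) with hs5
  set s6 := cross s5 (m + 1, false) with hs6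
  have q1 := pos s
  have q2 := neg s1
  have q3 := pos s2
  have q4 := neg s3
  have q5 := pos s4
  have q6 := neg s5
  rw [← hs1] at q1
  rw [← hs2] at q2
  rw [← hs3] at q3
  rw [← hs4] at q4
  rw [← hs5] at q5
  rw [← hs6] at q6
  obtain ⟨p1a, p1b, p1c, p1j⟩ := q1
  obtain ⟨p2a, p2b, p2c, p2j⟩ := q2
  obtain ⟨p3a, p3b, p3c, p3j⟩ := q3
  obtain ⟨p4a, p4b, p4c, p4j⟩ := q4
  obtain ⟨p5a, p5b, p5c, p5j⟩ := q5
  obtain ⟨p6a, p6b, p6c, p6j⟩ := q6
  -- labels
  have l1a : φ (label s1 a) = Y := map_label_eq φ s s1 b a p1a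
  have l1b : φ (label s1 b) = X := map_label_mul φ s s1 a b _ p1b hab
  have l1c : φ (label s1 c) = Z := map_label_eq φ s s1 c c p1c
  have l2a : φ (label s2 a) = Y := (map_label_eq φ s1 s2 a a p2a).trans l1a
  have l2b : φ (label s2 b) = Z := (map_label_mul φ s1 s2 c b _ p2b (by
    rw [map_inv, l1b, l1c]; exact (Commute.inv_right (show Commute Z X from hac.symm)))).trans l1c
  have l2c : φ (label s2 c) = X := (map_label_eq φ s1 s2 b c p2c).trans l1b
  have l3a : φ (label s3 a) = Z := (map_label_eq φ s2 s3 b a p3a).trans l2b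
  have l3b : φ (label s3 b) = Y := (map_label_mul φ s2 s3 a b _ p3b (by
    rw [l2a, l2b]; exact hbc)).trans l2a
  have l3c : φ (label s3 c) = X := (map_label_eq φ s2 s3 c c p3c).trans l2c
  have l4a : φ (label s4 a) = Z := (map_label_eq φ s3 s4 a a p4a).trans l3a
  have l4b : φ (label s4 b) = X := (map_label_mul φ s3 s4 c b _ p4b (by
    rw [map_inv, l3b, l3c]; exact (Commute.inv_right (show Commute X Y from hab)))).trans l3c
  have l4c : φ (label s4 c) = Y := (map_label_eq φ s3 s4 b c p4c).trans l3b
  have l5b : φ (label s5 b) = Z := (map_label_mul φ s4 s5 a b _ p5b (by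
    rw [l4a, l4b]; exact hac.symm)).trans l4a
  have hfold : (borromean m).foldl cross s = s6 := rfl
  intro j
  rw [hfold]
  by_cases ja : j = a
  · subst ja
    rw [p6a, p5a, p4b, p3c, p2c, p1b]
    refine ⟨rfl, ?_⟩
    simp only [map_mul, map_inv]
    rw [l3b]
    simp only [hY, mul_inv_cancel_right]
  by_cases jb : j = b
  · subst jb
    rw [p6b, p5c, p4c, p3b, p2a, p1a]
    refine ⟨rfl, ?_⟩
    simp only [map_mul, map_inv]
    rw [l5b, l2b]
    simp only [mul_inv_cancel_right]
  by_cases jc : j = c
  · subst jc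
    rw [p6c, p5b, p4a, p3a, p2b, p1c]
    refine ⟨rfl, ?_⟩
    simp only [map_mul, map_inv]
    rw [l4b, l1b]
    simp only [inv_mul_cancel_right]
  rw [p6j j ja jb jc, p5j j ja jb jc, p4j j ja jb jc, p3j j ja jb jc, p2j j ja jb jc,
    p1j j ja jb jc]
  exact ⟨rfl, rfl⟩

theorem map_label_congr {n : ℕ} {H : Type*} [Group H] (φ : FreeGroup (Fin n) →* H)
    (s s' : Fin n → Fin n × FreeGroup (Fin n))
    (h : ∀ j, (s' j).1 = (s j).1 ∧ φ (s' j).2 = φ (s j).2) (j : Fin n) :
    φ (label s' j) = φ (label s j) := by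
  simp only [label, map_mul, map_inv]
  rw [(h j).1, (h j).2]

theorem cross_congr {n : ℕ} {H : Type*} [Group H] (φ : FreeGroup (Fin n) →* H)
    (s s' : Fin n → Fin n × FreeGroup (Fin n))
    (h : ∀ j, (s' j).1 = (s j).1 ∧ φ (s' j).2 = φ (s j).2) (c : ℕ × Bool) (j : Fin n) :
    (cross s' c j).1 = (cross s c j).1 ∧ φ (cross s' c j).2 = φ (cross s c j).2 := by
  have hl := map_label_congr φ s s' h
  simp only [cross]
  split_ifs
  · exact h _
  · exact ⟨(h _).1, by rw [map_mul, map_mul, map_inv, map_inv, (h _).2, hl]⟩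
  · exact ⟨(h _).1, by rw [map_mul, map_mul, (h _).2, hl]⟩
  · exact h _
  · exact h _
  · exact h _

theorem foldl_congr {n : ℕ} {H : Type*} [Group H] (φ : FreeGroup (Fin n) →* H)
    (w : List (ℕ × Bool)) (s s' : Fin n → Fin n × FreeGroup (Fin n))
    (h : ∀ j, (s' j).1 = (s j).1 ∧ φ (s' j).2 = φ (s j).2) (j : Fin n) :
    (w.foldl cross s' j).1 = (w.foldl cross s j).1 ∧
      φ (w.foldl cross s' j).2 = φ (w.foldl cross s j).2 := by
  induction w generalizing s s' with
  | nil => exact h j
  | cons c w ih =>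
    rw [List.foldl_cons, List.foldl_cons]
    exact ih _ _ (cross_congr φ s s' h c)

theorem rel_eq {n : ℕ} {H : Type*} [Group H] (w w' : List (ℕ × Bool)) (k : Fin n)
    (φ : FreeGroup (Fin n) →* H)
    (h1 : ∀ j, (Presentation.mk n w' k).origin j = (Presentation.mk n w k).origin j)
    (h2 : ∀ j, φ ((Presentation.mk n w' k).path j) = φ ((Presentation.mk n w k).path j))
    (j : {j : Fin n // j ≠ k}) :
    φ (rel ⟨n, w', k⟩ j) = φ (rel ⟨n, w, k⟩ j) := by
  have h3 : (Presentation.mk n w' k).origin = (Presentation.mk n w k).origin := funext h1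
  have h4 : ∀ (i : Fin n) (t : ℕ), φ ((Presentation.mk n w' k).travel i t) =
      φ ((Presentation.mk n w k).travel i t) := by
    intro i t
    induction t with
    | zero => rfl
    | succ t ih =>
      simp only [travel, map_mul]
      rw [ih, h3, h2]
  have h5 : ∀ i : Fin n, φ ((Presentation.mk n w' k).longitude i) =
      φ ((Presentation.mk n w k).longitude i) := by
    intro i
    simp only [longitude]
    rw [h4, h3]
  have h6 : ∀ i : Fin n, φ (label (Presentation.mk n w' k).final i) =
      φ (label (Presentation.mk n w k).final i) := by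
    intro i
    simp only [label, map_mul, map_inv]
    have e1 := h1 i
    have e2 := h2 i
    simp only [origin] at e1
    simp only [path] at e2
    rw [e1, e2]
  simp only [rel]
  rw [h3]
  split_ifs
  · exact h5 _
  · rw [map_mul, map_mul, h6]

theorem inv_loopMove (p : ℕ) (z : ℂˣ) (hz : z ^ p = 1) (D E : MK) (h : LoopMove p D E) :
    inv z D = inv z E := by
  obtain ⟨n, m, v, w, k, hm, hD, hE, hi⟩ := h
  obtain ⟨D, hD'⟩ := D
  obtain ⟨E, hE'⟩ := E
  simp only at hD hE
  subst hD hE
  set D : MK := ⟨⟨n, v ++ w, k⟩, hD'⟩ with hDdef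
  set E : MK := ⟨⟨n, v ++ (borromean m ++ w), k⟩, hE'⟩ with hEdef
  have hst : ∀ {H : Type} [Group H] (φ : FreeGroup (Fin n) →* H)
      (hc : ∀ i j : Fin n, m ≤ i.1 → i.1 ≤ m + 2 → m ≤ j.1 → j.1 ≤ m + 2 →
        φ (label (state n v) i) * φ (label (state n v) j) =
          φ (label (state n v) j) * φ (label (state n v) i))
      (j : {j : Fin n // j ≠ k}),
      φ (rel ⟨n, v ++ (borromean m ++ w), k⟩ j) = φ (rel ⟨n, v ++ w, k⟩ j) := by
    intro H _ φ hc j
    have h1 := borromean_state hm φ (state n v) hc
    have h2 := foldl_congr φ w (state n v) ((borromean m).foldl cross (state n v)) h1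
    have e1 : (Presentation.mk n (v ++ w) k).final = w.foldl cross (state n v) := by
      simp only [final, state, List.foldl_append]
    have e2 : (Presentation.mk n (v ++ (borromean m ++ w)) k).final =
        w.foldl cross ((borromean m).foldl cross (state n v)) := by
      simp only [final, state, List.foldl_append]
    rw [← e1, ← e2] at h2
    exact rel_eq (v ++ w) (v ++ (borromean m ++ w)) k φ (fun j => (h2 j).1) (fun j => (h2 j).2) j
  -- the classes agree
  have hχ : chiVal E = chiVal D := by
    apply chiVal_eq_iff D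
    · have := chi_meridian E
      exact congrArg Multiplicative.toAdd this
    · intro j
      rw [← hst _ (fun _ _ _ _ _ _ => mul_comm _ _) j]
      exact rel_chi E j
  have hs : ∀ j : Fin n, m ≤ j.1 → j.1 ≤ m + 2 →
      z ^ (fox z k (chiVal D) (label (state n v) j)).s = 1 := by
    intro j hj1 hj2
    obtain ⟨c, hc⟩ := hi j hj1 hj2
    have h1 := congrArg (Abelianization.lift (chi D)) hc
    rw [map_zpow] at h1
    have h2 : ∀ x, Abelianization.lift (chi D) (Abelianization.of x) = chi D x :=
      fun x => Abelianization.lift_apply_of (chi D) x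
    have h3 := (h2 (PresentedGroup.mk (Presentation.mk n (v ++ w) k).relators
      (label (state n v) j))).symm.trans h1
    have h4 := h2 (D.1.meridian k)
    have h5 : chi D (D.1.meridian k) = Multiplicative.ofAdd 1 := chi_meridian D
    rw [h5] at h4
    have h6 : Abelianization.lift (chi D) (Abelianization.of
      ((Presentation.mk n (v ++ w) k).meridian k)) = Multiplicative.ofAdd 1 := h4
    rw [h6, ← ofAdd_zsmul, smul_eq_mul, mul_one] at h3
    have h7 := fox_s z k (chiVal D) (label (state n v) j)
    have h8 : FreeGroup.lift (fun i => Multiplicative.ofAdd (chiVal D i)) (label (state n v) j) =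
        chi D (PresentedGroup.mk (Presentation.mk n (v ++ w) k).relators
          (label (state n v) j)) := lift_chiVal D (label (state n v) j)
    have h9 : (fox z k (chiVal D) (label (state n v) j)).s = p * c :=
      Multiplicative.ofAdd.injective (h7.trans (h8.trans h3))
    rw [h9, zpow_mul, zpow_natCast, hz, one_zpow]
  have key : mat z k (chiVal E) (rel E.1) = mat z k (chiVal D) (rel D.1) := by
    rw [hχ]
    funext j
    exact congrArg Aff.v (hst (fox z k (chiVal D))
      (fun i j hi1 hi2 hj1 hj2 => Aff.commute_of (hs i hi1 hi2) (hs j hj1 hj2)) j)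
  exact congrArg (fun A => ‖Matrix.det A‖) key.symm

theorem inv_related (p : ℕ) (z : ℂˣ) (hz : ‖(z : ℂ)‖ = 1) (hp : z ^ p = 1) (D E : MK)
    (h : Related p D E) : inv z D = inv z E := by
  induction h with
  | rel D E h =>
    rcases h with h | h
    · exact inv_samePair z hz D E h
    · exact inv_loopMove p z hp D E h
  | refl => rfl
  | symm _ _ _ ih => exact ih.symm
  | trans _ _ _ _ _ ih1 ih2 => exact ih1.trans ih2

end Pool.Agent.Helper62.Loop
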