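import Pool.Agent.Helper62.LoopInv
import Pool.Agent.Helper62.LoopCover

/-!
The unknot and the trefoil.
-/

namespace Pool.Agent.Helper62.Loop

open Presentation

theorem meridian_origin (D : Presentation) (j : Fin D.n) :
    Abelianization.of (D.meridian j) = Abelianization.of (D.meridian (D.origin j)) := by
  have h1 : PresentedGroup.mk D.relators (label D.final j * (FreeGroup.of j)⁻¹) = 1 :=
    PresentedGroup.one_of_mem (Or.inl ⟨j, rfl⟩)
  rw [map_mul, map_inv] at h1
  have h2 := mul_inv_eq_one.1 h1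
  change _ = D.meridian j at h2
  rw [← h2]
  simp only [label, map_mul, map_inv]
  rw [mul_comm, mul_inv_cancel_left]
  rfl

/-- Every knot in the 3-sphere. -/
theorem isHomologySphere_of_knot (D : Presentation) (h : ∀ j, ∃ s, D.origin^[s] j = D.k) :
    D.IsHomologySphere := by
  have h1 : ∀ r ∈ D.relators, FreeGroup.lift (fun _ => Multiplicative.ofAdd (1 : ℤ)) r = 1 := by
    rintro r (⟨j, rfl⟩ | ⟨j, hj, -⟩)
    · simp only [label, map_mul, map_inv, FreeGroup.lift_apply_of]
      rw [mul_comm (_)⁻¹, mul_assoc, mul_assoc, inv_mul_cancel_left, mul_inv_cancel]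
    · obtain ⟨s, hs⟩ := h j
      exact absurd hs (hj s)
  have h2 : ∀ j, Abelianization.of (D.meridian j) = Abelianization.of (D.meridian D.k) := by
    intro j
    obtain ⟨s, hs⟩ := h j
    rw [← hs]
    clear hs
    induction s with
    | zero => rfl
    | succ s ih => rw [ih, meridian_origin, Function.iterate_succ_apply']
  have hf : ∀ j, PresentedGroup.toGroup h1 (D.meridian j) = Multiplicative.ofAdd 1 :=
    fun j => PresentedGroup.toGroup.of h1
  constructor
  · intro c c' hc
    have h3 := congrArg (Abelianization.lift (PresentedGroup.toGroup h1)) hc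
    have h4 : Abelianization.lift (PresentedGroup.toGroup h1)
        (Abelianization.of (D.meridian D.k)) = Multiplicative.ofAdd 1 :=
      (Abelianization.lift_apply_of _ _).trans (hf D.k)
    simp only [map_zpow] at h3
    rw [h4, ← ofAdd_zsmul, ← ofAdd_zsmul] at h3
    simpa using h3
  · intro y
    obtain ⟨x, rfl⟩ := QuotientGroup.mk_surjective y
    have h5 : (Abelianization.of : D.Grp →* Abelianization D.Grp) =
        (zpowersHom _ (Abelianization.of (D.meridian D.k))).comp (PresentedGroup.toGroup h1) := by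
      apply PresentedGroup.ext
      intro j
      have e1 := h2 j
      have e2 := hf j
      rw [meridian] at e1 e2
      rw [e1, MonoidHom.comp_apply, e2]
      simp
    refine ⟨Multiplicative.toAdd (PresentedGroup.toGroup h1 x), ?_⟩
    exact (DFunLike.congr_fun h5 x).symm

theorem mem_coverGroup (p : ℕ) (D : MK) (x : D.1.Grp) :
    x ∈ D.1.coverGroup p ↔ ∃ d : ℤ, chi D x = Multiplicative.ofAdd ((p : ℤ) * d) := by
  rw [coverGroup, Subgroup.mem_comap, Subgroup.mem_zpowers_iff]
  have h1 : ∀ y : D.1.Grp, Abelianization.of y = chiEquiv D (chi D y) := by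
    intro y
    rw [chi, MonoidHom.comp_apply]
    exact ((chiEquiv D).apply_symm_apply _).symm
  constructor
  · rintro ⟨d, hd⟩
    refine ⟨d, ?_⟩
    apply (chiEquiv D).injective
    rw [← h1, ← hd, chiEquiv_apply, zpow_mul, zpow_natCast]
  · rintro ⟨d, hd⟩
    refine ⟨d, ?_⟩
    rw [h1 x, hd, chiEquiv_apply, zpow_mul, zpow_natCast]

theorem subsingleton_H1 (p : ℕ) (D : Presentation)
    (h : ∀ φ : D.coverGroup p →* D.H1 p,
      (∀ x : D.coverGroup p, (x : D.Grp) = D.meridian D.k ^ p → φ x = 1) → ∀ x, φ x = 1) :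
    Subsingleton (D.H1 p) := by
  refine ⟨fun a b => ?_⟩
  have key : ∀ y : D.H1 p, y = 1 := by
    intro y
    obtain ⟨z, rfl⟩ := QuotientGroup.mk_surjective y
    obtain ⟨x, rfl⟩ := QuotientGroup.mk_surjective z
    have := h ((Abelianization.of).comp (QuotientGroup.mk' _)) (by
      intro x hx
      have e : (QuotientGroup.mk' (Subgroup.normalClosure
          {x : D.coverGroup p | (x : D.Grp) = D.meridian D.k ^ p})) x = 1 :=
        (QuotientGroup.eq_one_iff x).2 (Subgroup.subset_normalClosure hx)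
      rw [MonoidHom.comp_apply, e, map_one]) x
    exact this
  rw [key a, key b]

/-- The closed braid of the unknot. -/
def unknotBraid : Presentation := ⟨1, [], 0⟩

/-- The closed braid of the trefoil. -/
def trefoilBraid : Presentation := ⟨2, [(0, true), (0, true), (0, true)], 0⟩

theorem unknot_orbit (j : Fin unknotBraid.n) : ∃ s, unknotBraid.origin^[s] j = unknotBraid.k :=
  ⟨0, Subsingleton.elim (α := Fin 1) _ _⟩

theorem trefoil_origin : trefoilBraid.origin (1 : Fin 2) = (0 : Fin 2) := rfl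

theorem trefoil_orbit (j : Fin trefoilBraid.n) :
    ∃ s, trefoilBraid.origin^[s] j = trefoilBraid.k := by
  change Fin 2 at j
  have : j = 0 ∨ j = 1 := by omega
  rcases this with rfl | rfl
  · exact ⟨0, rfl⟩
  · exact ⟨1, trefoil_origin⟩

/-- The unknot. -/
def unknot : MK := ⟨unknotBraid, isHomologySphere_of_knot _ unknot_orbit⟩

/-- The trefoil. -/
def trefoil : MK := ⟨trefoilBraid, isHomologySphere_of_knot _ trefoil_orbit⟩

theorem inv_unknot (z : ℂˣ) : inv z unknot = 1 := by
  have : IsEmpty {j : Fin unknot.1.n // j ≠ unknot.1.k} :=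
    ⟨fun j => j.2 (Subsingleton.elim (α := Fin 1) _ _)⟩
  rw [inv, Matrix.det_isEmpty, norm_one]

theorem word_eq {G : Type*} [Group G] (a b : G) :
    (a⁻¹ * b * a * b)⁻¹ * a * (a⁻¹ * b * a * b) = b⁻¹ * a⁻¹ * b⁻¹ * a * b * a * b := by
  group

theorem trefoil_final : trefoilBraid.final (1 : Fin 2) =
    ((0 : Fin 2), (FreeGroup.of (0 : Fin 2))⁻¹ * FreeGroup.of 1 * FreeGroup.of 0 *
      FreeGroup.of 1) := by
  refine Prod.ext rfl ?_
  decide +kernel

theorem trefoil_label : (label (n := 2) trefoilBraid.final 1 : FreeGroup (Fin 2)) =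
    (FreeGroup.of (1 : Fin 2))⁻¹ * (FreeGroup.of 0)⁻¹ * (FreeGroup.of 1)⁻¹ * FreeGroup.of 0 *
      FreeGroup.of 1 * FreeGroup.of 0 * FreeGroup.of 1 := by
  change (trefoilBraid.final (1 : Fin 2)).2⁻¹ * FreeGroup.of (trefoilBraid.final (1 : Fin 2)).1 *
    (trefoilBraid.final (1 : Fin 2)).2 = _
  rw [trefoil_final]
  exact word_eq (FreeGroup.of (0 : Fin 2)) (FreeGroup.of 1)

theorem rel_of_not (D : Presentation) (j : {j : Fin D.n // j ≠ D.k})
    (h : ¬ ((∀ s, D.origin^[s] j.1 ≠ D.k) ∧ (∀ s, j.1 ≤ D.origin^[s] j.1))) :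
    rel D j = label D.final j.1 * (FreeGroup.of j.1)⁻¹ := if_neg h

/-- The relators of the trefoil. -/
noncomputable def trefoilRel : {j : Fin 2 // j ≠ 0} → FreeGroup (Fin 2) := rel trefoilBraid

theorem trefoil_rel (j : {j : Fin 2 // j ≠ 0}) : trefoilRel j =
    (FreeGroup.of (1 : Fin 2))⁻¹ * (FreeGroup.of 0)⁻¹ * (FreeGroup.of 1)⁻¹ * FreeGroup.of 0 *
      FreeGroup.of 1 * FreeGroup.of 0 := by
  obtain ⟨j, hj⟩ := j
  have hj' : j = (1 : Fin 2) := by omega
  subst hj'
  have h1 : ¬ ((∀ s, trefoilBraid.origin^[s] (1 : Fin 2) ≠ trefoilBraid.k) ∧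
      (∀ s, (1 : Fin 2) ≤ trefoilBraid.origin^[s] (1 : Fin 2))) := by
    rintro ⟨h, -⟩
    exact h 1 trefoil_origin
  refine (rel_of_not trefoilBraid ⟨(1 : Fin 2), hj⟩ h1).trans ?_
  change (label (n := 2) trefoilBraid.final 1 : FreeGroup (Fin 2)) * (FreeGroup.of (1 : Fin 2))⁻¹
    = _
  rw [trefoil_label, mul_inv_cancel_right]

theorem trefoil_chiVal : chiVal trefoil = fun _ => 1 := by
  have h : ∀ j : {j : Fin 2 // j ≠ 0},
      FreeGroup.lift (fun _ : Fin 2 => Multiplicative.ofAdd (1 : ℤ)) (trefoilRel j) = 1 := by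
    intro j
    rw [trefoil_rel]
    simp only [map_mul, map_inv, FreeGroup.lift_apply_of]
    decide
  exact (chiVal_eq_iff trefoil _ rfl h).symm

theorem inv_trefoil (z : ℂˣ) (hz : ‖(z : ℂ)‖ = 1) :
    inv z trefoil = ‖(z : ℂ) + (z : ℂ)⁻¹ - 1‖ := by
  let i : {j : Fin 2 // j ≠ 0} := ⟨(1 : Fin 2), by decide⟩
  have hU : ∀ j : {j : Fin 2 // j ≠ 0}, j = i := by
    rintro ⟨j, hj⟩
    apply Subtype.ext
    change j = 1
    omega
  have h1 : inv z trefoil = ‖(mat z (0 : Fin 2) (fun _ => (1 : ℤ)) trefoilRel).det‖ := by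
    rw [inv, trefoil_chiVal]
    rfl
  have h2 : (mat z (0 : Fin 2) (fun _ => (1 : ℤ)) trefoilRel).det =
      mat z (0 : Fin 2) (fun _ => (1 : ℤ)) trefoilRel i i := by
    have : Subsingleton {j : Fin 2 // j ≠ 0} := ⟨fun a b => (hU a).trans (hU b).symm⟩
    exact Matrix.det_eq_elem_of_subsingleton _ i
  have h3 : mat z (0 : Fin 2) (fun _ => (1 : ℤ)) trefoilRel i i =
      -(z : ℂ)⁻¹ * (z : ℂ)⁻¹ * ((z : ℂ) + (z : ℂ)⁻¹ - 1) := by
    have hz0 : (z : ℂ) ≠ 0 := z.ne_zero
    simp only [mat, trefoil_rel, map_mul, map_inv, fox_of, Aff.mul_v, Aff.inv_v, Aff.mul_s,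
      Aff.inv_s]
    simp [i]
    field_simp
    ring
  rw [h1, h2, h3, norm_mul, norm_mul, norm_neg, norm_inv, hz]
  simp

theorem unknot_H1 (p : ℕ) (hp : Nat.Coprime p 6) : Subsingleton (unknot.1.H1 p) := by
  apply subsingleton_H1
  intro φ hφ
  refine braid_trivial p hp (chi unknot) (unknot.1.meridian unknot.1.k)
    (unknot.1.meridian unknot.1.k) rfl (chi_meridian unknot) (chi_meridian unknot) ?_
    (unknot.1.coverGroup p) (mem_coverGroup p unknot) φ hφ
  rw [eq_top_iff, ← PresentedGroup.closure_range_of, Subgroup.closure_le]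
  rintro _ ⟨j, rfl⟩
  apply Subgroup.subset_closure
  have : j = unknot.1.k := Subsingleton.elim (α := Fin 1) _ _
  rw [this]
  exact Or.inl rfl

theorem trefoil_braid : trefoil.1.meridian (0 : Fin 2) * trefoil.1.meridian (1 : Fin 2) *
    trefoil.1.meridian (0 : Fin 2) = trefoil.1.meridian (1 : Fin 2) *
      trefoil.1.meridian (0 : Fin 2) * trefoil.1.meridian (1 : Fin 2) := by
  let i : {j : Fin 2 // j ≠ 0} := ⟨(1 : Fin 2), by decide⟩
  let φ : FreeGroup (Fin 2) →* trefoil.1.Grp := PresentedGroup.mk trefoil.1.relators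
  have h1 : φ (trefoilRel i) = 1 := PresentedGroup.one_of_mem (rel_mem trefoil.1 i)
  rw [trefoil_rel] at h1
  simp only [map_mul, map_inv] at h1
  generalize ha : φ (FreeGroup.of (0 : Fin 2)) = a at h1
  generalize hb : φ (FreeGroup.of (1 : Fin 2)) = b at h1
  have ha' : trefoil.1.meridian (0 : Fin 2) = a := ha
  have hb' : trefoil.1.meridian (1 : Fin 2) = b := hb
  rw [ha', hb']
  have h2 : b⁻¹ * a⁻¹ * b⁻¹ * a * b * a = (b * a * b)⁻¹ * (a * b * a) := by group
  rw [h2] at h1
  exact (inv_mul_eq_one.1 h1).symm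

theorem trefoil_chi (j : Fin 2) : chi trefoil (trefoil.1.meridian j) = Multiplicative.ofAdd 1 := by
  have := congrFun trefoil_chiVal j
  apply Multiplicative.toAdd.injective
  exact this

theorem trefoil_H1 (p : ℕ) (hp : Nat.Coprime p 6) : Subsingleton (trefoil.1.H1 p) := by
  apply subsingleton_H1
  intro φ hφ
  refine braid_trivial p hp (chi trefoil) (trefoil.1.meridian (0 : Fin 2))
    (trefoil.1.meridian (1 : Fin 2)) trefoil_braid (trefoil_chi 0) (trefoil_chi 1) ?_
    (trefoil.1.coverGroup p) (mem_coverGroup p trefoil) φ hφ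
  rw [eq_top_iff, ← PresentedGroup.closure_range_of, Subgroup.closure_le]
  rintro _ ⟨j, rfl⟩
  apply Subgroup.subset_closure
  change Fin 2 at j
  have : j = 0 ∨ j = 1 := by omega
  rcases this with rfl | rfl
  · exact Or.inl rfl
  · exact Or.inr rfl

/-- The criterion fails for every `p > 1` coprime to 6. -/
theorem not_related (p : ℕ) (h1 : 1 < p) (h6 : Nat.Coprime p 6) : ¬ Related p unknot trefoil := by
  intro h
  have hp : 5 ≤ p := by
    by_contra hlt
    have : p = 2 ∨ p = 3 ∨ p = 4 := by omega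
    rcases this with rfl | rfl | rfl <;> revert h6 <;> decide
  have hp0 : (p : ℝ) ≠ 0 := by positivity
  set θ : ℝ := 2 * Real.pi / p with hθ
  let z : ℂˣ := Units.mk0 (Complex.exp (θ * Complex.I)) (Complex.exp_ne_zero _)
  have hz : ‖(z : ℂ)‖ = 1 := Complex.norm_exp_ofReal_mul_I θ
  have hzp : z ^ p = 1 := by
    apply Units.ext
    rw [Units.val_pow_eq_pow_val, Units.val_mk0, ← Complex.exp_nat_mul, Units.val_one,
      Complex.exp_eq_one_iff]
    refine ⟨1, ?_⟩
    have hpc : (p : ℂ) ≠ 0 := by exact_mod_cast hp0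
    rw [hθ]
    push_cast
    field_simp
  have key := inv_related p z hz hzp unknot trefoil h
  rw [inv_unknot, inv_trefoil z hz] at key
  have h2 : (z : ℂ) + (z : ℂ)⁻¹ - 1 = ((2 * Real.cos θ - 1 : ℝ) : ℂ) := by
    rw [Units.val_mk0, ← Complex.exp_neg]
    push_cast
    rw [Complex.two_cos]
    ring_nf
  rw [h2, Complex.norm_real, Real.norm_eq_abs] at key
  have hpos : 0 < θ := by positivity
  have hlt : θ < Real.pi / 2 := by
    rw [hθ, div_lt_div_iff₀ (by positivity) (by norm_num)]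
    have : (5 : ℝ) ≤ p := by exact_mod_cast hp
    nlinarith [Real.pi_pos]
  have hc0 : 0 < Real.cos θ := Real.cos_pos_of_mem_Ioo ⟨by linarith [Real.pi_pos], hlt⟩
  have hc1 : Real.cos θ < 1 := by
    have := Real.cos_lt_cos_of_nonneg_of_le_pi_div_two le_rfl hlt.le hpos
    rwa [Real.cos_zero] at this
  have : |2 * Real.cos θ - 1| < 1 := abs_lt.2 ⟨by linarith, by linarith⟩
  linarith

end Pool.Agent.Helper62.Loop
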