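import Mathlib
import Pool.Agent.Helper62.StateSum

set_option linter.unusedSimpArgs false

namespace Pool.Agent.Helper62.Orient

open Pool.Agent.Helper62.Skein Pool.Agent.Helper62.StateSum

variable {S : Type*} [CommSemiring S]

/-- The state sum over all orientations: a positive crossing has weight `p` if the two strands
are parallel and `q` otherwise, a negative crossing the other way round. -/
def orientOp (p q : S) : Op Bool S
  | .cup, g, _ => g [true, false] + g [false, true]
  | .cap, g, [c, d] => if c = d then 0 else g []
  | .pos, g, [c, d] => (if c = d then p else q) * g [d, c]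
  | .neg, g, [c, d] => (if c = d then q else p) * g [d, c]
  | _, _, _ => 0

theorem orient_congr (p q : S) (x : Piece) (g h : List Bool → S) (Z : List Bool)
    (hZ : Z.length = x.low) (hgh : ∀ Y : List Bool, Y.length = x.high → g Y = h Y) :
    orientOp p q x g Z = orientOp p q x h Z := by
  cases x with
  | cup => simp only [orientOp]; rw [hgh _ rfl, hgh _ rfl]
  | cap =>
    match Z, hZ with
    | [c, d], _ => simp only [orientOp]; rw [hgh _ rfl]
  | pos =>
    match Z, hZ with
    | [c, d], _ => simp only [orientOp]; rw [hgh _ rfl]
  | neg =>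
    match Z, hZ with
    | [c, d], _ => simp only [orientOp]; rw [hgh _ rfl]

theorem orient_comm (p q : S) (x y : Piece) (G : List Bool → List Bool → S) (Z W : List Bool)
    (hZ : Z.length = x.low) (hW : W.length = y.low) :
    orientOp p q x (fun Y => orientOp p q y (fun V => G Y V) W) Z
      = orientOp p q y (fun V => orientOp p q x (fun Y => G Y V) Z) W := by
  cases x <;> cases y <;> simp only [Piece.low] at hZ hW
  all_goals
    first
    | obtain rfl := List.length_eq_zero_iff.mp hZ
    | obtain ⟨c, d, rfl⟩ := List.length_eq_two.mp hZ
  all_goals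
    first
    | obtain rfl := List.length_eq_zero_iff.mp hW
    | obtain ⟨c', d', rfl⟩ := List.length_eq_two.mp hW
  all_goals simp only [orientOp]
  all_goals (try split_ifs) <;> ring

theorem orient_model {p q : S} (hpq : p * q = 1) : IsModel (orientOp p q) := by
  have hqp : q * p = 1 := by rw [mul_comm]; exact hpq
  have h1 : ∀ x : S, p * (q * x) = x := fun x => by rw [← mul_assoc, hpq, one_mul]
  have h2 : ∀ x : S, q * (p * x) = x := fun x => by rw [← mul_assoc, hqp, one_mul]
  refine ⟨orient_congr p q, orient_comm p q, ?_, ?_, ?_, ?_, ?_, ?_, ?_, ?_, ?_, ?_, ?_⟩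
  · intro f x; cases x <;> simp [eval, act, orientOp, Piece.low]
  · intro f x; cases x <;> simp [eval, act, orientOp, Piece.low]
  · intro f x; cases x <;> simp [eval, act, orientOp, Piece.low]
  · intro f x; cases x <;> simp [eval, act, orientOp, Piece.low]
  · intro f x y z; cases x <;> cases y <;> cases z <;> simp [eval, act, orientOp, Piece.low]
  · intro f x y z; cases x <;> cases y <;> cases z <;> simp [eval, act, orientOp, Piece.low]
  · intro f x; cases x <;> simp [eval, act, orientOp, Piece.low]
  · intro f x; cases x <;> simp [eval, act, orientOp, Piece.low]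
  · intro f x y; cases x <;> cases y <;> simp [eval, act, orientOp, Piece.low, h1, h2]
  · intro f x y; cases x <;> cases y <;> simp [eval, act, orientOp, Piece.low, h1, h2]
  · intro f x y z
    cases x <;> cases y <;> cases z <;> simp [eval, act, orientOp, Piece.low] <;> ring

theorem orient_smul (p q : S) (x : Piece) (s : S) (g : List Bool → S) (Z : List Bool)
    (hZ : Z.length = x.low) : orientOp p q x (fun Y => s * g Y) Z = s * orientOp p q x g Z := by
  cases x <;> simp only [Piece.low] at hZ
  all_goals
    first
    | obtain rfl := List.length_eq_zero_iff.mp hZ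
    | obtain ⟨c, d, rfl⟩ := List.length_eq_two.mp hZ
  all_goals simp only [orientOp]
  all_goals (try split_ifs) <;> ring

theorem eval_smul {p q : S} (hM : IsModel (orientOp p q)) (w : List (ℕ × Piece)) :
    ∀ (n m : ℕ) (s : S) (f : List Bool → S), width n w = some m → ∀ l : List Bool, l.length = n →
      eval (orientOp p q) w (fun Y => s * f Y) l = s * eval (orientOp p q) w f l := by
  induction w with
  | nil => intro n m s f _ l _; rfl
  | cons x w ih =>
    obtain ⟨k, x⟩ := x
    intro n m s f hw l hl
    obtain ⟨h1, h2⟩ := width_cons hw
    simp only [eval, act]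
    rw [← orient_smul p q x s _ _ (by simp only [List.length_take, List.length_drop]; omega)]
    apply hM.congr
    · simp only [List.length_take, List.length_drop]; omega
    · intro Y hY
      exact ih _ _ s f h2 _ (by rw [length_ins (by omega) hY, hl])

/-- value of a word in the orientation model -/
theorem twist2 {p q : S} (hpq : p * q = 1) (h2 : p ^ 2 = q ^ 2) (A B : List (ℕ × Piece)) (n k : ℕ)
    (hA : width 0 A = some n) (hB : width n B = some 0) (hk : k + 2 ≤ n) :
    value (orientOp p q) (A ++ [(k, Piece.pos), (k, Piece.pos)] ++ B)
      = p ^ 2 * value (orientOp p q) (A ++ B) := by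
  have hM := orient_model hpq
  unfold value
  rw [eval_append, eval_append, eval_append, ← eval_smul hM A 0 n _ _ hA [] rfl]
  apply eval_congr hM A 0 n _ _ hA _ [] rfl
  intro l hl
  have hw : width n [(k, Piece.pos), (k, Piece.pos)] = some n := by
    simp [width, Piece.low, Piece.high]; omega
  obtain ⟨A', Z, B', rfl, hA', hZ⟩ : ∃ A Z B : List Bool, l = A ++ Z ++ B ∧ A.length = k ∧
      Z.length = 2 := by
    refine ⟨l.take k, (l.drop k).take 2, (l.drop k).drop 2, ?_, ?_, ?_⟩
    · rw [List.append_assoc, List.take_append_drop, List.take_append_drop]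
    · simp only [List.length_take]; omega
    · simp only [List.length_take, List.length_drop]; omega
  subst hA'
  have := eval_shift hM [(0, Piece.pos), (0, Piece.pos)] 2 2
    (eval (orientOp p q) B unitFun) A' Z B' rfl hZ
  simp only [shiftWord, List.map_cons, List.map_nil, Nat.add_zero] at this
  rw [this]
  obtain ⟨x, y, rfl⟩ := List.length_eq_two.mp hZ
  cases x <;> cases y <;> simp [eval, act, orientOp, Piece.low, ← h2, pow_two, mul_assoc]
  · rw [← mul_assoc q q, ← pow_two q, ← h2, pow_two, mul_assoc]
  · rw [← mul_assoc q q, ← pow_two q, ← h2, pow_two, mul_assoc]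

theorem curl_value {p q : S} (hpq : p * q = 1) (A B : List (ℕ × Piece)) (n k : ℕ)
    (hA : width 0 A = some n) (hB : width n B = some 0) (hk : k + 1 ≤ n) :
    value (orientOp p q) (A ++ [(k + 1, Piece.cup), (k, Piece.pos), (k + 1, Piece.cap)] ++ B)
      = p * value (orientOp p q) (A ++ B) := by
  have hM := orient_model hpq
  unfold value
  rw [eval_append, eval_append, eval_append, ← eval_smul hM A 0 n _ _ hA [] rfl]
  apply eval_congr hM A 0 n _ _ hA _ [] rfl
  intro l hl
  obtain ⟨A', Z, B', rfl, hA', hZ⟩ : ∃ A Z B : List Bool, l = A ++ Z ++ B ∧ A.length = k ∧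
      Z.length = 1 := by
    refine ⟨l.take k, (l.drop k).take 1, (l.drop k).drop 1, ?_, ?_, ?_⟩
    · rw [List.append_assoc, List.take_append_drop, List.take_append_drop]
    · simp only [List.length_take]; omega
    · simp only [List.length_take, List.length_drop]; omega
  subst hA'
  have := eval_shift hM [(1, Piece.cup), (0, Piece.pos), (1, Piece.cap)] 1 1
    (eval (orientOp p q) B unitFun) A' Z B' rfl hZ
  simp only [shiftWord, List.map_cons, List.map_nil, Nat.add_zero] at this
  rw [this]
  obtain ⟨x, rfl⟩ := List.length_eq_one_iff.mp hZ
  cases x <;> simp [eval, act, orientOp, Piece.low]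

theorem value_trivialLink (p q : S) (i : ℕ) : value (orientOp p q) (trivialLink i) = 2 ^ i := by
  induction i with
  | zero => simp [trivialLink, value, eval, unitFun]
  | succ i ih =>
    have : trivialLink (i + 1) = [((0 : ℕ), Piece.cup), (0, Piece.cap)] ++ trivialLink i := by
      simp [trivialLink, List.replicate_succ]
    unfold value at ih ⊢
    rw [this, eval_append]
    simp only [eval, act, orientOp, Piece.low, List.take_zero, List.drop_zero, List.nil_append,
      List.append_nil, List.take, List.drop, List.take_nil, List.drop_nil]
    simp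
    rw [ih]
    ring

end Pool.Agent.Helper62.Orient
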