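import Mathlib
import Pool.Agent.Helper62.Fox
import Pool.Agent.Helper62.Bracket
import Pool.Agent.Helper62.Orient

set_option linter.unusedSimpArgs false

namespace Pool.Agent.Helper62.Transfer

open Pool.Agent.Helper62.Skein Pool.Agent.Helper62.StateSum Pool.Agent.Helper62.Linear
  Pool.Agent.Helper62.Fox Pool.Agent.Helper62.Bracket Pool.Agent.Helper62.Orient Polynomial

theorem pow_val_add {M : Type*} [Monoid M] {N : ℕ} [NeZero N] {z : M} (hz : z ^ N = 1)
    (i j : ZMod N) : z ^ (i + j).val = z ^ i.val * z ^ j.val := by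
  rw [ZMod.val_add, ← pow_add, ← pow_eq_pow_mod _ hz]

/-- Monomial relations with a separating invariant over one field have a separating invariant over
every commutative ring. -/
theorem transfer {N : ℕ} [NeZero N] {K : Type*} [Field K] {ζ : K} (hζ : IsPrimitiveRoot ζ N)
    {L : Type*} (M : L → L → ZMod N → Prop) (T : ℕ → L) (P0 : L → K[X])
    (hM : ∀ x y m, M x y m → P0 x = C (ζ ^ m.val) * P0 y) (hT : ∀ n, P0 (T n) = X ^ n)
    {R : Type*} [CommRing R] (a : R) (ha : a ^ N = 1) :
    ∃ P : L → R[X], (∀ x y m, M x y m → P x = a ^ m.val • P y) ∧ ∀ n, P (T n) = X ^ n := by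
  classical
  let r : L × ZMod N → L × ZMod N → Prop := fun p q => ∃ m, M p.1 q.1 m ∧ q.2 = p.2 + m
  let Φ : Quot r → K[X] := Quot.lift (fun p => C (ζ ^ p.2.val) * P0 p.1) (by
    rintro ⟨x, i⟩ ⟨y, j⟩ ⟨m, h1, h2⟩
    simp only at h1 h2 ⊢
    rw [hM _ _ _ h1, h2, pow_val_add hζ.pow_eq_one, C_mul, mul_assoc])
  let sh : ZMod N → Quot r → Quot r := fun s => Quot.map (fun p => (p.1, p.2 + s)) (by
    rintro ⟨x, i⟩ ⟨y, j⟩ ⟨m, h1, h2⟩
    simp only at h1 h2 ⊢
    exact ⟨m, h1, by simp only [h2]; ring⟩)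
  have uniq : ∀ (n n' : ℕ) (j j' : ZMod N), Quot.mk r (T n, j) = Quot.mk r (T n', j') →
      n = n' ∧ j = j' := by
    intro n n' j j' h
    have h' : C (ζ ^ j.val) * P0 (T n) = C (ζ ^ j'.val) * P0 (T n') := congrArg Φ h
    rw [hT, hT] at h'
    have hz : ∀ i : ZMod N, ζ ^ i.val ≠ 0 := fun i => pow_ne_zero _ (hζ.ne_zero (NeZero.ne N))
    have hn : n = n' := by
      have := congrArg natDegree h'
      rwa [natDegree_C_mul_X_pow _ _ (hz j), natDegree_C_mul_X_pow _ _ (hz j')] at this
    subst hn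
    refine ⟨rfl, ?_⟩
    have := congrArg (fun p => coeff p n) h'
    simp only [coeff_C_mul, coeff_X_pow, if_true, mul_one] at this
    exact ZMod.val_injective N (hζ.pow_inj (ZMod.val_lt j) (ZMod.val_lt j') this)
  let P : L → R[X] := fun x =>
    if h : ∃ y : ℕ × ZMod N, Quot.mk r (x, 0) = Quot.mk r (T y.1, y.2) then
      a ^ h.choose.2.val • X ^ h.choose.1 else 0
  have hP : ∀ (x : L) (n : ℕ) (j : ZMod N), Quot.mk r (x, 0) = Quot.mk r (T n, j) →
      P x = a ^ j.val • X ^ n := by
    intro x n j h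
    have hex : ∃ y : ℕ × ZMod N, Quot.mk r (x, 0) = Quot.mk r (T y.1, y.2) := ⟨(n, j), h⟩
    simp only [P, dif_pos hex]
    obtain ⟨h1, h2⟩ := uniq _ _ _ _ (h.symm.trans hex.choose_spec)
    rw [← h1, ← h2]
  refine ⟨P, ?_, ?_⟩
  · intro x y m hxy
    have hq : ∀ s, Quot.mk r (x, s) = Quot.mk r (y, s + m) := fun s =>
      Quot.sound ⟨m, hxy, rfl⟩
    by_cases h : ∃ z : ℕ × ZMod N, Quot.mk r (y, 0) = Quot.mk r (T z.1, z.2)
    · obtain ⟨⟨n, j⟩, h⟩ := h
      have h2 : Quot.mk r (x, 0) = Quot.mk r (T n, j + m) := by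
        rw [hq 0]
        exact congrArg (sh m) h
      rw [hP _ _ _ h2, hP _ _ _ h, pow_val_add ha, smul_smul, mul_comm]
    · have h' : ¬ ∃ z : ℕ × ZMod N, Quot.mk r (x, 0) = Quot.mk r (T z.1, z.2) := by
        rintro ⟨⟨n, j⟩, h2⟩
        apply h
        refine ⟨(n, j - m), ?_⟩
        rw [hq 0] at h2
        have := congrArg (sh (-m)) h2
        have e : sh (-m) (Quot.mk r (y, 0 + m)) = Quot.mk r (y, 0 + m + -m) := rfl
        have e' : sh (-m) (Quot.mk r (T n, j)) = Quot.mk r (T n, j + -m) := rfl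
        rw [e, e', zero_add, add_neg_cancel, ← sub_eq_add_neg] at this
        exact this
      simp only [P, dif_neg h, dif_neg h', smul_zero]
  · intro n
    rw [hP (T n) n 0 rfl, ZMod.val_zero, pow_zero, one_smul]

theorem trivialLink_closed (i : ℕ) : width 0 (trivialLink i) = some 0 := by
  induction i with
  | zero => rfl
  | succ i ih =>
    have : trivialLink (i + 1) = [((0 : ℕ), Piece.cup), (0, Piece.cap)] ++ trivialLink i := by
      simp [trivialLink, List.replicate_succ]
    rw [this, width_append]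
    exact ih

/-- An invariant with values `X^i` on the trivial links makes them independent. -/
theorem independent_of_invariant {R : Type*} [CommRing R] {a b0 b3 : Rˣ} {b1 b2 bi : R}
    (P : FramedLink → R[X])
    (hk : relations R a b0 b3 b1 b2 bi ≤ LinearMap.ker (ext (R := R) P))
    (hT : ∀ i, P (mkLink (trivialLink i) (trivialLink_closed i)) = X ^ i) :
    LinearIndependent R fun i : ℕ =>
      (relations R a b0 b3 b1 b2 bi).mkQ (link R (trivialLink i)) := by
  apply LinearIndependent.of_comp (lift a b0 b3 _ _ _ P hk)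
  have : (⇑(lift a b0 b3 b1 b2 bi P hk) ∘ fun i : ℕ =>
      (relations R a b0 b3 b1 b2 bi).mkQ (link R (trivialLink i)))
      = fun i => (X : R[X]) ^ i := by
    funext i
    have := lift_c a b0 b3 b1 b2 bi P hk (trivialLink_closed i)
    exact (Eq.trans this (hT i))
  rw [this]
  have := (Polynomial.basisMonomials R).linearIndependent
  simpa [Polynomial.monomial_one_right_eq_X_pow] using this

/-- the curl relation and the `r`-fold twist relation with exponent `e` -/
inductive MoveRel {N : ℕ} (X : List (ℕ × Piece)) (e : ZMod N) :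
    FramedLink → FramedLink → ZMod N → Prop
  | curl (A B : List (ℕ × Piece)) (n k : ℕ) (hA : width 0 A = some n) (hB : width n B = some 0)
      (hk : k + 1 ≤ n)
      (h1 : width 0 (A ++ [(k + 1, Piece.cup), (k, Piece.pos), (k + 1, Piece.cap)] ++ B) = some 0)
      (h0 : width 0 (A ++ B) = some 0) : MoveRel X e (mkLink _ h1) (mkLink _ h0) 1
  | twist (A B : List (ℕ × Piece)) (n k : ℕ) (hA : width 0 A = some n) (hB : width n B = some 0)
      (hk : k + 2 ≤ n) (h1 : width 0 (A ++ shiftWord k X ++ B) = some 0)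
      (h0 : width 0 (A ++ B) = some 0) : MoveRel X e (mkLink _ h1) (mkLink _ h0) e

/-- 3-moves: the separating invariant over the complex numbers. -/
theorem three_invariant {R : Type*} [CommRing R] (a : R) (ha : a ^ 8 = 1) :
    ∃ P : FramedLink → R[X],
      (∀ x y m, MoveRel (N := 8) [(0, Piece.pos), (0, Piece.pos), (0, Piece.pos)] 5 x y m →
        P x = a ^ m.val • P y) ∧
      ∀ n, P (mkLink (trivialLink n) (trivialLink_closed n)) = X ^ n := by
  obtain ⟨η, hη⟩ : ∃ η : ℂ, IsPrimitiveRoot η 24 := ⟨_, Complex.isPrimitiveRoot_exp 24 (by norm_num)⟩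
  have hη0 : η ≠ 0 := hη.ne_zero (by norm_num)
  have h12 : η ^ 12 = -1 := by
    have h1 : (η ^ 12 - 1) * (η ^ 12 + 1) = 0 := by
      have := hη.pow_eq_one
      linear_combination this
    rcases mul_eq_zero.mp h1 with h | h
    · exact absurd (sub_eq_zero.mp h) (hη.pow_ne_one_of_pos_of_lt (by norm_num) (by norm_num))
    · linear_combination h
  have h8 : η ^ 8 - η ^ 4 + 1 = 0 := by
    have h1 : (η ^ 4 + 1) * (η ^ 8 - η ^ 4 + 1) = 0 := by linear_combination h12
    rcases mul_eq_zero.mp h1 with h | h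
    · exfalso
      apply hη.pow_ne_one_of_pos_of_lt (l := 8) (by norm_num) (by norm_num)
      linear_combination (η ^ 4 - 1) * h
    · exact h
  set ζ : ℂ := -η ^ 3 with hζdef
  have hζ : IsPrimitiveRoot ζ 8 := by
    have h15 : ζ = (η ^ 3) ^ 5 := by rw [hζdef]; linear_combination -(η ^ 3) * h12
    rw [h15]
    exact (hη.pow (by norm_num) (by norm_num : 24 = 3 * 8)).pow_of_coprime 5 (by norm_num)
  set d : ℂ := -η ^ 2 - η⁻¹ ^ 2 with hd
  have hd2 : d ^ 2 = 3 := by
    rw [hd]
    field_simp
    linear_combination h8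
  have hd0 : d ≠ 0 := by
    intro h
    rw [h] at hd2
    norm_num at hd2
  have hm := bracket_model hη0
  apply transfer hζ _ (fun n => mkLink (trivialLink n) (trivialLink_closed n))
    (fun L => C (invariant hm L) * (C d⁻¹ * X) ^ Nat.log 3 (invariant fox_model L)) _ _ a ha
  · rintro x y m (⟨A, B, n, k, hA, hB, hk, h1, h0⟩ | ⟨A, B, n, k, hA, hB, hk, h1, h0⟩)
    · rw [invariant_mk, invariant_mk, invariant_mk, invariant_mk,
        bracket_curl hη0 A B n k hA hk, fox_curl A B n k hA hk, C_mul, mul_assoc]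
      have : (1 : ZMod 8).val = 1 := rfl
      rw [this, pow_one]
    · have e1 := bracket_rel hη0 (b0 := -η ^ 3) (b1 := 0) (b2 := 0) (b3 := 1) (bi := 0) (by ring)
        (by linear_combination h8) A B n k hA hk
      have e2 : value (bracketOp η) (A ++ [(k, Piece.pos), (k, Piece.pos), (k, Piece.pos)] ++ B)
          = η ^ 3 * value (bracketOp η) (A ++ B) := by linear_combination e1
      have e3 : η ^ 3 = ζ ^ (5 : ZMod 8).val := by
        have : (5 : ZMod 8).val = 5 := rfl
        rw [this, hζdef]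
        linear_combination (η ^ 3) * h12
      rw [invariant_mk, invariant_mk, invariant_mk, invariant_mk]
      simp only [shiftWord, List.map_cons, List.map_nil, Nat.add_zero]
      rw [e2, fox_three A B n k hA hk, C_mul, mul_assoc, e3]
  · intro n
    rw [invariant_mk, invariant_mk, bracket_trivialLink, fox_trivialLink, Nat.log_pow (by norm_num),
      mul_pow, ← C_pow, ← mul_assoc, ← C_mul, ← mul_pow, mul_inv_cancel₀ hd0, one_pow, C_1, one_mul]

/-- 2-moves: the invariant over every commutative ring. -/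
theorem two_invariant {R : Type*} [CommRing R] (a : R) (ha : a ^ 4 = 1) :
    ∃ P : FramedLink → R[X],
      (∀ x y m, MoveRel (N := 4) [(0, Piece.pos), (0, Piece.pos)] 2 x y m →
        P x = a ^ m.val • P y) ∧
      ∀ n, P (mkLink (trivialLink n) (trivialLink_closed n)) = X ^ n := by
  have hI : IsPrimitiveRoot Complex.I 4 := Complex.isPrimitiveRoot_I
  have hinv : Complex.I * (-Complex.I) = 1 := by simp
  have hsq : Complex.I ^ 2 = (-Complex.I) ^ 2 := by ring
  have hM1 : IsModel (orientOp (1 : ℕ) 1) := orient_model (by norm_num)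
  have hMa : IsModel (orientOp Complex.I (-Complex.I)) := orient_model hinv
  apply transfer hI _ (fun n => mkLink (trivialLink n) (trivialLink_closed n))
    (fun L => C (invariant hMa L) * (C (2⁻¹ : ℂ) * X) ^ Nat.log 2 (invariant hM1 L)) _ _ a ha
  · rintro x y m (⟨A, B, n, k, hA, hB, hk, h1, h0⟩ | ⟨A, B, n, k, hA, hB, hk, h1, h0⟩)
    · rw [invariant_mk, invariant_mk, invariant_mk, invariant_mk,
        curl_value (p := (1 : ℕ)) (q := 1) (by norm_num) A B n k hA hB hk,
        curl_value hinv A B n k hA hB hk, one_mul, C_mul, mul_assoc]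
      have : (1 : ZMod 4).val = 1 := rfl
      rw [this, pow_one]
    · rw [invariant_mk, invariant_mk, invariant_mk, invariant_mk]
      simp only [shiftWord, List.map_cons, List.map_nil, Nat.add_zero]
      rw [twist2 (p := (1 : ℕ)) (q := 1) (by norm_num) (by norm_num) A B n k hA hB hk,
        twist2 hinv hsq A B n k hA hB hk, one_pow, one_mul, C_mul, mul_assoc]
      rfl
  · intro n
    rw [invariant_mk, invariant_mk, value_trivialLink, value_trivialLink,
      Nat.log_pow (by norm_num),
      mul_pow, ← C_pow, ← mul_assoc, ← C_mul, ← mul_pow, mul_inv_cancel₀ (by norm_num), one_pow, C_1,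
      one_mul]

end Pool.Agent.Helper62.Transfer
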