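import Mathlib
import Pool.Agent.Helper62.Families
import Pool.Agent.Helper62.BracketRing
import Pool.Agent.Helper62.Transfer

set_option linter.unusedSimpArgs false

namespace Pool.Agent.Results.MP_43d316_gt.TorsionFamilies

open Pool.Agent.Helper62.Skein Pool.Agent.Helper62.StateSum Pool.Agent.Helper62.Families
  Pool.Agent.Helper62.Linear

/-- The class of the trivial knot is a torsion element of the skein module. -/
def UnknotTorsion {R : Type*} [CommRing R] (a b0 b3 : Rˣ) (b1 b2 bi : R) : Prop :=
  ∃ r ∈ nonZeroDivisors R,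
    r • (relations R a b0 b3 b1 b2 bi).mkQ (link R (trivialLink 1)) = 0

theorem exists_functional {R M K : Type*} [CommRing R] [IsDomain R] [AddCommGroup M] [Module R M]
    [Field K] [Algebra R K] [IsFractionRing R K] (x : M) (hx : ∀ r : R, r • x = 0 → r = 0) :
    ∃ φ : M →ₗ[R] K, φ x = 1 := by
  have hflat : Module.Flat R K := IsLocalization.flat K (nonZeroDivisors R)
  have hinj : Function.Injective (LinearMap.toSpanSingleton R M x) := by
    rw [injective_iff_map_eq_zero]
    intro r hr
    exact hx r (by simpa using hr)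
  have h2 := Module.Flat.lTensor_preserves_injective_linearMap (M := K) _ hinj
  have hne : (1 : K) ⊗ₜ[R] x ≠ 0 := by
    intro h
    have h3 : (LinearMap.lTensor K (LinearMap.toSpanSingleton R M x)) ((1 : K) ⊗ₜ[R] (1 : R))
        = 0 := by
      simpa using h
    have h4 := (injective_iff_map_eq_zero _).mp h2 _ h3
    have h5 := congrArg (TensorProduct.rid R K) h4
    simp at h5
  have h6 : ¬ ∀ f : Module.Dual K (TensorProduct R K M), f ((1 : K) ⊗ₜ[R] x) = 0 := by
    rw [Module.forall_dual_apply_eq_zero_iff]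
    exact hne
  push Not at h6
  obtain ⟨f, hf⟩ := h6
  refine ⟨((f ((1 : K) ⊗ₜ[R] x))⁻¹ • f).restrictScalars R ∘ₗ TensorProduct.mk R K M 1, ?_⟩
  simp [hf]

section
variable {R : Type*} [CommRing R] (a b0 b3 : Rˣ) (b1 b2 bi : R)

theorem new_rel_pos :
    ((a : R) * ((a : R) * b0 ^ 3 + b3 ^ 3)) • Hopf a b0 b3 b1 b2 bi
      + (((a : R) * b0 ^ 2 * b1 - a * b0 * b2 * b3 + a ^ 2 * bi * b3 ^ 2)
        + (a : R) ^ 2 * ((a : R) ^ 2 * bi * b0 ^ 2 - b0 * b1 * b3 + b2 * b3 ^ 2)) •
          T1 a b0 b3 b1 b2 bi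
      + ((a : R) * ((a : R) * b0 ^ 2 * b2 + b1 * b3 ^ 2 - a ^ 2 * bi * b0 * b3)) •
        T2 a b0 b3 b1 b2 bi = 0 := by
  have s := rel1 (a := a) (b0 := b0) (b3 := b3) (b1 := b1) (b2 := b2) (bi := bi)
    (B := [(0, Piece.pos), (1, Piece.cap), (0, Piece.cap)]) rfl
  have e2 := N_e0 a b0 b3 b1 b2 bi
  have e3 := N_ep a b0 b3 b1 b2 bi
  have e4 := N_v a b0 b3 b1 b2 bi
  have e6 := v_pos (a := a) (b0 := b0) (b3 := b3) (b1 := b1) (b2 := b2) (bi := bi)
    (B := [(1, Piece.cap), (0, Piece.cap)]) rfl
  have e7 := r2_np (a := a) (b0 := b0) (b3 := b3) (b1 := b1) (b2 := b2) (bi := bi)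
    (A := [(0, Piece.cup), (1, Piece.cup)]) (B := [(1, Piece.cap), (0, Piece.cap)]) (n := 4) 0 rfl
    (by omega) rfl
  simp only [List.cons_append, List.nil_append] at s e6 e7
  rw [e7, e2, e3] at s
  rw [e4] at e6
  linear_combination (norm := module) (a : R) • s
    - ((a : R) * b0 ^ 2 * b1 - a * b0 * b2 * b3 + a ^ 2 * bi * b3 ^ 2) • e6

end

/-- necessary conditions -/
theorem necessary {R K : Type*} [CommRing R] [IsDomain R] [Field K] [Algebra R K]
    [IsFractionRing R K] (a b0 b3 : Rˣ) (b1 b2 bi : R) (h : ¬ UnknotTorsion a b0 b3 b1 b2 bi) :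
    FamilyY (algebraMap R K a) (algebraMap R K b0) (algebraMap R K b1) (algebraMap R K b2)
        (algebraMap R K b3) (algebraMap R K bi) ∨
      FamilyK (algebraMap R K a) (algebraMap R K b0) (algebraMap R K b1) (algebraMap R K b2)
        (algebraMap R K b3) (algebraMap R K bi) ∨
      FamilyB (algebraMap R K a) (algebraMap R K b0) (algebraMap R K b1) (algebraMap R K b2)
        (algebraMap R K b3) (algebraMap R K bi) ∨
      FamilyO (algebraMap R K a) (algebraMap R K b0) (algebraMap R K b1) (algebraMap R K b2)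
        (algebraMap R K b3) (algebraMap R K bi) := by
  have hx : ∀ r : R, r • T1 a b0 b3 b1 b2 bi = 0 → r = 0 := by
    intro r hr
    by_contra hne
    exact h ⟨r, mem_nonZeroDivisors_of_ne_zero hne, hr⟩
  obtain ⟨φ, hφ⟩ := exists_functional (K := K) (T1 a b0 b3 b1 b2 bi) hx
  have hunit : ∀ u : Rˣ, algebraMap R K u ≠ 0 := fun u => (u.isUnit.map (algebraMap R K)).ne_zero
  have q1 := congrArg φ (p1_rel a b0 b3 b1 b2 bi)
  have q2 := congrArg φ (hopf_rel1 a b0 b3 b1 b2 bi)
  have q3 := congrArg φ (hopf_rel2 a b0 b3 b1 b2 bi)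
  have q4 := congrArg φ (new_rel_N a b0 b3 b1 b2 bi)
  have q5 := congrArg φ (new_rel_D a b0 b3 b1 b2 bi)
  have q6 := congrArg φ (new_rel_neg a b0 b3 b1 b2 bi)
  have q7 := congrArg φ (new_rel_pos a b0 b3 b1 b2 bi)
  simp only [map_add, map_smul, map_zero, hφ, Algebra.smul_def, map_sub, map_mul, map_pow,
    mul_one] at q1 q2 q3 q4 q5 q6 q7
  refine families (hunit a) (hunit b0) (hunit b3) (t := φ (T2 a b0 b3 b1 b2 bi))
    (h := φ (Hopf a b0 b3 b1 b2 bi))
    (cm := algebraMap R K a * algebraMap R K b0 ^ 2 * algebraMap R K b2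
      + algebraMap R K b1 * algebraMap R K b3 ^ 2
      - algebraMap R K a ^ 2 * algebraMap R K bi * algebraMap R K b0 * algebraMap R K b3)
    (cv := algebraMap R K a ^ 2 * algebraMap R K bi * algebraMap R K b0 ^ 2
      - algebraMap R K b0 * algebraMap R K b1 * algebraMap R K b3
      + algebraMap R K b2 * algebraMap R K b3 ^ 2) ?_ ?_ ?_ rfl rfl ?_ ?_ ?_ ?_
  · linear_combination q1
  · linear_combination q2
  · linear_combination q3
  · linear_combination q4
  · linear_combination q5
  · linear_combination q6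
  · linear_combination q7

/-! ### Functionals -/

/-- A functional on links satisfying the relations, non-zero on the trivial knot. -/
structure Good {K : Type*} [Field K] (a b0 b1 b2 b3 bi : K) (P : FramedLink → K) : Prop where
  skein : ∀ (A B : List (ℕ × Piece)) (n k : ℕ), width 0 A = some n → width n B = some 0 →
    k + 2 ≤ n → ∀ (h0 : width 0 (A ++ B) = some 0) (h1 : width 0 (A ++ [(k, Piece.pos)] ++ B) = some 0)
      (h2 : width 0 (A ++ [(k, Piece.pos), (k, Piece.pos)] ++ B) = some 0)
      (h3 : width 0 (A ++ [(k, Piece.pos), (k, Piece.pos), (k, Piece.pos)] ++ B) = some 0)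
      (h4 : width 0 (A ++ [(k, Piece.cap), (k, Piece.cup)] ++ B) = some 0),
    b0 * P (mkLink _ h0) + b1 * P (mkLink _ h1) + b2 * P (mkLink _ h2) + b3 * P (mkLink _ h3)
      + bi * P (mkLink _ h4) = 0
  curl : ∀ (A B : List (ℕ × Piece)) (n k : ℕ), width 0 A = some n → width n B = some 0 →
    k + 1 ≤ n → ∀ (h0 : width 0 (A ++ B) = some 0)
      (h1 : width 0 (A ++ [(k + 1, Piece.cup), (k, Piece.pos), (k + 1, Piece.cap)] ++ B) = some 0),
    P (mkLink _ h1) = a * P (mkLink _ h0)
  unknot : P (mkLink (trivialLink 1) rfl) ≠ 0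

theorem not_torsion {R K : Type*} [CommRing R] [IsDomain R] [Field K] [Algebra R K]
    [IsFractionRing R K] (a b0 b3 : Rˣ) (b1 b2 bi : R) (P : FramedLink → K)
    (hP : Good (algebraMap R K a) (algebraMap R K b0) (algebraMap R K b1) (algebraMap R K b2)
        (algebraMap R K b3) (algebraMap R K bi) P) : ¬ UnknotTorsion a b0 b3 b1 b2 bi := by
  have hk : relations R a b0 b3 b1 b2 bi ≤ LinearMap.ker (ext (R := R) P) := by
    apply relations_le_ker
    · intro A B n k hA hB hk
      have w1 : width n [(k, Piece.pos)] = some n := by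
        have : n - 2 + 2 = n := by omega
        simp [width, Piece.low, Piece.high, hk, this]
      have w2 : width n [(k, Piece.pos), (k, Piece.pos)] = some n := by
        simp [width, Piece.low, Piece.high]; omega
      have w3 : width n [(k, Piece.pos), (k, Piece.pos), (k, Piece.pos)] = some n := by
        simp [width, Piece.low, Piece.high]; omega
      have w4 : width n [(k, Piece.cap), (k, Piece.cup)] = some n := by
        simp [width, Piece.low, Piece.high]; omega
      have c0 : width 0 (A ++ B) = some 0 := by rw [width_append, hA]; simp [hB]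
      have c1 := closed_of hA w1 hB
      have c2 := closed_of hA w2 hB
      have c3 := closed_of hA w3 hB
      have c4 := closed_of hA w4 hB
      rw [ext_link P c0, ext_link P c1, ext_link P c2, ext_link P c3, ext_link P c4]
      simp only [Algebra.smul_def]
      exact hP.skein A B n k hA hB hk c0 c1 c2 c3 c4
    · intro A B n k hA hB hk
      have w1 : width n [(k + 1, Piece.cup), (k, Piece.pos), (k + 1, Piece.cap)] = some n := by
        simp [width, Piece.low, Piece.high]; omega
      have c0 : width 0 (A ++ B) = some 0 := by rw [width_append, hA]; simp [hB]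
      have c1 := closed_of hA w1 hB
      rw [ext_link P c0, ext_link P c1, Algebra.smul_def]
      exact hP.curl A B n k hA hB hk c0 c1
  rintro ⟨r, hr, h⟩
  have h1 := congrArg (lift a b0 b3 b1 b2 bi P hk) h
  have h2 : lift a b0 b3 b1 b2 bi P hk
      ((relations R a b0 b3 b1 b2 bi).mkQ (link R (trivialLink 1)))
        = P (mkLink (trivialLink 1) rfl) := lift_c a b0 b3 b1 b2 bi P hk rfl
  rw [map_smul, map_zero, h2, Algebra.smul_def] at h1
  rcases mul_eq_zero.mp h1 with h3 | h3
  · have : r = 0 := IsFractionRing.injective R K (by rw [h3, map_zero])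
    exact nonZeroDivisors.ne_zero hr this
  · exact hP.unknot h3

/-! ### The one-dimensional models -/

/-- weight of a piece -/
def wt {K : Type*} [Field K] (a : K) : ℕ × Piece → K
  | (k, .cup) => (a ^ 2) ^ k
  | (k, .cap) => (a ^ 2) ^ (k + 1)
  | (_, .pos) => a ^ 3
  | (_, .neg) => a

theorem wt_move {K : Type*} [Field K] {a : K} (ha : a ^ 4 = 1) {X Y : List (ℕ × Piece)}
    (h : Move X Y) : (X.map (wt a)).prod = (Y.map (wt a)).prod := by
  have h2 : ∀ k : ℕ, (a ^ 2) ^ (k + 2) = (a ^ 2) ^ k := fun k => by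
    rw [pow_add, ← pow_mul a 2 2]; simp [ha]
  have h3 : ∀ k : ℕ, (a ^ 2) ^ k * (a ^ 2) ^ k = 1 := fun k => by
    rw [← pow_add, ← pow_mul]
    have : 2 * (k + k) = 4 * k := by ring
    rw [this, pow_mul, ha, one_pow]
  cases h with
  | exchange k l p q hkl =>
    have : wt a (l, q) = wt a (l - p.high + p.low, q) := by
      have hl : (l - p.high + p.low = l ∨ l - p.high + p.low + 2 = l) ∨
          l - p.high + p.low = l + 2 := by
        cases p <;> simp only [Piece.low, Piece.high] at hkl ⊢ <;> omega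
      rcases hl with (hl | hl) | hl
      · rw [hl]
      · cases q <;> simp only [wt]
        · rw [← h2 (l - p.high + p.low), hl]
        · rw [← h2 (l - p.high + p.low + 1)]
          congr 1
          omega
      · rw [hl]
        cases q <;> simp only [wt]
        · rw [h2]
        · rw [show l + 2 + 1 = l + 1 + 2 by ring, h2]
    simp only [List.map_cons, List.map_nil, List.prod_cons, List.prod_nil, this]
    ring
  | zigzagR k =>
    simp only [List.map_cons, List.map_nil, List.prod_cons, List.prod_nil, wt]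
    rw [show k + 1 + 1 = k + 2 by ring, h2, mul_one, h3]
  | zigzagL k =>
    simp only [List.map_cons, List.map_nil, List.prod_cons, List.prod_nil, wt]
    rw [mul_one, h3]
  | cupSlidePos k =>
    simp only [List.map_cons, List.map_nil, List.prod_cons, List.prod_nil, wt]
    ring
  | cupSlideNeg k =>
    simp only [List.map_cons, List.map_nil, List.prod_cons, List.prod_nil, wt]
    linear_combination (-((a ^ 2) ^ k * a)) * ha
  | capSlidePos k =>
    simp only [List.map_cons, List.map_nil, List.prod_cons, List.prod_nil, wt]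
    rw [show k + 1 + 1 = k + 2 by ring, h2]
    linear_combination ((a ^ 2) ^ k * a) * ha
  | capSlideNeg k =>
    simp only [List.map_cons, List.map_nil, List.prod_cons, List.prod_nil, wt]
    rw [show k + 1 + 1 = k + 2 by ring, h2]
    ring
  | curlPos k =>
    simp only [List.map_cons, List.map_nil, List.prod_cons, List.prod_nil, wt]
    rw [show k + 1 + 1 = k + 2 by ring, h2]
    ring
  | curlNeg k =>
    simp only [List.map_cons, List.map_nil, List.prod_cons, List.prod_nil, wt]
    rw [show k + 1 + 1 = k + 2 by ring, h2]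
    ring
  | r2PosNeg k =>
    simp only [List.map_cons, List.map_nil, List.prod_cons, List.prod_nil, wt]
    linear_combination ha
  | r2NegPos k =>
    simp only [List.map_cons, List.map_nil, List.prod_cons, List.prod_nil, wt]
    linear_combination ha
  | r3 k =>
    simp only [List.map_cons, List.map_nil, List.prod_cons, List.prod_nil, wt]

/-- The one-dimensional invariant. -/
def onePoly {K : Type*} [Field K] {a : K} (ha : a ^ 4 = 1) : FramedLink → K :=
  Quot.lift (fun D => (D.1.map (wt a)).prod) (by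
    rintro D E ⟨A, B, X, Y, hXY, hD, hE⟩
    simp only [hD, hE, List.map_append, List.prod_append, wt_move ha hXY])

theorem good_one {K : Type*} [Field K] {a b0 b1 b2 b3 bi : K}
    (h : FamilyO a b0 b1 b2 b3 bi) : ∃ P : FramedLink → K, Good a b0 b1 b2 b3 bi P := by
  obtain ⟨ha, h1⟩ := h
  have ha0 : a ≠ 0 := by
    rintro rfl
    norm_num at ha
  refine ⟨onePoly ha, ?_, ?_, ?_⟩
  · intro A B n k _ _ _ h0 _ _ _ _
    simp only [onePoly, mkLink, List.map_append, List.prod_append, List.map_cons, List.map_nil,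
      List.prod_cons, List.prod_nil, wt, mul_one]
    have e : (a ^ 2) ^ (k + 1) * (a ^ 2) ^ k = a ^ 2 := by
      rw [← pow_add, ← pow_mul, show 2 * (k + 1 + k) = 4 * k + 2 by ring, pow_add, pow_mul, ha,
        one_pow, one_mul]
    rw [e]
    linear_combination ((List.map (wt a) A).prod * (List.map (wt a) B).prod) *
      (a * h1 + (b3 * a ^ 5 + b2 * a ^ 2 + b3 * a - b0) * ha)
  · intro A B n k _ _ _ h0 _
    simp only [onePoly, mkLink, List.map_append, List.prod_append, List.map_cons, List.map_nil,
      List.prod_cons, List.prod_nil, wt, mul_one]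
    have e : (a ^ 2) ^ (k + 1) * (a ^ 3 * (a ^ 2) ^ (k + 1 + 1)) = a := by
      have : (a ^ 2) ^ (k + 1) * (a ^ 3 * (a ^ 2) ^ (k + 1 + 1)) = (a ^ 4) ^ (k + 2) * a := by
        rw [← pow_mul, ← pow_mul, ← pow_mul]
        ring
      rw [this, ha, one_pow, one_mul]
    rw [e]
    ring
  · simp [onePoly, mkLink, trivialLink, wt, ha0]

/-! ### The Kauffman bracket -/

open Pool.Agent.Helper62.BracketRing in
theorem step_nil {D E : Diagram} (h : Step D E) : D.1 = [] ↔ E.1 = [] := by
  obtain ⟨A, B, X, Y, hXY, hD, hE⟩ := h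
  have wD := D.2
  have wE := E.2
  constructor
  · intro h0
    exfalso
    rw [hD] at h0
    simp only [List.append_eq_nil_iff] at h0
    obtain ⟨⟨_, hX⟩, _⟩ := h0
    subst hX
    cases hXY
  · intro h0
    exfalso
    rw [hE] at h0
    simp only [List.append_eq_nil_iff] at h0
    obtain ⟨⟨rfl, hY⟩, rfl⟩ := h0
    rw [hD] at wD
    cases hXY <;> simp [width, Piece.low, Piece.high] at hY wD

open Pool.Agent.Helper62.BracketRing PowerSeries in
theorem good_bracket {K : Type*} [Field K] {a b0 b1 b2 b3 bi : K} (ha : a ≠ 0)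
    (h : FamilyB a b0 b1 b2 b3 bi) : ∃ P : FramedLink → K, Good a b0 b1 b2 b3 bi P := by
  obtain ⟨A0, hA0, h1, h2⟩ := h
  have hA0' : A0 ≠ 0 := by
    rintro rfl
    apply ha
    rw [hA0]
    norm_num
  -- the deformed variable
  obtain ⟨A, hA⟩ : ∃ A : PowerSeries K, A = PowerSeries.C A0 + PowerSeries.X := ⟨_, rfl⟩
  have hcA : constantCoeff A = A0 := by rw [hA]; simp
  obtain ⟨Ai, hAi⟩ : ∃ Ai : PowerSeries K, Ai = A⁻¹ := ⟨_, rfl⟩
  have hAAi : A * Ai = 1 := by
    rw [hAi]
    exact PowerSeries.mul_inv_cancel A (by rw [hcA]; exact hA0')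
  have hcAi : constantCoeff Ai = A0⁻¹ := by
    rw [hAi, PowerSeries.constantCoeff_inv, hcA]
  have hd : (-A ^ 2 - Ai ^ 2) ≠ 0 := by
    intro h0
    have h3 : A ^ 4 + 1 = 0 := by
      linear_combination (-A ^ 2) * h0 + (A * Ai + 1) * hAAi * (-1)
    have h4 : ((Polynomial.X + Polynomial.C A0 : Polynomial K) ^ 4 + 1) = 0 := by
      apply Polynomial.coe_injective K
      rw [hA] at h3
      push_cast
      rw [add_comm (PowerSeries.X) _]
      exact h3
    have h5 := congrArg (fun p => Polynomial.coeff p 4) h4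
    have h6 : ((Polynomial.X + Polynomial.C A0 : Polynomial K) ^ 4).coeff 4 = 1 := by
      rw [Polynomial.coeff_X_add_C_pow]
      simp
    simp only [Polynomial.coeff_add, h6, Polynomial.coeff_one, Polynomial.coeff_zero] at h5
    norm_num at h5
  have hval : ∀ w : List (ℕ × Piece), width 0 w = some 0 → w ≠ [] →
      value (bracketOp A Ai) w = (-A ^ 2 - Ai ^ 2) * red A Ai w := fun w hw hne =>
    value_eq hAAi hw hne
  let P : FramedLink → K := Quot.lift (fun D => constantCoeff (red A Ai D.1)) (by
    intro D E hDE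
    by_cases hD : D.1 = []
    · have hE := (step_nil hDE).mp hD
      simp only [hD, hE]
    · have hE : E.1 ≠ [] := fun hE => hD ((step_nil hDE).mpr hE)
      have e := value_step (bracket_model hAAi) hDE
      rw [hval _ D.2 hD, hval _ E.2 hE] at e
      simp only [mul_left_cancel₀ hd e])
  have hP : ∀ (w : List (ℕ × Piece)) (hw : width 0 w = some 0),
      P (mkLink w hw) = constantCoeff (red A Ai w) := fun w hw => rfl
  have hne : ∀ (X Y : List (ℕ × Piece)) (n : ℕ), width 0 X = some (n + 1) → X ++ Y ≠ [] := by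
    intro X Y n hX h0
    simp only [List.append_eq_nil_iff] at h0
    rw [h0.1] at hX
    simp [width] at hX
  refine ⟨P, ?_, ?_, ?_⟩
  · intro X Y n k hX hY hk w0 w1 w2 w3 w4
    obtain ⟨n, rfl⟩ : ∃ m, n = m + 1 := ⟨n - 1, by omega⟩
    obtain ⟨β0, hβ0⟩ : ∃ β : PowerSeries K, β = -(C b1 * A + C b2 * A ^ 2 + C b3 * A ^ 3) :=
      ⟨_, rfl⟩
    obtain ⟨βi, hβi⟩ : ∃ β : PowerSeries K,
        β = -(C b1 * Ai + C b2 * (1 - Ai ^ 4) + C b3 * (A - Ai ^ 3 + Ai ^ 7)) := ⟨_, rfl⟩
    have hcβ0 : constantCoeff β0 = b0 := by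
      rw [hβ0]
      simp only [map_neg, map_add, map_mul, map_pow, constantCoeff_C, hcA]
      linear_combination -h1
    have hcβi : constantCoeff βi = bi := by
      rw [hβi]
      simp only [map_neg, map_add, map_sub, map_mul, map_pow, constantCoeff_C, hcA, hcAi, map_one]
      field_simp
      linear_combination -h2
    have rel := bracket_rel hAAi (b0 := β0) (b1 := C b1) (b2 := C b2) (b3 := C b3) (bi := βi)
      (by rw [hβ0]; ring) (by rw [hβi]; ring) X Y (n + 1) k hX hk
    rw [hval _ w0 (hne _ _ _ hX), hval _ w1 (by simp), hval _ w2 (by simp),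
      hval _ w3 (by simp), hval _ w4 (by simp)] at rel
    have rel2 : β0 * red A Ai (X ++ Y) + C b1 * red A Ai (X ++ [(k, Piece.pos)] ++ Y)
        + C b2 * red A Ai (X ++ [(k, Piece.pos), (k, Piece.pos)] ++ Y)
        + C b3 * red A Ai (X ++ [(k, Piece.pos), (k, Piece.pos), (k, Piece.pos)] ++ Y)
        + βi * red A Ai (X ++ [(k, Piece.cap), (k, Piece.cup)] ++ Y) = 0 := by
      apply mul_left_cancel₀ hd
      linear_combination rel
    have rel3 := congrArg constantCoeff rel2
    simp only [map_add, map_mul, map_zero, constantCoeff_C, hcβ0, hcβi] at rel3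
    rw [hP, hP, hP, hP, hP]
    exact rel3
  · intro X Y n k hX hY hk w0 w1
    obtain ⟨n, rfl⟩ : ∃ m, n = m + 1 := ⟨n - 1, by omega⟩
    have rel := bracket_curl hAAi X Y (n + 1) k hX hk
    rw [hval _ w0 (hne _ _ _ hX), hval _ w1 (by simp)] at rel
    have rel2 : red A Ai (X ++ [(k + 1, Piece.cup), (k, Piece.pos), (k + 1, Piece.cap)] ++ Y)
        = (-A ^ 3) * red A Ai (X ++ Y) := by
      apply mul_left_cancel₀ hd
      linear_combination rel
    have rel3 := congrArg constantCoeff rel2
    simp only [map_neg, map_mul, map_pow, hcA] at rel3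
    rw [hP, hP, hA0]
    exact rel3
  · have : red A Ai (trivialLink 1) = 1 := by
      simp [trivialLink, red, eval, act, bracketOp, capM, unitFun, Piece.low, hAAi]
    show constantCoeff (red A Ai (trivialLink 1)) ≠ 0
    rw [this, map_one]
    exact one_ne_zero

/-! ### Binomial relations -/

/-- The relation is `b_0 L_0 + b_3 L_3` with `a ^ 8 = 1`, `b_0 = -a ^ 5 b_3`. -/
def FamilyT {K : Type*} [Field K] (a b0 b1 b2 b3 bi : K) : Prop :=
  b1 = 0 ∧ b2 = 0 ∧ bi = 0 ∧ a ^ 8 = 1 ∧ b0 = -(a ^ 5 * b3)

open Pool.Agent.Helper62.Transfer in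
theorem good_three {K : Type*} [Field K] {a b0 b1 b2 b3 bi : K}
    (h : FamilyT a b0 b1 b2 b3 bi) : ∃ P : FramedLink → K, Good a b0 b1 b2 b3 bi P := by
  obtain ⟨rfl, rfl, rfl, h8, hb⟩ := h
  obtain ⟨P, hP, hT⟩ := three_invariant a h8
  refine ⟨fun L => (P L).eval 1, ?_, ?_, ?_⟩
  · intro A B n k hA hB hk h0 _ _ h3 _
    have e3 : P (mkLink _ h3) = a ^ 5 • P (mkLink _ h0) :=
      hP _ _ _ (MoveRel.twist (X := [(0, Piece.pos), (0, Piece.pos), (0, Piece.pos)]) (e := 5)
        A B n k hA hB hk h3 h0)
    simp only [e3, hb, Polynomial.eval_smul, smul_eq_mul]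
    ring
  · intro A B n k hA hB hk h0 h1
    have := hP _ _ _ (MoveRel.curl A B n k hA hB hk h1 h0)
    have h1' : (1 : ZMod 8).val = 1 := rfl
    rw [h1', pow_one] at this
    simp only [this, Polynomial.eval_smul, smul_eq_mul]
  · have := hT 1
    have e : (P (mkLink (trivialLink 1) (trivialLink_closed 1))).eval 1 = 1 := by
      rw [this]; simp
    show (P (mkLink (trivialLink 1) rfl)).eval 1 ≠ 0
    rw [show (P (mkLink (trivialLink 1) rfl)).eval 1
      = (P (mkLink (trivialLink 1) (trivialLink_closed 1))).eval 1 from rfl, e]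
    exact one_ne_zero

/-- Over an integral domain `R` with field of fractions `K`: if the class of the trivial knot is not
torsion, then the parameters lie in one of the families `Y`, `K`, `B`, `O`; if they lie in one of
the families `B`, `O`, `T`, then it is not torsion. -/
theorem result {R K : Type*} [CommRing R] [IsDomain R] [Field K] [Algebra R K]
    [IsFractionRing R K] (a b0 b3 : Rˣ) (b1 b2 bi : R) :
    (¬ UnknotTorsion a b0 b3 b1 b2 bi →
      FamilyY (algebraMap R K a) (algebraMap R K b0) (algebraMap R K b1) (algebraMap R K b2)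
          (algebraMap R K b3) (algebraMap R K bi) ∨
        FamilyK (algebraMap R K a) (algebraMap R K b0) (algebraMap R K b1) (algebraMap R K b2)
          (algebraMap R K b3) (algebraMap R K bi) ∨
        FamilyB (algebraMap R K a) (algebraMap R K b0) (algebraMap R K b1) (algebraMap R K b2)
          (algebraMap R K b3) (algebraMap R K bi) ∨
        FamilyO (algebraMap R K a) (algebraMap R K b0) (algebraMap R K b1) (algebraMap R K b2)
          (algebraMap R K b3) (algebraMap R K bi)) ∧
    (FamilyB (algebraMap R K a) (algebraMap R K b0) (algebraMap R K b1) (algebraMap R K b2)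
          (algebraMap R K b3) (algebraMap R K bi) ∨
        FamilyO (algebraMap R K a) (algebraMap R K b0) (algebraMap R K b1) (algebraMap R K b2)
          (algebraMap R K b3) (algebraMap R K bi) ∨
        FamilyT (algebraMap R K a) (algebraMap R K b0) (algebraMap R K b1) (algebraMap R K b2)
          (algebraMap R K b3) (algebraMap R K bi) →
      ¬ UnknotTorsion a b0 b3 b1 b2 bi) := by
  refine ⟨necessary a b0 b3 b1 b2 bi, ?_⟩
  rintro (h | h | h)
  · obtain ⟨P, hP⟩ := good_bracket (a.isUnit.map (algebraMap R K)).ne_zero h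
    exact not_torsion a b0 b3 b1 b2 bi P hP
  · obtain ⟨P, hP⟩ := good_one h
    exact not_torsion a b0 b3 b1 b2 bi P hP
  · obtain ⟨P, hP⟩ := good_three h
    exact not_torsion a b0 b3 b1 b2 bi P hP

end Pool.Agent.Results.MP_43d316_gt.TorsionFamilies
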