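import Mathlib
import Pool.Agent.Helper62.KaufFun
import Pool.Agent.Helper62.TorsionFam

set_option linter.unusedSimpArgs false
set_option autoImplicit false

namespace Pool.Agent.Helper62.SkeinFam

open Pool.Agent.Helper62.Skein Pool.Agent.Helper62.StateSum Pool.Agent.Helper62.Families
  Pool.Agent.Helper62.Linear Pool.Agent.Helper62.KaufFun
open Pool.Agent.Results.MP_43d316_gt.TorsionFamilies (UnknotTorsion Good wt wt_move step_nil)

/-! ### A functional with values in an extension field -/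

theorem not_torsion' {R F : Type*} [CommRing R] [IsDomain R] [Field F] [Algebra R F]
    [FaithfulSMul R F] (a b0 b3 : Rˣ) (b1 b2 bi : R) (P : FramedLink → F)
    (hP : Good (algebraMap R F a) (algebraMap R F b0) (algebraMap R F b1) (algebraMap R F b2)
        (algebraMap R F b3) (algebraMap R F bi) P) : ¬ UnknotTorsion a b0 b3 b1 b2 bi := by
  have hk : relations R a b0 b3 b1 b2 bi ≤ LinearMap.ker (ext (R := R) P) := by
    apply relations_le_ker
    · intro A B n k hA hB hk
      have w1 : width n [(k, Piece.pos)] = some n := by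
        have : n - 2 + 2 = n := by omega
        simp [width, Piece.low, Piece.high, hk, this]
      have w2 : width n [(k, Piece.pos), (k, Piece.pos)] = some n := by
        simp [width, Piece.low, Piece.high]; omega
      have w3 : width n [(k, Piece.pos), (k, Piece.pos), (k, Piece.pos)] = some n := by
        simp [width, Piece.low, Piece.high]; omega
      have w4 : width n [(k, Piece.cap), (k, Piece.cup)] = some n := by
        simp [width, Piece.low, Piece.high]; omega
      have c0 : width 0 (A ++ B) = some 0 := by rw [width_append, hA]; simp [hB]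
      have c1 := closed_of hA w1 hB
      have c2 := closed_of hA w2 hB
      have c3 := closed_of hA w3 hB
      have c4 := closed_of hA w4 hB
      rw [ext_link P c0, ext_link P c1, ext_link P c2, ext_link P c3, ext_link P c4]
      simp only [Algebra.smul_def]
      exact hP.skein A B n k hA hB hk c0 c1 c2 c3 c4
    · intro A B n k hA hB hk
      have w1 : width n [(k + 1, Piece.cup), (k, Piece.pos), (k + 1, Piece.cap)] = some n := by
        simp [width, Piece.low, Piece.high]; omega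
      have c0 : width 0 (A ++ B) = some 0 := by rw [width_append, hA]; simp [hB]
      have c1 := closed_of hA w1 hB
      rw [ext_link P c0, ext_link P c1, Algebra.smul_def]
      exact hP.curl A B n k hA hB hk c0 c1
  rintro ⟨r, hr, h⟩
  have h1 := congrArg (lift a b0 b3 b1 b2 bi P hk) h
  have h2 : lift a b0 b3 b1 b2 bi P hk
      ((relations R a b0 b3 b1 b2 bi).mkQ (link R (trivialLink 1)))
        = P (mkLink (trivialLink 1) rfl) := lift_c a b0 b3 b1 b2 bi P hk rfl
  rw [map_smul, map_zero, h2, Algebra.smul_def] at h1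
  rcases mul_eq_zero.mp h1 with h3 | h3
  · have : r = 0 := FaithfulSMul.algebraMap_injective R F (by rw [h3, map_zero])
    exact nonZeroDivisors.ne_zero hr this
  · exact hP.unknot h3

/-! ### The Kauffman and Dubrovnik polynomials -/

variable {F : Type*} [Field F]

/-- the product of a one-dimensional invariant and the Kauffman polynomial -/
noncomputable def kfun {a0 : F} (h0 : a0 ^ 4 = 1) (α ζ : Fˣ) : FramedLink → F :=
  Quot.lift (fun D => (D.1.map (wt a0)).prod * kv α ζ D.1) (by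
    intro D E h
    have e1 : kv α ζ D.1 = kv α ζ E.1 := congrArg (evR α ζ) (la_step h)
    have e2 : (D.1.map (wt a0)).prod = (E.1.map (wt a0)).prod := by
      obtain ⟨A, B, X, Y, hXY, hD, hE⟩ := h
      simp only [hD, hE, List.map_append, List.prod_append, wt_move h0 hXY]
    simp only [e1, e2])

theorem good_kauffman {a b0 b1 b2 b3 bi : F} (ha : a ≠ 0) {a0 : F} (h0 : a0 ^ 4 = 1) {z : F}
    (hz : z ≠ 0) (h1 : b1 = a0 ^ 2 * (b3 - z * b0)) (h2 : b2 = a0 ^ 2 * b0 - z * b3)
    (h3 : a ^ 2 * bi = -(z * (a * b0 + a0 ^ 2 * b3))) :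
    ∃ P : FramedLink → F, Good a b0 b1 b2 b3 bi P := by
  have ha0 : a0 ≠ 0 := by
    rintro rfl
    norm_num at h0
  obtain ⟨α, hα⟩ : ∃ α : Fˣ, (α : F) = a0 ^ 3 * a := ⟨Units.mk0 (a0 ^ 3 * a) (by positivity), rfl⟩
  obtain ⟨ζ, hζ⟩ : ∃ ζ : Fˣ, (ζ : F) = a0 * z := ⟨Units.mk0 (a0 * z) (by positivity), rfl⟩
  have hαi : ((α⁻¹ : Fˣ) : F) * (a0 ^ 3 * a) = 1 := by rw [← hα]; simp
  have hαi' : ((α⁻¹ : Fˣ) : F) * a = a0 := by
    linear_combination a0 * hαi - ((α⁻¹ : Fˣ) : F) * a * h0
  refine ⟨kfun h0 α ζ, ?_, ?_, ?_⟩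
  · intro A B n k hA hB hk w0 w1 w2 w3 w4
    obtain ⟨r1, r2⟩ := kv_rel α ζ hA hB hk
    rw [hζ] at r1 r2
    show b0 * ((List.map (wt a0) (A ++ B)).prod * kv α ζ (A ++ B))
      + b1 * ((List.map (wt a0) (A ++ [(k, Piece.pos)] ++ B)).prod
          * kv α ζ (A ++ [(k, Piece.pos)] ++ B))
      + b2 * ((List.map (wt a0) (A ++ [(k, Piece.pos), (k, Piece.pos)] ++ B)).prod
          * kv α ζ (A ++ [(k, Piece.pos), (k, Piece.pos)] ++ B))
      + b3 * ((List.map (wt a0) (A ++ [(k, Piece.pos), (k, Piece.pos), (k, Piece.pos)] ++ B)).prod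
          * kv α ζ (A ++ [(k, Piece.pos), (k, Piece.pos), (k, Piece.pos)] ++ B))
      + bi * ((List.map (wt a0) (A ++ [(k, Piece.cap), (k, Piece.cup)] ++ B)).prod
          * kv α ζ (A ++ [(k, Piece.cap), (k, Piece.cup)] ++ B)) = 0
    simp only [List.map_append, List.prod_append, List.map_cons, List.map_nil,
      List.prod_cons, List.prod_nil, wt, mul_one]
    have e : (a0 ^ 2) ^ (k + 1) * (a0 ^ 2) ^ k = a0 ^ 2 := by
      rw [← pow_add, ← pow_mul, show 2 * (k + 1 + k) = 4 * k + 2 by ring, pow_add, pow_mul, h0,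
        one_pow, one_mul]
    rw [e]
    generalize (List.map (wt a0) A).prod = U
    generalize (List.map (wt a0) B).prod = W
    generalize kv α ζ (A ++ B) = x0 at *
    generalize kv α ζ (A ++ [(k, Piece.pos)] ++ B) = x1 at *
    generalize kv α ζ (A ++ [(k, Piece.pos), (k, Piece.pos)] ++ B) = x2 at *
    generalize kv α ζ (A ++ [(k, Piece.pos), (k, Piece.pos), (k, Piece.pos)] ++ B) = x3 at *
    generalize kv α ζ (A ++ [(k, Piece.cap), (k, Piece.cup)] ++ B) = xe at *
    generalize ((α⁻¹ : Fˣ) : F) = β at *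
    have hbi : bi * a0 ^ 2 = -(z * (a0 * b0 * β + a0 ^ 2 * b3 * β ^ 2)) := by
      have ha2 : a ^ 2 ≠ 0 := pow_ne_zero 2 ha
      apply mul_left_cancel₀ ha2
      linear_combination a0 ^ 2 * h3
        + (z * a0 * b0 * a + z * a0 ^ 2 * b3 * (β * a + a0)) * hαi'
    have key : b0 * x0 + b1 * (a0 ^ 3 * x1) + b2 * (a0 ^ 2 * x2) + b3 * (a0 * x3)
        + bi * (a0 ^ 2 * xe) = 0 := by
      subst h1 h2
      linear_combination b0 * r1 + b3 * a0 * r2 + xe * hbi
        + (a0 * (b3 - z * b0) * x1 + b0 * x2) * h0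
    linear_combination U * W * key + (U * W * b2 * a0 ^ 2 * x2 + U * W * b3 * x3 * (a0 ^ 5 + a0)) * h0
  · intro A B n k hA hB hk w0 w1
    have r := kv_curl α ζ hA hB hk
    rw [hα] at r
    show (List.map (wt a0) (A ++ [(k + 1, Piece.cup), (k, Piece.pos), (k + 1, Piece.cap)]
        ++ B)).prod * kv α ζ (A ++ [(k + 1, Piece.cup), (k, Piece.pos), (k + 1, Piece.cap)] ++ B)
      = a * ((List.map (wt a0) (A ++ B)).prod * kv α ζ (A ++ B))
    rw [r]
    simp only [List.map_append, List.prod_append, List.map_cons, List.map_nil,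
      List.prod_cons, List.prod_nil, wt, mul_one]
    have e : (a0 ^ 2) ^ (k + 1) * (a0 ^ 3 * (a0 ^ 2) ^ (k + 1 + 1)) = a0 := by
      have : (a0 ^ 2) ^ (k + 1) * (a0 ^ 3 * (a0 ^ 2) ^ (k + 1 + 1)) = (a0 ^ 4) ^ (k + 2) * a0 := by
        rw [← pow_mul, ← pow_mul, ← pow_mul]
        ring
      rw [this, h0, one_pow, one_mul]
    rw [e]
    linear_combination ((List.map (wt a0) A).prod * (List.map (wt a0) B).prod * a
      * kv α ζ (A ++ B)) * h0
  · show (List.map (wt a0) (trivialLink 1)).prod * kv α ζ (trivialLink 1) ≠ 0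
    rw [kv_circle]
    simp [trivialLink, wt, ha0]

theorem good_K [IsAlgClosed F] {a b0 b1 b2 b3 bi : F} (ha : a ≠ 0)
    (h : FamilyK a b0 b1 b2 b3 bi) : ∃ P : FramedLink → F, Good a b0 b1 b2 b3 bi P := by
  obtain ⟨ε, z, hε, hz, h1, h2, h3⟩ := h
  obtain ⟨a0, ha0⟩ := IsAlgClosed.exists_pow_nat_eq ε (n := 2) (by norm_num)
  have h4 : a0 ^ 4 = 1 := by
    have : a0 ^ 4 = (a0 ^ 2) ^ 2 := by ring
    rw [this, ha0, eps_sq hε]
  subst ha0
  exact good_kauffman ha h4 hz h1 h2 h3

/-! ### The family `Y` without the fifth term -/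

theorem y_zero [IsAlgClosed F] {a b0 b1 b2 b3 : F} (hb0 : b0 ≠ 0) (hb3 : b3 ≠ 0)
    (h : FamilyY a b0 b1 b2 b3 0) : FamilyB a b0 b1 b2 b3 0 ∨ FamilyO a b0 b1 b2 b3 0 := by
  obtain ⟨h1, h2, h3⟩ := h
  rcases h3 rfl with ⟨e1, e2, e3⟩ | h3
  · right
    refine ⟨e1, ?_⟩
    rw [e2, e3]
    linear_combination (-b3) * e1
  · left
    obtain ⟨w, hw⟩ : ∃ w : F, w ^ 2 + w + 1 = 0 := by
      obtain ⟨w, hw⟩ := IsAlgClosed.exists_root
        (Polynomial.X ^ 2 + Polynomial.X + 1 : Polynomial F) (by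
          have : (Polynomial.X ^ 2 + Polynomial.X + 1 : Polynomial F).degree = 2 := by
            compute_degree!
          rw [this]
          norm_num)
      refine ⟨w, ?_⟩
      simpa [Polynomial.IsRoot] using hw
    have h4 : b2 * b3 = b0 * b1 := by
      have := mul_left_cancel₀ hb0 (show b0 * (b2 * b3 - b0 * b1) = b0 * 0 by
        rw [← h2]; ring)
      linear_combination this
    have hw3 : w ^ 3 = 1 := by linear_combination (w - 1) * hw
    have g1 : b1 = (b0 ^ 4 + b3 ^ 4) / (b0 ^ 2 * b3) := by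
      field_simp
      linear_combination h3
    have g2 : b2 = (b0 ^ 4 + b3 ^ 4) / (b0 * b3 ^ 2) := by
      have : b2 = b0 * b1 / b3 := by
        field_simp
        linear_combination h4
      rw [this, g1]
      field_simp
    have ga : a = -b3 ^ 3 / b0 ^ 3 := by
      field_simp
      linear_combination h1
    refine ⟨b3 / b0 * w, ?_, ?_, ?_⟩
    · rw [ga]
      field_simp
      linear_combination hw3
    · rw [g1, g2]
      field_simp
      linear_combination (b0 ^ 4 + b3 ^ 4) * hw + b3 ^ 4 * hw3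
    · rw [g1, g2]
      have hw4 : w ^ 4 = w := by linear_combination w * hw3
      field_simp
      rw [hw3, hw4]
      linear_combination b3 * (b3 ^ 4) ^ 2 * hw

/-! ### The Kauffman bracket as a function, and products of two brackets -/

open Pool.Agent.Helper62.BracketRing PowerSeries in
theorem bracket_fun {A0 : F} (hA0' : A0 ≠ 0) :
    ∃ P : FramedLink → F, P (mkLink (trivialLink 1) rfl) = 1 ∧
      ∀ b0 b1 b2 b3 bi : F, b0 + b1 * A0 + b2 * A0 ^ 2 + b3 * A0 ^ 3 = 0 →
        b1 * A0 ^ 6 + b2 * (A0 ^ 7 - A0 ^ 3) + b3 * (A0 ^ 8 - A0 ^ 4 + 1) + bi * A0 ^ 7 = 0 →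
        Good (-A0 ^ 3) b0 b1 b2 b3 bi P := by
  -- the deformed variable
  obtain ⟨A, hA⟩ : ∃ A : PowerSeries F, A = PowerSeries.C A0 + PowerSeries.X := ⟨_, rfl⟩
  have hcA : constantCoeff A = A0 := by rw [hA]; simp
  obtain ⟨Ai, hAi⟩ : ∃ Ai : PowerSeries F, Ai = A⁻¹ := ⟨_, rfl⟩
  have hAAi : A * Ai = 1 := by
    rw [hAi]
    exact PowerSeries.mul_inv_cancel A (by rw [hcA]; exact hA0')
  have hcAi : constantCoeff Ai = A0⁻¹ := by
    rw [hAi, PowerSeries.constantCoeff_inv, hcA]
  have hd : (-A ^ 2 - Ai ^ 2) ≠ 0 := by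
    intro h0
    have h3 : A ^ 4 + 1 = 0 := by
      linear_combination (-A ^ 2) * h0 + (A * Ai + 1) * hAAi * (-1)
    have h4 : ((Polynomial.X + Polynomial.C A0 : Polynomial F) ^ 4 + 1) = 0 := by
      apply Polynomial.coe_injective F
      rw [hA] at h3
      push_cast
      rw [add_comm (PowerSeries.X) _]
      exact h3
    have h5 := congrArg (fun p => Polynomial.coeff p 4) h4
    have h6 : ((Polynomial.X + Polynomial.C A0 : Polynomial F) ^ 4).coeff 4 = 1 := by
      rw [Polynomial.coeff_X_add_C_pow]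
      simp
    simp only [Polynomial.coeff_add, h6, Polynomial.coeff_one, Polynomial.coeff_zero] at h5
    norm_num at h5
  have hval : ∀ w : List (ℕ × Piece), width 0 w = some 0 → w ≠ [] →
      value (bracketOp A Ai) w = (-A ^ 2 - Ai ^ 2) * red A Ai w := fun w hw hne =>
    value_eq hAAi hw hne
  let P : FramedLink → F := Quot.lift (fun D => constantCoeff (red A Ai D.1)) (by
    intro D E hDE
    by_cases hD : D.1 = []
    · have hE := (step_nil hDE).mp hD
      simp only [hD, hE]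
    · have hE : E.1 ≠ [] := fun hE => hD ((step_nil hDE).mpr hE)
      have e := value_step (bracket_model hAAi) hDE
      rw [hval _ D.2 hD, hval _ E.2 hE] at e
      simp only [mul_left_cancel₀ hd e])
  have hP : ∀ (w : List (ℕ × Piece)) (hw : width 0 w = some 0),
      P (mkLink w hw) = constantCoeff (red A Ai w) := fun w hw => rfl
  have hne : ∀ (X Y : List (ℕ × Piece)) (n : ℕ), width 0 X = some (n + 1) → X ++ Y ≠ [] := by
    intro X Y n hX h0
    simp only [List.append_eq_nil_iff] at h0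
    rw [h0.1] at hX
    simp [width] at hX
  have hu : P (mkLink (trivialLink 1) rfl) = 1 := by
    have : red A Ai (trivialLink 1) = 1 := by
      simp [trivialLink, red, eval, act, bracketOp, capM, unitFun, Piece.low, hAAi]
    show constantCoeff (red A Ai (trivialLink 1)) = 1
    rw [this, map_one]
  refine ⟨P, hu, fun b0 b1 b2 b3 bi h1 h2 => ⟨?_, ?_, ?_⟩⟩
  · intro X Y n k hX hY hk w0 w1 w2 w3 w4
    obtain ⟨n, rfl⟩ : ∃ m, n = m + 1 := ⟨n - 1, by omega⟩
    obtain ⟨β0, hβ0⟩ : ∃ β : PowerSeries F, β = -(C b1 * A + C b2 * A ^ 2 + C b3 * A ^ 3) :=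
      ⟨_, rfl⟩
    obtain ⟨βi, hβi⟩ : ∃ β : PowerSeries F,
        β = -(C b1 * Ai + C b2 * (1 - Ai ^ 4) + C b3 * (A - Ai ^ 3 + Ai ^ 7)) := ⟨_, rfl⟩
    have hcβ0 : constantCoeff β0 = b0 := by
      rw [hβ0]
      simp only [map_neg, map_add, map_mul, map_pow, constantCoeff_C, hcA]
      linear_combination -h1
    have hcβi : constantCoeff βi = bi := by
      rw [hβi]
      simp only [map_neg, map_add, map_sub, map_mul, map_pow, constantCoeff_C, hcA, hcAi, map_one]
      field_simp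
      linear_combination -h2
    have rel := bracket_rel hAAi (b0 := β0) (b1 := C b1) (b2 := C b2) (b3 := C b3) (bi := βi)
      (by rw [hβ0]; ring) (by rw [hβi]; ring) X Y (n + 1) k hX hk
    rw [hval _ w0 (hne _ _ _ hX), hval _ w1 (by simp), hval _ w2 (by simp),
      hval _ w3 (by simp), hval _ w4 (by simp)] at rel
    have rel2 : β0 * red A Ai (X ++ Y) + C b1 * red A Ai (X ++ [(k, Piece.pos)] ++ Y)
        + C b2 * red A Ai (X ++ [(k, Piece.pos), (k, Piece.pos)] ++ Y)
        + C b3 * red A Ai (X ++ [(k, Piece.pos), (k, Piece.pos), (k, Piece.pos)] ++ Y)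
        + βi * red A Ai (X ++ [(k, Piece.cap), (k, Piece.cup)] ++ Y) = 0 := by
      apply mul_left_cancel₀ hd
      linear_combination rel
    have rel3 := congrArg constantCoeff rel2
    simp only [map_add, map_mul, map_zero, constantCoeff_C, hcβ0, hcβi] at rel3
    rw [hP, hP, hP, hP, hP]
    exact rel3
  · intro X Y n k hX hY hk w0 w1
    obtain ⟨n, rfl⟩ : ∃ m, n = m + 1 := ⟨n - 1, by omega⟩
    have rel := bracket_curl hAAi X Y (n + 1) k hX hk
    rw [hval _ w0 (hne _ _ _ hX), hval _ w1 (by simp)] at rel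
    have rel2 : red A Ai (X ++ [(k + 1, Piece.cup), (k, Piece.pos), (k + 1, Piece.cap)] ++ Y)
        = (-A ^ 3) * red A Ai (X ++ Y) := by
      apply mul_left_cancel₀ hd
      linear_combination rel
    have rel3 := congrArg constantCoeff rel2
    simp only [map_neg, map_mul, map_pow, hcA] at rel3
    rw [hP, hP]
    exact rel3
  · rw [hu]
    exact one_ne_zero

/-- The relation holds for the product of the Kauffman brackets in the variables `A` and `B`. -/
def FamilyS (a b0 b1 b2 b3 bi : F) : Prop :=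
  ∃ A B : F, A ≠ 0 ∧ B ≠ 0 ∧ a = (A * B) ^ 3 ∧ b0 * (A * B) = -b3 ∧
    b1 * (A * B) ^ 2 = b3 * (1 - A ^ 4 - B ^ 4) ∧
    b2 * (A * B) ^ 3 = b3 * (A ^ 4 + B ^ 4 - A ^ 4 * B ^ 4) ∧
    bi * (A * B) ^ 7 = b3 * (A ^ 4 * B ^ 4 - 1)

theorem good_S {a b0 b1 b2 b3 bi : F} (h : FamilyS a b0 b1 b2 b3 bi) :
    ∃ P : FramedLink → F, Good a b0 b1 b2 b3 bi P := by
  obtain ⟨A, B, hA, hB, ha, h0, h1, h2, hi⟩ := h
  obtain ⟨P, hP1, hP⟩ := bracket_fun hA
  obtain ⟨Q, hQ1, hQ⟩ := bracket_fun hB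
  -- three-term relations
  have g1 : ∀ {A : F}, A ≠ 0 → ∀ {P : FramedLink → F},
      (∀ b0 b1 b2 b3 bi : F, b0 + b1 * A + b2 * A ^ 2 + b3 * A ^ 3 = 0 →
        b1 * A ^ 6 + b2 * (A ^ 7 - A ^ 3) + b3 * (A ^ 8 - A ^ 4 + 1) + bi * A ^ 7 = 0 →
        Good (-A ^ 3) b0 b1 b2 b3 bi P) →
      Good (-A ^ 3) (-A) 1 0 0 (-A⁻¹) P ∧ Good (-A ^ 3) (-A ^ 2) 0 1 0 (-(1 - (A⁻¹) ^ 4)) P ∧
        Good (-A ^ 3) (-A ^ 3) 0 0 1 (-(A - (A⁻¹) ^ 3 + (A⁻¹) ^ 7)) P := by
    intro A hA P hP
    refine ⟨hP _ _ _ _ _ (by ring) ?_, hP _ _ _ _ _ (by ring) ?_, hP _ _ _ _ _ (by ring) ?_⟩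
    · field_simp
      ring
    · field_simp
      ring
    · field_simp
      ring
  obtain ⟨p1, p2, p3⟩ := g1 hA hP
  obtain ⟨q1, q2, q3⟩ := g1 hB hQ
  have e0 : b0 = -b3 / (A * B) := by
    field_simp
    linear_combination h0
  have e1 : b1 = b3 * (1 - A ^ 4 - B ^ 4) / (A * B) ^ 2 := by
    field_simp
    linear_combination h1
  have e2 : b2 = b3 * (A ^ 4 + B ^ 4 - A ^ 4 * B ^ 4) / (A * B) ^ 3 := by
    field_simp
    linear_combination h2
  have ei : bi = b3 * (A ^ 4 * B ^ 4 - 1) / (A * B) ^ 7 := by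
    field_simp
    linear_combination hi
  refine ⟨fun L => P L * Q L, ?_, ?_, ?_⟩
  · intro X Y n k hX hY hk w0 w1 w2 w3 w4
    have r1 := p1.skein X Y n k hX hY hk w0 w1 w2 w3 w4
    have r2 := p2.skein X Y n k hX hY hk w0 w1 w2 w3 w4
    have r3 := p3.skein X Y n k hX hY hk w0 w1 w2 w3 w4
    have s1 := q1.skein X Y n k hX hY hk w0 w1 w2 w3 w4
    have s2 := q2.skein X Y n k hX hY hk w0 w1 w2 w3 w4
    have s3 := q3.skein X Y n k hX hY hk w0 w1 w2 w3 w4
    generalize P (mkLink _ w0) = x0 at *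
    generalize P (mkLink _ w1) = x1 at *
    generalize P (mkLink _ w2) = x2 at *
    generalize P (mkLink _ w3) = x3 at *
    generalize P (mkLink _ w4) = xe at *
    generalize Q (mkLink _ w0) = y0 at *
    generalize Q (mkLink _ w1) = y1 at *
    generalize Q (mkLink _ w2) = y2 at *
    generalize Q (mkLink _ w3) = y3 at *
    generalize Q (mkLink _ w4) = ye at *
    have t1 : x1 = A * x0 + A⁻¹ * xe := by linear_combination r1
    have t2 : x2 = A ^ 2 * x0 + (1 - (A⁻¹) ^ 4) * xe := by linear_combination r2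
    have t3 : x3 = A ^ 3 * x0 + (A - (A⁻¹) ^ 3 + (A⁻¹) ^ 7) * xe := by linear_combination r3
    have u1 : y1 = B * y0 + B⁻¹ * ye := by linear_combination s1
    have u2 : y2 = B ^ 2 * y0 + (1 - (B⁻¹) ^ 4) * ye := by linear_combination s2
    have u3 : y3 = B ^ 3 * y0 + (B - (B⁻¹) ^ 3 + (B⁻¹) ^ 7) * ye := by linear_combination s3
    rw [t1, t2, t3, u1, u2, u3, e0, e1, e2, ei]
    field_simp
    ring
  · intro X Y n k hX hY hk w0 w1
    have r1 := p1.curl X Y n k hX hY hk w0 w1
    have s1 := q1.curl X Y n k hX hY hk w0 w1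
    rw [r1, s1, ha]
    ring
  · simp only [hP1, hQ1, mul_one]
    exact one_ne_zero

end Pool.Agent.Helper62.SkeinFam
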