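import Pool.Agent.Helper62.StrDefs

/-!
# The torsion of a string link by the Burau matrix
-/

namespace Pool.Agent.Helper62.StrLink

/-- A letter with coefficients: a prefactor `p` and a 2x2 matrix acting on row vectors in
positions `i`, `i+1`. -/
structure Ltr (A : Type) where
  i : ℕ
  p : A
  a : A
  b : A
  c : A
  d : A

section generic

variable {A B : Type} [CommRing A] [CommRing B]

/-- Action of one letter on row vectors. -/
def rstep (x : Ltr A) (r : ℕ → A) : ℕ → A := fun j =>
  if j = x.i then r x.i * x.a + r (x.i + 1) * x.c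
  else if j = x.i + 1 then r x.i * x.b + r (x.i + 1) * x.d
  else r j

/-- Action of a word on row vectors. -/
def ract (w : List (Ltr A)) (r : ℕ → A) : ℕ → A := w.foldl (fun r x => rstep x r) r

@[simp] theorem ract_nil (r : ℕ → A) : ract [] r = r := rfl

@[simp] theorem ract_cons (x : Ltr A) (w : List (Ltr A)) (r : ℕ → A) :
    ract (x :: w) r = ract w (rstep x r) := rfl

theorem ract_append (a b : List (Ltr A)) (r : ℕ → A) : ract (a ++ b) r = ract b (ract a r) := by
  simp [ract, List.foldl_append]

theorem rstep_add (x : Ltr A) (r r' : ℕ → A) : rstep x (r + r') = rstep x r + rstep x r' := by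
  funext j
  simp only [rstep, Pi.add_apply]
  split_ifs <;> ring

theorem rstep_smul (x : Ltr A) (c : A) (r : ℕ → A) : rstep x (c • r) = c • rstep x r := by
  funext j
  simp only [rstep, Pi.smul_apply, smul_eq_mul]
  split_ifs <;> ring

theorem ract_add (w : List (Ltr A)) (r r' : ℕ → A) : ract w (r + r') = ract w r + ract w r' := by
  induction w generalizing r r' with
  | nil => rfl
  | cons x w ih => rw [ract_cons, rstep_add, ih]; rfl

theorem ract_smul (w : List (Ltr A)) (c : A) (r : ℕ → A) : ract w (c • r) = c • ract w r := by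
  induction w generalizing r with
  | nil => rfl
  | cons x w ih => rw [ract_cons, rstep_smul, ih]; rfl

theorem ract_zero (w : List (Ltr A)) : ract w (0 : ℕ → A) = 0 := by
  have := ract_smul w 0 (0 : ℕ → A)
  simpa using this

theorem ract_sum (w : List (Ltr A)) {ι : Type} (s : Finset ι) (f : ι → ℕ → A) :
    ract w (∑ q ∈ s, f q) = ∑ q ∈ s, ract w (f q) := by
  classical
  induction s using Finset.induction_on with
  | empty => simp [ract_zero]
  | insert q s hq ih => rw [Finset.sum_insert hq, Finset.sum_insert hq, ract_add, ih]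

/-- Positions `≥ n` are not touched. -/
theorem ract_high (w : List (Ltr A)) (n : ℕ) (hw : ∀ x ∈ w, x.i + 1 < n) (r : ℕ → A) (j : ℕ)
    (hj : n ≤ j) : ract w r j = r j := by
  induction w generalizing r with
  | nil => rfl
  | cons x w ih =>
    rw [ract_cons, ih (fun y hy => hw y (List.mem_cons_of_mem _ hy))]
    have := hw x List.mem_cons_self
    simp only [rstep]
    rw [if_neg (by omega), if_neg (by omega)]

/-- Positions `< k` are not touched. -/
theorem ract_low (w : List (Ltr A)) (k : ℕ) (hw : ∀ x ∈ w, k ≤ x.i) (r : ℕ → A) (j : ℕ)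
    (hj : j < k) : ract w r j = r j := by
  induction w generalizing r with
  | nil => rfl
  | cons x w ih =>
    rw [ract_cons, ih (fun y hy => hw y (List.mem_cons_of_mem _ hy))]
    have := hw x List.mem_cons_self
    simp only [rstep]
    rw [if_neg (by omega), if_neg (by omega)]

theorem ract_of_low (w : List (Ltr A)) (k : ℕ) (hw : ∀ x ∈ w, k ≤ x.i) (r : ℕ → A)
    (hr : ∀ j, k ≤ j → r j = 0) : ract w r = r := by
  induction w generalizing r with
  | nil => rfl
  | cons x w ih =>
    have h1 := hw x List.mem_cons_self
    have : rstep x r = r := by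
      funext j
      simp only [rstep]
      rw [hr x.i h1, hr (x.i + 1) (by omega)]
      split_ifs with h2 h3
      · rw [h2, hr x.i h1]; ring
      · rw [h3, hr (x.i + 1) (by omega)]; ring
      · rfl
    rw [ract_cons, this]
    exact ih (fun y hy => hw y (List.mem_cons_of_mem _ hy)) r hr

theorem ract_of_high (w : List (Ltr A)) (n : ℕ) (hw : ∀ x ∈ w, x.i + 1 < n) (r : ℕ → A)
    (hr : ∀ j, j < n → r j = 0) : ract w r = r := by
  induction w generalizing r with
  | nil => rfl
  | cons x w ih =>
    have h1 := hw x List.mem_cons_self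
    have : rstep x r = r := by
      funext j
      simp only [rstep]
      rw [hr x.i (by omega), hr (x.i + 1) (by omega)]
      split_ifs with h2 h3
      · rw [h2, hr x.i (by omega)]; ring
      · rw [h3, hr (x.i + 1) (by omega)]; ring
      · rfl
    rw [ract_cons, this]
    exact ih (fun y hy => hw y (List.mem_cons_of_mem _ hy)) r hr

theorem eq_sum_single (n : ℕ) (r : ℕ → A) (hr : ∀ j, n ≤ j → r j = 0) :
    r = ∑ q ∈ Finset.range n, r q • (Pi.single q 1 : ℕ → A) := by
  funext j
  rw [Finset.sum_apply]
  by_cases hj : j < n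
  · rw [Finset.sum_eq_single j]
    · simp
    · intro b _ hb
      simp [hb.symm]
    · intro h; exact absurd (Finset.mem_range.2 hj) h
  · rw [hr j (by omega), Finset.sum_eq_zero]
    intro q hq
    have : q < n := Finset.mem_range.1 hq
    have : j ≠ q := by omega
    simp [this]

/-- The closed block of the matrix of a word. -/
def Smat (k m : ℕ) (w : List (Ltr A)) : Matrix (Fin m) (Fin m) A := fun p q =>
  ract w (Pi.single (k + p) 1) (k + q)

/-- The torsion. -/
def tau (k m : ℕ) (c : A) (w : List (Ltr A)) : A :=
  c ^ m * (w.map (fun x => x.p)).prod * (1 - Smat k m w).det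

/-- Change of rings. -/
def Ltr.map (φ : A →+* B) (x : Ltr A) : Ltr B := ⟨x.i, φ x.p, φ x.a, φ x.b, φ x.c, φ x.d⟩

theorem ract_map (φ : A →+* B) (w : List (Ltr A)) (r : ℕ → A) (j : ℕ) :
    φ (ract w r j) = ract (w.map (Ltr.map φ)) (fun i => φ (r i)) j := by
  induction w generalizing r with
  | nil => rfl
  | cons x w ih =>
    rw [ract_cons, ih, List.map_cons, ract_cons]
    congr 1
    funext i
    by_cases h1 : i = x.i
    · simp [rstep, Ltr.map, h1]
    · by_cases h2 : i = x.i + 1
      · simp [rstep, Ltr.map, h2]
      · simp [rstep, Ltr.map, h1, h2]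

theorem tau_map (φ : A →+* B) (k m : ℕ) (c : A) (w : List (Ltr A)) :
    φ (tau k m c w) = tau k m (φ c) (w.map (Ltr.map φ)) := by
  unfold tau
  rw [map_mul, map_mul, map_pow, map_list_prod, RingHom.map_det]
  congr 2
  · congr 1
    simp [Function.comp_def, Ltr.map]
  · ext p q
    simp only [RingHom.mapMatrix_apply, Matrix.map_apply, Matrix.sub_apply, map_sub, Smat,
      Matrix.one_apply]
    rw [ract_map]
    congr 1
    · split_ifs <;> simp
    · congr 1
      funext i
      simp only [Pi.single_apply]
      split_ifs <;> simp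

/-- Two words with the same action and the same product of prefactors may be exchanged. -/
theorem tau_rel (k m : ℕ) (c : A) (a b l r : List (Ltr A)) (h : ∀ v : ℕ → A, ract l v = ract r v)
    (h' : (l.map (fun x => x.p)).prod = (r.map (fun x => x.p)).prod) :
    tau k m c (a ++ l ++ b) = tau k m c (a ++ r ++ b) := by
  unfold tau
  congr 1
  · simp [h']
  · congr 2
    ext p q
    simp only [Smat, ract_append, h]

theorem sum_range_split (k m : ℕ) (f : ℕ → A) :
    ∑ q ∈ Finset.range (k + m), f q =
      ∑ q ∈ Finset.range k, f q + ∑ q : Fin m, f (k + q) := by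
  rw [Finset.sum_range_add, Finset.sum_range fun x => f (k + x)]

theorem Smat_mul (k m : ℕ) (a c : List (Ltr A)) (ha : ∀ x ∈ a, x.i + 1 < k + m)
    (hc : ∀ x ∈ c, k ≤ x.i) : Smat k m (a ++ c) = Smat k m a * Smat k m c := by
  ext p q
  rw [Matrix.mul_apply]
  simp only [Smat]
  rw [ract_append]
  have h1 : ∀ j, k + m ≤ j → ract a (Pi.single (k + (p : ℕ)) 1) j = 0 := by
    intro j hj
    rw [ract_high a (k + m) ha _ _ hj]
    have := p.2
    simp only [Pi.single_apply]
    rw [if_neg (by omega)]
  conv_lhs => rw [eq_sum_single (k + m) (ract a (Pi.single (k + (p : ℕ)) 1)) h1]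
  rw [ract_sum, Finset.sum_apply, sum_range_split, Finset.sum_eq_zero, zero_add]
  · refine Finset.sum_congr rfl fun r _ => ?_
    rw [ract_smul]
    rfl
  · intro r hr
    have hr' : r < k := Finset.mem_range.1 hr
    rw [ract_smul, ract_of_low c k hc]
    · simp only [Pi.smul_apply, Pi.single_apply, smul_eq_mul]
      rw [if_neg (by omega), mul_zero]
    · intro j hj
      simp only [Pi.single_apply]
      rw [if_neg (by omega)]

theorem Smat_mul' (k m : ℕ) (a c : List (Ltr A)) (hc' : ∀ x ∈ c, x.i + 1 < k + m)
    (hc : ∀ x ∈ c, k ≤ x.i) : Smat k m (c ++ a) = Smat k m c * Smat k m a := by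
  ext p q
  rw [Matrix.mul_apply]
  simp only [Smat]
  rw [ract_append]
  have h1 : ∀ j, k + m ≤ j → ract c (Pi.single (k + (p : ℕ)) 1) j = 0 := by
    intro j hj
    rw [ract_high c (k + m) hc' _ _ hj]
    have := p.2
    simp only [Pi.single_apply]
    rw [if_neg (by omega)]
  conv_lhs => rw [eq_sum_single (k + m) (ract c (Pi.single (k + (p : ℕ)) 1)) h1]
  rw [ract_sum, Finset.sum_apply, sum_range_split, Finset.sum_eq_zero, zero_add]
  · refine Finset.sum_congr rfl fun r _ => ?_
    rw [ract_smul]
    rfl
  · intro r hr
    have hr' : r < k := Finset.mem_range.1 hr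
    rw [ract_low c k hc _ _ hr']
    have : (Pi.single (k + (p : ℕ)) 1 : ℕ → A) r = 0 := by
      simp only [Pi.single_apply]
      rw [if_neg (by omega)]
    rw [this, zero_smul, ract_zero]
    rfl

theorem tau_conj (k m : ℕ) (e : A) (a c : List (Ltr A)) (ha : ∀ x ∈ a, x.i + 1 < k + m)
    (hc' : ∀ x ∈ c, x.i + 1 < k + m) (hc : ∀ x ∈ c, k ≤ x.i) :
    tau k m e (a ++ c) = tau k m e (c ++ a) := by
  unfold tau
  rw [Smat_mul k m a c ha hc, Smat_mul' k m a c hc' hc, Matrix.det_one_sub_mul_comm]
  congr 1
  simp [mul_comm]

/-- Stabilisation, in general form. -/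
theorem tau_stab (k m : ℕ) (e : A) (a b : List (Ltr A)) (x : Ltr A) (hx : x.i + 1 = k + m)
    (ha : ∀ y ∈ a, y.i + 1 < k + m) (hb : ∀ y ∈ b, y.i + 1 < k + m) (D : A)
    (hD : (1 - x.d) * D = 1) (h1 : x.a + x.b * D * x.c = 1) (h2 : e * x.p * (1 - x.d) = 1) :
    tau k (m + 1) e (a ++ [x] ++ b) = tau k m e (a ++ b) := by
  have key : (1 - Smat k (m + 1) (a ++ [x] ++ b)).det =
      (1 - x.d) * (1 - Smat k m (a ++ b)).det := by
    set n := k + m with hn
    set al : Fin m → A := fun p => ract a (Pi.single (k + (p : ℕ)) 1) x.i with hal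
    set be : Fin m → A := fun q => ract b (Pi.single x.i 1) (k + q) with hbe
    -- the rows
    have hstep : ∀ r : ℕ → A, rstep x r = r + (r x.i * (x.a - 1) + r (x.i + 1) * x.c) •
        (Pi.single x.i 1 : ℕ → A) + (r x.i * x.b + r (x.i + 1) * (x.d - 1)) •
        (Pi.single (x.i + 1) 1 : ℕ → A) := by
      intro r
      funext j
      simp only [rstep, Pi.add_apply, Pi.smul_apply, Pi.single_apply, smul_eq_mul]
      by_cases h1 : j = x.i
      · subst h1
        simp
        ring
      · by_cases h2 : j = x.i + 1
        · subst h2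
          simp
          ring
        · simp [h1, h2]
    have hfix : ract b (Pi.single (x.i + 1) 1 : ℕ → A) = Pi.single (x.i + 1) 1 := by
      apply ract_of_high b n hb
      intro j hj
      simp only [Pi.single_apply]
      rw [if_neg (by omega)]
    have hrow : ∀ r : ℕ → A, ract (a ++ [x] ++ b) r = ract b (ract a r) +
        ((ract a r) x.i * (x.a - 1) + (ract a r) (x.i + 1) * x.c) •
          ract b (Pi.single x.i 1 : ℕ → A) +
        ((ract a r) x.i * x.b + (ract a r) (x.i + 1) * (x.d - 1)) •
          (Pi.single (x.i + 1) 1 : ℕ → A) := by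
      intro r
      rw [ract_append, ract_append, ract_cons, ract_nil, hstep, ract_add, ract_add, ract_smul,
        ract_smul, hfix]
    have hlow : ∀ p : Fin m, ract a (Pi.single (k + (p : ℕ)) 1 : ℕ → A) (x.i + 1) = 0 := by
      intro p
      rw [ract_high a n ha _ _ (by omega)]
      have := p.2
      simp only [Pi.single_apply]
      rw [if_neg (by omega)]
    have htop : ract a (Pi.single (x.i + 1) 1 : ℕ → A) = Pi.single (x.i + 1) 1 := by
      apply ract_of_high a n ha
      intro j hj
      simp only [Pi.single_apply]
      rw [if_neg (by omega)]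
    have hblock : (1 - Smat k (m + 1) (a ++ [x] ++ b)).submatrix
        (finSumFinEquiv : Fin m ⊕ Fin 1 ≃ Fin (m + 1)) finSumFinEquiv =
        Matrix.fromBlocks (1 - Smat k m (a ++ b) - Matrix.of fun p q => al p * (x.a - 1) * be q)
          (Matrix.of fun p _ => - (al p * x.b)) (Matrix.of fun _ q => - (x.c * be q))
          (Matrix.of fun _ _ => 1 - x.d) := by
      ext p q
      rcases p with p | p <;> rcases q with q | q
      · simp only [Matrix.submatrix_apply, finSumFinEquiv_apply_left, Matrix.sub_apply,
          Matrix.fromBlocks_apply₁₁, Matrix.of_apply, Smat, Fin.val_castAdd]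
        rw [hrow]
        simp only [Pi.add_apply, Pi.smul_apply, smul_eq_mul]
        rw [hlow p, ract_append]
        have hpq : (Pi.single (x.i + 1) (1 : A) : ℕ → A) (k + (q : ℕ)) = 0 := by
          have := q.2
          simp only [Pi.single_apply]
          rw [if_neg (by omega)]
        rw [hpq]
        have h1 : (1 : Matrix (Fin (m + 1)) (Fin (m + 1)) A) (Fin.castAdd 1 p)
            (Fin.castAdd 1 q) = (1 : Matrix (Fin m) (Fin m) A) p q := by
          simp [Matrix.one_apply]
        rw [h1, hal, hbe]
        ring
      · simp only [Matrix.submatrix_apply, finSumFinEquiv_apply_left,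
          finSumFinEquiv_apply_right, Matrix.sub_apply,
          Matrix.fromBlocks_apply₁₂, Matrix.of_apply, Smat, Fin.val_castAdd, Fin.val_natAdd]
        rw [hrow]
        simp only [Pi.add_apply, Pi.smul_apply, smul_eq_mul]
        rw [hlow p]
        have hq : (q : ℕ) = 0 := by omega
        have e1 : k + (m + (q : ℕ)) = x.i + 1 := by omega
        rw [e1]
        have h0 : ract b (ract a (Pi.single (k + (p : ℕ)) 1)) (x.i + 1) = 0 := by
          rw [ract_high b n hb _ _ (by omega), hlow]
        have h0' : ract b (Pi.single x.i 1 : ℕ → A) (x.i + 1) = 0 := by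
          rw [ract_high b n hb _ _ (by omega)]
          simp
        rw [h0, h0']
        have h1 : (1 : Matrix (Fin (m + 1)) (Fin (m + 1)) A) (Fin.castAdd 1 p)
            (Fin.natAdd m q) = 0 := by
          rw [Matrix.one_apply, if_neg]
          intro h
          have := congrArg Fin.val h
          have := p.2
          simp at *
          omega
        rw [h1, hal]
        simp
      · simp only [Matrix.submatrix_apply, finSumFinEquiv_apply_left,
          finSumFinEquiv_apply_right, Matrix.sub_apply,
          Matrix.fromBlocks_apply₂₁, Matrix.of_apply, Smat, Fin.val_castAdd, Fin.val_natAdd]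
        have hp : (p : ℕ) = 0 := by omega
        have e1 : k + (m + (p : ℕ)) = x.i + 1 := by omega
        rw [e1, hrow, htop, hfix]
        simp only [Pi.add_apply, Pi.smul_apply, smul_eq_mul]
        have hpq : (Pi.single (x.i + 1) (1 : A) : ℕ → A) (k + (q : ℕ)) = 0 := by
          have := q.2
          simp only [Pi.single_apply]
          rw [if_neg (by omega)]
        rw [hpq]
        have h1 : (1 : Matrix (Fin (m + 1)) (Fin (m + 1)) A) (Fin.natAdd m p)
            (Fin.castAdd 1 q) = 0 := by
          rw [Matrix.one_apply, if_neg]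
          intro h
          have := congrArg Fin.val h
          have := q.2
          simp at *
          omega
        rw [h1, hbe]
        simp
      · simp only [Matrix.submatrix_apply,
          finSumFinEquiv_apply_right, Matrix.sub_apply,
          Matrix.fromBlocks_apply₂₂, Matrix.of_apply, Smat, Fin.val_natAdd]
        have hp : (p : ℕ) = 0 := by omega
        have hq : (q : ℕ) = 0 := by omega
        have e1 : k + (m + (p : ℕ)) = x.i + 1 := by omega
        have e2 : k + (m + (q : ℕ)) = x.i + 1 := by omega
        rw [e1, e2, hrow, htop, hfix]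
        simp only [Pi.add_apply, Pi.smul_apply, smul_eq_mul]
        have h0' : ract b (Pi.single x.i 1 : ℕ → A) (x.i + 1) = 0 := by
          rw [ract_high b n hb _ _ (by omega)]
          simp
        rw [h0']
        have h1 : (1 : Matrix (Fin (m + 1)) (Fin (m + 1)) A) (Fin.natAdd m p)
            (Fin.natAdd m q) = 1 := by
          rw [Matrix.one_apply, if_pos]
          ext
          simp
        rw [h1]
        simp
    rw [← Matrix.det_submatrix_equiv_self finSumFinEquiv, hblock]
    set DD : Matrix (Fin 1) (Fin 1) A := Matrix.of fun _ _ => 1 - x.d with hDD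
    let _ : Invertible DD :=
      { invOf := Matrix.of fun _ _ => D
        invOf_mul_self := by
          ext i j
          have hi : i = 0 := by omega
          have hj : j = 0 := by omega
          subst hi; subst hj
          simp [hDD, Matrix.mul_apply, mul_comm D, hD]
        mul_invOf_self := by
          ext i j
          have hi : i = 0 := by omega
          have hj : j = 0 := by omega
          subst hi; subst hj
          simp [hDD, Matrix.mul_apply, hD] }
    rw [Matrix.det_fromBlocks₂₂]
    congr 1
    · simp [hDD]
    · congr 1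
      ext p q
      have hinv : (⅟DD) = Matrix.of fun _ _ => D := rfl
      rw [hinv]
      simp only [Matrix.sub_apply, Matrix.mul_apply, Matrix.of_apply, Fin.sum_univ_one]
      linear_combination (- al p * be q) * h1
  unfold tau
  rw [key]
  simp only [List.map_append, List.prod_append, List.map_cons, List.map_nil, List.prod_cons,
    List.prod_nil, mul_one]
  linear_combination (e ^ m * (a.map (fun x => x.p)).prod * (b.map (fun x => x.p)).prod *
    (1 - Smat k m (a ++ b)).det) * h2

end generic

end Pool.Agent.Helper62.StrLink
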