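import Mathlib

/-!
# String links as partially closed braids, their group, Milnor invariants, finite type invariants

A string link on `k` strands is presented as the partial closure of a braid on `k + m` strands:
the first `k` strands stay open at the bottom and at the top, the last `m` positions at the top
are joined to the same positions at the bottom by arcs running around.
-/

namespace Pool.Agent.Helper62.StrLink

/-- Braid words.  Positions are numbered `0, 1, 2, …` from left to right, the braid is read from
bottom to top and all strands are oriented upwards.  The letter `(i, true)` is the positive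
crossing of the strands in positions `i`, `i + 1` (the strand going from `i` to `i + 1` passes
over), `(i, false)` is the negative crossing (the strand going from `i + 1` to `i` passes over). -/
abbrev Word := List (ℕ × Bool)

/-- The position at the top of the strand of the braid which starts at the bottom in
position `p`. -/
def endPos (w : Word) (p : ℕ) : ℕ := w.foldl (fun p x => Equiv.swap x.1 (x.1 + 1) p) p

/-- A diagram of a string link on `k` strands: a braid word on `k + m` strands such that in the
partial closure (the positions `k, …, k + m - 1` at the top are joined to the same positions at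
the bottom) the strand starting at the bottom in position `i < k` ends at the top in
position `i`, and there are no closed components.  (`(endPos word)^[t] i` is the position reached
after going through the braid `t` times.) -/
structure StringLink (k : ℕ) where
  /-- the number of closed strands of the braid -/
  m : ℕ
  /-- the braid word -/
  word : Word
  /-- the word is a braid word on `k + m` strands -/
  valid : ∀ x ∈ word, x.1 + 1 < k + m
  /-- the `i`-th strand ends in position `i` -/
  ends : ∀ i < k, ∀ t : ℕ, (endPos word)^[t] i < k → (endPos word)^[t] i = i
  /-- there is no closed component -/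
  noLoop : ∀ j, k ≤ j → j < k + m → ∃ t : ℕ, (endPos word)^[t] j < k

/-! ## Isotopy and finite type invariants -/

/-- The moves between braid words with `m` resp. `m'` closed strands: the braid relations,
conjugation by braids of the closed strands, stabilisation (at any level). -/
inductive Move (k : ℕ) : ℕ → Word → ℕ → Word → Prop
  | cancel (m : ℕ) (a b : Word) (i : ℕ) (e : Bool) :
      Move k m (a ++ [(i, e), (i, !e)] ++ b) m (a ++ b)
  | far (m : ℕ) (a b : Word) (i j : ℕ) (e e' : Bool) (h : i + 1 < j) :
      Move k m (a ++ [(i, e), (j, e')] ++ b) m (a ++ [(j, e'), (i, e)] ++ b)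
  | braid (m : ℕ) (a b : Word) (i : ℕ) (e : Bool) :
      Move k m (a ++ [(i, e), (i + 1, e), (i, e)] ++ b) m
        (a ++ [(i + 1, e), (i, e), (i + 1, e)] ++ b)
  | conj (m : ℕ) (a c : Word) (hc : ∀ x ∈ c, k ≤ x.1) : Move k m (a ++ c) m (c ++ a)
  | stab (m : ℕ) (a b : Word) (i : ℕ) (e : Bool) (h : i + 1 = k + m) :
      Move k m (a ++ b) (m + 1) (a ++ [(i, e)] ++ b)

/-- The letters in the places of `T` are made positive, except those in the places of `S`, which
are made negative. -/
def setSigns (T S : Finset ℕ) (w : Word) : Word :=
  w.mapIdx (fun j x => if j ∈ T then (x.1, decide (j ∉ S)) else x)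

theorem map_fst_setSigns (T S : Finset ℕ) (w : Word) :
    (setSigns T S w).map Prod.fst = w.map Prod.fst := by
  apply List.ext_getElem
  · simp [setSigns]
  · intro i h1 h2
    simp only [setSigns, List.getElem_map, List.getElem_mapIdx]
    split_ifs <;> rfl

theorem endPos_eq_of_map {w w' : Word} (h : w.map Prod.fst = w'.map Prod.fst) :
    endPos w = endPos w' := by
  funext p
  have key : ∀ w : Word, ∀ p, endPos w p =
      (w.map Prod.fst).foldl (fun p i => Equiv.swap i (i + 1) p) p := by
    intro w
    induction w with
    | nil => intro p; rfl
    | cons x w ih => intro p; exact ih _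
  rw [key, key, h]

/-- Change signs in a diagram. -/
def StringLink.resolve {k : ℕ} (L : StringLink k) (T S : Finset ℕ) : StringLink k where
  m := L.m
  word := setSigns T S L.word
  valid := by
    intro x hx
    have h1 : x.1 ∈ (setSigns T S L.word).map Prod.fst := List.mem_map_of_mem hx
    rw [map_fst_setSigns] at h1
    obtain ⟨y, hy, hxy⟩ := List.mem_map.1 h1
    rw [← hxy]
    exact L.valid y hy
  ends := by
    rw [endPos_eq_of_map (map_fst_setSigns T S L.word)]
    exact L.ends
  noLoop := by
    rw [endPos_eq_of_map (map_fst_setSigns T S L.word)]
    exact L.noLoop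

/-- `V k n`: the space of `ℚ`-valued finite type invariants of order `≤ n` of string links on
`k` strands: functions on diagrams which do not change under the moves, and which vanish on
all singular string links with `n + 1` double points (the crossings in the places of `T`), i.e.
the alternating sum over all choices of signs in the places of `T` is `0`. -/
def V (k n : ℕ) : Submodule ℚ (StringLink k → ℚ) where
  carrier := {f | (∀ K L : StringLink k, Move k K.m K.word L.m L.word → f K = f L) ∧
    ∀ (L : StringLink k) (T : Finset ℕ), T ⊆ Finset.range L.word.length → T.card = n + 1 →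
      ∑ S ∈ T.powerset, (-1) ^ S.card * f (L.resolve T S) = 0}
  add_mem' := by
    rintro f g ⟨hf1, hf2⟩ ⟨hg1, hg2⟩
    refine ⟨fun K L h => ?_, fun L T h1 h2 => ?_⟩
    · simp [hf1 K L h, hg1 K L h]
    · simp only [Pi.add_apply, mul_add, Finset.sum_add_distrib]
      rw [hf2 L T h1 h2, hg2 L T h1 h2, add_zero]
  zero_mem' := by simp
  smul_mem' := by
    rintro c f ⟨hf1, hf2⟩
    refine ⟨fun K L h => ?_, fun L T h1 h2 => ?_⟩
    · simp [hf1 K L h]
    · have := congrArg (fun r => c * r) (hf2 L T h1 h2)
      simp only [Finset.mul_sum, mul_zero] at this
      rw [← this]
      refine Finset.sum_congr rfl fun S _ => ?_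
      simp only [Pi.smul_apply, smul_eq_mul]
      ring

/-! ## The fundamental group of the complement -/

section labels

variable {G : Type} [Group G]

/-- Wirtinger relations: how a crossing changes the meridians of the strands in the positions
`0, 1, 2, …`. -/
def step (x : ℕ × Bool) (s : ℕ → G) : ℕ → G := fun j =>
  if j = x.1 then (if x.2 then (s x.1)⁻¹ * s (x.1 + 1) * s x.1 else s (x.1 + 1))
  else if j = x.1 + 1 then (if x.2 then s x.1 else s (x.1 + 1) * s x.1 * (s (x.1 + 1))⁻¹)
  else s j

/-- The meridians at the top, if `s` are the meridians at the bottom. -/
def labels (w : Word) (s : ℕ → G) : ℕ → G := w.foldl (fun s x => step x s) s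

/-- The contribution of a crossing to the longitude of the strand which enters it in
position `p`: the meridian of the over strand with the sign of the crossing, if the strand passes
under. -/
def under (x : ℕ × Bool) (s : ℕ → G) (p : ℕ) : G :=
  if x.2 then (if p = x.1 + 1 then s x.1 else 1) else (if p = x.1 then (s (x.1 + 1))⁻¹ else 1)

/-- The contribution of the whole braid to the longitude of the strand starting in
position `p`. -/
def travel : Word → (ℕ → G) → ℕ → G
  | [], _, _ => 1
  | x :: w, s, p => under x s p * travel w (step x s) (Equiv.swap x.1 (x.1 + 1) p)

/-- The product of the over strands along the strand of the partial closure which starts at the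
bottom in position `p`, going through the braid until an open position is reached (at most
`fuel` times). -/
def along (k : ℕ) (w : Word) (s : ℕ → G) : ℕ → ℕ → G
  | 0, _ => 1
  | fuel + 1, p =>
    travel w s p * (if endPos w p < k then 1 else along k w s fuel (endPos w p))

end labels

variable {k : ℕ}

/-- The relators of the group of the complement: the generators are the meridians at the bottom,
`x_j` for the position `j`; at the closed positions the meridian at the top and at the bottom
agree.  (The positions `≥ k + m` are not used and their generators are killed.) -/
def relators (L : StringLink k) : Set (FreeGroup ℕ) :=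
  {r | (∃ j, k ≤ j ∧ j < k + L.m ∧ r = labels L.word FreeGroup.of j * (FreeGroup.of j)⁻¹) ∨
    ∃ j, k + L.m ≤ j ∧ r = FreeGroup.of j}

/-- The fundamental group of the complement of the string link. -/
abbrev Grp (L : StringLink k) := PresentedGroup (relators L)

/-- The meridian at the bottom in position `j`. -/
def meridian (L : StringLink k) (j : ℕ) : Grp L := PresentedGroup.of j

/-- The blackboard framed longitude of the `j`-th strand. -/
def rawLongitude (L : StringLink k) (j : ℕ) : Grp L :=
  along k L.word (meridian L) (L.m + 1) j

open Classical in
/-- The sum of the signs of the self-crossings of the `j`-th strand (computed with the meridians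
`x_p ↦ 1` if the position `p` at the bottom lies on the strand `j`, and `x_p ↦ 0` otherwise). -/
noncomputable def framing (L : StringLink k) (j : ℕ) : ℤ :=
  Multiplicative.toAdd (along k L.word
    (fun p => if ∃ t : ℕ, (endPos L.word)^[t] j = p then Multiplicative.ofAdd (1 : ℤ) else 1)
    (L.m + 1) j)

/-- The preferred longitude of the `j`-th strand. -/
noncomputable def longitude (L : StringLink k) (j : ℕ) : Grp L :=
  rawLongitude L j * meridian L j ^ (-framing L j)

/-- The complement has a free fundamental group. -/
def FreeComplement (L : StringLink k) : Prop := ∃ ι : Type, Nonempty (Grp L ≃* FreeGroup ι)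

/-! ## Milnor invariants -/

/-- The matrix `1 + Σ E_{a,a+1}`, the sum over all `a` with `I a = i`. -/
def unip {s : ℕ} (I : Fin (s + 1) → Fin k) (i : Fin k) : Matrix (Fin (s + 2)) (Fin (s + 2)) ℤ :=
  1 + ∑ a : Fin (s + 1), if I a = i then Matrix.single a.castSucc a.succ 1 else 0

/-- `ρ` is the representation of the group of the string link by upper unitriangular integer
matrices which sends the `i`-th meridian at the bottom to `1 + Σ_{I a = i} E_{a,a+1}`.  By
Stallings' theorem there is exactly one such representation (the meridians induce
isomorphisms of the nilpotent quotients of the free group of rank `k` with those of the group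
of the string link), and the upper right entry of `ρ g` is the coefficient of
`X_{I 0} X_{I 1} ⋯ X_{I s}` in the Magnus expansion of `g`. -/
def IsMagnus (L : StringLink k) {s : ℕ} (I : Fin (s + 1) → Fin k)
    (ρ : Grp L →* (Matrix (Fin (s + 2)) (Fin (s + 2)) ℤ)ˣ) : Prop :=
  (∀ g, ∀ a b : Fin (s + 2), b ≤ a → (ρ g : Matrix _ _ ℤ) a b = if a = b then 1 else 0) ∧
    ∀ i : Fin k, (ρ (meridian L i) : Matrix _ _ ℤ) = unip I i

open Classical in
/-- Milnor's invariant `μ(I; j)`: the coefficient of `X_{I 0} ⋯ X_{I s}` in the Magnus expansion
of the preferred longitude of the `j`-th strand. -/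
noncomputable def milnor {s : ℕ} (I : Fin (s + 1) → Fin k) (j : Fin k) (L : StringLink k) : ℚ :=
  if h : ∃ ρ, IsMagnus L I ρ then
    ((h.choose (longitude L j) : Matrix (Fin (s + 2)) (Fin (s + 2)) ℤ) 0 (Fin.last (s + 1)) : ℤ)
  else 0

/-- `M k n`: the finite type invariants of order `≤ n` which are polynomials in Milnor's
invariants. -/
noncomputable def M (k n : ℕ) : Submodule ℚ (StringLink k → ℚ) :=
  V k n ⊓ Subalgebra.toSubmodule (Algebra.adjoin ℚ
    {f | ∃ (s : ℕ) (I : Fin (s + 1) → Fin k) (j : Fin k), f = milnor I j})

/-- `N k n`: the finite type invariants of order `≤ n` which vanish on all string links whose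
complement has a free fundamental group. -/
def N (k n : ℕ) : Submodule ℚ (StringLink k → ℚ) where
  carrier := {f | f ∈ V k n ∧ ∀ L : StringLink k, FreeComplement L → f L = 0}
  add_mem' := by
    rintro f g ⟨hf1, hf2⟩ ⟨hg1, hg2⟩
    exact ⟨(V k n).add_mem hf1 hg1, fun L hL => by simp [hf2 L hL, hg2 L hL]⟩
  zero_mem' := ⟨(V k n).zero_mem, fun _ _ => rfl⟩
  smul_mem' := by
    rintro c f ⟨hf1, hf2⟩
    exact ⟨(V k n).smul_mem c hf1, fun L hL => by simp [hf2 L hL]⟩

end Pool.Agent.Helper62.StrLink
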