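import Pool.Agent.Helper62.StrInv

/-!
# The family of rational string links
-/

namespace Pool.Agent.Helper62.StrLink

open PowerSeries

/-- The word `σ_{a+1}^{-2} σ_a^{2N} σ_{a+1} σ_a^{-2N}`. -/
def famWord (a N : ℕ) : Word :=
  [(a + 1, false), (a + 1, false)] ++ List.replicate (2 * N) (a, true) ++ [(a + 1, true)] ++
    List.replicate (2 * N) (a, false)

theorem endPos_append (w w' : Word) (p : ℕ) : endPos (w ++ w') p = endPos w' (endPos w p) := by
  simp [endPos, List.foldl_append]

theorem endPos_replicate (i : ℕ) (e : Bool) (N p : ℕ) :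
    endPos (List.replicate (2 * N) (i, e)) p = p := by
  induction N generalizing p with
  | zero => rfl
  | succ N ih =>
    rw [show 2 * (N + 1) = 2 * N + 1 + 1 by ring, List.replicate_succ, List.replicate_succ]
    have : endPos ((i, e) :: (i, e) :: List.replicate (2 * N) (i, e)) p =
        endPos (List.replicate (2 * N) (i, e)) (Equiv.swap i (i + 1) (Equiv.swap i (i + 1) p)) :=
      rfl
    rw [this, ih]
    simp

theorem endPos_fam (a N p : ℕ) : endPos (famWord a N) p = Equiv.swap (a + 1) (a + 2) p := by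
  unfold famWord
  rw [endPos_append, endPos_append, endPos_append, endPos_replicate, endPos_replicate]
  simp [endPos]

theorem iter_fam_low (a p t : ℕ) (hp : p < a + 1) :
    (Equiv.swap (a + 1) (a + 2))^[t] p = p := by
  apply Function.iterate_fixed
  apply Equiv.swap_apply_of_ne_of_ne <;> omega

theorem iter_fam_high (a p t : ℕ) (hp : p = a + 1 ∨ p = a + 2) :
    (Equiv.swap (a + 1) (a + 2))^[t] p = a + 1 ∨ (Equiv.swap (a + 1) (a + 2))^[t] p = a + 2 := by
  induction t generalizing p with
  | zero => exact hp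
  | succ t ih =>
    rw [Function.iterate_succ_apply]
    apply ih
    rcases hp with rfl | rfl
    · right; simp
    · left; simp

/-- The family of string links on `a + 2` strands. -/
def fam (a N : ℕ) : StringLink (a + 2) where
  m := 1
  word := famWord a N
  valid := by
    intro x hx
    simp only [famWord, List.mem_append, List.mem_cons, List.mem_replicate,
      List.not_mem_nil, or_false] at hx
    rcases hx with ((hx | hx) | hx) | hx
    · rcases hx with rfl | rfl <;> simp
    · rw [hx.2]; simp
    · rw [hx]; simp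
    · rw [hx.2]; simp
  ends := by
    intro i hi t ht
    have h1 : endPos (famWord a N) = Equiv.swap (a + 1) (a + 2) := funext (endPos_fam a N)
    rw [h1] at ht ⊢
    by_cases h : i < a + 1
    · exact iter_fam_low a i t h
    · have hi' : i = a + 1 := by omega
      rcases iter_fam_high a i t (Or.inl hi') with h2 | h2
      · rw [h2, hi']
      · rw [h2] at ht
        omega
  noLoop := by
    intro j h1 h2
    refine ⟨1, ?_⟩
    rw [Function.iterate_one, endPos_fam]
    have : j = a + 2 := by omega
    rw [this]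
    simp

/-! ## The torsion of the family -/

theorem coeff_two_mul (A B : PowerSeries ℚ) : coeff 2 (A * B) =
    coeff 0 A * coeff 2 B + coeff 1 A * coeff 1 B + coeff 2 A * coeff 0 B := by
  rw [PowerSeries.coeff_mul, Finset.Nat.sum_antidiagonal_eq_sum_range_succ_mk]
  simp [Finset.sum_range_succ]

theorem coeff_one_mul' (A B : PowerSeries ℚ) : coeff 1 (A * B) =
    coeff 0 A * coeff 1 B + coeff 1 A * coeff 0 B := by
  rw [PowerSeries.coeff_mul, Finset.Nat.sum_antidiagonal_eq_sum_range_succ_mk]
  simp [Finset.sum_range_succ]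

theorem coeff_zero_mul' (A B : PowerSeries ℚ) : coeff 0 (A * B) = coeff 0 A * coeff 0 B := by
  simp

theorem sv_coeffs : coeff 0 sv = 1 ∧ coeff 1 sv = 1 ∧ coeff 2 sv = 0 := by
  unfold sv
  refine ⟨by simp, ?_, ?_⟩
  · simp [PowerSeries.coeff_one, PowerSeries.coeff_X]
  · simp [PowerSeries.coeff_one, PowerSeries.coeff_X]

theorem si_coeffs : coeff 0 si = 1 ∧ coeff 1 si = -1 ∧ coeff 2 si = 1 := by
  obtain ⟨a0, a1, a2⟩ := sv_coeffs
  have h0 := congrArg (coeff 0) sv_si
  have h1 := congrArg (coeff 1) sv_si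
  have h2 := congrArg (coeff 2) sv_si
  rw [coeff_zero_mul', a0] at h0
  rw [coeff_one_mul', a0, a1] at h1
  rw [coeff_two_mul, a0, a1, a2] at h2
  simp [PowerSeries.coeff_one] at h0 h1 h2
  have h0' : coeff 0 si = 1 := by simpa using h0
  refine ⟨h0', ?_, ?_⟩
  · linear_combination h1 - h0
  · linear_combination h2 - h1 + h0

/-- Entries of the even powers of the Burau matrix acting on the row vector `(0, 1)`. -/
noncomputable def ent : ℕ → PowerSeries ℚ × PowerSeries ℚ
  | 0 => (0, 1)
  | N + 1 =>
    let x := (ent N).1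
    let y := (ent N).2
    ((x * (1 - sv ^ 2) + y) * (1 - sv ^ 2) + x * sv ^ 2, (x * (1 - sv ^ 2) + y) * sv ^ 2)

theorem ent_coeffs (N : ℕ) : coeff 0 (ent N).1 = 0 ∧ coeff 1 (ent N).1 = -2 * N ∧
    coeff 0 (ent N).2 = 1 ∧ coeff 1 (ent N).2 = 2 * N := by
  obtain ⟨a0, a1, a2⟩ := sv_coeffs
  have b0 : coeff 0 (sv ^ 2) = 1 := by rw [pow_two, coeff_zero_mul', a0]; norm_num
  have b1 : coeff 1 (sv ^ 2) = 2 := by rw [pow_two, coeff_one_mul', a0, a1]; norm_num
  have c0 : coeff 0 (1 - sv ^ 2) = 0 := by
    rw [map_sub, b0]; simp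
  have c1 : coeff 1 (1 - sv ^ 2) = -2 := by
    rw [map_sub, b1]; simp [PowerSeries.coeff_one]
  induction N with
  | zero => simp [ent, PowerSeries.coeff_one]
  | succ N ih =>
    obtain ⟨h1, h2, h3, h4⟩ := ih
    simp only [ent]
    refine ⟨?_, ?_, ?_, ?_⟩
    · rw [map_add, coeff_zero_mul', coeff_zero_mul', map_add, coeff_zero_mul', h1, h3, b0, c0]
      norm_num
    · rw [map_add, coeff_one_mul', coeff_one_mul', map_add, map_add, coeff_zero_mul',
        coeff_one_mul', h1, h2, h3, h4, b0, b1, c0, c1]
      push_cast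
      ring
    · rw [coeff_zero_mul', map_add, coeff_zero_mul', h1, h3, b0, c0]
      norm_num
    · rw [coeff_one_mul', map_add, map_add, coeff_zero_mul', coeff_one_mul', h1, h2, h3, h4,
        b0, b1, c0, c1]
      push_cast
      ring

theorem ract_replicate_pos (a N : ℕ) (z : PowerSeries ℚ) (r : ℕ → PowerSeries ℚ)
    (h1 : r a = 0) (h2 : r (a + 1) = z) :
    ract (List.replicate (2 * N) (lett (a, true))) r a = z * (ent N).1 ∧
    ract (List.replicate (2 * N) (lett (a, true))) r (a + 1) = z * (ent N).2 := by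
  induction N with
  | zero => simp [ent, h1, h2]
  | succ N ih =>
    have e : List.replicate (2 * (N + 1)) (lett (a, true)) =
        List.replicate (2 * N) (lett (a, true)) ++ [lett (a, true), lett (a, true)] := by
      rw [show 2 * (N + 1) = 2 * N + 2 by ring, List.replicate_add]
      rfl
    rw [e, ract_append]
    set r' := ract (List.replicate (2 * N) (lett (a, true))) r with hr'
    simp only [ract_cons, ract_nil, lett_true, ent]
    obtain ⟨i1, i2⟩ := ih
    constructor
    · simp [rstep, i1, i2]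
      ring
    · simp [rstep, i1, i2]
      ring

theorem tor_fam (a N : ℕ) : tor (fam a N) = sv ^ 2 * (1 - (1 - si ^ 2) * (ent N).2) := by
  have hs := sv_si
  unfold tor tau
  have hm : (fam a N).m = 1 := rfl
  have hw : (fam a N).word = famWord a N := rfl
  rw [hm, hw]
  have hdet : (1 - Smat (a + 2) 1 ((famWord a N).map lett)).det =
      1 - (1 - si ^ 2) * (ent N).2 := by
    rw [Matrix.det_fin_one]
    simp only [Matrix.sub_apply, Matrix.one_apply_eq]
    congr 1
    unfold Smat
    simp only [Fin.val_zero, add_zero]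
    unfold famWord
    simp only [List.map_append, List.map_cons, List.map_nil, List.map_replicate, ract_append,
      ract_cons, ract_nil]
    set r1 : ℕ → PowerSeries ℚ := rstep (lett (a + 1, false)) (rstep (lett (a + 1, false))
      (Pi.single (a + 2) 1)) with hr1
    have q1 : r1 a = 0 := by
      rw [hr1]
      have n1 : ¬ (a = a + 1 + 1) := by omega
      simp [rstep, lett_false, n1]
    have q2 : r1 (a + 1) = (1 - si ^ 2) * si ^ 2 := by
      rw [hr1]
      simp [rstep, lett_false]
    obtain ⟨i1, i2⟩ := ract_replicate_pos a N _ r1 q1 q2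
    set r2 := ract (List.replicate (2 * N) (lett (a, true))) r1 with hr2
    have q3 : rstep (lett (a + 1, true)) r2 (a + 2) = r2 (a + 1) * sv ^ 2 := by
      simp [rstep, lett_true]
    rw [ract_high _ (a + 2)]
    · rw [q3, i2]
      linear_combination ((1 - si ^ 2) * (ent N).2 * (sv * si + 1)) * hs
    · intro x hx
      rw [(List.mem_replicate.1 hx).2]
      simp
    · exact le_rfl
  rw [hdet]
  congr 1
  unfold famWord
  simp only [List.map_append, List.map_cons, List.map_nil, List.map_replicate, List.prod_append,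
    List.prod_cons, List.prod_nil, List.prod_replicate, lett_true, lett_false]
  have h1 : si ^ (2 * N) * sv ^ (2 * N) = 1 := by
    rw [← mul_pow, mul_comm, hs, one_pow]
  linear_combination (sv ^ 3 * si) * h1 + sv ^ 2 * hs

theorem vinv_fam (a N : ℕ) : vinv (fam a N) = -4 * N := by
  unfold vinv
  rw [tor_fam]
  obtain ⟨a0, a1, a2⟩ := sv_coeffs
  obtain ⟨s0, s1, s2⟩ := si_coeffs
  obtain ⟨_, _, e3, e4⟩ := ent_coeffs N
  have b0 : coeff 0 (sv ^ 2) = 1 := by rw [pow_two, coeff_zero_mul', a0]; norm_num
  have b1 : coeff 1 (sv ^ 2) = 2 := by rw [pow_two, coeff_one_mul', a0, a1]; norm_num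
  have b2 : coeff 2 (sv ^ 2) = 1 := by rw [pow_two, coeff_two_mul, a0, a1, a2]; norm_num
  have t0 : coeff 0 (1 - si ^ 2) = 0 := by
    rw [map_sub, pow_two, coeff_zero_mul', s0]; simp
  have t1 : coeff 1 (1 - si ^ 2) = 2 := by
    rw [map_sub, pow_two, coeff_one_mul', s0, s1]; simp [PowerSeries.coeff_one]; norm_num
  have t2 : coeff 2 (1 - si ^ 2) = -3 := by
    rw [map_sub, pow_two, coeff_two_mul, s0, s1, s2]; simp [PowerSeries.coeff_one]; norm_num
  have u0 : coeff 0 (1 - (1 - si ^ 2) * (ent N).2) = 1 := by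
    rw [map_sub, coeff_zero_mul', t0]; simp
  have u1 : coeff 1 (1 - (1 - si ^ 2) * (ent N).2) = -2 := by
    rw [map_sub, coeff_one_mul', t0, t1, e3]; simp [PowerSeries.coeff_one]
  have u2 : coeff 2 (1 - (1 - si ^ 2) * (ent N).2) = (3 - 4 * N : ℚ) := by
    rw [map_sub, coeff_two_mul, t0, t1, t2, e3, e4]; simp [PowerSeries.coeff_one]; ring
  rw [coeff_two_mul, u0, u1, u2, b0, b1, b2]
  ring

end Pool.Agent.Helper62.StrLink
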