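import Pool.Agent.Helper62.StrGroup

/-!
# The complements of the string links of the family have free groups
-/

namespace Pool.Agent.Helper62.StrLink

theorem rel_fam (a N : ℕ) :
    fp a N (meridian (fam a N)) = meridian (fam a N) (a + 2) := by
  have h1 : (labels (famWord a N) FreeGroup.of (a + 2) * (FreeGroup.of (a + 2))⁻¹) ∈
      relators (fam a N) := Or.inl ⟨a + 2, le_rfl, by simp [fam], rfl⟩
  have h2 : PresentedGroup.mk (relators (fam a N))
      (labels (famWord a N) FreeGroup.of (a + 2) * (FreeGroup.of (a + 2))⁻¹) = 1 :=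
    PresentedGroup.one_of_mem h1
  rw [map_mul, map_inv, mul_inv_eq_one] at h2
  have h3 := congrFun (labels_map (PresentedGroup.mk (relators (fam a N))) (famWord a N)
    FreeGroup.of) (a + 2)
  rw [h3, labels_fam] at h2
  exact h2

theorem rel_high (a N j : ℕ) (hj : a + 3 ≤ j) : meridian (fam a N) j = 1 := by
  have h1 : (FreeGroup.of j) ∈ relators (fam a N) := Or.inr ⟨j, by change a + 2 + 1 ≤ j; omega, rfl⟩
  exact PresentedGroup.one_of_mem h1

/-- The free generators. -/
def fgen (a : ℕ) (j : ℕ) : FreeGroup (Fin (a + 2)) :=
  if h : j < a + 2 then FreeGroup.of ⟨j, h⟩ else 1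

/-- The images of the meridians in the free group. -/
def fimg (a N : ℕ) (j : ℕ) : FreeGroup (Fin (a + 2)) :=
  let U := fgen a (a + 1)
  let W := ((U * fgen a a) ^ N)⁻¹ * U * (U * fgen a a) ^ N
  if j ≤ a then fgen a j else if j = a + 1 then W⁻¹ * U * W else if j = a + 2 then W else 1

theorem fu_fimg (a N : ℕ) : fu a (fimg a N) = fgen a (a + 1) := by
  unfold fu fimg
  simp only [show ¬ (a + 2 ≤ a) by omega, show ¬ (a + 1 ≤ a) by omega,
    show ¬ (a + 2 = a + 1) by omega, if_true, if_false]
  group

theorem fg_fimg (a N : ℕ) : fg a (fimg a N) = fgen a (a + 1) * fgen a a := by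
  unfold fg
  rw [fu_fimg]
  simp [fimg]

theorem fp_fimg (a N : ℕ) : fp a N (fimg a N) = fimg a N (a + 2) := by
  unfold fp
  rw [fu_fimg, fg_fimg]
  simp [fimg]

theorem freeComplement_fam (a N : ℕ) : FreeComplement (fam a N) := by
  refine ⟨Fin (a + 2), ⟨?_⟩⟩
  have hrel : ∀ r ∈ relators (fam a N), FreeGroup.lift (fimg a N) r = 1 := by
    rintro r (⟨j, h1, h2, rfl⟩ | ⟨j, h1, rfl⟩)
    · have hj : j = a + 2 := by
        have : (fam a N).m = 1 := rfl
        omega
      subst hj
      rw [map_mul, map_inv, mul_inv_eq_one]
      have h3 := congrFun (labels_map (FreeGroup.lift (fimg a N)) (fam a N).word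
        FreeGroup.of) (a + 2)
      simp only [FreeGroup.lift_apply_of] at h3
      rw [h3, FreeGroup.lift_apply_of]
      have : (fam a N).word = famWord a N := rfl
      rw [this, labels_fam]
      exact fp_fimg a N
    · have hm : (fam a N).m = 1 := rfl
      rw [FreeGroup.lift_apply_of]
      unfold fimg
      simp only [show ¬ (j ≤ a) by omega, show ¬ (j = a + 1) by omega,
        show ¬ (j = a + 2) by omega, if_false]
  let φ : Grp (fam a N) →* FreeGroup (Fin (a + 2)) := PresentedGroup.toGroup hrel
  let ψ : FreeGroup (Fin (a + 2)) →* Grp (fam a N) := FreeGroup.lift fun i =>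
    if (i : ℕ) ≤ a then meridian (fam a N) i else fu a (meridian (fam a N))
  have hφ : ∀ j, φ (meridian (fam a N) j) = fimg a N j := by
    intro j
    exact PresentedGroup.toGroup.of hrel
  have hψ : ∀ j, j ≤ a → ψ (fgen a j) = meridian (fam a N) j := by
    intro j hj
    unfold fgen
    rw [dif_pos (by omega)]
    simp only [ψ, FreeGroup.lift_apply_of]
    rw [if_pos hj]
  have hψ' : ψ (fgen a (a + 1)) = fu a (meridian (fam a N)) := by
    unfold fgen
    rw [dif_pos (by omega)]
    simp only [ψ, FreeGroup.lift_apply_of]
    rw [if_neg (by omega)]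
  have hW : ψ (fimg a N (a + 2)) = meridian (fam a N) (a + 2) := by
    unfold fimg
    simp only [show ¬ (a + 2 ≤ a) by omega, show ¬ (a + 2 = a + 1) by omega,
      if_true, if_false]
    rw [map_mul, map_mul, map_inv, map_pow, map_mul, hψ', hψ a le_rfl]
    exact rel_fam a N
  refine MulEquiv.ofBijective φ (Function.bijective_iff_has_inverse.2 ⟨ψ, ?_, ?_⟩)
  · intro g
    have : ψ.comp φ = MonoidHom.id _ := by
      apply PresentedGroup.ext
      intro j
      change ψ (φ (meridian (fam a N) j)) = meridian (fam a N) j
      rw [hφ]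
      by_cases h1 : j ≤ a
      · have : fimg a N j = fgen a j := by
          unfold fimg; simp [h1]
        rw [this, hψ j h1]
      · by_cases h2 : j = a + 1
        · subst h2
          have : fimg a N (a + 1) = (fimg a N (a + 2))⁻¹ * fgen a (a + 1) * fimg a N (a + 2) := by
            unfold fimg
            simp only [show ¬ (a + 2 ≤ a) by omega, show ¬ (a + 1 ≤ a) by omega,
              show ¬ (a + 2 = a + 1) by omega, if_true, if_false]
          rw [this, map_mul, map_mul, map_inv, hW, hψ']
          unfold fu
          group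
        · by_cases h3 : j = a + 2
          · subst h3
            exact hW
          · rw [rel_high a N j (by omega)]
            unfold fimg
            simp [h1, h2, h3]
    exact congrArg (fun f : Grp (fam a N) →* Grp (fam a N) => f g) this
  · intro g
    have : φ.comp ψ = MonoidHom.id _ := by
      apply FreeGroup.ext_hom
      intro i
      simp only [MonoidHom.comp_apply, MonoidHom.id_apply, ψ, FreeGroup.lift_apply_of]
      split_ifs with h
      · rw [hφ]
        unfold fimg fgen
        simp [h]
      · have hi : (i : ℕ) = a + 1 := by omega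
        have e1 : φ (fu a (meridian (fam a N))) = fu a (fimg a N) := by
          unfold fu
          rw [map_mul, map_mul, map_inv, hφ, hφ]
        rw [e1, fu_fimg]
        unfold fgen
        rw [dif_pos (by omega)]
        congr 1
        ext
        simp [hi]
    exact congrArg (fun f : FreeGroup (Fin (a + 2)) →* FreeGroup (Fin (a + 2)) => f g) this

end Pool.Agent.Helper62.StrLink
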