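import Pool.Agent.Helper62.StrFamily

/-!
# The group and the longitudes of the family
-/

namespace Pool.Agent.Helper62.StrLink

section

variable {G H : Type} [Group G] [Group H]

@[simp] theorem labels_nil (s : ℕ → G) : labels [] s = s := rfl

@[simp] theorem labels_cons (x : ℕ × Bool) (w : Word) (s : ℕ → G) :
    labels (x :: w) s = labels w (step x s) := rfl

theorem labels_append (w w' : Word) (s : ℕ → G) :
    labels (w ++ w') s = labels w' (labels w s) := by
  simp [labels, List.foldl_append]

theorem step_map (f : G →* H) (x : ℕ × Bool) (s : ℕ → G) :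
    (fun j => f (step x s j)) = step x (fun j => f (s j)) := by
  funext j
  simp only [step]
  split_ifs <;> simp

theorem labels_map (f : G →* H) (w : Word) (s : ℕ → G) :
    (fun j => f (labels w s j)) = labels w (fun j => f (s j)) := by
  induction w generalizing s with
  | nil => rfl
  | cons x w ih => rw [labels_cons, labels_cons, ih, step_map]

theorem travel_append (w w' : Word) (s : ℕ → G) (p : ℕ) :
    travel (w ++ w') s p = travel w s p * travel w' (labels w s) (endPos w p) := by
  induction w generalizing s p with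
  | nil => simp [travel, endPos]
  | cons x w ih =>
    rw [List.cons_append, travel, travel, ih, mul_assoc]
    rfl

/-- Full twists, positive. -/
theorem labels_pos (i N : ℕ) (s : ℕ → G) :
    labels (List.replicate (2 * N) (i, true)) s i =
      ((s (i + 1) * s i) ^ N)⁻¹ * s i * (s (i + 1) * s i) ^ N ∧
    labels (List.replicate (2 * N) (i, true)) s (i + 1) =
      ((s (i + 1) * s i) ^ N)⁻¹ * s (i + 1) * (s (i + 1) * s i) ^ N ∧
    ∀ j, j ≠ i → j ≠ i + 1 → labels (List.replicate (2 * N) (i, true)) s j = s j := by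
  induction N with
  | zero => simp
  | succ N ih =>
    have e : List.replicate (2 * (N + 1)) (i, true) =
        List.replicate (2 * N) (i, true) ++ [(i, true), (i, true)] := by
      rw [show 2 * (N + 1) = 2 * N + 2 by ring, List.replicate_add]
      rfl
    rw [e, labels_append]
    obtain ⟨h1, h2, h3⟩ := ih
    set r := labels (List.replicate (2 * N) (i, true)) s with hr
    set g := s (i + 1) * s i with hg
    refine ⟨?_, ?_, ?_⟩
    · have : labels [(i, true), (i, true)] r i = (r (i + 1) * r i)⁻¹ * r i * (r (i + 1) * r i) := by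
        simp [step]; group
      rw [this, h1, h2]
      have e2 : (g ^ N)⁻¹ * s (i + 1) * g ^ N * ((g ^ N)⁻¹ * s i * g ^ N) =
          (g ^ N)⁻¹ * g * g ^ N := by rw [hg]; group
      rw [e2, pow_succ']
      group
    · have : labels [(i, true), (i, true)] r (i + 1) =
          (r (i + 1) * r i)⁻¹ * r (i + 1) * (r (i + 1) * r i) := by
        simp [step]; group
      rw [this, h1, h2]
      have e2 : (g ^ N)⁻¹ * s (i + 1) * g ^ N * ((g ^ N)⁻¹ * s i * g ^ N) =
          (g ^ N)⁻¹ * g * g ^ N := by rw [hg]; group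
      rw [e2, pow_succ']
      group
    · intro j j1 j2
      rw [← h3 j j1 j2]
      simp [step, j1, j2]

/-- Full twists, negative. -/
theorem labels_neg (i N : ℕ) (s : ℕ → G) :
    labels (List.replicate (2 * N) (i, false)) s i =
      (s (i + 1) * s i) ^ N * s i * ((s (i + 1) * s i) ^ N)⁻¹ ∧
    labels (List.replicate (2 * N) (i, false)) s (i + 1) =
      (s (i + 1) * s i) ^ N * s (i + 1) * ((s (i + 1) * s i) ^ N)⁻¹ ∧
    ∀ j, j ≠ i → j ≠ i + 1 → labels (List.replicate (2 * N) (i, false)) s j = s j := by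
  induction N with
  | zero => simp
  | succ N ih =>
    have e : List.replicate (2 * (N + 1)) (i, false) =
        List.replicate (2 * N) (i, false) ++ [(i, false), (i, false)] := by
      rw [show 2 * (N + 1) = 2 * N + 2 by ring, List.replicate_add]
      rfl
    rw [e, labels_append]
    obtain ⟨h1, h2, h3⟩ := ih
    set r := labels (List.replicate (2 * N) (i, false)) s with hr
    set g := s (i + 1) * s i with hg
    refine ⟨?_, ?_, ?_⟩
    · have : labels [(i, false), (i, false)] r i =
          (r (i + 1) * r i) * r i * (r (i + 1) * r i)⁻¹ := by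
        simp [step]
      rw [this, h1, h2]
      have e2 : g ^ N * s (i + 1) * (g ^ N)⁻¹ * (g ^ N * s i * (g ^ N)⁻¹) =
          g ^ N * g * (g ^ N)⁻¹ := by rw [hg]; group
      rw [e2, pow_succ']
      group
    · have : labels [(i, false), (i, false)] r (i + 1) =
          (r (i + 1) * r i) * r (i + 1) * (r (i + 1) * r i)⁻¹ := by
        simp [step]; group
      rw [this, h1, h2]
      have e2 : g ^ N * s (i + 1) * (g ^ N)⁻¹ * (g ^ N * s i * (g ^ N)⁻¹) =
          g ^ N * g * (g ^ N)⁻¹ := by rw [hg]; group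
      rw [e2, pow_succ']
      group
    · intro j j1 j2
      rw [← h3 j j1 j2]
      simp [step, j1, j2]

theorem travel_pos (i N : ℕ) (s : ℕ → G) :
    travel (List.replicate (2 * N) (i, true)) s i = (s i ^ N)⁻¹ * (s (i + 1) * s i) ^ N ∧
    travel (List.replicate (2 * N) (i, true)) s (i + 1) =
      (s (i + 1) ^ N)⁻¹ * (s (i + 1) * s i) ^ N ∧
    ∀ j, j ≠ i → j ≠ i + 1 → travel (List.replicate (2 * N) (i, true)) s j = 1 := by
  induction N with
  | zero => simp [travel]
  | succ N ih =>
    have e : List.replicate (2 * (N + 1)) (i, true) =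
        List.replicate (2 * N) (i, true) ++ [(i, true), (i, true)] := by
      rw [show 2 * (N + 1) = 2 * N + 2 by ring, List.replicate_add]
      rfl
    rw [e]
    obtain ⟨h1, h2, h3⟩ := ih
    obtain ⟨l1, l2, l3⟩ := labels_pos i N s
    set g := s (i + 1) * s i with hg
    refine ⟨?_, ?_, ?_⟩
    · rw [travel_append, endPos_replicate, h1]
      set r := labels (List.replicate (2 * N) (i, true)) s with hr
      have : travel [(i, true), (i, true)] r i = (r i)⁻¹ * (r (i + 1) * r i) := by
        simp [travel, under, step]; group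
      rw [this, l1, l2]
      have e2 : (g ^ N)⁻¹ * s (i + 1) * g ^ N * ((g ^ N)⁻¹ * s i * g ^ N) =
          (g ^ N)⁻¹ * g * g ^ N := by rw [hg]; group
      rw [e2, pow_succ (s i) N, pow_succ' g N]
      group
    · rw [travel_append, endPos_replicate, h2]
      set r := labels (List.replicate (2 * N) (i, true)) s with hr
      have : travel [(i, true), (i, true)] r (i + 1) = (r (i + 1))⁻¹ * (r (i + 1) * r i) := by
        simp [travel, under]
      rw [this, l1, l2]
      have e2 : (g ^ N)⁻¹ * s (i + 1) * g ^ N * ((g ^ N)⁻¹ * s i * g ^ N) =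
          (g ^ N)⁻¹ * g * g ^ N := by rw [hg]; group
      rw [e2, pow_succ (s (i + 1)) N, pow_succ' g N]
      group
    · intro j j1 j2
      rw [travel_append, endPos_replicate, h3 j j1 j2]
      have : Equiv.swap i (i + 1) j = j := Equiv.swap_apply_of_ne_of_ne j1 j2
      simp [travel, under, this, j2]

theorem travel_neg (i N : ℕ) (s : ℕ → G) :
    travel (List.replicate (2 * N) (i, false)) s i = s i ^ N * ((s (i + 1) * s i) ^ N)⁻¹ ∧
    travel (List.replicate (2 * N) (i, false)) s (i + 1) =
      s (i + 1) ^ N * ((s (i + 1) * s i) ^ N)⁻¹ ∧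
    ∀ j, j ≠ i → j ≠ i + 1 → travel (List.replicate (2 * N) (i, false)) s j = 1 := by
  induction N with
  | zero => simp [travel]
  | succ N ih =>
    have e : List.replicate (2 * (N + 1)) (i, false) =
        List.replicate (2 * N) (i, false) ++ [(i, false), (i, false)] := by
      rw [show 2 * (N + 1) = 2 * N + 2 by ring, List.replicate_add]
      rfl
    rw [e]
    obtain ⟨h1, h2, h3⟩ := ih
    obtain ⟨l1, l2, l3⟩ := labels_neg i N s
    set g := s (i + 1) * s i with hg
    refine ⟨?_, ?_, ?_⟩
    · rw [travel_append, endPos_replicate, h1]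
      set r := labels (List.replicate (2 * N) (i, false)) s with hr
      have : travel [(i, false), (i, false)] r i = r i * (r (i + 1) * r i)⁻¹ := by
        simp [travel, under]
      rw [this, l1, l2]
      have e2 : g ^ N * s (i + 1) * (g ^ N)⁻¹ * (g ^ N * s i * (g ^ N)⁻¹) =
          g ^ N * g * (g ^ N)⁻¹ := by rw [hg]; group
      rw [e2, pow_succ (s i) N, pow_succ' g N]
      group
    · rw [travel_append, endPos_replicate, h2]
      set r := labels (List.replicate (2 * N) (i, false)) s with hr
      have : travel [(i, false), (i, false)] r (i + 1) = r (i + 1) * (r (i + 1) * r i)⁻¹ := by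
        simp [travel, under, step]
      rw [this, l1, l2]
      have e2 : g ^ N * s (i + 1) * (g ^ N)⁻¹ * (g ^ N * s i * (g ^ N)⁻¹) =
          g ^ N * g * (g ^ N)⁻¹ := by rw [hg]; group
      rw [e2, pow_succ (s (i + 1)) N, pow_succ' g N]
      group
    · intro j j1 j2
      rw [travel_append, endPos_replicate, h3 j j1 j2]
      have : Equiv.swap i (i + 1) j = j := Equiv.swap_apply_of_ne_of_ne j1 j2
      simp [travel, under, this, j1]

/-! ## The words of the family -/

/-- The label `u`. -/
def fu (a : ℕ) (s : ℕ → G) : G := s (a + 2) * s (a + 1) * (s (a + 2))⁻¹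

/-- The product `g₁ = u x`. -/
def fg (a : ℕ) (s : ℕ → G) : G := fu a s * s a

/-- The label `p = g₁^{-N} u g₁^N`. -/
def fp (a N : ℕ) (s : ℕ → G) : G := (fg a s ^ N)⁻¹ * fu a s * fg a s ^ N

/-- The label `y`. -/
def fy (a N : ℕ) (s : ℕ → G) : G :=
  (fp a N s)⁻¹ * (fu a s * s (a + 2) * (fu a s)⁻¹) * fp a N s

/-- The label `x''`. -/
def fx (a N : ℕ) (s : ℕ → G) : G := (fg a s ^ N)⁻¹ * s a * fg a s ^ N

/-- The product `g₂ = y x''`. -/
def fh (a N : ℕ) (s : ℕ → G) : G := fy a N s * fx a N s

theorem labels_two (a : ℕ) (s : ℕ → G) :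
    labels [(a + 1, false), (a + 1, false)] s (a + 1) = fu a s ∧
    labels [(a + 1, false), (a + 1, false)] s (a + 2) = fu a s * s (a + 2) * (fu a s)⁻¹ ∧
    labels [(a + 1, false), (a + 1, false)] s a = s a := by
  have n1 : ¬ (a = a + 1 + 1) := by omega
  refine ⟨by simp [step, fu], by simp [step, fu], by simp [step, n1]⟩

theorem labels_mid (a N : ℕ) (s : ℕ → G) :
    labels ([(a + 1, false), (a + 1, false)] ++ List.replicate (2 * N) (a, true)) s a =
      fx a N s ∧
    labels ([(a + 1, false), (a + 1, false)] ++ List.replicate (2 * N) (a, true)) s (a + 1) =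
      fp a N s ∧
    labels ([(a + 1, false), (a + 1, false)] ++ List.replicate (2 * N) (a, true)) s (a + 2) =
      fu a s * s (a + 2) * (fu a s)⁻¹ := by
  rw [labels_append]
  obtain ⟨h1, h2, h3⟩ := labels_two a s
  obtain ⟨l1, l2, l3⟩ := labels_pos a N (labels [(a + 1, false), (a + 1, false)] s)
  refine ⟨?_, ?_, ?_⟩
  · rw [l1, h1, h3]; rfl
  · rw [l2, h1, h3]; rfl
  · rw [l3 _ (by omega) (by omega), h2]

theorem labels_mid2 (a N : ℕ) (s : ℕ → G) :
    labels ([(a + 1, false), (a + 1, false)] ++ List.replicate (2 * N) (a, true) ++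
      [(a + 1, true)]) s a = fx a N s ∧
    labels ([(a + 1, false), (a + 1, false)] ++ List.replicate (2 * N) (a, true) ++
      [(a + 1, true)]) s (a + 1) = fy a N s ∧
    labels ([(a + 1, false), (a + 1, false)] ++ List.replicate (2 * N) (a, true) ++
      [(a + 1, true)]) s (a + 2) = fp a N s := by
  rw [labels_append]
  obtain ⟨h1, h2, h3⟩ := labels_mid a N s
  generalize labels ([(a + 1, false), (a + 1, false)] ++ List.replicate (2 * N) (a, true)) s = r
    at h1 h2 h3 ⊢
  have n1 : ¬ (a = a + 1 + 1) := by omega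
  have n2 : a + 2 = a + 1 + 1 := rfl
  refine ⟨?_, ?_, ?_⟩
  · rw [labels_cons, labels_nil, step]
    simp [n1, h1]
  · rw [labels_cons, labels_nil, step]
    simp only [if_true]
    rw [h2, ← n2, h3]
    rfl
  · rw [labels_cons, labels_nil, step]
    simp [h2]

theorem labels_fam (a N : ℕ) (s : ℕ → G) : labels (famWord a N) s (a + 2) = fp a N s := by
  unfold famWord
  rw [labels_append]
  obtain ⟨h1, h2, h3⟩ := labels_mid2 a N s
  obtain ⟨l1, l2, l3⟩ := labels_neg a N (labels ([(a + 1, false), (a + 1, false)] ++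
    List.replicate (2 * N) (a, true) ++ [(a + 1, true)]) s)
  rw [l3 _ (by omega) (by omega), h3]

theorem travel_two (a : ℕ) (s : ℕ → G) :
    travel [(a + 1, false), (a + 1, false)] s a = 1 ∧
    travel [(a + 1, false), (a + 1, false)] s (a + 1) = (s (a + 2))⁻¹ ∧
    travel [(a + 1, false), (a + 1, false)] s (a + 2) = (fu a s)⁻¹ := by
  have n1 : ¬ (a = a + 1 + 1) := by omega
  have e : Equiv.swap (a + 1) (a + 1 + 1) a = a :=
    Equiv.swap_apply_of_ne_of_ne (by omega) (by omega)
  have e3 : Equiv.swap (a + 1) (a + 1 + 1) (a + 2) = a + 1 := Equiv.swap_apply_right _ _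
  refine ⟨by simp [travel, under, e], by simp [travel, under], ?_⟩
  simp only [travel, e3]
  simp [under, step, fu]

theorem endPos_two (a p : ℕ) : endPos [(a + 1, false), (a + 1, false)] p = p := by
  simp [endPos]

theorem travel_fam_low (a N : ℕ) (s : ℕ → G) (j : ℕ) (hj : j < a) :
    travel (famWord a N) s j = 1 := by
  unfold famWord
  have e0 : Equiv.swap (a + 1) (a + 1 + 1) j = j :=
    Equiv.swap_apply_of_ne_of_ne (by omega) (by omega)
  simp only [travel_append, endPos_append, endPos_two, endPos_replicate]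
  have e1 : endPos [(a + 1, true)] j = j := by simp [endPos, e0]
  rw [e1, (travel_pos a N _).2.2 j (by omega) (by omega),
    (travel_neg a N _).2.2 j (by omega) (by omega)]
  have t1 : travel [(a + 1, false), (a + 1, false)] s j = 1 := by
    have n1 : ¬ (j = a + 1) := by omega
    have n2 : ¬ (j = a + 1 + 1) := by omega
    simp [travel, under, e0, n1]
  have t2 : ∀ r : ℕ → G, travel [(a + 1, true)] r j = 1 := by
    intro r
    have n2 : ¬ (j = a + 1 + 1) := by omega
    simp [travel, under, n2]
  rw [t1, t2]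
  simp

theorem travel_fam_a (a N : ℕ) (s : ℕ → G) :
    travel (famWord a N) s a = (s a ^ N)⁻¹ * fg a s ^ N * fx a N s ^ N * (fh a N s ^ N)⁻¹ := by
  unfold famWord
  have e0 : Equiv.swap (a + 1) (a + 1 + 1) a = a :=
    Equiv.swap_apply_of_ne_of_ne (by omega) (by omega)
  simp only [travel_append, endPos_append, endPos_two, endPos_replicate]
  have e1 : endPos [(a + 1, true)] a = a := by simp [endPos, e0]
  obtain ⟨h1, h2, h3⟩ := labels_two a s
  obtain ⟨m1, m2, m3⟩ := labels_mid2 a N s
  rw [e1, (travel_pos a N _).1, (travel_neg a N _).1, (travel_two a s).1, h1, h3, m1, m2]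
  have t2 : ∀ r : ℕ → G, travel [(a + 1, true)] r a = 1 := by
    intro r
    have n2 : ¬ (a = a + 1 + 1) := by omega
    simp [travel, under, n2]
  rw [t2]
  simp only [fh, fg, one_mul, mul_one]
  group

theorem travel_fam_a1 (a N : ℕ) (s : ℕ → G) :
    travel (famWord a N) s (a + 1) = (s (a + 2))⁻¹ * (fu a s ^ N)⁻¹ * fg a s ^ N := by
  unfold famWord
  have e0 : Equiv.swap (a + 1) (a + 1 + 1) (a + 1) = a + 2 := Equiv.swap_apply_left _ _
  simp only [travel_append, endPos_append, endPos_two, endPos_replicate]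
  have e1 : endPos [(a + 1, true)] (a + 1) = a + 2 := by simp [endPos]
  obtain ⟨h1, h2, h3⟩ := labels_two a s
  rw [e1, (travel_pos a N _).2.1, (travel_neg a N _).2.2 _ (by omega) (by omega),
    (travel_two a s).2.1, h1, h3]
  have t2 : ∀ r : ℕ → G, travel [(a + 1, true)] r (a + 1) = 1 := by
    intro r
    simp [travel, under]
  rw [t2]
  simp only [fg, mul_one]
  group

theorem travel_fam_a2 (a N : ℕ) (s : ℕ → G) :
    travel (famWord a N) s (a + 2) =
      (fu a s)⁻¹ * fp a N s * fy a N s ^ N * (fh a N s ^ N)⁻¹ := by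
  unfold famWord
  simp only [travel_append, endPos_append, endPos_two, endPos_replicate]
  have e1 : endPos [(a + 1, true)] (a + 2) = a + 1 := by
    have : Equiv.swap (a + 1) (a + 1 + 1) (a + 2) = a + 1 := Equiv.swap_apply_right _ _
    simp [endPos, this]
  obtain ⟨l1, l2, l3⟩ := labels_mid a N s
  obtain ⟨m1, m2, m3⟩ := labels_mid2 a N s
  rw [e1, (travel_pos a N _).2.2 _ (by omega) (by omega), (travel_neg a N _).2.1,
    (travel_two a s).2.2, m1, m2]
  have t2 : ∀ r : ℕ → G, travel [(a + 1, true)] r (a + 2) = r (a + 1) := by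
    intro r
    simp [travel, under]
  rw [t2, l2]
  simp only [fh, mul_one]
  group

theorem along_fam_low (a N : ℕ) (s : ℕ → G) (j : ℕ) (hj : j < a) :
    along (a + 2) (famWord a N) s 2 j = 1 := by
  have e0 : Equiv.swap (a + 1) (a + 2) j = j :=
    Equiv.swap_apply_of_ne_of_ne (by omega) (by omega)
  rw [along, travel_fam_low a N s j hj, endPos_fam, e0, if_pos (by omega), mul_one]

theorem along_fam_a (a N : ℕ) (s : ℕ → G) :
    along (a + 2) (famWord a N) s 2 a = fg a s ^ N * (fh a N s ^ N)⁻¹ := by
  have e0 : Equiv.swap (a + 1) (a + 2) a = a :=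
    Equiv.swap_apply_of_ne_of_ne (by omega) (by omega)
  rw [along, travel_fam_a a N s, endPos_fam, e0, if_pos (by omega), mul_one]
  have : fx a N s ^ N = (fg a s ^ N)⁻¹ * s a ^ N * fg a s ^ N := by
    unfold fx
    have := conj_pow (a := (fg a s ^ N)⁻¹) (b := s a) (i := N)
    rw [inv_inv] at this
    exact this
  rw [this]
  group

theorem along_fam_a1 (a N : ℕ) (s : ℕ → G) :
    along (a + 2) (famWord a N) s 2 (a + 1) =
      (s (a + 2))⁻¹ * (fu a s ^ N)⁻¹ * fg a s ^ N * (fu a s)⁻¹ * fp a N s * fy a N s ^ N *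
        (fh a N s ^ N)⁻¹ := by
  have e1 : Equiv.swap (a + 1) (a + 2) (a + 1) = a + 2 := Equiv.swap_apply_left _ _
  have e2 : Equiv.swap (a + 1) (a + 2) (a + 2) = a + 1 := Equiv.swap_apply_right _ _
  rw [along, travel_fam_a1 a N s, endPos_fam, e1, if_neg (by omega), along,
    travel_fam_a2 a N s, endPos_fam, e2, if_pos (by omega), mul_one]
  group

end

end Pool.Agent.Helper62.StrLink
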