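import Pool.Agent.Helper62.StrBurau

/-!
# The degree 2 invariant of string links coming from the torsion
-/

namespace Pool.Agent.Helper62.StrLink

open PowerSeries

noncomputable section

/-- The variable `s = 1 + X`, the square root of the Burau variable. -/
def sv : PowerSeries ℚ := 1 + X

/-- The inverse of `s`. -/
def si : PowerSeries ℚ := (1 + X)⁻¹

theorem sv_si : sv * si = 1 := by
  unfold sv si
  apply PowerSeries.mul_inv_cancel
  simp

/-- The letter of the Burau representation. -/
def lett (x : ℕ × Bool) : Ltr (PowerSeries ℚ) :=
  if x.2 then ⟨x.1, si, 1 - sv ^ 2, sv ^ 2, 1, 0⟩ else ⟨x.1, sv, 0, 1, si ^ 2, 1 - si ^ 2⟩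

@[simp] theorem lett_i (x : ℕ × Bool) : (lett x).i = x.1 := by
  unfold lett
  split_ifs <;> rfl

theorem lett_true (i : ℕ) : lett (i, true) = ⟨i, si, 1 - sv ^ 2, sv ^ 2, 1, 0⟩ := rfl

theorem lett_false (i : ℕ) : lett (i, false) = ⟨i, sv, 0, 1, si ^ 2, 1 - si ^ 2⟩ := rfl

/-- The torsion of a diagram. -/
def tor {k : ℕ} (L : StringLink k) : PowerSeries ℚ := tau k L.m sv (L.word.map lett)

/-- The invariant. -/
def vinv {k : ℕ} (L : StringLink k) : ℚ := coeff 2 (tor L)

theorem tau_word_rel (k m : ℕ) (a b l r : Word)
    (h : ∀ v : ℕ → PowerSeries ℚ, ract (l.map lett) v = ract (r.map lett) v)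
    (h' : ((l.map lett).map (fun x => x.p)).prod = ((r.map lett).map (fun x => x.p)).prod) :
    tau k m sv ((a ++ l ++ b).map lett) = tau k m sv ((a ++ r ++ b).map lett) := by
  simp only [List.map_append]
  exact tau_rel k m sv _ _ _ _ h h'

theorem tor_move {k : ℕ} (K L : StringLink k) (h : Move k K.m K.word L.m L.word) :
    tor K = tor L := by
  unfold tor
  have hK := K.valid
  have hL := L.valid
  revert hK hL
  generalize K.m = m at *
  generalize K.word = w at *
  generalize L.m = m' at *
  generalize L.word = w' at *
  intro hK hL
  have hs := sv_si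
  cases h with
  | cancel a b i e =>
    have := tau_word_rel k m a b [(i, e), (i, !e)] [] ?_ ?_
    · simpa using this
    · intro v
      cases e
      · funext j
        simp only [List.map_cons, List.map_nil, ract_cons, ract_nil, lett_true, lett_false,
          Bool.not_false]
        by_cases h1 : j = i
        · subst h1
          simp [rstep]
          linear_combination (-v (j + 1) * (sv * si + 1)) * hs
        · by_cases h2 : j = i + 1
          · subst h2
            simp [rstep]
            linear_combination (v (i + 1) * (sv * si + 1)) * hs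
          · simp [rstep, h1, h2]
      · funext j
        simp only [List.map_cons, List.map_nil, ract_cons, ract_nil, lett_true, lett_false,
          Bool.not_true]
        by_cases h1 : j = i
        · subst h1
          simp [rstep]
          linear_combination (v j * (sv * si + 1)) * hs
        · by_cases h2 : j = i + 1
          · subst h2
            simp [rstep]
            linear_combination (-v i * (sv * si + 1)) * hs
          · simp [rstep, h1, h2]
    · cases e
      · simp [lett_true, lett_false, hs]
      · simp [lett_true, lett_false, mul_comm si, hs]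
  | far a b i j e e' h =>
    refine tau_word_rel k m a b _ _ ?_ ?_
    · intro v
      funext l
      simp only [List.map_cons, List.map_nil, ract_cons, ract_nil]
      have n1 : ¬ (j = i) := by omega
      have n2 : ¬ (j = i + 1) := by omega
      have n3 : ¬ (j + 1 = i) := by omega
      have n4 : ¬ (j + 1 = i + 1) := by omega
      have n5 : ¬ (i = j) := by omega
      have n6 : ¬ (i = j + 1) := by omega
      have n7 : ¬ (i + 1 = j) := by omega
      have n8 : ¬ (i + 1 = j + 1) := by omega
      by_cases h1 : l = i
      · subst h1
        simp [rstep, n5, n6, n7]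
      · by_cases h2 : l = i + 1
        · subst h2
          simp [rstep, n5, n6, n7]
        · by_cases h3 : l = j
          · subst h3
            simp [rstep, n1, n2, n3]
          · by_cases h4 : l = j + 1
            · subst h4
              simp [rstep, n1, n2, n3]
            · simp [rstep, h1, h2, h3, h4]
    · simp [mul_comm]
  | braid a b i e =>
    refine tau_word_rel k m a b _ _ ?_ ?_
    · intro v
      funext l
      simp only [List.map_cons, List.map_nil, ract_cons, ract_nil]
      have m1 : ¬ (i + 1 + 1 = i) := by omega
      have m2 : ¬ (i = i + 1 + 1) := by omega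
      by_cases h1 : l = i
      · subst h1
        cases e
        · simp [rstep, lett_false, m1, m2]
          try ring
        · simp [rstep, lett_true, m1, m2]
          try ring
      · by_cases h2 : l = i + 1
        · subst h2
          cases e
          · simp [rstep, lett_false, m1, m2]
            try ring
          · simp [rstep, lett_true, m1, m2]
            try ring
        · by_cases h3 : l = i + 1 + 1
          · subst h3
            cases e
            · simp [rstep, lett_false, m1, m2]
              try ring
            · simp [rstep, lett_true, m1, m2]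
              try ring
          · simp [rstep, h1, h2, h3]
    · cases e <;> simp [lett_true, lett_false]
  | conj a c hc =>
    simp only [List.map_append]
    apply tau_conj
    · intro x hx
      obtain ⟨y, hy, rfl⟩ := List.mem_map.1 hx
      rw [lett_i]
      exact hK y (List.mem_append_left _ hy)
    · intro x hx
      obtain ⟨y, hy, rfl⟩ := List.mem_map.1 hx
      rw [lett_i]
      exact hK y (List.mem_append_right _ hy)
    · intro x hx
      obtain ⟨y, hy, rfl⟩ := List.mem_map.1 hx
      rw [lett_i]
      exact hc y hy
  | stab a b i e h =>
    simp only [List.map_append, List.map_cons, List.map_nil]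
    symm
    have ha : ∀ y ∈ a.map lett, y.i + 1 < k + m := by
      intro x hx
      obtain ⟨y, hy, rfl⟩ := List.mem_map.1 hx
      rw [lett_i]
      exact hK y (List.mem_append_left _ hy)
    have hb : ∀ y ∈ b.map lett, y.i + 1 < k + m := by
      intro x hx
      obtain ⟨y, hy, rfl⟩ := List.mem_map.1 hx
      rw [lett_i]
      exact hK y (List.mem_append_right _ hy)
    cases e
    · apply tau_stab k m sv _ _ _ (by simpa using h) ha hb (sv ^ 2)
      · simp only [lett_false]
        linear_combination (sv * si + 1) * hs
      · simp only [lett_false]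
        linear_combination (sv * si + 1) * hs
      · simp only [lett_false]
        linear_combination (sv * si + 1) * hs
    · apply tau_stab k m sv _ _ _ (by simpa using h) ha hb 1
      · simp only [lett_true]; ring
      · simp only [lett_true]; ring
      · simp only [lett_true]
        linear_combination hs

/-! ## Finite type -/

/-- The ring of polynomials used for the generic letters. -/
abbrev PR := MvPolynomial ℕ (PowerSeries ℚ)

/-- Evaluation: `Y_j ↦ X` if `j ∈ S` and `Y_j ↦ 0` otherwise. -/
def phi (S : Finset ℕ) : PR →+* PowerSeries ℚ :=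
  MvPolynomial.eval₂Hom (RingHom.id _) (fun j => if j ∈ S then X else 0)

@[simp] theorem phi_C (S : Finset ℕ) (r : PowerSeries ℚ) : phi S (MvPolynomial.C r) = r := by
  simp [phi]

@[simp] theorem phi_X (S : Finset ℕ) (j : ℕ) :
    phi S (MvPolynomial.X j) = if j ∈ S then X else 0 := by
  simp [phi]

/-- Substitute `r` for `Y_j`. -/
def subst (j : ℕ) (r : PowerSeries ℚ) : PR →+* PR :=
  MvPolynomial.eval₂Hom MvPolynomial.C
    (fun i => if i = j then MvPolynomial.C r else MvPolynomial.X i)

theorem phi_subst_zero (S : Finset ℕ) (j : ℕ) (hj : j ∉ S) (P : PR) :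
    phi S (subst j 0 P) = phi S P := by
  have : (phi S).comp (subst j 0) = phi S := by
    apply MvPolynomial.ringHom_ext
    · intro r; simp [subst]
    · intro i
      by_cases h : i = j
      · subst h; simp [subst, hj]
      · simp [subst, h]
  exact congrArg (fun f : PR →+* PowerSeries ℚ => f P) this

theorem phi_subst_X (S : Finset ℕ) (j : ℕ) (P : PR) :
    phi S (subst j X P) = phi (insert j S) P := by
  have : (phi S).comp (subst j X) = phi (insert j S) := by
    apply MvPolynomial.ringHom_ext
    · intro r; simp [subst]
    · intro i
      by_cases h : i = j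
      · subst h; simp [subst]
      · simp [subst, h]
  exact congrArg (fun f : PR →+* PowerSeries ℚ => f P) this

theorem subst_sub (j : ℕ) (P : PR) :
    MvPolynomial.C (X : PowerSeries ℚ) ∣ subst j X P - subst j 0 P := by
  induction P using MvPolynomial.induction_on with
  | C r => simp [subst]
  | add p q hp hq =>
    rw [map_add, map_add]
    have : subst j X p + subst j X q - (subst j 0 p + subst j 0 q) =
        (subst j X p - subst j 0 p) + (subst j X q - subst j 0 q) := by ring
    rw [this]
    exact dvd_add hp hq
  | mul_X p i hp =>
    rw [map_mul, map_mul]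
    have : subst j X p * subst j X (MvPolynomial.X i) -
        subst j 0 p * subst j 0 (MvPolynomial.X i) =
        (subst j X p - subst j 0 p) * subst j X (MvPolynomial.X i) +
        subst j 0 p * (subst j X (MvPolynomial.X i) - subst j 0 (MvPolynomial.X i)) := by ring
    rw [this]
    apply dvd_add (hp.mul_right _)
    apply Dvd.dvd.mul_left
    by_cases h : i = j
    · subst h; simp [subst]
    · simp [subst, h]

theorem altsum_dvd (T : Finset ℕ) (P : PR) :
    (X : PowerSeries ℚ) ^ T.card ∣ ∑ S ∈ T.powerset, (-1) ^ S.card * phi S P := by
  induction T using Finset.induction_on generalizing P with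
  | empty => simp
  | insert j T hj ih =>
    rw [Finset.sum_powerset_insert hj, Finset.card_insert_of_notMem hj]
    obtain ⟨Q, hQ⟩ := subst_sub j P
    have key : ∑ S ∈ T.powerset, (-1 : PowerSeries ℚ) ^ S.card * phi S P +
        ∑ S ∈ T.powerset, (-1 : PowerSeries ℚ) ^ (insert j S).card * phi (insert j S) P =
        - X * ∑ S ∈ T.powerset, (-1 : PowerSeries ℚ) ^ S.card * phi S Q := by
      rw [← Finset.sum_add_distrib, Finset.mul_sum]
      refine Finset.sum_congr rfl fun S hS => ?_
      have hjS : j ∉ S := fun h => hj (Finset.mem_powerset.1 hS h)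
      rw [Finset.card_insert_of_notMem hjS, ← phi_subst_X, ← phi_subst_zero S j hjS P]
      have := congrArg (phi S) hQ
      rw [map_sub, map_mul, phi_C] at this
      rw [pow_succ]
      linear_combination (-(-1) ^ S.card) * this
    rw [key, pow_succ]
    obtain ⟨c, hc⟩ := ih Q
    rw [hc]
    exact ⟨-c, by ring⟩

/-- The generic letter: `Y_j = 0` gives the positive crossing and `Y_j = X` the negative
crossing. -/
def gen (j i : ℕ) : Ltr PR :=
  ⟨i, MvPolynomial.C si + MvPolynomial.X j * MvPolynomial.C (1 + si),
    MvPolynomial.C (1 - sv ^ 2) + MvPolynomial.X j * MvPolynomial.C (2 + X),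
    MvPolynomial.C (sv ^ 2) + MvPolynomial.X j * MvPolynomial.C (-(2 + X)),
    MvPolynomial.C 1 + MvPolynomial.X j * MvPolynomial.C (-(si * (1 + si))),
    MvPolynomial.C 0 + MvPolynomial.X j * MvPolynomial.C (si * (1 + si))⟩

theorem gen_phi (S : Finset ℕ) (j i : ℕ) :
    (gen j i).map (phi S) = lett (i, decide (j ∉ S)) := by
  have hs := sv_si
  by_cases h : j ∈ S
  · have hd : decide (j ∉ S) = false := by simp [h]
    rw [hd, lett_false]
    unfold gen Ltr.map
    simp only [map_add, map_mul, phi_C, phi_X, if_pos h]
    have e1 : X * (1 + si) = sv - si := by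
      have : X = sv - 1 := by unfold sv; ring
      rw [this]
      linear_combination hs
    have e2 : X * (2 + X) = sv ^ 2 - 1 := by
      unfold sv; ring
    congr 1
    · rw [e1]; ring
    · rw [e2]; ring
    · rw [show X * -(2 + X) = -(X * (2 + X) : PowerSeries ℚ) by ring, e2]; ring
    · rw [show X * -(si * (1 + si)) = -(si * (X * (1 + si))) by ring, e1]
      linear_combination -hs
    · rw [show X * (si * (1 + si)) = (si * (X * (1 + si))) by ring, e1]
      linear_combination hs
  · have hd : decide (j ∉ S) = true := by simp [h]
    rw [hd, lett_true]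
    unfold gen Ltr.map
    simp only [map_add, map_mul, phi_C, phi_X, if_neg h, zero_mul, add_zero]

/-- The generic word. -/
def genWord (T : Finset ℕ) (w : Word) : List (Ltr PR) :=
  w.mapIdx (fun j x => if j ∈ T then gen j x.1 else (lett x).map MvPolynomial.C)

theorem genWord_phi (T S : Finset ℕ) (w : Word) :
    (genWord T w).map (Ltr.map (phi S)) = (setSigns T S w).map lett := by
  apply List.ext_getElem
  · simp [genWord, setSigns]
  · intro i h1 h2
    simp only [genWord, setSigns, List.getElem_map, List.getElem_mapIdx]
    split_ifs with h
    · exact gen_phi S i _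
    · have : ∀ x : Ltr (PowerSeries ℚ), (x.map MvPolynomial.C).map (phi S) = x := by
        intro x
        simp [Ltr.map]
      exact this _

theorem tor_resolve {k : ℕ} (L : StringLink k) (T S : Finset ℕ) :
    tor (L.resolve T S) = phi S (tau k L.m (MvPolynomial.C sv) (genWord T L.word)) := by
  rw [tau_map, genWord_phi, phi_C]
  rfl

theorem vinv_mem (k n : ℕ) (hn : 2 ≤ n) : (vinv : StringLink k → ℚ) ∈ V k n := by
  refine ⟨fun K L h => ?_, fun L T _ hT => ?_⟩
  · unfold vinv
    rw [tor_move K L h]
  · obtain ⟨c, hc⟩ := altsum_dvd T (tau k L.m (MvPolynomial.C sv) (genWord T L.word))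
    have h1 : ∀ S : Finset ℕ, (-1 : ℚ) ^ S.card * vinv (L.resolve T S) =
        coeff 2 ((-1) ^ S.card *
          phi S (tau k L.m (MvPolynomial.C sv) (genWord T L.word))) := by
      intro S
      rw [← tor_resolve]
      unfold vinv
      rcases neg_one_pow_eq_or ℚ S.card with h | h
      · have h' : (-1 : PowerSeries ℚ) ^ S.card = 1 := by
          have := congrArg (PowerSeries.C (R := ℚ)) h
          simpa using this
        rw [h, h', one_mul, one_mul]
      · have h' : (-1 : PowerSeries ℚ) ^ S.card = -1 := by
          have := congrArg (PowerSeries.C (R := ℚ)) h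
          simpa using this
        rw [h, h']
        simp
    rw [Finset.sum_congr rfl fun S _ => h1 S, ← map_sum, hc, hT]
    exact (PowerSeries.X_pow_dvd_iff.1 ⟨c, rfl⟩) 2 (by omega)

end

end Pool.Agent.Helper62.StrLink
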