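import Pool.Agent.Helper62.StrFree

/-!
# Milnor invariants of the family are divisible by squares
-/

namespace Pool.Agent.Helper62.StrLink

section ring

variable {R : Type} [Ring R]

/-- The units which are congruent to `1` modulo `K`. -/
def nearOne (R : Type) [Ring R] (K : ℕ) : Subgroup Rˣ where
  carrier := {g | ∃ C : R, (g : R) = 1 + K * C}
  one_mem' := ⟨0, by simp⟩
  mul_mem' := by
    rintro a b ⟨C, hC⟩ ⟨D, hD⟩
    refine ⟨C + D + C * (K * D), ?_⟩
    rw [Units.val_mul, hC, hD]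
    have : (K : R) * C * ((K : R) * D) = K * (C * (K * D)) := by rw [mul_assoc]
    rw [add_mul, one_mul, mul_add, mul_one, this, mul_add, mul_add]
    abel
  inv_mem' := by
    rintro a ⟨C, hC⟩
    refine ⟨-(C * ((a⁻¹ : Rˣ) : R)), ?_⟩
    have h1 : (a : R) * ((a⁻¹ : Rˣ) : R) = 1 := by simp
    rw [hC, add_mul, one_mul] at h1
    rw [mul_neg, ← mul_assoc]
    exact eq_add_neg_of_add_eq h1

instance (K : ℕ) : (nearOne R K).Normal where
  conj_mem := by
    rintro n ⟨C, hC⟩ g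
    refine ⟨(g : R) * C * ((g⁻¹ : Rˣ) : R), ?_⟩
    rw [Units.val_mul, Units.val_mul, hC, mul_add, mul_one, add_mul]
    have : (g : R) * ((K : R) * C) * ((g⁻¹ : Rˣ) : R) =
        (K : R) * ((g : R) * C * ((g⁻¹ : Rˣ) : R)) := by
      have hc : (g : R) * (K : R) = K * g := (Nat.cast_commute K (g : R)).symm.eq
      rw [← mul_assoc, hc]
      simp only [mul_assoc]
    rw [this]
    simp

theorem nearOne_comm (K : ℕ) (hK : (K : R) * K = 0) {a b : Rˣ} (ha : a ∈ nearOne R K)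
    (hb : b ∈ nearOne R K) : a * b = b * a := by
  obtain ⟨C, hC⟩ := ha
  obtain ⟨D, hD⟩ := hb
  apply Units.ext
  rw [Units.val_mul, Units.val_mul, hC, hD]
  have e : ∀ C D : R, (K : R) * C * (K * D) = 0 := by
    intro C D
    have hc : C * (K : R) = K * C := (Nat.cast_commute K C).symm.eq
    calc (K : R) * C * (K * D) = K * (C * K) * D := by simp only [mul_assoc]
      _ = (K * K) * (C * D) := by rw [hc]; simp only [mul_assoc]
      _ = 0 := by rw [hK, zero_mul]
  rw [add_mul, mul_add, mul_add, add_mul, mul_add, mul_add, e, e]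
  simp only [one_mul, mul_one, add_zero]
  abel

/-- Divisibility of binomial coefficients. -/
theorem dvd_choose (n K N i : ℕ) (hi : 1 ≤ i) (hin : i ≤ n) (hN : Nat.factorial n * K ∣ N) :
    K ∣ N.choose i := by
  obtain ⟨r, rfl⟩ := hN
  obtain ⟨j, rfl⟩ : ∃ j, i = j + 1 := ⟨i - 1, by omega⟩
  rcases Nat.eq_zero_or_pos (Nat.factorial n * K * r) with h0 | h0
  · rw [h0]; simp
  obtain ⟨M, hM⟩ : ∃ M, Nat.factorial n * K * r = M + 1 := ⟨_, (Nat.succ_pred_eq_of_pos h0).symm⟩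
  have h1 := Nat.add_one_mul_choose_eq M j
  rw [← hM] at h1
  obtain ⟨e, he⟩ : (j + 1) ∣ Nat.factorial n := Nat.dvd_factorial (by omega) hin
  have h2 : (Nat.factorial n * K * r).choose (j + 1) * (j + 1) =
      (K * (e * r * M.choose j)) * (j + 1) := by
    rw [← h1, he]
    ring
  have h3 := Nat.eq_of_mul_eq_mul_right (by omega : 0 < j + 1) h2
  rw [h3]
  exact dvd_mul_right _ _

theorem pow_expand (g : R) (n N : ℕ) (hg : (g - 1) ^ (n + 1) = 0) :
    g ^ N = 1 + ∑ i ∈ Finset.Ico 1 (N + 1),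
      (if i ≤ n then (g - 1) ^ i * ((N.choose i : ℕ) : R) else 0) := by
  have h1 : g = (g - 1) + 1 := by abel
  conv_lhs => rw [h1]
  rw [(Commute.one_right (g - 1)).add_pow, Finset.range_eq_Ico,
    Finset.sum_eq_sum_Ico_succ_bot (by omega)]
  congr 1
  · simp
  · refine Finset.sum_congr rfl fun i _ => ?_
    rw [one_pow, mul_one]
    split_ifs with h
    · rfl
    · have : (g - 1) ^ i = 0 := by
        obtain ⟨j, rfl⟩ : ∃ j, i = n + 1 + j := ⟨i - (n + 1), by omega⟩
        rw [pow_add, hg, zero_mul]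
      rw [this, zero_mul]

theorem pow_near (K n N : ℕ) (hN : Nat.factorial n * K ∣ N) (g : Rˣ)
    (hg : ((g : R) - 1) ^ (n + 1) = 0) : g ^ N ∈ nearOne R K := by
  have hdvd : ∀ i ∈ Finset.Ico 1 (N + 1), ∃ C : R,
      (if i ≤ n then ((g : R) - 1) ^ i * ((N.choose i : ℕ) : R) else 0) = K * C := by
    intro i hi
    split_ifs with h
    · obtain ⟨c, hc⟩ := dvd_choose n K N i (Finset.mem_Ico.1 hi).1 h hN
      refine ⟨((g : R) - 1) ^ i * c, ?_⟩
      rw [hc]
      push_cast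
      rw [← mul_assoc, ← mul_assoc, (Nat.cast_commute K (((g : R) - 1) ^ i)).eq]
    · exact ⟨0, by simp⟩
  choose! C hC using hdvd
  refine ⟨∑ i ∈ Finset.Ico 1 (N + 1), C i, ?_⟩
  rw [Units.val_pow_eq_pow_val, pow_expand (g : R) n N hg, Finset.mul_sum]
  congr 1
  exact Finset.sum_congr rfl fun i hi => hC i hi

theorem pow_congr (K : ℕ) (g g' C : R) (hC : g = g' + K * C) (i : ℕ) :
    ∃ D : R, g ^ i = g' ^ i + K * D := by
  induction i with
  | zero => exact ⟨0, by simp⟩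
  | succ i ih =>
    obtain ⟨D, hD⟩ := ih
    refine ⟨g' ^ i * C + D * g' + D * (K * C), ?_⟩
    rw [pow_succ, hD, hC, pow_succ]
    have hc : g' ^ i * (K : R) = K * g' ^ i := (Nat.cast_commute K (g' ^ i)).symm.eq
    have : g' ^ i * ((K : R) * C) = K * (g' ^ i * C) := by rw [← mul_assoc, hc, mul_assoc]
    rw [add_mul, mul_add, mul_add, this, mul_add, mul_add]
    simp only [mul_assoc]
    abel

theorem pow_eq (K n N : ℕ) (hK : (K : R) * K = 0) (hN : Nat.factorial n * K ∣ N) (g h : Rˣ)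
    (hg : ((g : R) - 1) ^ (n + 1) = 0) (hh : ((h : R) - 1) ^ (n + 1) = 0)
    (hgh : g⁻¹ * h ∈ nearOne R K) : g ^ N = h ^ N := by
  obtain ⟨C, hC⟩ := hgh
  have h1 : (h : R) - 1 = ((g : R) - 1) + K * ((g : R) * C) := by
    have : (h : R) = (g : R) * ((g⁻¹ * h : Rˣ) : R) := by
      rw [← Units.val_mul]; simp
    rw [this, hC, mul_add, mul_one]
    have hc : (g : R) * (K : R) = K * g := (Nat.cast_commute K (g : R)).symm.eq
    rw [← mul_assoc, hc, mul_assoc]
    abel
  apply Units.ext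
  rw [Units.val_pow_eq_pow_val, Units.val_pow_eq_pow_val, pow_expand (g : R) n N hg,
    pow_expand (h : R) n N hh]
  congr 1
  refine Finset.sum_congr rfl fun i hi => ?_
  split_ifs with hin
  · obtain ⟨D, hD⟩ := pow_congr K _ _ _ h1 i
    obtain ⟨c, hc⟩ := dvd_choose n K N i (Finset.mem_Ico.1 hi).1 hin hN
    rw [hD, add_mul, hc]
    push_cast
    have : (K : R) * D * (K * c) = 0 := by
      have hc' : D * (K : R) = K * D := (Nat.cast_commute K D).symm.eq
      calc (K : R) * D * (K * c) = K * (D * K) * c := by simp only [mul_assoc]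
        _ = (K * K) * (D * c) := by rw [hc']; simp only [mul_assoc]
        _ = 0 := by rw [hK, zero_mul]
    rw [this, add_zero]
  · rfl

section fam

variable (K n N a : ℕ) (s : ℕ → Rˣ)

theorem fam_near (hN : Nat.factorial n * K ∣ N)
    (hg : ((fg a s : Rˣ) - 1 : R) ^ (n + 1) = 0) (hz : fp a N s = s (a + 2)) :
    (fg a s)⁻¹ * fh a N s ∈ nearOne R K ∧ (fu a s)⁻¹ * fy a N s ∈ nearOne R K ∧
      (fu a s)⁻¹ * s (a + 2) ∈ nearOne R K := by
  have hA : fg a s ^ N ∈ nearOne R K := pow_near K n N hN _ hg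
  have qA : ((fg a s ^ N : Rˣ) : Rˣ ⧸ nearOne R K) = 1 := (QuotientGroup.eq_one_iff _).2 hA
  have q1 : ((fp a N s : Rˣ) : Rˣ ⧸ nearOne R K) = (fu a s : Rˣ) := by
    unfold fp
    rw [QuotientGroup.mk_mul, QuotientGroup.mk_mul, QuotientGroup.mk_inv, qA]
    simp
  have q2 : ((s (a + 2) : Rˣ) : Rˣ ⧸ nearOne R K) = (fu a s : Rˣ) := by rw [← hz, q1]
  have q3 : ((fy a N s : Rˣ) : Rˣ ⧸ nearOne R K) = (fu a s : Rˣ) := by
    unfold fy
    rw [QuotientGroup.mk_mul, QuotientGroup.mk_mul, QuotientGroup.mk_inv, QuotientGroup.mk_mul,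
      QuotientGroup.mk_mul, QuotientGroup.mk_inv, q1, q2]
    group
  have q4 : ((fx a N s : Rˣ) : Rˣ ⧸ nearOne R K) = (s a : Rˣ) := by
    unfold fx
    rw [QuotientGroup.mk_mul, QuotientGroup.mk_mul, QuotientGroup.mk_inv, qA]
    simp
  have q5 : ((fh a N s : Rˣ) : Rˣ ⧸ nearOne R K) = (fg a s : Rˣ) := by
    unfold fh fg
    rw [QuotientGroup.mk_mul, QuotientGroup.mk_mul, q3, q4]
  exact ⟨QuotientGroup.eq.1 q5.symm, QuotientGroup.eq.1 q3.symm, QuotientGroup.eq.1 q2.symm⟩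

theorem fam_long_a (hK : (K : R) * K = 0) (hN : Nat.factorial n * K ∣ N)
    (hg : ((fg a s : Rˣ) - 1 : R) ^ (n + 1) = 0) (hh : ((fh a N s : Rˣ) - 1 : R) ^ (n + 1) = 0)
    (hz : fp a N s = s (a + 2)) : fg a s ^ N * (fh a N s ^ N)⁻¹ = 1 := by
  rw [pow_eq K n N hK hN _ _ hg hh (fam_near K n N a s hN hg hz).1]
  group

theorem fam_long_a1 (hK : (K : R) * K = 0) (hN : Nat.factorial n * K ∣ N)
    (hg : ((fg a s : Rˣ) - 1 : R) ^ (n + 1) = 0) (hh : ((fh a N s : Rˣ) - 1 : R) ^ (n + 1) = 0)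
    (hu : ((fu a s : Rˣ) - 1 : R) ^ (n + 1) = 0) (hy : ((fy a N s : Rˣ) - 1 : R) ^ (n + 1) = 0)
    (hz : fp a N s = s (a + 2)) :
    (s (a + 2))⁻¹ * (fu a s ^ N)⁻¹ * fg a s ^ N * (fu a s)⁻¹ * fp a N s * fy a N s ^ N *
        (fh a N s ^ N)⁻¹ * s (a + 1) = 1 := by
  obtain ⟨n1, n2, n3⟩ := fam_near K n N a s hN hg hz
  have e1 := pow_eq K n N hK hN _ _ hg hh n1
  have e2 := pow_eq K n N hK hN _ _ hu hy n2
  have hA : fg a s ^ N ∈ nearOne R K := pow_near K n N hN _ hg
  have hB : fu a s ^ N ∈ nearOne R K := pow_near K n N hN _ hu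
  rw [← e1, ← e2, hz]
  set A := fg a s ^ N
  set B := fu a s ^ N
  set E := (fu a s)⁻¹ * s (a + 2) with hE
  have c1 : (B⁻¹ * A) * E = E * (B⁻¹ * A) :=
    nearOne_comm K hK ((nearOne R K).mul_mem ((nearOne R K).inv_mem hB) hA) n3
  have c2 : A * B = B * A := nearOne_comm K hK hA hB
  have : (s (a + 2))⁻¹ * B⁻¹ * A * (fu a s)⁻¹ * s (a + 2) * B * A⁻¹ * s (a + 1) =
      (s (a + 2))⁻¹ * ((B⁻¹ * A) * E) * (B * A⁻¹) * s (a + 1) := by
    rw [hE]; group
  rw [this, c1]
  have h3 : (s (a + 2))⁻¹ * (E * (B⁻¹ * A)) * (B * A⁻¹) * s (a + 1) =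
      (s (a + 2))⁻¹ * E * B⁻¹ * (A * B) * A⁻¹ * s (a + 1) := by group
  rw [h3, c2, hE]
  unfold fu
  group

end fam

end ring

/-! ## Framings and longitudes -/

section

variable {G H : Type} [Group G] [Group H]

theorem fu_map (f : G →* H) (a : ℕ) (s : ℕ → G) : f (fu a s) = fu a (fun j => f (s j)) := by
  simp [fu]

theorem fg_map (f : G →* H) (a : ℕ) (s : ℕ → G) : f (fg a s) = fg a (fun j => f (s j)) := by
  simp [fg, fu_map]

theorem fp_map (f : G →* H) (a N : ℕ) (s : ℕ → G) :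
    f (fp a N s) = fp a N (fun j => f (s j)) := by
  simp [fp, fu_map, fg_map]

theorem fy_map (f : G →* H) (a N : ℕ) (s : ℕ → G) :
    f (fy a N s) = fy a N (fun j => f (s j)) := by
  simp [fy, fu_map, fp_map]

theorem fx_map (f : G →* H) (a N : ℕ) (s : ℕ → G) :
    f (fx a N s) = fx a N (fun j => f (s j)) := by
  simp [fx, fg_map]

theorem fh_map (f : G →* H) (a N : ℕ) (s : ℕ → G) :
    f (fh a N s) = fh a N (fun j => f (s j)) := by
  simp [fh, fy_map, fx_map]

end

open Classical in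
theorem framing_low (a N j : ℕ) (hj : j < a) : framing (fam a N) j = 0 := by
  unfold framing
  change Multiplicative.toAdd (along (a + 2) (famWord a N) _ 2 j) = 0
  rw [along_fam_low a N _ j hj]
  rfl

theorem endPos_fam_eq (a N : ℕ) : endPos (fam a N).word = Equiv.swap (a + 1) (a + 2) :=
  funext (endPos_fam a N)

open Classical in
theorem framing_a (a N : ℕ) : framing (fam a N) a = 0 := by
  unfold framing
  change Multiplicative.toAdd (along (a + 2) (famWord a N) _ 2 a) = 0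
  rw [along_fam_a, endPos_fam_eq]
  have h1 : ¬ ∃ t : ℕ, (Equiv.swap (a + 1) (a + 2))^[t] a = a + 1 := by
    rintro ⟨t, ht⟩
    rw [iter_fam_low a a t (by omega)] at ht
    omega
  have h2 : ¬ ∃ t : ℕ, (Equiv.swap (a + 1) (a + 2))^[t] a = a + 2 := by
    rintro ⟨t, ht⟩
    rw [iter_fam_low a a t (by omega)] at ht
    omega
  have h0 : ∃ t : ℕ, (Equiv.swap (a + 1) (a + 2))^[t] a = a := ⟨0, rfl⟩
  simp only [fg, fh, fu, fy, fx, fp, if_pos h0, if_neg h1, if_neg h2]
  simp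

open Classical in
theorem framing_a1 (a N : ℕ) : framing (fam a N) (a + 1) = -1 := by
  unfold framing
  change Multiplicative.toAdd (along (a + 2) (famWord a N) _ 2 (a + 1)) = -1
  rw [along_fam_a1, endPos_fam_eq]
  have h1 : ∃ t : ℕ, (Equiv.swap (a + 1) (a + 2))^[t] (a + 1) = a + 1 := ⟨0, rfl⟩
  have h2 : ∃ t : ℕ, (Equiv.swap (a + 1) (a + 2))^[t] (a + 1) = a + 2 := ⟨1, by simp⟩
  have h3 : ¬ ∃ t : ℕ, (Equiv.swap (a + 1) (a + 2))^[t] (a + 1) = a := by
    rintro ⟨t, ht⟩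
    rcases iter_fam_high a (a + 1) t (Or.inl rfl) with h | h <;> omega
  simp only [fg, fh, fu, fy, fx, fp, if_pos h1, if_pos h2, if_neg h3]
  simp

theorem longitude_low (a N j : ℕ) (hj : j < a) : longitude (fam a N) j = 1 := by
  unfold longitude rawLongitude
  rw [framing_low a N j hj]
  change along (a + 2) (famWord a N) _ 2 j * _ = 1
  rw [along_fam_low a N _ j hj]
  simp

theorem longitude_a (a N : ℕ) : longitude (fam a N) a =
    fg a (meridian (fam a N)) ^ N * (fh a N (meridian (fam a N)) ^ N)⁻¹ := by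
  unfold longitude rawLongitude
  rw [framing_a]
  change along (a + 2) (famWord a N) _ 2 a * _ = _
  rw [along_fam_a]
  simp

theorem longitude_a1 (a N : ℕ) : longitude (fam a N) (a + 1) =
    (meridian (fam a N) (a + 2))⁻¹ * (fu a (meridian (fam a N)) ^ N)⁻¹ *
      fg a (meridian (fam a N)) ^ N * (fu a (meridian (fam a N)))⁻¹ *
      fp a N (meridian (fam a N)) * fy a N (meridian (fam a N)) ^ N *
        (fh a N (meridian (fam a N)) ^ N)⁻¹ * meridian (fam a N) (a + 1) := by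
  unfold longitude rawLongitude
  rw [framing_a1]
  change along (a + 2) (famWord a N) _ 2 (a + 1) * _ = _
  rw [along_fam_a1]
  simp

/-! ## Unitriangular matrices -/

theorem strict_pow {A : Type} [CommRing A] {n : ℕ} (M : Matrix (Fin n) (Fin n) A)
    (hM : ∀ i j : Fin n, j ≤ i → M i j = 0) (k : ℕ) (i j : Fin n) (h : (j : ℕ) < i + k) :
    (M ^ k) i j = 0 := by
  induction k generalizing j with
  | zero =>
    rw [pow_zero, Matrix.one_apply, if_neg]
    intro hij
    rw [hij] at h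
    omega
  | succ k ih =>
    rw [pow_succ, Matrix.mul_apply]
    refine Finset.sum_eq_zero fun l _ => ?_
    by_cases hl : (l : ℕ) < i + k
    · rw [ih l hl, zero_mul]
    · rw [hM l j, mul_zero]
      rw [Fin.le_def]
      omega

theorem strict_nilp {A : Type} [CommRing A] {n : ℕ} (M : Matrix (Fin n) (Fin n) A)
    (hM : ∀ i j : Fin n, j ≤ i → M i j = 0) : M ^ n = 0 := by
  ext i j
  exact strict_pow M hM n i j (by have := j.2; omega)

/-- Milnor's invariants of the string links of the family are divisible by squares. -/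
theorem milnor_fam (a K N : ℕ) {s : ℕ} (I : Fin (s + 1) → Fin (a + 2)) (j : Fin (a + 2))
    (hN : Nat.factorial (s + 1) * K ∣ N) :
    ∃ z : ℤ, milnor I j (fam a N) = (K : ℚ) ^ 2 * z := by
  classical
  unfold milnor
  split_ifs with hex
  · have hρ := hex.choose_spec
    generalize hex.choose = ρ at hρ ⊢
    obtain ⟨h1, h2⟩ := hρ
    -- reduction modulo K²
    let red : (Matrix (Fin (s + 2)) (Fin (s + 2)) ℤ)ˣ →*
        (Matrix (Fin (s + 2)) (Fin (s + 2)) (ZMod (K ^ 2)))ˣ :=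
      Units.map ((Int.castRingHom (ZMod (K ^ 2))).mapMatrix : _ →+* _).toMonoidHom
    let ρ' := red.comp ρ
    have hunip : ∀ g, (((ρ' g : _ˣ) : Matrix (Fin (s + 2)) (Fin (s + 2)) (ZMod (K ^ 2))) - 1) ^
        (s + 1 + 1) = 0 := by
      intro g
      apply strict_nilp
      intro i j hij
      have := h1 g i j hij
      change ((((ρ g : _ˣ) : Matrix (Fin (s + 2)) (Fin (s + 2)) ℤ) i j : ℤ) : ZMod (K ^ 2)) -
        (1 : Matrix _ _ _) i j = 0
      rw [this, Matrix.one_apply]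
      split_ifs <;> simp
    have hK : ((K : ℕ) : Matrix (Fin (s + 2)) (Fin (s + 2)) (ZMod (K ^ 2))) * (K : ℕ) = 0 := by
      rw [← Nat.cast_mul, ← pow_two]
      ext i j
      rw [Matrix.natCast_apply]
      simp
    set t : ℕ → (Matrix (Fin (s + 2)) (Fin (s + 2)) (ZMod (K ^ 2)))ˣ :=
      fun j => ρ' (meridian (fam a N) j) with ht
    have hg : ((fg a t : _ˣ) - 1 : Matrix (Fin (s + 2)) (Fin (s + 2)) (ZMod (K ^ 2))) ^
        (s + 1 + 1) = 0 := by
      rw [ht, ← fg_map]; exact hunip _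
    have hu : ((fu a t : _ˣ) - 1 : Matrix (Fin (s + 2)) (Fin (s + 2)) (ZMod (K ^ 2))) ^
        (s + 1 + 1) = 0 := by
      rw [ht, ← fu_map]; exact hunip _
    have hh : ((fh a N t : _ˣ) - 1 : Matrix (Fin (s + 2)) (Fin (s + 2)) (ZMod (K ^ 2))) ^
        (s + 1 + 1) = 0 := by
      rw [ht, ← fh_map]; exact hunip _
    have hy : ((fy a N t : _ˣ) - 1 : Matrix (Fin (s + 2)) (Fin (s + 2)) (ZMod (K ^ 2))) ^
        (s + 1 + 1) = 0 := by
      rw [ht, ← fy_map]; exact hunip _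
    have hz : fp a N t = t (a + 2) := by
      rw [ht, ← fp_map, rel_fam]
    have key : ρ' (longitude (fam a N) j) = 1 := by
      by_cases hj1 : (j : ℕ) < a
      · rw [longitude_low a N j hj1, map_one]
      · by_cases hj2 : (j : ℕ) = a
        · rw [hj2, longitude_a, map_mul, map_inv, map_pow, map_pow, fg_map, fh_map]
          exact fam_long_a K (s + 1) N a t hK hN hg hh hz
        · have hj3 : (j : ℕ) = a + 1 := by omega
          rw [hj3, longitude_a1]
          simp only [map_mul, map_inv, map_pow, fg_map, fh_map, fu_map, fp_map, fy_map]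
          exact fam_long_a1 K (s + 1) N a t hK hN hg hh hu hy hz
    have key2 : ((((ρ (longitude (fam a N) j) : _ˣ) :
        Matrix (Fin (s + 2)) (Fin (s + 2)) ℤ) 0 (Fin.last (s + 1)) : ℤ) : ZMod (K ^ 2)) = 0 := by
      have h3 := congrArg (fun g : (Matrix (Fin (s + 2)) (Fin (s + 2)) (ZMod (K ^ 2)))ˣ =>
        (g : Matrix (Fin (s + 2)) (Fin (s + 2)) (ZMod (K ^ 2))) 0 (Fin.last (s + 1))) key
      change ((((ρ (longitude (fam a N) j) : _ˣ) :
        Matrix (Fin (s + 2)) (Fin (s + 2)) ℤ) 0 (Fin.last (s + 1)) : ℤ) : ZMod (K ^ 2)) =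
        (1 : Matrix (Fin (s + 2)) (Fin (s + 2)) (ZMod (K ^ 2))) 0 (Fin.last (s + 1)) at h3
      rw [h3, Matrix.one_apply, if_neg]
      intro h
      have := congrArg Fin.val h
      simp at this
    rw [ZMod.intCast_zmod_eq_zero_iff_dvd] at key2
    obtain ⟨z, hz⟩ := key2
    refine ⟨z, ?_⟩
    rw [hz]
    push_cast
    ring
  · exact ⟨0, by simp⟩

end Pool.Agent.Helper62.StrLink
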